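import Pool.Agent.Work.MP_bec1e1_pr_h13.LPCore

/-!
# Basic properties of `lp` (block LP)
-/

open Finset BigOperators
open scoped Classical

namespace Pool.Agent.LCS13

variable {m m' : ℕ → ℕ → Prop} {i j r c : ℕ}

theorem lp_zero_row : lp m i j 0 c = 0 :=
  LPK.lp_zero_row m i j c

theorem lp_zero_col : lp m i j r 0 = 0 :=
  LPK.lp_zero_col m i j r

theorem lp_succ (m : ℕ → ℕ → Prop) (i j r c : ℕ) : lp m i j (r + 1) (c + 1) =
    if m (i + r) (j + c) then lp m i j r c + 1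
    else max (lp m i j r (c + 1)) (lp m i j (r + 1) c) :=
  LPK.lp_succ m i j r c

theorem lp_mono {r' c' : ℕ} (hr : r ≤ r') (hc : c ≤ c') : lp m i j r c ≤ lp m i j r' c' :=
  LPK.lp_mono m hr hc i j

theorem lp_succ_row_le : lp m i j (r + 1) c ≤ lp m i j r c + 1 :=
  LPK.lp_succ_row_le m i j r c

theorem lp_succ_col_le : lp m i j r (c + 1) ≤ lp m i j r c + 1 :=
  LPK.lp_succ_col_le m i j r c

theorem lp_le_row : lp m i j r c ≤ r :=
  LPK.lp_le_rows m i j r c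

theorem lp_le_col : lp m i j r c ≤ c :=
  LPK.lp_le_cols m i j r c

theorem lp_congr (h : ∀ i' j', i ≤ i' → i' < i + r → j ≤ j' → j' < j + c → (m i' j' ↔ m' i' j')) :
    lp m i j r c = lp m' i j r c :=
  LPK.lp_congr fun x y hx hy => h _ _ (by omega) (by omega) (by omega) (by omega)

theorem lp_mono_m (h : ∀ i' j', i ≤ i' → i' < i + r → j ≤ j' → j' < j + c → m i' j' → m' i' j') :
    lp m i j r c ≤ lp m' i j r c :=
  LPK.lp_mono_rel fun x y hx hy => h _ _ (by omega) (by omega) (by omega) (by omega)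

/-- Superadditivity. -/
theorem lp_superadd (m : ℕ → ℕ → Prop) (i j r₁ r₂ c₁ c₂ : ℕ) :
    lp m i j r₁ c₁ + lp m (i + r₁) (j + c₁) r₂ c₂ ≤ lp m i j (r₁ + r₂) (c₁ + c₂) :=
  LPK.lp_superadd m i j r₁ c₁ r₂ c₂

/-- Splitting after `r₁` rows. -/
theorem lp_row_split (m : ℕ → ℕ → Prop) (i j r₁ r₂ c : ℕ) : ∃ c₁ ≤ c,
    lp m i j (r₁ + r₂) c = lp m i j r₁ c₁ + lp m (i + r₁) (j + c₁) r₂ (c - c₁) :=
  LPK.lp_split_row m i j r₁ r₂ c

/-- Splitting after `c₁` columns. -/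
theorem lp_col_split (m : ℕ → ℕ → Prop) (i j r c₁ c₂ : ℕ) : ∃ r₁ ≤ r,
    lp m i j r (c₁ + c₂) = lp m i j r₁ c₁ + lp m (i + r₁) (j + c₁) (r - r₁) c₂ :=
  LPK.lp_split_col m i j c₁ r c₂

/-- Using the match `(i + r₁, j + c₁)`. -/
theorem lp_through (r₁ r₂ c₁ c₂ : ℕ) (hm : m (i + r₁) (j + c₁)) :
    lp m i j r₁ c₁ + 1 + lp m (i + r₁ + 1) (j + c₁ + 1) r₂ c₂ ≤
      lp m i j (r₁ + 1 + r₂) (c₁ + 1 + c₂) :=
  by
  have h1 := LPK.lp_superadd m i j r₁ c₁ (1 + r₂) (1 + c₂)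
  have h2 := LPK.lp_match_left m (i + r₁) (j + c₁) r₂ c₂ hm
  have e1 : r₁ + 1 + r₂ = r₁ + (1 + r₂) := by ring
  have e2 : c₁ + 1 + c₂ = c₁ + (1 + c₂) := by ring
  rw [e1, e2]
  omega

/-- Either the column `j + c₁` is not used or it is used at some row. -/
theorem lp_col_cases (m : ℕ → ℕ → Prop) (i j r c₁ c₂ : ℕ) :
    lp m i j r (c₁ + 1 + c₂) = lp (fun x y => m x y ∧ y ≠ j + c₁) i j r (c₁ + 1 + c₂) ∨
    ∃ r₁ < r, m (i + r₁) (j + c₁) ∧ lp m i j r (c₁ + 1 + c₂) =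
      lp m i j r₁ c₁ + 1 + lp m (i + r₁ + 1) (j + c₁ + 1) (r - r₁ - 1) c₂ :=
  by
  set m0 : ℕ → ℕ → Prop := fun x y => m x y ∧ y ≠ j + c₁ with hm0
  have hle : ∀ i j r c, lp m0 i j r c ≤ lp m i j r c := fun i j r c =>
    lp_mono_m fun x y _ _ _ _ h => h.1
  obtain ⟨ra, hra, h1⟩ := lp_col_split m i j r (c₁ + 1) c₂
  rcases LPK.lp_col_cases m i j ra c₁ with h2 | ⟨x, hx, hmx, h2⟩
  · left
    refine le_antisymm ?_ (hle _ _ _ _)
    rw [h1, h2]
    have e1 : lp m i j ra c₁ = lp m0 i j ra c₁ := lp_congr fun x y _ _ _ hy =>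
      ⟨fun h => ⟨h, by omega⟩, fun h => h.1⟩
    have e2 : lp m (i + ra) (j + (c₁ + 1)) (r - ra) c₂ =
        lp m0 (i + ra) (j + (c₁ + 1)) (r - ra) c₂ := lp_congr fun x y _ _ hy _ =>
      ⟨fun h => ⟨h, by omega⟩, fun h => h.1⟩
    rw [e1, e2]
    exact LPK.lp_two m0 (i := i) (j := j) (r := r) (c := c₁ + 1 + c₂) (r1 := ra) (c1 := c₁)
      (i2 := i + ra) (j2 := j + (c₁ + 1)) (r2 := r - ra) (c2 := c₂) (by omega) (by omega)
      (by omega) (by omega)
  · right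
    refine ⟨x, by omega, hmx, le_antisymm ?_ ?_⟩
    · rw [h1, h2]
      exact Nat.add_le_add_left (LPK.lp_sub m (by omega) (by omega) (by omega) (by omega)) _
    · have h3 := lp_through (m := m) (i := i) (j := j) x (r - x - 1) c₁ c₂ hmx
      rwa [show x + 1 + (r - x - 1) = r by omega] at h3

theorem lp_transpose (m : ℕ → ℕ → Prop) (i j r c : ℕ) :
    lp m i j r c = lp (fun x y => m y x) j i c r :=
  LPK.lp_transpose.symm

theorem lp_shift (m : ℕ → ℕ → Prop) (i j r c p q : ℕ) :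
    lp (fun x y => m (x + p) (y + q)) i j r c = lp m (i + p) (j + q) r c :=
  LPK.lp_congr fun x y _ _ => by
    show m (i + x + p) (j + y + q) ↔ m (i + p + x) (j + q + y)
    rw [show i + x + p = i + p + x by ring, show j + y + q = j + q + y by ring]

/-- Changing one column changes `lp` by at most one. -/
theorem lp_col_change (j₀ : ℕ) (h : ∀ x y, y ≠ j₀ → (m x y ↔ m' x y)) :
    lp m i j r c ≤ lp m' i j r c + 1 :=
  by
  by_cases hj : j ≤ j₀ ∧ j₀ < j + c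
  · obtain ⟨c₁, rfl⟩ := Nat.exists_eq_add_of_le hj.1
    obtain ⟨c₂, hc₂⟩ := Nat.exists_eq_add_of_le (show c₁ + 1 ≤ c by omega)
    subst hc₂
    rcases lp_col_cases m i j r c₁ c₂ with h1 | ⟨x, hx, hmx, h1⟩
    · rw [h1]
      refine le_trans (lp_mono_m (m' := m') ?_) (Nat.le_succ _)
      intro x y _ _ _ _ hxy
      exact (h x y hxy.2).1 hxy.1
    · rw [h1]
      have e1 : lp m i j x c₁ = lp m' i j x c₁ := lp_congr fun a b _ _ _ hb =>
        h a b (by omega)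
      have e2 : lp m (i + x + 1) (j + c₁ + 1) (r - x - 1) c₂ =
          lp m' (i + x + 1) (j + c₁ + 1) (r - x - 1) c₂ := lp_congr fun a b _ _ hb _ =>
        h a b (by omega)
      rw [e1, e2]
      have h3 := LPK.lp_two m' (i := i) (j := j) (r := r) (c := c₁ + 1 + c₂) (r1 := x) (c1 := c₁)
        (i2 := i + x + 1) (j2 := j + c₁ + 1) (r2 := r - x - 1) (c2 := c₂) (by omega) (by omega)
        (by omega) (by omega)
      omega
  · refine le_trans (le_of_eq (lp_congr fun x y _ _ h1 h2 => h x y ?_)) (Nat.le_succ _)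
    rintro rfl
    exact hj ⟨h1, h2⟩

/-- Changing one row changes `lp` by at most one. -/
theorem lp_row_change (i₀ : ℕ) (h : ∀ x y, x ≠ i₀ → (m x y ↔ m' x y)) :
    lp m i j r c ≤ lp m' i j r c + 1 :=
  by
  rw [lp_transpose m, lp_transpose m']
  exact lp_col_change (m := fun x y => m y x) (m' := fun x y => m' y x) i₀
    fun x y hy => h y x hy

/-- Description by chains. -/
theorem le_lp_iff {n : ℕ} : n ≤ lp m i j r c ↔ ∃ f g : Fin n → ℕ, StrictMono f ∧ StrictMono g ∧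
    (∀ x, i ≤ f x ∧ f x < i + r) ∧ (∀ x, j ≤ g x ∧ g x < j + c) ∧ ∀ x, m (f x) (g x) :=
  by
  rw [LPK.le_lp_iff]
  constructor
  · rintro ⟨f, g, h1, h2⟩
    refine ⟨fun x => i + f x, fun x => j + g x, ?_, ?_, ?_, ?_, ?_⟩
    · intro x y hxy
      exact Nat.add_lt_add_left (h2 x y hxy y.2).1 _
    · intro x y hxy
      exact Nat.add_lt_add_left (h2 x y hxy y.2).2 _
    · intro x
      have := (h1 x x.2).1
      exact ⟨Nat.le_add_right _ _, Nat.add_lt_add_left this _⟩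
    · intro x
      have := (h1 x x.2).2.1
      exact ⟨Nat.le_add_right _ _, Nat.add_lt_add_left this _⟩
    · intro x
      exact (h1 x x.2).2.2
  · rintro ⟨f, g, hf, hg, h1, h2, h3⟩
    refine ⟨fun x => if hx : x < n then f ⟨x, hx⟩ - i else 0,
      fun x => if hx : x < n then g ⟨x, hx⟩ - j else 0, ?_, ?_⟩
    · intro x hx
      simp only [hx, dif_pos]
      have a1 := h1 ⟨x, hx⟩
      have a2 := h2 ⟨x, hx⟩
      refine ⟨by omega, by omega, ?_⟩
      rw [Nat.add_sub_of_le a1.1, Nat.add_sub_of_le a2.1]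
      exact h3 _
    · intro x y hxy hy
      have hx : x < n := by omega
      simp only [hx, hy, dif_pos]
      have a1 := h1 ⟨x, hx⟩
      have a2 := h2 ⟨x, hx⟩
      have b1 : f ⟨x, hx⟩ < f ⟨y, hy⟩ := hf (show (⟨x, hx⟩ : Fin n) < ⟨y, hy⟩ from hxy)
      have b2 : g ⟨x, hx⟩ < g ⟨y, hy⟩ := hg (show (⟨x, hx⟩ : Fin n) < ⟨y, hy⟩ from hxy)
      omega

/-- Monge inequality. -/
theorem lp_monge (m : ℕ → ℕ → Prop) (i j r c d e : ℕ) :
    lp m i j r (c + d + e) + lp m i (j + c) r d ≤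
      lp m i j r (c + d) + lp m i (j + c) r (d + e) :=
  LPK.lp_monge m i r j c d e

theorem uu_zero (a b : ℕ → Option ℕ) (t : ℕ) : uu a b t 0 = 0 :=
  by simp [uu]

theorem uu_zero_row (a b : ℕ → Option ℕ) (g : ℕ) : uu a b 0 g = 0 :=
  by simp [uu]

theorem uu_prof (a b : ℕ → Option ℕ) (t : ℕ) : IsProf (uu a b t) :=
  fun g => by
  have h1 := LPK.lp_le_succ_col (mt a b) 0 0 t g
  have h2 := LPK.lp_succ_col_le (mt a b) 0 0 t g
  unfold uu
  omega

theorem uu_mono_t (a b : ℕ → Option ℕ) (t g : ℕ) : uu a b t g ≤ uu a b (t + 1) g :=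
  by
  have h1 := LPK.lp_le_succ_row (mt a b) 0 0 t g
  unfold uu
  omega

theorem uu_succ_ge {a b : ℕ → Option ℕ} {t g j : ℕ} (hj : j < g) (hm : mt a b t j) :
    uu a b t j + 1 ≤ uu a b (t + 1) g :=
  by
  have h1 := LPK.lp_row_ge (mt a b) 0 0 t g j hj (by simpa using hm)
  unfold uu
  omega

theorem uu_succ_cases (a b : ℕ → Option ℕ) (t g : ℕ) : uu a b (t + 1) g = uu a b t g ∨
    ∃ j < g, mt a b t j ∧ uu a b (t + 1) g = uu a b t j + 1 :=
  by
  rcases LPK.lp_row_cases (mt a b) 0 0 t g with h | ⟨y, hy, hm, h⟩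
  · left
    unfold uu
    rw [h]
  · right
    refine ⟨y, hy, by simpa using hm, ?_⟩
    unfold uu
    rw [h]
    push_cast
    ring

/-- Only the first `t` rows and the first `g` columns matter. -/
theorem uu_congr {a a' b b' : ℕ → Option ℕ} {t g : ℕ} (ha : ∀ x < t, a x = a' x)
    (hb : ∀ y < g, b y = b' y) : uu a b t g = uu a' b' t g :=
  by
  unfold uu
  congr 1
  refine lp_congr fun x y _ hx _ hy => ?_
  unfold mt
  rw [ha x (by omega), hb y (by omega)]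

end Pool.Agent.LCS13
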