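import Pool.Agent.Work.MP_bec1e1_pr_h13.Interface
import Pool.Agent.Work.MP_bec1e1_pr_h13.LP

/-!
# Marginals of the segment words (block MARG)
-/

open Finset BigOperators
open scoped Classical

namespace Pool.Agent.LCS13

/-- Marginal of a uniform family. -/
theorem expect_comp_inj {α β S : Type*} [Fintype α] [Fintype β] [DecidableEq α] [DecidableEq β]
    [Fintype S] [Nonempty S]
    (e : α → β) (he : Function.Injective e) (F : (α → S) → ℝ) :
    𝔼 ω : β → S, F (fun i => ω (e i)) = 𝔼 ω' : α → S, F ω' := by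
  have h1 : 𝔼 ω : β → S, F (fun i => ω (e i)) =
      𝔼 p : ((i : {x // x ∈ Set.range e}) → S) × ((i : {x // ¬ x ∈ Set.range e}) → S),
        F (fun i => p.1 ⟨e i, i, rfl⟩) := by
    refine Fintype.expect_equiv
      (Equiv.piEquivPiSubtypeProd (fun x => x ∈ Set.range e) (fun _ => S)) _ _ (fun ω => ?_)
    rfl
  rw [h1, ← Finset.univ_product_univ, Finset.expect_product]
  simp only [Fintype.expect_const]
  refine Fintype.expect_equiv ((Equiv.ofInjective e he).arrowCongr (Equiv.refl S)).symm _ _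
    (fun ω => ?_)
  rfl

theorem seg_nonempty {s K : ℕ} (h : s ≤ K) : Nonempty (Seg s K) :=
  ⟨⟨Fin.castLE h, Fin.castLE_injective h⟩⟩

theorem sw_castLE {s K r R : ℕ} (h : r ≤ R) (ω : Fin R → Seg s K) {p : ℕ} (hp : p < r * s) :
    sw ω p = sw (fun i => ω (Fin.castLE h i)) p := by
  have hs : 0 < s := by
    rcases Nat.eq_zero_or_pos s with h0 | h0
    · subst h0; simp at hp
    · exact h0
  have h1 : p / s < r := (Nat.div_lt_iff_lt_mul hs).2 hp
  have h2 : p % s < s := Nat.mod_lt _ hs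
  unfold sw
  rw [dif_pos ⟨lt_of_lt_of_le h1 h, h2⟩, dif_pos ⟨h1, h2⟩]
  rfl

/-- MARG. -/
theorem stmt_Marg : Stmt_Marg := by
  intro k T r R hk hr
  unfold fseg
  refine Finset.expect_congr rfl fun a _ => ?_
  have : Nonempty (Seg (k / 2 / 2) (k / 2)) := seg_nonempty (Nat.div_le_self _ _)
  rw [← expect_comp_inj (Fin.castLE hr) (Fin.castLE_injective hr)
    (fun ω' : Fin r → Seg (k / 2 / 2) (k / 2) =>
      (lp (mt (wn a) (sw ω')) 0 0 T (r * (k / 2 / 2)) : ℝ))]
  refine Finset.expect_congr rfl fun ω _ => ?_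
  congr 1
  refine lp_congr fun i' j' _ _ _ hj => ?_
  rw [zero_add] at hj
  unfold mt
  rw [sw_castLE hr ω hj]

end Pool.Agent.LCS13
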