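import Pool.Agent.Work.MP_bec1e1_pr_h13.PHIUB
import Pool.Agent.Work.MP_bec1e1_pr_h13.MARG

/-!
# The final theorem (block FINAL)
-/

open Finset BigOperators Filter
open scoped Classical

namespace Pool.Agent.LCS13

noncomputable section

namespace FinalB

theorem integral_unif {Ω : Type*} [Fintype Ω] [Nonempty Ω] [MeasurableSpace Ω]
    [MeasurableSingletonClass Ω] (f : Ω → ℝ) :
    ∫ x, f x ∂(PMF.uniformOfFintype Ω).toMeasure = 𝔼 x, f x := by
  rw [PMF.integral_eq_sum, Fintype.expect_eq_sum_div_card, Finset.sum_div]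
  refine Finset.sum_congr rfl fun x _ => ?_
  simp [PMF.uniformOfFintype_apply]
  ring

theorem variance_eq (hL : Stmt_LcsDef) (k n : ℕ) :
    ProbabilityTheory.variance
        (fun p : (Fin n → Fin (k + 2)) × (Fin n → Fin (k + 2)) =>
          (((sSup {m : ℕ | ∃ l : List (Fin (k + 2)), l.length = m ∧
              l.Sublist (List.ofFn p.1) ∧ l.Sublist (List.ofFn p.2)}) : ℕ) : ℝ))
        (PMF.uniformOfFintype
          ((Fin n → Fin (k + 2)) × (Fin n → Fin (k + 2)))).toMeasure = varL (k + 2) n := by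
  have h1 : (fun p : (Fin n → Fin (k + 2)) × (Fin n → Fin (k + 2)) =>
          (((sSup {m : ℕ | ∃ l : List (Fin (k + 2)), l.length = m ∧
              l.Sublist (List.ofFn p.1) ∧ l.Sublist (List.ofFn p.2)}) : ℕ) : ℝ)) =
      fun p => (lcs p.1 p.2 : ℝ) := by
    funext p
    rw [← hL (k + 2) n n p.1 p.2]
  rw [h1, ProbabilityTheory.variance_eq_integral (measurable_of_countable _).aemeasurable,
    integral_unif, integral_unif]
  have h2 : 𝔼 p : (Fin n → Fin (k + 2)) × (Fin n → Fin (k + 2)), (lcs p.1 p.2 : ℝ) =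
      phi (k + 2) n n := by
    unfold phi
    rw [← Finset.univ_product_univ, Finset.expect_product]
  rw [h2]
  unfold varL
  rw [← Finset.univ_product_univ, Finset.expect_product]

/-- The word of a sequence of segments as a finite word. -/
def VV (K : ℕ) (ω : Fin (K ^ 3) → Seg (K / 2 / 2) (K / 2)) : Fin (K / 2 / 2 * K ^ 3) → Fin K :=
  fun i => ⟨Classical.choose (sw_lt (k := K) (Nat.mul_div_le K 2) ω i
      (lt_of_lt_of_eq i.2 (Nat.mul_comm _ _))),
    (Classical.choose_spec (sw_lt (k := K) (Nat.mul_div_le K 2) ω i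
      (lt_of_lt_of_eq i.2 (Nat.mul_comm _ _)))).1⟩

theorem wn_VV (K : ℕ) (ω : Fin (K ^ 3) → Seg (K / 2 / 2) (K / 2)) {y : ℕ}
    (hy : y < K / 2 / 2 * K ^ 3) : wn (VV K ω) y = sw ω y := by
  unfold wn
  rw [dif_pos hy]
  have h := (Classical.choose_spec (sw_lt (k := K) (Nat.mul_div_le K 2) ω y
      (by rw [Nat.mul_comm]; exact hy))).2
  rw [h]
  rfl

theorem fseg_eq (K T : ℕ) : fseg K T (K ^ 3) =
    𝔼 a : Fin T → Fin K, 𝔼 ω : Fin (K ^ 3) → Seg (K / 2 / 2) (K / 2), (lcs a (VV K ω) : ℝ) := by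
  unfold fseg
  refine Finset.expect_congr rfl fun a _ => Finset.expect_congr rfl fun ω _ => ?_
  unfold lcs
  rw [Nat.mul_comm (K ^ 3)]
  congr 1
  refine lp_congr fun x y _ _ _ hy => ?_
  unfold mt
  rw [wn_VV K ω (by omega)]

theorem num_log (d : ℝ) (hd : 0 < d) : ∀ᶠ K : ℕ in atTop,
    80000 * (3 + 4 * Real.log K) ≤ d * (K : ℝ) := by
  have h1 : Tendsto (fun K : ℕ => Real.log (K : ℝ) / (K : ℝ)) atTop (nhds 0) := by
    have h := Real.isLittleO_log_id_atTop.tendsto_div_nhds_zero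
    exact h.comp tendsto_natCast_atTop_atTop
  have h2 : ∀ᶠ K : ℕ in atTop, Real.log (K : ℝ) / (K : ℝ) < d / 640000 :=
    h1.eventually_lt_const (by positivity)
  have h3 : ∀ᶠ K : ℕ in atTop, 480000 / d ≤ (K : ℝ) :=
    tendsto_natCast_atTop_atTop.eventually_ge_atTop _
  filter_upwards [h2, h3, eventually_gt_atTop 0] with K h2 h3 hK
  have hK0 : (0 : ℝ) < K := by exact_mod_cast hK
  rw [div_lt_iff₀ hK0] at h2
  rw [div_le_iff₀ hd] at h3
  linarith

/-- The parameters of the criterion. -/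
theorem main (hC : Stmt_C1) (hcrit : Stmt_Crit) (hgam : Stmt_Gam) (hub : Stmt_PhiUB) :
    ∀ᶠ K : ℕ in atTop, ∃ c' : ℝ, 0 < c' ∧ ∀ᶠ n : ℕ in atTop, c' * n ≤ varL K n := by
  obtain ⟨c0, hc0, hC⟩ := hC
  set c1 := min c0 1 with hc1
  have hc1pos : 0 < c1 := lt_min hc0 one_pos
  filter_upwards [hC, num_log (0.0256 * c1 ^ 2) (by positivity), eventually_ge_atTop 4]
    with K hCK hnum hK
  have hK0 : 0 < K := by omega
  have hKR : (4 : ℝ) ≤ K := by exact_mod_cast hK
  have hKpos : (0 : ℝ) < K := by linarith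
  set s := K / 2 / 2 with hs
  have hs1 : 1 ≤ s := by omega
  have hsR : (1 : ℝ) ≤ s := by exact_mod_cast hs1
  have hs4 : 4 * s ≤ K := by omega
  have hs4R : 4 * (s : ℝ) ≤ K := by exact_mod_cast hs4
  have hKs : 0 < √(K : ℝ) := Real.sqrt_pos.2 hKpos
  have hKs1 : 1 ≤ √(K : ℝ) := by
    rw [show (1 : ℝ) = √1 by simp]
    exact Real.sqrt_le_sqrt (by linarith)
  have hneS : Nonempty (Seg s (K / 2)) := seg_nonempty (Nat.div_le_self _ _)
  have hc1le : c1 ≤ 1 := min_le_right _ _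
  refine hcrit K (s * K ^ 3) (Fin (K ^ 3) → Seg s (K / 2)) (VV K) (c1 / s) (0.08 / √(K : ℝ))
    (by omega) ?_ (by positivity) ?_ (by positivity) ?_ ?_ ?_ (hgam K hK0) ?_
  · exact Nat.mul_pos hs1 (by positivity)
  · rw [div_le_one (by positivity)]
    linarith
  · rw [div_le_one hKs]
    linarith
  · intro h h1 h2
    have h3 := hCK h h1 h2
    rw [fseg_eq] at h3
    refine le_trans ?_ h3
    have h4 : c1 / s * ((s * K ^ 3 : ℕ) : ℝ) = c1 * (K : ℝ) ^ 3 := by
      push_cast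
      field_simp
    rw [h4]
    have h5 : c1 * (K : ℝ) ^ 3 ≤ c0 * (K : ℝ) ^ 3 :=
      mul_le_mul_of_nonneg_right (min_le_left _ _) (by positivity)
    linarith
  · intro h hh
    set l := s * K ^ 3 with hl
    refine ((hub K hK0 h l 0).1).trans ?_
    have h1 : √((h : ℝ) * l / K) = √((h : ℝ) * l) / √(K : ℝ) := by
      rw [Real.sqrt_div (by positivity)]
    rw [h1]
    have h2 : √((h : ℝ) * l) ≤ 0.01 * ((l : ℝ) + h) := by
      rw [Real.sqrt_le_left (by positivity)]
      have hh0 : (0 : ℝ) ≤ h := by positivity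
      have hl0 : (0 : ℝ) ≤ l := by positivity
      have h3 : 10 ^ 4 * (h : ℝ) ≤ l ∨ 10 ^ 4 * (l : ℝ) ≤ h := by
        rcases not_and_or.1 hh with h4 | h4
        · left
          have : 10 ^ 4 * h ≤ l := by omega
          exact_mod_cast this
        · right
          have : 10 ^ 4 * l ≤ h := by omega
          exact_mod_cast this
      rcases h3 with h3 | h3
      · nlinarith [mul_nonneg hh0 hl0]
      · nlinarith [mul_nonneg hh0 hl0]
    have h4 : 0.08 / √(K : ℝ) / 4 * ((l : ℝ) + h) = 2 * ((0.01 * ((l : ℝ) + h)) / √(K : ℝ)) := by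
      field_simp
      ring
    rw [h4]
    gcongr
  · have h1 : ((s * K ^ 3 : ℕ) : ℝ) = s * (K : ℝ) ^ 3 := by push_cast; ring
    rw [h1]
    have h2 : Real.log ((s : ℝ) * (K : ℝ) ^ 3) ≤ 4 * Real.log K := by
      have : (s : ℝ) * (K : ℝ) ^ 3 ≤ (K : ℝ) ^ 4 := by
        have : (s : ℝ) ≤ K := by linarith
        calc (s : ℝ) * (K : ℝ) ^ 3 ≤ K * (K : ℝ) ^ 3 :=
            mul_le_mul_of_nonneg_right this (by positivity)
          _ = (K : ℝ) ^ 4 := by ring
      calc Real.log ((s : ℝ) * (K : ℝ) ^ 3) ≤ Real.log ((K : ℝ) ^ 4) :=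
            Real.log_le_log (by positivity) this
        _ = 4 * Real.log K := by rw [Real.log_pow]; norm_num
    have h3 : (c1 / s * (0.08 / √(K : ℝ))) ^ 2 * (s * (K : ℝ) ^ 3) =
        0.0064 * c1 ^ 2 * ((K : ℝ) ^ 2 / s) := by
      have : √(K : ℝ) ^ 2 = K := Real.sq_sqrt hKpos.le
      rw [mul_pow, div_pow, div_pow, this]
      field_simp
      ring
    rw [h3]
    have h4 : 4 * (K : ℝ) ≤ (K : ℝ) ^ 2 / s := by
      rw [le_div_iff₀ (by linarith)]
      nlinarith
    have h5 : 0.0256 * c1 ^ 2 * (K : ℝ) ≤ 0.0064 * c1 ^ 2 * ((K : ℝ) ^ 2 / s) := by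
      have : 0 ≤ 0.0064 * c1 ^ 2 := by positivity
      nlinarith [mul_le_mul_of_nonneg_left h4 this]
    linarith

end FinalB

open FinalB in
/-- FINAL. -/
theorem stmt_Final (hC : Stmt_C1) (hcrit : Stmt_Crit) (hgam : Stmt_Gam) (hub : Stmt_PhiUB)
    (hvup : Stmt_VUp) (hL : Stmt_LcsDef) : Stmt_Final := by
  obtain ⟨K₀, hK₀⟩ := eventually_atTop.1 (main hC hcrit hgam hub)
  refine ⟨K₀, fun k hk => ?_⟩
  obtain ⟨c', hc', hlow⟩ := hK₀ (k + 2) (by omega)
  simp only [variance_eq hL k]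
  refine ⟨?_, ?_⟩
  · refine Asymptotics.IsBigO.of_bound 2 (Eventually.of_forall fun n => ?_)
    have h1 := hvup (k + 2) n (by omega)
    have h2 : 0 ≤ varL (k + 2) n := by
      unfold varL
      exact Finset.expect_nonneg fun a _ => Finset.expect_nonneg fun b _ => sq_nonneg _
    rw [Real.norm_of_nonneg h2, Real.norm_of_nonneg (by positivity)]
    exact h1
  · refine Asymptotics.IsBigO.of_bound (1 / c') ?_
    filter_upwards [hlow] with n hn
    have h2 : 0 ≤ varL (k + 2) n := le_trans (by positivity) hn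
    rw [Real.norm_of_nonneg h2, Real.norm_of_nonneg (by positivity)]
    rw [one_div, ← div_eq_inv_mul, le_div_iff₀ hc', mul_comm]
    exact hn

end

end Pool.Agent.LCS13
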