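import Pool.Agent.Work.MP_bec1e1_pr_h13.Interface
import Pool.Agent.Work.MP_bec1e1_pr_h13.LP

/-!
# `lcs` is the length of a longest common subsequence (block LcsDef)
-/

open Finset BigOperators
open scoped Classical

namespace Pool.Agent.LCS13

theorem sublist_ofFn_iff {α : Type*} {n : ℕ} (a : Fin n → α) (l : List α) :
    l.Sublist (List.ofFn a) ↔ ∃ f : Fin l.length ↪o Fin n, ∀ x, l.get x = a (f x) := by
  rw [List.sublist_iff_exists_fin_orderEmbedding_get_eq]
  constructor
  · rintro ⟨f, hf⟩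
    refine ⟨f.trans (Fin.castOrderIso (List.length_ofFn)).toOrderEmbedding, fun x => ?_⟩
    rw [hf x]
    simp
    rfl
  · rintro ⟨f, hf⟩
    refine ⟨f.trans (Fin.castOrderIso (List.length_ofFn.symm)).toOrderEmbedding, fun x => ?_⟩
    rw [hf x]
    simp

theorem mt_wn_iff {n p k : ℕ} (a : Fin n → Fin k) (b : Fin p → Fin k) (x : Fin n) (y : Fin p) :
    mt (wn a) (wn b) x y ↔ a x = b y := by
  unfold mt wn
  simp only [x.2, y.2, dif_pos]
  constructor
  · rintro ⟨z, h1, h2⟩
    have h1' := Option.some.inj h1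
    have h2' := Option.some.inj h2
    exact Fin.ext (h1'.trans h2'.symm)
  · intro h
    exact ⟨(a x : ℕ), rfl, by rw [h]⟩

theorem le_lcs_iff {n p k q : ℕ} (a : Fin n → Fin k) (b : Fin p → Fin k) :
    q ≤ lcs a b ↔ ∃ l : List (Fin k), l.length = q ∧
      l.Sublist (List.ofFn a) ∧ l.Sublist (List.ofFn b) := by
  unfold lcs
  rw [LPK.le_lp_iff_fin]
  constructor
  · rintro ⟨f, g, h⟩
    refine ⟨List.ofFn (fun x => a (f x)), List.length_ofFn, ?_, ?_⟩
    · rw [sublist_ofFn_iff]
      refine ⟨(Fin.castOrderIso (List.length_ofFn)).toOrderEmbedding.trans f, fun x => ?_⟩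
      simp
      rfl
    · rw [sublist_ofFn_iff]
      refine ⟨(Fin.castOrderIso (List.length_ofFn)).toOrderEmbedding.trans g, fun x => ?_⟩
      have h1 := h (Fin.cast List.length_ofFn x)
      rw [zero_add, zero_add, mt_wn_iff] at h1
      simp only [List.get_ofFn]
      exact h1
  · rintro ⟨l, rfl, h1, h2⟩
    rw [sublist_ofFn_iff] at h1 h2
    obtain ⟨f, hf⟩ := h1
    obtain ⟨g, hg⟩ := h2
    refine ⟨f, g, fun x => ?_⟩
    rw [zero_add, zero_add, mt_wn_iff, ← hf x, ← hg x]

theorem stmt_LcsDef : Stmt_LcsDef := by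
  intro k n p a b
  refine le_antisymm ?_ ?_
  · refine le_csSup ?_ ?_
    · refine ⟨lcs a b, ?_⟩
      rintro q hq
      exact (le_lcs_iff a b).2 hq
    · exact (le_lcs_iff a b).1 le_rfl
  · refine csSup_le ⟨0, [], rfl, List.nil_sublist _, List.nil_sublist _⟩ ?_
    rintro q hq
    exact (le_lcs_iff a b).2 hq

end Pool.Agent.LCS13
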