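import Pool.Agent.Work.MP_bec1e1_pr_h13.CRITal

/-!
# Upper bound of the variance (block VUP)
-/

open Finset BigOperators Filter
open scoped Classical

namespace Pool.Agent.LCS13

noncomputable section

namespace Cr

theorem expect_cons {α : Type} [Fintype α] (N : ℕ) (F : (Fin (N + 1) → α) → ℝ) :
    𝔼 ω, F ω = 𝔼 ω' : Fin N → α, 𝔼 a, F (Fin.cons a ω') := by
  rw [Finset.expect_comm, ← Finset.expect_product' univ univ
    (fun (a : α) (ω' : Fin N → α) => F (Fin.cons a ω')), Finset.univ_product_univ]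
  exact (Fintype.expect_equiv (Fin.consEquiv fun _ : Fin (N + 1) => α) _ _ fun p => rfl).symm

/-- variance decomposition -/
theorem var_decomp {Θ Ω : Type} [Fintype Θ] [Fintype Ω] [Nonempty Θ] [Nonempty Ω]
    (F : Θ → Ω → ℝ) (m : ℝ) : 𝔼 x, 𝔼 y, (F x y - m) ^ 2 =
      𝔼 x, 𝔼 y, (F x y - 𝔼 y', F x y') ^ 2 + 𝔼 x, (𝔼 y', F x y' - m) ^ 2 := by
  rw [← Finset.expect_add_distrib]
  refine Finset.expect_congr rfl fun x _ => ?_
  set g := 𝔼 y', F x y' with hg
  have e : ∀ y, (F x y - m) ^ 2 = (F x y - g) ^ 2 + 2 * (g - m) * (F x y - g) + (g - m) ^ 2 :=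
    fun y => by ring
  simp only [e]
  rw [Finset.expect_add_distrib, Finset.expect_add_distrib, Fintype.expect_const,
    ← Finset.mul_expect, Finset.expect_sub_distrib, Fintype.expect_const, ← hg]
  ring

theorem sq_dev_le {Ω : Type} [Fintype Ω] [Nonempty Ω] (X : Ω → ℝ)
    (h : ∀ x y, |X x - X y| ≤ 1) : 𝔼 x, (X x - 𝔼 y, X y) ^ 2 ≤ 1 := by
  refine Finset.expect_le Finset.univ_nonempty fun x _ => ?_
  have e : X x - 𝔼 y, X y = 𝔼 y, (X x - X y) := by
    rw [Finset.expect_sub_distrib, Fintype.expect_const]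
  have h1 : |X x - 𝔼 y, X y| ≤ 1 := by
    rw [e]
    exact (Finset.abs_expect_le _ _).trans (Finset.expect_le Finset.univ_nonempty fun y _ => h x y)
  rw [abs_le] at h1
  nlinarith

theorem var_le {α : Type} [Fintype α] [Nonempty α] : ∀ (N : ℕ) (f : (Fin N → α) → ℝ),
    (∀ i (ω ω' : Fin N → α), (∀ j, j ≠ i → ω j = ω' j) → |f ω - f ω'| ≤ 1) →
    𝔼 ω, (f ω - 𝔼 ω', f ω') ^ 2 ≤ N := by
  intro N
  induction N with
  | zero =>
    intro f _
    have : ∀ ω : Fin 0 → α, f ω - 𝔼 ω', f ω' = 0 := by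
      intro ω
      have e : ∀ ω' : Fin 0 → α, f ω' = f ω := fun ω' => by rw [Subsingleton.elim ω' ω]
      simp only [e, Fintype.expect_const, sub_self]
    simp
  | succ N ih =>
    intro f hf
    set m := 𝔼 ω', f ω' with hm
    have hm' : m = 𝔼 ω' : Fin N → α, 𝔼 a, f (Fin.cons a ω') := by rw [hm, expect_cons]
    rw [expect_cons, var_decomp (fun (ω' : Fin N → α) a => f (Fin.cons a ω')) m]
    have h1 : 𝔼 ω' : Fin N → α, 𝔼 a, (f (Fin.cons a ω') - 𝔼 y', f (Fin.cons y' ω')) ^ 2 ≤ 1 := by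
      refine Finset.expect_le Finset.univ_nonempty fun ω' _ => ?_
      refine sq_dev_le (fun a => f (Fin.cons a ω')) fun x y => ?_
      refine hf 0 _ _ ?_
      intro j hj
      refine Fin.cases (fun h => absurd rfl h) (fun j _ => ?_) j hj
      simp
    have h2 := ih (fun ω' => 𝔼 a, f (Fin.cons a ω')) (by
      intro i ω ω' h
      rw [← Finset.expect_sub_distrib]
      refine (Finset.abs_expect_le _ _).trans ?_
      refine Finset.expect_le Finset.univ_nonempty fun a _ => ?_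
      refine hf i.succ _ _ ?_
      intro j
      refine Fin.cases (fun _ => by simp) (fun j hj => ?_) j
      simp only [Fin.cons_succ]
      exact h j fun h' => hj (by rw [h']))
    rw [← hm'] at h2
    push_cast
    linarith

end Cr

open Cr in
/-- VUP -/
theorem stmt_VUp : Stmt_VUp := by
  intro k n hk
  have : Nonempty (Fin k) := ⟨⟨0, hk⟩⟩
  unfold varL
  rw [var_decomp (fun (a b : Fin n → Fin k) => (lcs a b : ℝ)) (phi k n n)]
  have h1 : 𝔼 a : Fin n → Fin k, 𝔼 b : Fin n → Fin k,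
      ((lcs a b : ℝ) - 𝔼 b' : Fin n → Fin k, (lcs a b' : ℝ)) ^ 2 ≤ n := by
    refine Finset.expect_le Finset.univ_nonempty fun a _ => ?_
    refine var_le n (fun b => (lcs a b : ℝ)) ?_
    intro i b b' hbb
    exact AA_col_change (a := a) (y := 0) (h := n) i hbb
  have h2 : 𝔼 a : Fin n → Fin k,
      (𝔼 b' : Fin n → Fin k, (lcs a b' : ℝ) - phi k n n) ^ 2 ≤ n := by
    refine var_le n (fun a => 𝔼 b' : Fin n → Fin k, (lcs a b' : ℝ)) ?_
    intro i a a' haa
    rw [← Finset.expect_sub_distrib]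
    refine (Finset.abs_expect_le _ _).trans ?_
    exact Finset.expect_le Finset.univ_nonempty fun b _ =>
      AA_row_change (y := 0) (h := n) b i haa
  linarith

end

end Pool.Agent.LCS13
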