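import Pool.Agent.Work.MP_bec1e1_pr_h13.MARG

/-!
# Concavity of the expected LCS of segment words (block CONC)
-/

open Finset BigOperators
open scoped Classical

namespace Pool.Agent.LCS13

/-- The relabelling `x ↔ x + K` on naturals. -/
def flipN (K x : ℕ) : ℕ := if x < K then x + K else if x < 2 * K then x - K else x

theorem flipN_lt {K k x : ℕ} (hK : 2 * K ≤ k) (hx : x < k) : flipN K x < k := by
  unfold flipN
  split_ifs <;> omega

theorem flipN_flipN (K x : ℕ) : flipN K (flipN K x) = x := by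
  unfold flipN
  split_ifs <;> omega

theorem flipN_inj {K x y : ℕ} (h : flipN K x = flipN K y) : x = y := by
  rw [← flipN_flipN K x, h, flipN_flipN]

theorem flipN_add {K v q : ℕ} (hv : v < K) :
    flipN K (v + (q + 1) % 2 * K) = v + q % 2 * K := by
  unfold flipN
  rcases Nat.mod_two_eq_zero_or_one q with h | h
  · have h2 : (q + 1) % 2 = 1 := by omega
    rw [h, h2]
    split_ifs <;> omega
  · have h2 : (q + 1) % 2 = 0 := by omega
    rw [h, h2]
    split_ifs <;> omega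

/-- The relabelling `x ↔ x + K` as a permutation of the alphabet. -/
def flipE (K k : ℕ) (hK : 2 * K ≤ k) : Equiv.Perm (Fin k) where
  toFun x := ⟨flipN K x, flipN_lt hK x.2⟩
  invFun x := ⟨flipN K x, flipN_lt hK x.2⟩
  left_inv x := by ext; exact flipN_flipN K x
  right_inv x := by ext; exact flipN_flipN K x

theorem sw_succ {s K n : ℕ} (ω : Fin (n + 1) → Seg s K) {y : ℕ} (hy : y < n * s) :
    sw (fun i : Fin n => ω i.succ) y = (sw ω (y + s)).map (flipN K) := by
  have hs : 0 < s := by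
    rcases Nat.eq_zero_or_pos s with h0 | h0
    · subst h0; simp at hy
    · exact h0
  have h1 : y / s < n := (Nat.div_lt_iff_lt_mul hs).2 hy
  have h2 : y % s < s := Nat.mod_lt _ hs
  have h3 : (y + s) / s = y / s + 1 := Nat.add_div_right y hs
  have h4 : (y + s) % s = y % s := Nat.add_mod_right y s
  unfold sw
  rw [dif_pos ⟨h1, h2⟩, dif_pos ⟨by rw [h3]; omega, by rw [h4]; exact h2⟩]
  simp only [h3, h4, Option.map_some]
  rw [flipN_add (Fin.is_lt _)]
  rfl

theorem wn_flip {T k K : ℕ} (hK : 2 * K ≤ k) (a : Fin T → Fin k) (x : ℕ) :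
    wn (fun i => flipE K k hK (a i)) x = (wn a x).map (flipN K) := by
  unfold wn
  split_ifs with h
  · rfl
  · rfl

theorem lp_sw_shift {T k s K n r : ℕ} (hK : 2 * K ≤ k) (a : Fin T → Fin k)
    (ω : Fin (n + 1) → Seg s K) (hr : r ≤ n) :
    lp (mt (wn a) (sw ω)) 0 s T (r * s) =
      lp (mt (wn (fun i => flipE K k hK (a i))) (sw (fun i : Fin n => ω i.succ))) 0 0 T
        (r * s) := by
  have h1 := lp_shift (mt (wn a) (sw ω)) 0 0 T (r * s) 0 s
  rw [zero_add, zero_add] at h1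
  rw [← h1]
  refine lp_congr fun x y _ _ _ hy => ?_
  rw [zero_add] at hy
  have hy' : y < n * s := lt_of_lt_of_le hy (Nat.mul_le_mul_right s hr)
  unfold mt
  rw [sw_succ ω hy', wn_flip hK, add_zero]
  constructor
  · rintro ⟨z, h1, h2⟩
    exact ⟨flipN K z, by rw [h1]; rfl, by rw [h2]; rfl⟩
  · rintro ⟨z, h1, h2⟩
    rw [Option.map_eq_some_iff] at h1 h2
    obtain ⟨z1, h1, h3⟩ := h1
    obtain ⟨z2, h2, h4⟩ := h2
    have h5 : z1 = z2 := flipN_inj (h3.trans h4.symm)
    exact ⟨z1, h1, by rw [h5]; exact h2⟩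

/-- Shifted segments have the same law. -/
theorem expect_shift {k T n r : ℕ} (hr : r ≤ n) :
    𝔼 a : Fin T → Fin k, 𝔼 ω : Fin (n + 1) → Seg (k / 2 / 2) (k / 2),
      (lp (mt (wn a) (sw ω)) 0 (k / 2 / 2) T (r * (k / 2 / 2)) : ℝ) = fseg k T r := by
  have hK : 2 * (k / 2) ≤ k := Nat.mul_div_le k 2
  have : Nonempty (Seg (k / 2 / 2) (k / 2)) := seg_nonempty (Nat.div_le_self _ _)
  rcases Nat.eq_zero_or_pos k with hk | hk
  · subst hk
    unfold fseg
    rcases Nat.eq_zero_or_pos T with hT | hT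
    · subst hT
      simp [lp_zero_row]
    · have : IsEmpty (Fin T → Fin 0) := ⟨fun f => (f ⟨0, hT⟩).elim0⟩
      simp
  rw [← stmt_Marg k T r n hk hr]
  have h1 : ∀ a : Fin T → Fin k, 𝔼 ω : Fin (n + 1) → Seg (k / 2 / 2) (k / 2),
      (lp (mt (wn a) (sw ω)) 0 (k / 2 / 2) T (r * (k / 2 / 2)) : ℝ) =
      𝔼 ω : Fin n → Seg (k / 2 / 2) (k / 2),
      (lp (mt (wn (fun i => flipE (k / 2) k hK (a i))) (sw ω)) 0 0 T (r * (k / 2 / 2)) : ℝ) := by
    intro a
    rw [← expect_comp_inj (Fin.succ : Fin n → Fin (n + 1)) (Fin.succ_injective n)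
      (fun ω' : Fin n → Seg (k / 2 / 2) (k / 2) =>
        (lp (mt (wn (fun i => flipE (k / 2) k hK (a i))) (sw ω')) 0 0 T
          (r * (k / 2 / 2)) : ℝ))]
    refine Finset.expect_congr rfl fun ω _ => ?_
    congr 1
    exact lp_sw_shift hK a ω hr
  rw [Finset.expect_congr rfl fun a _ => h1 a]
  exact Fintype.expect_equiv (Equiv.arrowCongr (Equiv.refl (Fin T)) (flipE (k / 2) k hK)) _ _
    (fun a => rfl)

/-- CONC. -/
theorem stmt_Conc : Stmt_Conc := by
  intro k T r hk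
  set s := k / 2 / 2 with hs
  have e1 := stmt_Marg k T (r + 2) (r + 2) hk le_rfl
  have e2 := stmt_Marg k T (r + 1) (r + 2) hk (by omega)
  have e3 := expect_shift (k := k) (T := T) (n := r + 1) (r := r) (by omega)
  have e4 := expect_shift (k := k) (T := T) (n := r + 1) (r := r + 1) le_rfl
  have h : ∀ (a : Fin T → Fin k) (ω : Fin (r + 2) → Seg (k / 2 / 2) (k / 2)),
      (lp (mt (wn a) (sw ω)) 0 s T (r * s) : ℝ) +
      (lp (mt (wn a) (sw ω)) 0 0 T ((r + 2) * s) : ℝ) ≤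
      (lp (mt (wn a) (sw ω)) 0 0 T ((r + 1) * s) : ℝ) +
      (lp (mt (wn a) (sw ω)) 0 s T ((r + 1) * s) : ℝ) := by
    intro a ω
    have := lp_monge (mt (wn a) (sw ω)) 0 0 T s (r * s) s
    have c1 : s + r * s + s = (r + 2) * s := by ring
    have c2 : s + r * s = (r + 1) * s := by ring
    have c3 : r * s + s = (r + 1) * s := by ring
    rw [c1, c2, c3, zero_add] at this
    have h2 : lp (mt (wn a) (sw ω)) 0 s T (r * s) + lp (mt (wn a) (sw ω)) 0 0 T ((r + 2) * s) ≤
      lp (mt (wn a) (sw ω)) 0 0 T ((r + 1) * s) + lp (mt (wn a) (sw ω)) 0 s T ((r + 1) * s) := by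
      omega
    exact_mod_cast h2
  have h5 := Finset.expect_le_expect (s := univ) (f := fun a : Fin T → Fin k =>
      𝔼 ω : Fin (r + 2) → Seg (k / 2 / 2) (k / 2),
        ((lp (mt (wn a) (sw ω)) 0 s T (r * s) : ℝ) +
      (lp (mt (wn a) (sw ω)) 0 0 T ((r + 2) * s) : ℝ)))
      (g := fun a => 𝔼 ω : Fin (r + 2) → Seg (k / 2 / 2) (k / 2),
        ((lp (mt (wn a) (sw ω)) 0 0 T ((r + 1) * s) : ℝ) +
      (lp (mt (wn a) (sw ω)) 0 s T ((r + 1) * s) : ℝ)))
      (fun a _ => Finset.expect_le_expect fun ω _ => h a ω)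
  simp only [Finset.expect_add_distrib] at h5
  rw [e1, e2, e3, e4] at h5
  linarith

end Pool.Agent.LCS13
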