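import Pool.Agent.Work.MP_bec1e1_pr_h13.Defs

/-!
# Basic properties of the expectation `ES` over random subsets (block ES)
-/

open Finset BigOperators
open scoped Classical

namespace Pool.Agent.LCS13

variable {ρ : ℝ} {I J : Finset ℕ} {f g : Finset ℕ → ℝ}

theorem ind_nonneg (P : Prop) : 0 ≤ ind P := by unfold ind; split_ifs <;> norm_num

theorem ind_le_one (P : Prop) : ind P ≤ 1 := by unfold ind; split_ifs <;> norm_num

theorem ind_true {P : Prop} (h : P) : ind P = 1 := by simp [ind, h]

theorem ind_false {P : Prop} (h : ¬ P) : ind P = 0 := by simp [ind, h]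

theorem ind_mono {P Q : Prop} (h : P → Q) : ind P ≤ ind Q := by
  by_cases hP : P
  · rw [ind_true hP, ind_true (h hP)]
  · rw [ind_false hP]; exact ind_nonneg Q

theorem ind_and (P Q : Prop) : ind (P ∧ Q) = ind P * ind Q := by
  by_cases hP : P <;> by_cases hQ : Q <;> simp [ind, hP, hQ]

theorem ind_or_le (P Q : Prop) : ind (P ∨ Q) ≤ ind P + ind Q := by
  by_cases hP : P <;> by_cases hQ : Q <;> simp [ind, hP, hQ]

theorem ES_empty : ES ρ ∅ f = f ∅ := by simp [ES]

theorem ES_add : ES ρ I (fun A => f A + g A) = ES ρ I f + ES ρ I g := by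
  simp only [ES, mul_add, Finset.sum_add_distrib]

theorem ES_sub : ES ρ I (fun A => f A - g A) = ES ρ I f - ES ρ I g := by
  simp only [ES, mul_sub, Finset.sum_sub_distrib]

theorem ES_mul_left (c : ℝ) : ES ρ I (fun A => c * f A) = c * ES ρ I f := by
  simp only [ES, Finset.mul_sum]
  exact Finset.sum_congr rfl fun A _ => by ring

theorem ES_mul_right (c : ℝ) : ES ρ I (fun A => f A * c) = ES ρ I f * c := by
  simp only [ES, Finset.sum_mul]
  exact Finset.sum_congr rfl fun A _ => by ring

theorem ES_sum {ι : Type*} (s : Finset ι) (F : ι → Finset ℕ → ℝ) :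
    ES ρ I (fun A => ∑ x ∈ s, F x A) = ∑ x ∈ s, ES ρ I (F x) := by
  simp only [ES, Finset.mul_sum]
  rw [Finset.sum_comm]

theorem ES_congr (h : ∀ A ⊆ I, f A = g A) : ES ρ I f = ES ρ I g := by
  unfold ES
  exact Finset.sum_congr rfl fun A hA => by rw [h A (Finset.mem_powerset.1 hA)]

theorem ES_nonneg (h0 : 0 ≤ ρ) (h1 : ρ ≤ 1) (h : ∀ A ⊆ I, 0 ≤ f A) : 0 ≤ ES ρ I f := by
  unfold ES
  refine Finset.sum_nonneg fun A hA => ?_
  have := h A (Finset.mem_powerset.1 hA)
  have h2 : 0 ≤ 1 - ρ := by linarith
  positivity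

theorem ES_mono (h0 : 0 ≤ ρ) (h1 : ρ ≤ 1) (h : ∀ A ⊆ I, f A ≤ g A) : ES ρ I f ≤ ES ρ I g := by
  have := ES_nonneg (f := fun A => g A - f A) (I := I) h0 h1 (fun A hA => by
    have := h A hA; linarith)
  rw [ES_sub] at this
  linarith

theorem ES_insert {x : ℕ} (hx : x ∉ I) (f : Finset ℕ → ℝ) :
    ES ρ (insert x I) f = ρ * ES ρ I (fun A => f (insert x A)) + (1 - ρ) * ES ρ I f := by
  unfold ES
  rw [Finset.sum_powerset_insert hx, Finset.mul_sum, Finset.mul_sum, add_comm]
  congr 1
  · refine Finset.sum_congr rfl fun A hA => ?_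
    have hA' := Finset.mem_powerset.1 hA
    have hxA : x ∉ A := fun h => hx (hA' h)
    rw [Finset.card_insert_of_notMem hxA, Finset.card_insert_of_notMem hx,
      Nat.add_sub_add_right]
    ring
  · refine Finset.sum_congr rfl fun A hA => ?_
    have hA' := Finset.card_le_card (Finset.mem_powerset.1 hA)
    rw [Finset.card_insert_of_notMem hx, Nat.succ_sub hA']
    rw [pow_succ]
    ring

theorem ES_const (ρ : ℝ) (I : Finset ℕ) (c : ℝ) : ES ρ I (fun _ => c) = c := by
  induction I using Finset.induction_on with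
  | empty => exact ES_empty
  | insert x I hx ih => rw [ES_insert hx, ih]; ring

theorem ES_union (h : Disjoint I J) (f : Finset ℕ → ℝ) :
    ES ρ (I ∪ J) f = ES ρ I (fun A => ES ρ J (fun B => f (A ∪ B))) := by
  induction I using Finset.induction_on generalizing f with
  | empty => rw [ES_empty]; simp
  | insert x I hx ih =>
    rw [Finset.disjoint_insert_left] at h
    have hx' : x ∉ I ∪ J := by simp [hx, h.1]
    rw [Finset.insert_union, ES_insert hx', ES_insert hx, ih h.2, ih h.2]
    congr 2
    congr 1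
    funext A
    congr 1
    funext B
    rw [Finset.insert_union]

/-- Order of summation. -/
theorem ES_comm (ρ : ℝ) (I J : Finset ℕ) (F : Finset ℕ → Finset ℕ → ℝ) :
    ES ρ I (fun A => ES ρ J (fun B => F A B)) = ES ρ J (fun B => ES ρ I (fun A => F A B)) := by
  simp only [ES, Finset.mul_sum]
  rw [Finset.sum_comm]
  exact Finset.sum_congr rfl fun A _ => Finset.sum_congr rfl fun B _ => by ring

/-- Only the cardinality of the index set matters for functions of the cardinality. -/
theorem ES_card (h : #I = #J) (F : ℕ → ℝ) :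
    ES ρ I (fun A => F #A) = ES ρ J (fun A => F #A) := by
  induction I using Finset.induction_on generalizing J F with
  | empty =>
    have : J = ∅ := by
      rw [Finset.card_empty] at h
      exact Finset.card_eq_zero.1 h.symm
    rw [this]
  | insert x I hx ih =>
    rw [Finset.card_insert_of_notMem hx] at h
    obtain ⟨y, hy⟩ : J.Nonempty := by
      rw [← Finset.card_pos]; omega
    have hJ : insert y (J.erase y) = J := Finset.insert_erase hy
    have hy' : y ∉ J.erase y := Finset.notMem_erase y J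
    have hc : #I = #(J.erase y) := by rw [Finset.card_erase_of_mem hy]; omega
    rw [ES_insert hx, ← hJ, ES_insert hy', ih hc]
    congr 2
    rw [ES_congr (g := fun A => F (#A + 1)) (fun A hA => by
      rw [Finset.card_insert_of_notMem fun h => hx (hA h)])]
    rw [ih hc (fun n => F (n + 1))]
    exact ES_congr fun A hA => by rw [Finset.card_insert_of_notMem fun h => hy' (hA h)]

/-- Marginal: functions of `A ∩ I`. -/
theorem ES_inter (h : I ⊆ J) (f : Finset ℕ → ℝ) :
    ES ρ J (fun A => f (A ∩ I)) = ES ρ I f := by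
  have h1 : I ∪ (J \ I) = J := Finset.union_sdiff_of_subset h
  conv_lhs => rw [← h1]
  rw [ES_union Finset.disjoint_sdiff]
  refine ES_congr fun A hA => ?_
  rw [ES_congr (g := fun _ => f A), ES_const]
  intro B hB
  congr 1
  ext x
  simp only [Finset.mem_inter, Finset.mem_union]
  constructor
  · rintro ⟨h2 | h2, h3⟩
    · exact h2
    · exact absurd h3 (Finset.mem_sdiff.1 (hB h2)).2
  · intro h2
    exact ⟨Or.inl h2, hA h2⟩

theorem ES_expect {Ω : Type*} [Fintype Ω] (F : Ω → Finset ℕ → ℝ) :
    ES ρ I (fun A => 𝔼 ω, F ω A) = 𝔼 ω, ES ρ I (F ω) := by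
  simp only [Finset.expect, ES]
  rw [Finset.sum_comm]
  simp only [Finset.smul_sum, Finset.mul_sum]
  refine Finset.sum_congr rfl fun A _ => Finset.sum_congr rfl fun x _ => ?_
  rw [mul_smul_comm]

end Pool.Agent.LCS13
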