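import Pool.Agent.Work.MP_bec1e1_pr_h13.Defs

/-!
# Basic properties of the system `XX`, `MM`, `JJ`, `ZZ`, `J1` (block SYS)
-/

open Finset BigOperators
open scoped Classical

namespace Pool.Agent.LCS13

variable {u u' : ℕ → ℤ} {A B : Finset ℕ} {g0 g h N j : ℕ}

theorem cnt_self : cnt A g g = 0 := by
  unfold cnt
  rw [Finset.card_eq_zero, Finset.filter_eq_empty_iff]
  intro x _ hx; omega

theorem cnt_eq_card_inter : cnt A g h = #(A ∩ Ico g h) := by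
  unfold cnt
  congr 1
  ext x
  simp

theorem cnt_congr (hAB : ∀ i, g ≤ i → i < h → (i ∈ A ↔ i ∈ B)) : cnt A g h = cnt B g h := by
  unfold cnt
  congr 1
  ext x
  simp only [Finset.mem_filter]
  constructor
  · rintro ⟨h1, h2, h3⟩; exact ⟨(hAB x h2 h3).1 h1, h2, h3⟩
  · rintro ⟨h1, h2, h3⟩; exact ⟨(hAB x h2 h3).2 h1, h2, h3⟩

theorem cnt_add (h1 : g0 ≤ g) (h2 : g ≤ h) : cnt A g0 h = cnt A g0 g + cnt A g h := by
  unfold cnt
  rw [← Finset.card_union_of_disjoint]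
  · congr 1
    ext x
    simp only [Finset.mem_filter, Finset.mem_union]
    constructor
    · rintro ⟨ha, hb, hc⟩
      by_cases hx : x < g
      · exact Or.inl ⟨ha, hb, hx⟩
      · exact Or.inr ⟨ha, by omega, hc⟩
    · rintro (⟨ha, hb, hc⟩ | ⟨ha, hb, hc⟩)
      · exact ⟨ha, hb, by omega⟩
      · exact ⟨ha, by omega, hc⟩
  · rw [Finset.disjoint_left]
    intro x hx hx'
    simp only [Finset.mem_filter] at hx hx'
    omega

theorem cnt_one : cnt A h (h + 1) = (if h ∈ A then 1 else 0) := by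
  unfold cnt
  split_ifs with hA
  · rw [Finset.card_eq_one]
    refine ⟨h, ?_⟩
    ext x
    simp only [Finset.mem_filter, Finset.mem_singleton]
    constructor
    · rintro ⟨_, h1, h2⟩; omega
    · rintro rfl; exact ⟨hA, le_refl _, by omega⟩
  · rw [Finset.card_eq_zero, Finset.filter_eq_empty_iff]
    intro x hx h1
    have : x = h := by omega
    exact hA (this ▸ hx)

theorem cnt_succ (hg : g ≤ h) : cnt A g (h + 1) = cnt A g h + (if h ∈ A then 1 else 0) := by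
  rw [cnt_add hg (Nat.le_succ h), cnt_one]

theorem cnt_mono {g' h' : ℕ} (h1 : g' ≤ g) (h2 : h ≤ h') : cnt A g h ≤ cnt A g' h' := by
  unfold cnt
  refine Finset.card_le_card fun x hx => ?_
  simp only [Finset.mem_filter] at hx ⊢
  exact ⟨hx.1, by omega, by omega⟩

theorem XX_self : XX u A g0 g0 = 0 := by
  unfold XX; rw [cnt_self]; simp

theorem XX_add (h1 : g0 ≤ g) (h2 : g ≤ h) : XX u A g0 h = XX u A g0 g + XX u A g h := by
  unfold XX
  rw [cnt_add h1 h2]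
  push_cast
  ring

theorem XX_congr (hu : ∀ x, g0 ≤ x → x ≤ g → u x = u' x)
    (hA : ∀ i, g0 ≤ i → i < g → (i ∈ A ↔ i ∈ B)) (hg : g0 ≤ g) : XX u A g0 g = XX u' B g0 g := by
  unfold XX
  rw [hu g hg le_rfl, hu g0 le_rfl hg, cnt_congr hA]

theorem XX_le_MM (h1 : g0 ≤ g) (h2 : g ≤ N) : XX u A g0 g ≤ MM u A g0 N := by
  unfold MM
  have := Finset.le_sup (f := fun g => (XX u A g0 g).toNat) (Finset.mem_Icc.2 ⟨h1, h2⟩)
  have h3 := Int.self_le_toNat (XX u A g0 g)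
  have h4 : ((XX u A g0 g).toNat : ℤ) ≤ ((Icc g0 N).sup fun g => (XX u A g0 g).toNat : ℕ) := by
    exact_mod_cast this
  linarith

theorem exists_MM (h : g0 ≤ N) : ∃ g, g0 ≤ g ∧ g ≤ N ∧ XX u A g0 g = MM u A g0 N := by
  obtain ⟨g, hg, hg'⟩ := Finset.exists_mem_eq_sup (Icc g0 N) ⟨g0, Finset.mem_Icc.2 ⟨le_rfl, h⟩⟩
    (fun g => (XX u A g0 g).toNat)
  rw [Finset.mem_Icc] at hg
  by_cases hX : 0 ≤ XX u A g0 g
  · refine ⟨g, hg.1, hg.2, ?_⟩
    unfold MM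
    rw [hg', Int.toNat_of_nonneg hX]
  · refine ⟨g0, le_rfl, h, ?_⟩
    unfold MM
    rw [hg', XX_self, Int.toNat_of_nonpos (by omega)]
    simp

theorem MM_le_iff (h : g0 ≤ N) (c : ℕ) :
    MM u A g0 N ≤ c ↔ ∀ g, g0 ≤ g → g ≤ N → XX u A g0 g ≤ c := by
  constructor
  · intro hc g h1 h2
    have := XX_le_MM (u := u) (A := A) h1 h2
    have : (MM u A g0 N : ℤ) ≤ c := by exact_mod_cast hc
    linarith
  · intro hc
    obtain ⟨g, h1, h2, h3⟩ := exists_MM (u := u) (A := A) h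
    have := hc g h1 h2
    rw [h3] at this
    exact_mod_cast this

theorem MM_eq_of (h1 : g0 ≤ g) (h2 : g ≤ N) (c : ℕ) (hc : XX u A g0 g = c)
    (hle : ∀ x, g0 ≤ x → x ≤ N → XX u A g0 x ≤ c) : MM u A g0 N = c := by
  apply le_antisymm
  · exact (MM_le_iff (h1.trans h2) c).2 hle
  · have := XX_le_MM (u := u) (A := A) h1 h2
    rw [hc] at this
    exact_mod_cast this

theorem mem_ZZ : g ∈ ZZ u A g0 N ↔ (g0 ≤ g ∧ g ≤ N) ∧ XX u A g0 g = MM u A g0 N := by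
  unfold ZZ
  rw [Finset.mem_filter, Finset.mem_Icc]

theorem mem_JJ : j ∈ JJ u A g0 N ↔
    (g0 ≤ j ∧ j < N) ∧ u j - u g0 - cnt A g0 (j + 1) = (MM u A g0 N : ℤ) := by
  unfold JJ
  rw [Finset.mem_filter, Finset.mem_Ico]

/-- For a profile, `j ∈ J` iff `j` is not a one and `X(j) = M`. -/
theorem mem_JJ' : j ∈ JJ u A g0 N ↔
    (g0 ≤ j ∧ j < N) ∧ j ∉ A ∧ XX u A g0 j = MM u A g0 N := by
  rw [mem_JJ]
  constructor
  · rintro ⟨⟨h1, h2⟩, h3⟩
    refine ⟨⟨h1, h2⟩, ?_⟩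
    have h4 := XX_le_MM (u := u) (A := A) h1 h2.le
    rw [cnt_succ h1] at h3
    unfold XX at h4 ⊢
    by_cases hj : j ∈ A
    · rw [if_pos hj] at h3
      push_cast at h3
      exfalso; linarith
    · rw [if_neg hj] at h3
      push_cast at h3
      exact ⟨hj, by linarith⟩
  · rintro ⟨⟨h1, h2⟩, h3, h4⟩
    refine ⟨⟨h1, h2⟩, ?_⟩
    rw [cnt_succ h1, if_neg h3]
    unfold XX at h4
    push_cast
    linarith

/-- The increments of `X` are `-1`, `0` or `1`. -/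
theorem XX_succ (hg : g0 ≤ g) :
    XX u A g0 (g + 1) = XX u A g0 g + (u (g + 1) - u g) - (if g ∈ A then 1 else 0) := by
  unfold XX
  rw [cnt_succ hg]
  push_cast
  ring

theorem JJ_props (hu : IsProf u) (hj : j ∈ JJ u A g0 N) :
    g0 ≤ j ∧ j < N ∧ j ∉ A ∧ u (j + 1) = u j ∧ j ∈ ZZ u A g0 N ∧ j + 1 ∈ ZZ u A g0 N := by
  rw [mem_JJ'] at hj
  obtain ⟨⟨h1, h2⟩, h3, h4⟩ := hj
  have h5 := XX_le_MM (u := u) (A := A) (N := N) (g := j + 1) (g0 := g0) (by omega) (by omega)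
  have h6 := XX_succ (u := u) (A := A) h1
  rw [if_neg h3] at h6
  have h7 := hu j
  have h8 : u (j + 1) = u j := by
    have : XX u A g0 (j + 1) ≤ XX u A g0 j := by rw [h4]; exact h5
    linarith [h7.1]
  refine ⟨h1, h2, h3, h8, mem_ZZ.2 ⟨⟨h1, h2.le⟩, h4⟩, mem_ZZ.2 ⟨⟨by omega, by omega⟩, ?_⟩⟩
  rw [h6, h4, h8]
  ring

theorem mem_J1 : j ∈ J1 u A g0 N ↔ (g0 ≤ j ∧ j < N) ∧ j ∉ A ∧
    XX u A g0 j = (MM u A g0 N : ℤ) - 1 ∧
      ∀ g, g0 ≤ g → g ≤ j → XX u A g0 g ≤ (MM u A g0 N : ℤ) - 1 := by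
  unfold J1
  rw [Finset.mem_filter, Finset.mem_Ico]
  simp only [Finset.mem_Icc, and_imp]

/-- Adding one column on the left. -/
theorem MM_step (h : g0 < N) : (MM u A g0 N : ℤ) =
    max 0 ((u (g0 + 1) - u g0) - (if g0 ∈ A then 1 else 0) + MM u A (g0 + 1) N) := by
  have key : ∀ x, g0 + 1 ≤ x →
      XX u A g0 x = (u (g0 + 1) - u g0) - (if g0 ∈ A then 1 else 0) + XX u A (g0 + 1) x := by
    intro x hx
    rw [XX_add (Nat.le_succ g0) hx, XX_succ le_rfl, XX_self]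
    ring
  apply le_antisymm
  · obtain ⟨g, h1, h2, h3⟩ := exists_MM (u := u) (A := A) h.le
    rw [← h3]
    rcases Nat.eq_or_lt_of_le h1 with h4 | h4
    · rw [← h4, XX_self]; exact le_max_left _ _
    · refine le_trans ?_ (le_max_right _ _)
      rw [key g h4]
      have := XX_le_MM (u := u) (A := A) (g0 := g0 + 1) h4 h2
      linarith
  · apply max_le
    · exact_mod_cast Nat.zero_le _
    · obtain ⟨g, h1, h2, h3⟩ := exists_MM (u := u) (A := A) (g0 := g0 + 1) (N := N) h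
      rw [← h3, ← key g h1]
      exact XX_le_MM (by omega) h2

theorem MM_congr (hu : ∀ x, g0 ≤ x → x ≤ N → u x = u' x)
    (hA : ∀ i, g0 ≤ i → i < N → (i ∈ A ↔ i ∈ B)) : MM u A g0 N = MM u' B g0 N := by
  unfold MM
  refine Finset.sup_congr rfl fun g hg => ?_
  rw [Finset.mem_Icc] at hg
  rw [XX_congr (fun x h1 h2 => hu x h1 (h2.trans hg.2))
    (fun i h1 h2 => hA i h1 (lt_of_lt_of_le h2 hg.2)) hg.1]

theorem JJ_congr (hu : ∀ x, g0 ≤ x → x ≤ N → u x = u' x)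
    (hA : ∀ i, g0 ≤ i → i < N → (i ∈ A ↔ i ∈ B)) : JJ u A g0 N = JJ u' B g0 N := by
  ext j
  rw [mem_JJ', mem_JJ', MM_congr hu hA]
  refine and_congr_right fun h => ?_
  rw [hA j h.1 h.2, XX_congr (fun x h1 h2 => hu x h1 (h2.trans h.2.le))
    (fun i h1 h2 => hA i h1 (h2.trans h.2)) h.1]

theorem ZZ_congr (hu : ∀ x, g0 ≤ x → x ≤ N → u x = u' x)
    (hA : ∀ i, g0 ≤ i → i < N → (i ∈ A ↔ i ∈ B)) : ZZ u A g0 N = ZZ u' B g0 N := by
  ext j
  rw [mem_ZZ, mem_ZZ, MM_congr hu hA]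
  refine and_congr_right fun h => ?_
  rw [XX_congr (fun x h1 h2 => hu x h1 (h2.trans h.2))
    (fun i h1 h2 => hA i h1 (lt_of_lt_of_le h2 h.2)) h.1]

theorem J1_congr (hu : ∀ x, g0 ≤ x → x ≤ N → u x = u' x)
    (hA : ∀ i, g0 ≤ i → i < N → (i ∈ A ↔ i ∈ B)) : J1 u A g0 N = J1 u' B g0 N := by
  have key : ∀ g, g0 ≤ g → g ≤ N → XX u A g0 g = XX u' B g0 g := fun g h1 h2 =>
    XX_congr (fun x h3 h4 => hu x h3 (h4.trans h2))
      (fun i h3 h4 => hA i h3 (lt_of_lt_of_le h4 h2)) h1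
  ext j
  rw [mem_J1, mem_J1, MM_congr hu hA]
  refine and_congr_right fun h => ?_
  rw [hA j h.1 h.2, key j h.1 h.2.le]
  refine and_congr_right fun _ => and_congr_right fun _ => ?_
  exact forall_congr' fun g => forall_congr' fun h1 => forall_congr' fun h2 => by
    rw [key g h1 (h2.trans h.2.le)]

theorem mem_inter_Ico_iff {i : ℕ} (h1 : g0 ≤ i) (h2 : i < N) : i ∈ A ∩ Ico g0 N ↔ i ∈ A := by
  simp [h1, h2]

/-- Removing the ones outside `[g0, N)` changes nothing. -/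
theorem MM_inter : MM u (A ∩ Ico g0 N) g0 N = MM u A g0 N :=
  MM_congr (fun _ _ _ => rfl) fun _ h1 h2 => mem_inter_Ico_iff h1 h2

theorem JJ_inter : JJ u (A ∩ Ico g0 N) g0 N = JJ u A g0 N :=
  JJ_congr (fun _ _ _ => rfl) fun _ h1 h2 => mem_inter_Ico_iff h1 h2

theorem ZZ_inter : ZZ u (A ∩ Ico g0 N) g0 N = ZZ u A g0 N :=
  ZZ_congr (fun _ _ _ => rfl) fun _ h1 h2 => mem_inter_Ico_iff h1 h2

theorem J1_inter : J1 u (A ∩ Ico g0 N) g0 N = J1 u A g0 N :=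
  J1_congr (fun _ _ _ => rfl) fun _ h1 h2 => mem_inter_Ico_iff h1 h2

end Pool.Agent.LCS13
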