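import Pool.Agent.Work.MP_bec1e1_pr_h13.Interface
import Pool.Agent.Work.MP_bec1e1_pr_h13.LP
import Pool.Agent.Work.MP_bec1e1_pr_h13.ES
import Pool.Agent.Work.MP_bec1e1_pr_h13.SYS

/-!
# Columns in segments: resampling one letter (block B)
-/

open Finset BigOperators Filter
open scoped Classical

namespace Pool.Agent.LCS13

/-- Changing one column: the pairs of `J` become pairs of `J` or of `J1`. -/
theorem resample_pair {a b b' : ℕ → Option ℕ} {t N i j : ℕ} {A : Finset ℕ}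
    (hb : ∀ x, x ≠ j → b x = b' x) (hij : i < j)
    (hj : j ∈ JJ (uu a b' t) A 0 N) (hi : i ∈ JJ (uu a b' t) A 0 N) :
    (i ∈ JJ (uu a b t) A 0 N ∧ j ∈ JJ (uu a b t) A 0 N) ∨
      (i ∈ J1 (uu a b t) A 0 N ∧ j ∈ J1 (uu a b t) A 0 N) := by
  have hu : ∀ g, g ≤ j → uu a b t g = uu a b' t g := fun g hg =>
    uu_congr (fun _ _ => rfl) (fun y hy => hb y (by omega))
  have hX : ∀ g, g ≤ j → XX (uu a b t) A 0 g = XX (uu a b' t) A 0 g := fun g hg => by
    unfold XX
    rw [hu g hg, hu 0 (Nat.zero_le j)]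
  have hX1 : ∀ g, XX (uu a b t) A 0 g ≤ XX (uu a b' t) A 0 g + 1 := fun g => by
    unfold XX
    rw [uu_zero, uu_zero]
    have h1 : lp (mt a b) 0 0 t g ≤ lp (mt a b') 0 0 t g + 1 :=
      lp_col_change j (fun x y hy => by unfold mt; rw [hb y hy])
    unfold uu
    have h2 : (lp (mt a b) 0 0 t g : ℤ) ≤ lp (mt a b') 0 0 t g + 1 := by exact_mod_cast h1
    linarith
  rw [mem_JJ'] at hi hj
  obtain ⟨⟨-, hjN⟩, hjA, hjX⟩ := hj
  obtain ⟨⟨-, hiN⟩, hiA, hiX⟩ := hi
  have hM1 : MM (uu a b' t) A 0 N ≤ MM (uu a b t) A 0 N := by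
    have h1 := XX_le_MM (u := uu a b t) (A := A) (Nat.zero_le j) hjN.le
    rw [hX j le_rfl, hjX] at h1
    exact_mod_cast h1
  have hM2 : MM (uu a b t) A 0 N ≤ MM (uu a b' t) A 0 N + 1 := by
    rw [MM_le_iff (Nat.zero_le N)]
    intro g h1 h2
    have h3 := XX_le_MM (u := uu a b' t) (A := A) h1 h2
    have h4 := hX1 g
    push_cast
    linarith
  rcases Nat.eq_or_lt_of_le hM1 with hM | hM
  · left
    rw [mem_JJ', mem_JJ', hX j le_rfl, hX i hij.le, ← hM]
    exact ⟨⟨⟨Nat.zero_le _, hiN⟩, hiA, hiX⟩, ⟨⟨Nat.zero_le _, hjN⟩, hjA, hjX⟩⟩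
  · right
    have hM' : (MM (uu a b t) A 0 N : ℤ) - 1 = MM (uu a b' t) A 0 N := by
      have : MM (uu a b t) A 0 N = MM (uu a b' t) A 0 N + 1 := by omega
      rw [this]; push_cast; ring
    rw [mem_J1, mem_J1, hM', hX j le_rfl, hX i hij.le]
    refine ⟨⟨⟨Nat.zero_le _, hiN⟩, hiA, hiX, fun g h1 h2 => ?_⟩,
      ⟨⟨Nat.zero_le _, hjN⟩, hjA, hjX, fun g h1 h2 => ?_⟩⟩
    · rw [hX g (by omega)]
      exact XX_le_MM h1 (by omega)
    · rw [hX g h2]
      exact XX_le_MM h1 (by omega)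

section seg
variable {s K R : ℕ}

/-- Allowed letters for the position `q`. -/
noncomputable def Al (v : Seg s K) (q : Fin s) : Finset (Fin K) :=
  {y | ∀ q', q' ≠ q → v.1 q' ≠ y}

theorem mem_Al {v : Seg s K} {q : Fin s} {y : Fin K} :
    y ∈ Al v q ↔ ∀ q', q' ≠ q → v.1 q' ≠ y := by
  unfold Al
  simp

theorem card_Al (v : Seg s K) (q : Fin s) : #(Al v q) = K - s + 1 := by
  have h1 : Al v q = univ \ ((univ.erase q).image v.1) := by
    ext y
    rw [mem_Al]
    simp only [Finset.mem_sdiff, Finset.mem_univ, true_and, Finset.mem_image, Finset.mem_erase,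
      and_true, not_exists, not_and, ne_eq]
  have h2 : #((univ.erase q).image v.1) = s - 1 := by
    rw [card_image_of_injective _ v.2, card_erase_of_mem (mem_univ q), card_univ, Fintype.card_fin]
  have h3 : s ≤ K := by
    have := Fintype.card_le_of_injective v.1 v.2
    simpa using this
  have h4 : 0 < s := q.pos
  rw [h1, card_sdiff_of_subset (subset_univ _), h2, card_univ, Fintype.card_fin]
  omega

/-- Replacing the letter at position `q`. -/
noncomputable def upd (v : Seg s K) (q : Fin s) (y : Fin K) : Seg s K :=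
  if h : ∀ q', q' ≠ q → v.1 q' ≠ y then
    ⟨Function.update v.1 q y, by
      intro x z hxz
      by_cases hx : x = q <;> by_cases hz : z = q
      · rw [hx, hz]
      · subst hx
        rw [Function.update_self, Function.update_of_ne hz] at hxz
        exact absurd hxz.symm (h z hz)
      · subst hz
        rw [Function.update_self, Function.update_of_ne hx] at hxz
        exact absurd hxz (h x hx)
      · rw [Function.update_of_ne hx, Function.update_of_ne hz] at hxz
        exact v.2 hxz⟩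
  else v

theorem upd_self {v : Seg s K} {q : Fin s} {y : Fin K} (h : y ∈ Al v q) :
    (upd v q y).1 q = y := by
  unfold upd
  rw [dif_pos (mem_Al.1 h)]
  simp

theorem upd_ne {v : Seg s K} {q q' : Fin s} {y : Fin K} (h : q' ≠ q) :
    (upd v q y).1 q' = v.1 q' := by
  unfold upd
  split_ifs with h1
  · simp [h]
  · rfl

theorem self_mem_Al {v : Seg s K} {q : Fin s} {y : Fin K} : v.1 q ∈ Al (upd v q y) q := by
  rw [mem_Al]
  intro q' hq' h
  rw [upd_ne hq'] at h
  exact hq' (v.2 h)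

theorem upd_upd {v : Seg s K} {q : Fin s} {y : Fin K} :
    upd (upd v q y) q (v.1 q) = v := by
  apply Subtype.ext
  funext x
  by_cases hx : x = q
  · subst hx
    exact upd_self self_mem_Al
  · rw [upd_ne hx, upd_ne hx]

/-- Resampling one letter. -/
theorem sum_resample (p : Fin R) (q : Fin s) (F : (Fin R → Seg s K) → ℝ) :
    ∑ ω, ∑ y ∈ Al (ω p) q, F (Function.update ω p (upd (ω p) q y)) =
      ((K - s + 1 : ℕ) : ℝ) * ∑ ω, F ω := by
  have h1 : ((K - s + 1 : ℕ) : ℝ) * ∑ ω, F ω = ∑ ω, ∑ y ∈ Al (ω p) q, F ω := by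
    rw [mul_sum]
    refine sum_congr rfl fun ω _ => ?_
    rw [sum_const, card_Al, nsmul_eq_mul]
  rw [h1, sum_sigma', sum_sigma']
  refine sum_bij' (fun x _ => ⟨Function.update x.1 p (upd (x.1 p) q x.2), (x.1 p).1 q⟩)
    (fun x _ => ⟨Function.update x.1 p (upd (x.1 p) q x.2), (x.1 p).1 q⟩) ?_ ?_ ?_ ?_ ?_
  · intro x hx
    rw [mem_sigma] at hx ⊢
    refine ⟨mem_univ _, ?_⟩
    simp only [Function.update_self]
    exact self_mem_Al
  · intro x hx
    rw [mem_sigma] at hx ⊢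
    refine ⟨mem_univ _, ?_⟩
    simp only [Function.update_self]
    exact self_mem_Al
  · rintro ⟨ω, y⟩ hx
    rw [mem_sigma] at hx
    simp only [Function.update_self, Function.update_idem, upd_upd, Function.update_eq_self]
    rw [upd_self hx.2]
  · rintro ⟨ω, y⟩ hx
    rw [mem_sigma] at hx
    simp only [Function.update_self, Function.update_idem, upd_upd, Function.update_eq_self]
    rw [upd_self hx.2]
  · rintro ⟨ω, y⟩ hx
    rfl

/-- Equal letters are far apart. -/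
theorem sw_far (ω : Fin R → Seg s K) {i j : ℕ} (hij : i < j) (hj : j < R * s)
    (h : sw ω i = sw ω j) : i + s ≤ j := by
  have hs : 0 < s := by
    rcases Nat.eq_zero_or_pos s with h0 | h0
    · subst h0; simp at hj
    · exact h0
  have hi : i < R * s := by omega
  have a1 : i / s < R := (Nat.div_lt_iff_lt_mul hs).2 hi
  have a2 : j / s < R := (Nat.div_lt_iff_lt_mul hs).2 hj
  have b1 : i % s < s := Nat.mod_lt _ hs
  have b2 : j % s < s := Nat.mod_lt _ hs
  unfold sw at h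
  rw [dif_pos ⟨a1, b1⟩, dif_pos ⟨a2, b2⟩] at h
  have h' := Option.some.inj h
  have c1 := ((ω ⟨i / s, a1⟩).1 ⟨i % s, b1⟩).2
  have c2 := ((ω ⟨j / s, a2⟩).1 ⟨j % s, b2⟩).2
  have d1 := Nat.div_add_mod i s
  have d2 := Nat.div_add_mod j s
  have hle : i / s ≤ j / s := Nat.div_le_div_right hij.le
  rcases Nat.eq_or_lt_of_le hle with h1 | h1
  · exfalso
    have e1 : (⟨i / s, a1⟩ : Fin R) = ⟨j / s, a2⟩ := Fin.ext h1
    have e0 : i / s % 2 = j / s % 2 := by rw [h1]
    rw [e1, e0] at h'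
    have e2 : (ω ⟨j / s, a2⟩).1 ⟨i % s, b1⟩ = (ω ⟨j / s, a2⟩).1 ⟨j % s, b2⟩ :=
      Fin.ext (by omega)
    have e3 := (ω ⟨j / s, a2⟩).2 e2
    have e4 : i % s = j % s := congrArg Fin.val e3
    rw [h1, e4] at d1
    omega
  · rcases Nat.eq_or_lt_of_le h1 with h2 | h2
    · exfalso
      have e5 : (j / s) % 2 = 1 - (i / s) % 2 := by omega
      rcases Nat.mod_two_eq_zero_or_one (i / s) with h3 | h3
      · rw [e5, h3] at h'
        simp at h'
        omega
      · rw [e5, h3] at h'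
        simp at h'
        omega
    · have e6 : s * (i / s + 2) ≤ s * (j / s) := Nat.mul_le_mul_left s h2
      rw [Nat.mul_add] at e6
      omega

theorem sw_update_ne (ω : Fin R → Seg s K) (p : Fin R) (q : Fin s) (y : Fin K) {x : ℕ}
    (hx : x ≠ p * s + q) : sw (Function.update ω p (upd (ω p) q y)) x = sw ω x := by
  unfold sw
  by_cases h : x / s < R ∧ x % s < s
  · rw [dif_pos h, dif_pos h]
    congr 2
    by_cases hp : (⟨x / s, h.1⟩ : Fin R) = p
    · subst hp
      rw [Function.update_self, upd_ne]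
      intro hq
      apply hx
      have h1 : x % s = q := congrArg Fin.val hq
      have := Nat.div_add_mod x s
      rw [h1, mul_comm] at this
      exact this.symm
    · rw [Function.update_of_ne hp]
  · rw [dif_neg h, dif_neg h]

theorem sw_update_self (ω : Fin R → Seg s K) (p : Fin R) (q : Fin s) (y : Fin K)
    (hy : y ∈ Al (ω p) q) : sw (Function.update ω p (upd (ω p) q y)) (p * s + q) =
      some ((y : ℕ) + (p % 2 : ℕ) * K) := by
  have hs : 0 < s := q.pos
  have h1 : (p * s + q : ℕ) / s = p := by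
    rw [mul_comm, Nat.mul_add_div hs, Nat.div_eq_of_lt q.2, add_zero]
  have h2 : (p * s + q : ℕ) % s = q := by
    rw [mul_comm, Nat.mul_add_mod, Nat.mod_eq_of_lt q.2]
  unfold sw
  rw [dif_pos ⟨by rw [h1]; exact p.2, by rw [h2]; exact q.2⟩]
  have h3 : (⟨(p * s + q : ℕ) / s, by rw [h1]; exact p.2⟩ : Fin R) = p := Fin.ext h1
  have h4 : (⟨(p * s + q : ℕ) % s, by rw [h2]; exact q.2⟩ : Fin s) = q := Fin.ext h2
  rw [h3, h4, Function.update_self, upd_self hy, h1]

theorem expect_resampleB (p : Fin R) (q : Fin s) (F : (Fin R → Seg s K) → ℝ) :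
    ((K - s + 1 : ℕ) : ℝ) * 𝔼 ω, F ω =
      𝔼 ω, ∑ y ∈ Al (ω p) q, F (Function.update ω p (upd (ω p) q y)) := by
  rw [Fintype.expect_eq_sum_div_card, Fintype.expect_eq_sum_div_card, sum_resample]
  ring

end seg

/-- The column `j` of `J` repeats the letter of an earlier column of `J`. -/
def Bad (b : ℕ → Option ℕ) (J : Finset ℕ) (j : ℕ) : Prop := j ∈ J ∧ ∃ i ∈ J, i < j ∧ b i = b j

theorem card_sub_imageB (b : ℕ → Option ℕ) {J : Finset ℕ} {N : ℕ} (hJ : J ⊆ range N) :
    (#J : ℝ) - (#(J.image b) : ℝ) ≤ ∑ j ∈ range N, ind (Bad b J j) := by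
  have h1 : ∑ j ∈ range N, ind (Bad b J j) = (#((range N).filter (Bad b J)) : ℝ) := by
    rw [Finset.card_filter]
    push_cast
    rfl
  have h2 : #(J.filter (Bad b J)) ≤ #((range N).filter (Bad b J)) :=
    Finset.card_le_card (Finset.filter_subset_filter _ hJ)
  have h3 : #(J.filter (fun j => ¬ Bad b J j)) ≤ #(J.image b) := by
    rw [← Finset.card_image_of_injOn (s := J.filter (fun j => ¬ Bad b J j)) (f := b)]
    · exact Finset.card_le_card (Finset.image_subset_image (Finset.filter_subset _ _))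
    · intro x hx y hy hxy
      simp only [Finset.coe_filter, Set.mem_ofPred_eq] at hx hy
      rcases lt_trichotomy x y with h | h | h
      · exact absurd ⟨hy.1, x, hx.1, h, hxy⟩ hy.2
      · exact h
      · exact absurd ⟨hx.1, y, hy.1, h, hxy.symm⟩ hx.2
  have h4 := Finset.card_filter_add_card_filter_not (s := J) (Bad b J)
  have h5 : #J ≤ #((range N).filter (Bad b J)) + #(J.image b) := by omega
  rw [h1]
  have h6 : (#J : ℝ) ≤ #((range N).filter (Bad b J)) + #(J.image b) := by exact_mod_cast h5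
  linarith

/-- The points of `B` far to the left of `j ∈ B`. -/
noncomputable def farL (s : ℕ) (B : Finset ℕ) (j : ℕ) : Finset ℕ :=
  B.filter (fun i => j ∈ B ∧ i + s ≤ j)

theorem sum_farL (s : ℕ) (B : Finset ℕ) (N : ℕ) :
    ∑ j ∈ range N, (#(farL s B j) : ℝ) ≤ (#{p ∈ B ×ˢ B | p.1 + s ≤ p.2} : ℝ) := by
  have h1 : ∑ j ∈ range N, #(farL s B j) = #((range N).sigma (farL s B)) :=
    (Finset.card_sigma _ _).symm
  have h2 : #((range N).sigma (farL s B)) ≤ #{p ∈ B ×ˢ B | p.1 + s ≤ p.2} := by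
    refine Finset.card_le_card_of_injOn (fun x => (x.2, x.1)) ?_ ?_
    · rintro ⟨j, i⟩ hx
      simp only [Finset.coe_sigma, Set.mem_sigma_iff, Finset.mem_coe, farL,
        Finset.mem_filter] at hx
      simp only [Finset.coe_filter, Finset.mem_product, Set.mem_ofPred_eq]
      exact ⟨⟨hx.2.1, hx.2.2.1⟩, hx.2.2.2⟩
    · rintro ⟨j, i⟩ _ ⟨j', i'⟩ _ h
      simp only [Prod.mk.injEq] at h
      obtain ⟨h1, h2⟩ := h
      subst h1; subst h2
      rfl
  exact_mod_cast h1 ▸ h2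

/-- One letter resampled: pointwise bound. -/
theorem resample_count {s K R t : ℕ} (a : ℕ → Option ℕ) (ω : Fin R → Seg s K) (p : Fin R)
    (q : Fin s) (A : Finset ℕ) :
    ∑ y ∈ Al (ω p) q, ind (Bad (sw (Function.update ω p (upd (ω p) q y)))
      (JJ (uu a (sw (Function.update ω p (upd (ω p) q y))) t) A 0 (R * s)) (p * s + q)) ≤
    (#(farL s (JJ (uu a (sw ω) t) A 0 (R * s)) (p * s + q)) : ℝ) +
      (#(farL s (J1 (uu a (sw ω) t) A 0 (R * s)) (p * s + q)) : ℝ) := by
  set j : ℕ := p * s + q with hj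
  set w : Fin K → (Fin R → Seg s K) := fun y => Function.update ω p (upd (ω p) q y) with hw
  set P : Fin K → Prop := fun y => Bad (sw (w y)) (JJ (uu a (sw (w y)) t) A 0 (R * s)) j with hP
  have h1 : ∑ y ∈ Al (ω p) q, ind (P y) = (#((Al (ω p) q).filter P) : ℝ) := by
    rw [Finset.card_filter]
    push_cast
    rfl
  show ∑ y ∈ Al (ω p) q, ind (P y) ≤ _
  rw [h1]
  have h2 : #((Al (ω p) q).filter P) ≤ #(farL s (JJ (uu a (sw ω) t) A 0 (R * s)) j ∪
      farL s (J1 (uu a (sw ω) t) A 0 (R * s)) j) := by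
    have hch : ∀ y, ∃ i, P y → i ∈ JJ (uu a (sw (w y)) t) A 0 (R * s) ∧ i < j ∧
        sw (w y) i = sw (w y) j := by
      intro y
      by_cases h : P y
      · obtain ⟨_, i, h3, h4, h5⟩ := h
        exact ⟨i, fun _ => ⟨h3, h4, h5⟩⟩
      · exact ⟨0, fun h' => absurd h' h⟩
    choose I hI using hch
    refine Finset.card_le_card_of_injOn I ?_ ?_
    · intro y hy
      rw [Finset.mem_coe, Finset.mem_filter] at hy
      obtain ⟨h3, h4, h5⟩ := hI y hy.2
      have h6 := hy.2.1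
      have h7 : j < R * s := (mem_JJ.1 h6).1.2
      have h8 : I y + s ≤ j := sw_far (w y) h4 h7 h5
      rcases resample_pair (b := sw ω) (fun x hx => (sw_update_ne ω p q y hx).symm) h4 h6 h3
        with h9 | h9
      · rw [Finset.mem_coe, Finset.mem_union]
        left
        exact Finset.mem_filter.2 ⟨h9.1, h9.2, h8⟩
      · rw [Finset.mem_coe, Finset.mem_union]
        right
        exact Finset.mem_filter.2 ⟨h9.1, h9.2, h8⟩
    · intro y hy z hz hyz
      rw [Finset.mem_coe, Finset.mem_filter] at hy hz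
      obtain ⟨h3, h4, h5⟩ := hI y hy.2
      obtain ⟨h3', h4', h5'⟩ := hI z hz.2
      have e1 : sw (w y) (I y) = sw ω (I y) := sw_update_ne ω p q y h4.ne
      have e2 : sw (w z) (I z) = sw ω (I z) := sw_update_ne ω p q z h4'.ne
      have e3 : sw (w y) j = some ((y : ℕ) + (p % 2 : ℕ) * K) := sw_update_self ω p q y hy.1
      have e4 : sw (w z) j = some ((z : ℕ) + (p % 2 : ℕ) * K) := sw_update_self ω p q z hz.1
      rw [e1, e3] at h5
      rw [e2, e4, ← hyz, h5] at h5'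
      have := Option.some.inj h5'
      exact Fin.ext (by omega)
  have h3 := Finset.card_union_le (farL s (JJ (uu a (sw ω) t) A 0 (R * s)) j)
    (farL s (J1 (uu a (sw ω) t) A 0 (R * s)) j)
  exact_mod_cast h2.trans h3

/-- Sum of the resampling bounds. -/
theorem del_seg_le {k s K R t : ℕ} (hk : 0 < k) (hs : 0 < s) (hsK : s ≤ K) {ρ B : ℝ} (h0 : 0 ≤ ρ)
    (h1 : ρ ≤ 1) (hB : ∀ u, IsProf u →
      ES ρ (range (R * s)) (fun A =>
        (#{p ∈ JJ u A 0 (R * s) ×ˢ JJ u A 0 (R * s) | p.1 + s ≤ p.2} : ℝ)) ≤ B ∧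
      ES ρ (range (R * s)) (fun A =>
        (#{p ∈ J1 u A 0 (R * s) ×ˢ J1 u A 0 (R * s) | p.1 + s ≤ p.2} : ℝ)) ≤ B) :
    ((K - s + 1 : ℕ) : ℝ) * 𝔼 ω : Fin R → Seg s K, del k (sw ω) t (R * s) ρ ≤ 2 * B := by
  have : NeZero k := ⟨hk.ne'⟩
  have : Nonempty (Seg s K) := ⟨⟨Fin.castLE hsK, Fin.castLE_injective hsK⟩⟩
  set F : ℕ → (Fin R → Seg s K) → ℝ := fun j ω => 𝔼 a : Fin t → Fin k, ES ρ (range (R * s))
    fun A => ind (Bad (sw ω) (JJ (uu (wn a) (sw ω) t) A 0 (R * s)) j) with hF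
  have step1 : ∀ ω : Fin R → Seg s K, del k (sw ω) t (R * s) ρ ≤ ∑ j ∈ range (R * s), F j ω := by
    intro ω
    simp only [hF]
    rw [← Finset.expect_sum_comm]
    unfold del
    refine Finset.expect_le_expect fun a _ => ?_
    rw [← ES_sum]
    refine ES_mono h0 h1 fun A _ => ?_
    refine card_sub_imageB (sw ω) fun j hj => ?_
    exact Finset.mem_range.2 (mem_JJ.1 hj).1.2
  have step2 : ∀ j ∈ range (R * s), ((K - s + 1 : ℕ) : ℝ) * 𝔼 ω, F j ω ≤
      𝔼 ω : Fin R → Seg s K, 𝔼 a : Fin t → Fin k, ES ρ (range (R * s)) fun A =>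
        ((#(farL s (JJ (uu (wn a) (sw ω) t) A 0 (R * s)) j) : ℝ) +
          (#(farL s (J1 (uu (wn a) (sw ω) t) A 0 (R * s)) j) : ℝ)) := by
    intro j hj
    rw [Finset.mem_range] at hj
    have hp : j / s < R := (Nat.div_lt_iff_lt_mul hs).2 hj
    have hq : j % s < s := Nat.mod_lt _ hs
    have hjj : ((⟨j / s, hp⟩ : Fin R) : ℕ) * s + ((⟨j % s, hq⟩ : Fin s) : ℕ) = j := by
      have := Nat.div_add_mod j s
      rw [mul_comm] at this
      exact this
    rw [expect_resampleB ⟨j / s, hp⟩ ⟨j % s, hq⟩ (F j)]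
    refine Finset.expect_le_expect fun ω _ => ?_
    simp only [hF]
    rw [← Finset.expect_sum_comm]
    refine Finset.expect_le_expect fun a _ => ?_
    rw [← ES_sum]
    refine ES_mono h0 h1 fun A _ => ?_
    have := resample_count (t := t) (wn a) ω ⟨j / s, hp⟩ ⟨j % s, hq⟩ A
    rw [hjj] at this
    exact this
  calc ((K - s + 1 : ℕ) : ℝ) * 𝔼 ω : Fin R → Seg s K, del k (sw ω) t (R * s) ρ
      ≤ ((K - s + 1 : ℕ) : ℝ) * 𝔼 ω : Fin R → Seg s K, ∑ j ∈ range (R * s), F j ω :=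
        mul_le_mul_of_nonneg_left (Finset.expect_le_expect fun ω _ => step1 ω) (Nat.cast_nonneg _)
    _ = ∑ j ∈ range (R * s), ((K - s + 1 : ℕ) : ℝ) * 𝔼 ω : Fin R → Seg s K, F j ω := by
        rw [Finset.expect_sum_comm, Finset.mul_sum]
    _ ≤ ∑ j ∈ range (R * s), 𝔼 ω : Fin R → Seg s K, 𝔼 a : Fin t → Fin k,
          ES ρ (range (R * s)) fun A =>
          ((#(farL s (JJ (uu (wn a) (sw ω) t) A 0 (R * s)) j) : ℝ) +
            (#(farL s (J1 (uu (wn a) (sw ω) t) A 0 (R * s)) j) : ℝ)) :=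
        Finset.sum_le_sum step2
    _ = 𝔼 ω : Fin R → Seg s K, 𝔼 a : Fin t → Fin k, ES ρ (range (R * s)) fun A =>
          ∑ j ∈ range (R * s), ((#(farL s (JJ (uu (wn a) (sw ω) t) A 0 (R * s)) j) : ℝ) +
            (#(farL s (J1 (uu (wn a) (sw ω) t) A 0 (R * s)) j) : ℝ)) := by
        rw [← Finset.expect_sum_comm]
        refine Finset.expect_congr rfl fun ω _ => ?_
        rw [← Finset.expect_sum_comm]
        refine Finset.expect_congr rfl fun a _ => ?_
        rw [← ES_sum]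
    _ ≤ 𝔼 ω : Fin R → Seg s K, 𝔼 a : Fin t → Fin k, (2 * B) := by
        refine Finset.expect_le_expect fun ω _ => Finset.expect_le_expect fun a _ => ?_
        obtain ⟨b1, b2⟩ := hB (uu (wn a) (sw ω) t) (uu_prof _ _ _)
        calc ES ρ (range (R * s)) (fun A => ∑ j ∈ range (R * s),
              ((#(farL s (JJ (uu (wn a) (sw ω) t) A 0 (R * s)) j) : ℝ) +
                (#(farL s (J1 (uu (wn a) (sw ω) t) A 0 (R * s)) j) : ℝ)))
            ≤ ES ρ (range (R * s)) (fun A =>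
              (#{p ∈ JJ (uu (wn a) (sw ω) t) A 0 (R * s) ×ˢ JJ (uu (wn a) (sw ω) t) A 0 (R * s) |
                p.1 + s ≤ p.2} : ℝ) +
              (#{p ∈ J1 (uu (wn a) (sw ω) t) A 0 (R * s) ×ˢ J1 (uu (wn a) (sw ω) t) A 0 (R * s) |
                p.1 + s ≤ p.2} : ℝ)) := by
              refine ES_mono h0 h1 fun A _ => ?_
              rw [Finset.sum_add_distrib]
              exact add_le_add (sum_farL _ _ _) (sum_farL _ _ _)
          _ ≤ 2 * B := by
              rw [ES_add]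
              linarith
    _ = 2 * B := by
        rw [Fintype.expect_const, Fintype.expect_const]

/-- BMAIN. -/
theorem stmt_B (hU : Stmt_U23) : Stmt_B := by
  intro c1 c2 ε hc1 hc2 hε
  have h8 : 0 < ε / 8 := by positivity
  have hsq : ∀ᶠ k : ℕ in atTop, c2 ≤ √(k : ℝ) :=
    (Real.tendsto_sqrt_atTop.comp tendsto_natCast_atTop_atTop).eventually_ge_atTop c2
  filter_upwards [hU c1 c2 (ε / 8) hc1 hc2 h8, eventually_ge_atTop 8, hsq] with k hk hk8 hkc
  intro ρ hρ1 hρ2 t R hR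
  have hkpos : (0 : ℝ) < k := by
    have : 0 < k := by omega
    exact_mod_cast this
  have hs0 : 0 < √(k : ℝ) := Real.sqrt_pos.2 hkpos
  have hρ0 : 0 ≤ ρ := by
    by_contra h
    push Not at h
    have : ρ * √(k : ℝ) < 0 := mul_neg_of_neg_of_pos h hs0
    linarith
  have hρ1' : ρ ≤ 1 := by
    by_contra h
    push Not at h
    have : √(k : ℝ) < ρ * √(k : ℝ) := by nlinarith
    linarith
  have hmain := del_seg_le (k := k) (s := k / 2 / 2) (K := k / 2) (R := R) (t := t) (by omega)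
    (by omega) (by omega) hρ0 hρ1' (B := ε / 8 * k) (fun u hu => hk ρ hρ1 hρ2 _ hR u hu)
  have hc : (k : ℝ) / 4 ≤ ((k / 2 - k / 2 / 2 + 1 : ℕ) : ℝ) := by
    have : k ≤ 4 * (k / 2 - k / 2 / 2 + 1) := by omega
    have h2 : (k : ℝ) ≤ 4 * ((k / 2 - k / 2 / 2 + 1 : ℕ) : ℝ) := by exact_mod_cast this
    linarith
  by_contra hcon
  push Not at hcon
  have h3 : (k : ℝ) / 4 * ε < ((k / 2 - k / 2 / 2 + 1 : ℕ) : ℝ) *
      𝔼 ω : Fin R → Seg (k / 2 / 2) (k / 2), del k (sw ω) t (R * (k / 2 / 2)) ρ := by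
    calc (k : ℝ) / 4 * ε < (k : ℝ) / 4 *
        𝔼 ω : Fin R → Seg (k / 2 / 2) (k / 2), del k (sw ω) t (R * (k / 2 / 2)) ρ :=
          mul_lt_mul_of_pos_left hcon (by positivity)
      _ ≤ _ := mul_le_mul_of_nonneg_right hc (hε.le.trans hcon.le)
  linarith

end Pool.Agent.LCS13

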