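import Pool.Agent.Work.MP_bec1e1_pr_h13.C1Aux

/-!
# Segment words beat random words (block C1)
-/

open Finset BigOperators Filter
open scoped Classical

namespace Pool.Agent.LCS13

/-- The error term of EMAX is small. -/
theorem err_small (δ : ℝ) (hδ : 0 < δ) : ∀ᶠ k : ℕ in atTop, ∀ T R s : ℕ, s ≤ k →
    T ≤ 10 ^ 4 * k ^ 4 → R ≤ 3 * 10 ^ 9 * k ^ 3 →
    4 * √(((T : ℝ) + R * (s : ℝ) ^ 2) * Real.log (((R * s : ℕ) : ℝ) + 2)) ≤ δ * (k : ℝ) ^ 3 := by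
  have h1 : ∀ᶠ k : ℕ in atTop, Real.log (k : ℝ) ≤ δ ^ 2 / (16 * (2 * 10 ^ 10)) * (k : ℝ) := by
    have h2 := (Real.isLittleO_log_id_atTop.comp_tendsto tendsto_natCast_atTop_atTop).def
      (show (0 : ℝ) < δ ^ 2 / (16 * (2 * 10 ^ 10)) by positivity)
    filter_upwards [h2, eventually_ge_atTop 1] with k hk hk1
    simp only [Function.comp_apply, id_eq, Real.norm_eq_abs] at hk
    have e : |(k : ℝ)| = k := abs_of_nonneg (Nat.cast_nonneg k)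
    rw [e] at hk
    exact (le_abs_self _).trans hk
  filter_upwards [h1, eventually_ge_atTop (4 * 10 ^ 9)] with k hk hk1 T R s hs hT hR
  have hkr : (4 * 10 ^ 9 : ℝ) ≤ k := by exact_mod_cast hk1
  have hk0 : (0 : ℝ) < k := by linarith
  have hsr : (s : ℝ) ≤ k := by exact_mod_cast hs
  have hs0 : (0 : ℝ) ≤ s := Nat.cast_nonneg s
  have hTr : (T : ℝ) ≤ 10 ^ 4 * (k : ℝ) ^ 4 := by exact_mod_cast hT
  have hRr : (R : ℝ) ≤ 3 * 10 ^ 9 * (k : ℝ) ^ 3 := by exact_mod_cast hR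
  have hR0 : (0 : ℝ) ≤ R := Nat.cast_nonneg R
  have a1 : (R : ℝ) * (s : ℝ) ^ 2 ≤ 3 * 10 ^ 9 * (k : ℝ) ^ 5 := by
    calc (R : ℝ) * (s : ℝ) ^ 2 ≤ 3 * 10 ^ 9 * (k : ℝ) ^ 3 * (k : ℝ) ^ 2 := by gcongr
      _ = _ := by ring
  have a2 : (k : ℝ) ^ 4 * 1 ≤ (k : ℝ) ^ 4 * k := by
    refine mul_le_mul_of_nonneg_left (by linarith) (by positivity)
  have a3 : (T : ℝ) + R * (s : ℝ) ^ 2 ≤ 4 * 10 ^ 9 * (k : ℝ) ^ 5 := by
    have : (k : ℝ) ^ 5 = (k : ℝ) ^ 4 * k := by ring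
    nlinarith
  have b1 : ((R * s : ℕ) : ℝ) + 2 ≤ (k : ℝ) ^ 5 := by
    push_cast
    have b2 : (R : ℝ) * (s : ℝ) ≤ 3 * 10 ^ 9 * (k : ℝ) ^ 3 * (k : ℝ) := by gcongr
    have b3 : (1 : ℝ) ≤ (k : ℝ) ^ 4 := one_le_pow₀ (by linarith)
    have b4 : (k : ℝ) ^ 5 = (k : ℝ) ^ 4 * k := by ring
    have b5 : (k : ℝ) ^ 4 * (4 * 10 ^ 9) ≤ (k : ℝ) ^ 4 * k :=
      mul_le_mul_of_nonneg_left hkr (by positivity)
    nlinarith
  have b6 : Real.log (((R * s : ℕ) : ℝ) + 2) ≤ 5 * Real.log k := by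
    have : 5 * Real.log (k : ℝ) = Real.log ((k : ℝ) ^ 5) := by
      rw [Real.log_pow]; norm_num
    rw [this]
    exact Real.log_le_log (by positivity) b1
  have b7 : 0 ≤ Real.log (((R * s : ℕ) : ℝ) + 2) :=
    Real.log_nonneg (by
      have : (0 : ℝ) ≤ ((R * s : ℕ) : ℝ) := Nat.cast_nonneg _
      linarith)
  have c1 : ((T : ℝ) + R * (s : ℝ) ^ 2) * Real.log (((R * s : ℕ) : ℝ) + 2) ≤
      (δ / 4 * (k : ℝ) ^ 3) ^ 2 := by
    calc ((T : ℝ) + R * (s : ℝ) ^ 2) * Real.log (((R * s : ℕ) : ℝ) + 2)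
        ≤ (4 * 10 ^ 9 * (k : ℝ) ^ 5) * (5 * (δ ^ 2 / (16 * (2 * 10 ^ 10)) * (k : ℝ))) := by
          gcongr
          exact b6.trans (by linarith)
      _ = (δ / 4 * (k : ℝ) ^ 3) ^ 2 := by ring
  have c2 : √(((T : ℝ) + R * (s : ℝ) ^ 2) * Real.log (((R * s : ℕ) : ℝ) + 2)) ≤
      δ / 4 * (k : ℝ) ^ 3 := Real.sqrt_le_iff.2 ⟨by positivity, c1⟩
  linarith

/-- Numeric inequality of the first application. -/
theorem num_one {ρ₀ x k s l T η ε δ : ℝ} (hx : 5000 ≤ x) (hk : k = x ^ 2) (hρ : 0 < ρ₀)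
    (h1 : 1 / 100 ≤ ρ₀ * x) (h2 : ρ₀ * x ≤ 100) (hs : k / 5 ≤ s) (hl : l = s * k ^ 3)
    (hT : T = ρ₀ ^ 2 * (k * l)) (hη : η ≤ 1 / 16) (hε : ε ≤ 1) (hδ : δ ≤ 1) :
    3 * (ρ₀ * l) + ρ₀ / 4 * s + δ * k ^ 3 <
      T / k * ((1 - ρ₀ / 4) / (ρ₀ / 4) * (1 - η) - ε) := by
  have hx0 : (0 : ℝ) < x := by linarith
  have hk1 : (25000000 : ℝ) ≤ k := by rw [hk]; nlinarith
  have hk0 : (0 : ℝ) < k := by linarith
  have hs0 : (0 : ℝ) < s := by linarith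
  have hl0 : (0 : ℝ) < l := by rw [hl]; positivity
  have e1 : T / k = ρ₀ ^ 2 * l := by rw [hT]; field_simp
  have e2 : T / k * ((1 - ρ₀ / 4) / (ρ₀ / 4) * (1 - η) - ε) =
      (4 * (ρ₀ * l) - ρ₀ ^ 2 * l) * (1 - η) - ε * (ρ₀ ^ 2 * l) := by
    rw [e1]; field_simp
  have hρs : ρ₀ ≤ 1 / 50 := by
    by_contra h
    push Not at h
    nlinarith
  have a1 : ρ₀ ^ 2 * l ≤ 1 / 50 * (ρ₀ * l) := by
    have : ρ₀ ^ 2 * l = ρ₀ * (ρ₀ * l) := by ring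
    rw [this]
    exact mul_le_mul_of_nonneg_right hρs (by positivity)
  have a0 : 0 < ρ₀ ^ 2 * l := by positivity
  have a2 : s ≤ l / 10 := by
    rw [hl]
    have : (10 : ℝ) ≤ k ^ 3 := by
      calc (10 : ℝ) ≤ k ^ 1 := by linarith
        _ ≤ k ^ 3 := pow_le_pow_right₀ (by linarith) (by norm_num)
    nlinarith
  have a3 : δ * k ^ 3 ≤ 1 / 10 * (ρ₀ * l) := by
    have b1 : 1 / 500 * (x * k ^ 3) ≤ ρ₀ * l := by
      have b2 : 1 / 500 * (x * k ^ 3) * x ≤ ρ₀ * l * x := by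
        have b3 : 1 / 500 * (x * k ^ 3) * x = 1 / 100 * ((k / 5) * k ^ 3) := by rw [hk]; ring
        have b4 : ρ₀ * l * x = (ρ₀ * x) * (s * k ^ 3) := by rw [hl]; ring
        rw [b3, b4]
        gcongr
      exact le_of_mul_le_mul_right b2 hx0
    have b5 : δ * k ^ 3 ≤ 1 * k ^ 3 := mul_le_mul_of_nonneg_right hδ (by positivity)
    have b6 : 5000 * k ^ 3 ≤ x * k ^ 3 := mul_le_mul_of_nonneg_right hx (by positivity)
    linarith
  have a4 : ρ₀ / 4 * s ≤ 1 / 40 * (ρ₀ * l) := by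
    have : ρ₀ / 4 * s ≤ ρ₀ / 4 * (l / 10) := mul_le_mul_of_nonneg_left a2 (by positivity)
    linarith
  have a5 : ε * (ρ₀ ^ 2 * l) ≤ 1 * (ρ₀ ^ 2 * l) := mul_le_mul_of_nonneg_right hε a0.le
  have a6 : (4 * (ρ₀ * l) - ρ₀ ^ 2 * l) * (1 - η) ≥
      (4 * (ρ₀ * l) - ρ₀ ^ 2 * l) * (15 / 16) := by
    have : 0 < ρ₀ * l := by positivity
    refine mul_le_mul_of_nonneg_left (by linarith) (by linarith)
  have a7 : 0 < ρ₀ * l := by positivity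
  rw [e2]
  linarith

/-- Numeric inequality of the second application. -/
theorem num_two {ρ x k s l T η c δ : ℝ} (hx : 5000 ≤ x) (hk : k = x ^ 2) (hρ : 0 < ρ)
    (hρ1 : ρ < 1) (h1 : 1 / 10 ^ 6 ≤ ρ * x) (hs : k / 5 ≤ s) (hs4 : s ≤ k / 4)
    (hl : l = s * k ^ 3) (hT : l ≤ 10 ^ 4 * T) (hη0 : 0 ≤ η) (hη : 10 ^ 6 * x * η ≤ c / 4)
    (hc : 0 < c) (hδ : δ ≤ c / (4 * 10 ^ 5)) (hxc : 4 * 10 ^ 5 ≤ c * x) :
    c / (2 * 10 ^ 5) * k ^ 3 ≤ T / k * (c - c / 4 - (1 - ρ) / ρ * η) - ρ * s - δ * k ^ 3 := by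
  have hx0 : (0 : ℝ) < x := by linarith
  have hk1 : (25000000 : ℝ) ≤ k := by rw [hk]; nlinarith
  have hk0 : (0 : ℝ) < k := by linarith
  have hs0 : (0 : ℝ) < s := by linarith
  have hl0 : (0 : ℝ) < l := by rw [hl]; positivity
  have hT0 : 0 < T := by
    by_contra h
    push Not at h
    linarith
  have e1 : (1 - ρ) / ρ ≤ 10 ^ 6 * x := by
    rw [div_le_iff₀ hρ]
    linarith
  have e2 : (1 - ρ) / ρ * η ≤ c / 4 :=
    (mul_le_mul_of_nonneg_right e1 hη0).trans hη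
  have e3 : T / k * (c / 2) ≤ T / k * (c - c / 4 - (1 - ρ) / ρ * η) :=
    mul_le_mul_of_nonneg_left (by linarith) (by positivity)
  have e4 : k ^ 3 / (5 * 10 ^ 4) ≤ T / k := by
    rw [le_div_iff₀ hk0]
    have : (k / 5) * k ^ 3 ≤ l := by
      rw [hl]; exact mul_le_mul_of_nonneg_right hs (by positivity)
    linarith
  have e5 : k ^ 3 / (5 * 10 ^ 4) * (c / 2) ≤ T / k * (c / 2) :=
    mul_le_mul_of_nonneg_right e4 (by positivity)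
  have e6 : ρ * s ≤ k := by
    calc ρ * s ≤ 1 * s := mul_le_mul_of_nonneg_right hρ1.le hs0.le
      _ ≤ k := by linarith
  have e7 : k ≤ c / (4 * 10 ^ 5) * k ^ 3 := by
    have f1 : 1 ≤ c / (4 * 10 ^ 5) * x := by
      rw [div_mul_eq_mul_div, le_div_iff₀ (by norm_num)]
      linarith
    have f2 : x ≤ k ^ 2 := by
      have : x ≤ k := by rw [hk]; nlinarith
      nlinarith
    have f3 : c / (4 * 10 ^ 5) * x ≤ c / (4 * 10 ^ 5) * k ^ 2 :=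
      mul_le_mul_of_nonneg_left f2 (by positivity)
    have f4 : 1 * k ≤ c / (4 * 10 ^ 5) * k ^ 2 * k :=
      mul_le_mul_of_nonneg_right (f1.trans f3) hk0.le
    linarith
  have e8 : δ * k ^ 3 ≤ c / (4 * 10 ^ 5) * k ^ 3 :=
    mul_le_mul_of_nonneg_right hδ (by positivity)
  have e9 : 0 < c * k ^ 3 := by positivity
  linarith

/-- C1 at a fixed alphabet size. -/
theorem c1_core (hE : Stmt_EMSum) (hM : Stmt_EMax) (hP : Stmt_PhiUB) {k T : ℕ} {c : ℝ}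
    (hc : 0 < c) (hc1 : c ≤ 1)
    (hx : 5000 ≤ √(k : ℝ)) (hxc : 4 * 10 ^ 5 ≤ c * √(k : ℝ))
    (hA : ∀ ρ : ℝ, 1 / 10 ^ 6 ≤ ρ * √k → ρ * √k ≤ 200 → ∀ t N : ℕ, k ≤ N → N ≤ k ^ 6 →
      200 * (t : ℝ) ≤ ρ ^ 2 * k * N → c ≤ 𝔼 b : Fin N → Fin k, del k (wn b) t N ρ)
    (hB : ∀ ρ : ℝ, 1 / 10 ^ 6 ≤ ρ * √k → ρ * √k ≤ 200 → ∀ t R : ℕ, R * (k / 2 / 2) ≤ k ^ 6 →
      𝔼 ω : Fin R → Seg (k / 2 / 2) (k / 2), del k (sw ω) t (R * (k / 2 / 2)) ρ ≤ c / 4)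
    (hT : ∀ ρ : ℝ, 1 / 10 ^ 6 ≤ ρ * √k → ρ * √k ≤ 200 → ∀ t N : ℕ, k ≤ N → N ≤ k ^ 6 →
      200 * (t : ℝ) ≤ ρ ^ 2 * k * N → ∀ b : ℕ → Option ℕ,
      𝔼 a : Fin t → Fin k, ES ρ (range N) (fun A =>
        ind (∃ g ∈ ZZ (uu (wn a) b t) A 0 N, N ≤ 2 * g)) ≤ 1 / (k : ℝ) ^ 20)
    (herr : ∀ T R s : ℕ, s ≤ k → T ≤ 10 ^ 4 * k ^ 4 → R ≤ 3 * 10 ^ 9 * k ^ 3 →
      4 * √(((T : ℝ) + R * (s : ℝ) ^ 2) * Real.log (((R * s : ℕ) : ℝ) + 2)) ≤
        c / (4 * 10 ^ 5) * (k : ℝ) ^ 3)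
    (hTl : k / 2 / 2 * k ^ 3 ≤ 10 ^ 4 * T) (hTu : T ≤ 10 ^ 4 * (k / 2 / 2 * k ^ 3)) :
    phi k T (k / 2 / 2 * k ^ 3) + c / (2 * 10 ^ 5) * (k : ℝ) ^ 3 ≤ fseg k T (k ^ 3) := by
  obtain ⟨x, hxd⟩ : ∃ x : ℝ, x = √(k : ℝ) := ⟨_, rfl⟩
  rw [← hxd] at hx hxc hA hB hT
  have hx0 : (0 : ℝ) < x := by linarith
  have hkx : (k : ℝ) = x ^ 2 := by rw [hxd, Real.sq_sqrt (Nat.cast_nonneg k)]
  have hk1 : (25000000 : ℝ) ≤ k := by rw [hkx]; nlinarith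
  have hkn : 25000000 ≤ k := by exact_mod_cast hk1
  have hk0 : (0 : ℝ) < k := by linarith
  have hkp : 0 < k := by omega
  obtain ⟨s, hs⟩ : ∃ s : ℕ, s = k / 2 / 2 := ⟨_, rfl⟩
  have hs5 : (k : ℝ) / 5 ≤ s := by
    have : k ≤ 5 * s := by omega
    have : (k : ℝ) ≤ 5 * s := by exact_mod_cast this
    linarith
  have hs4 : (s : ℝ) ≤ k / 4 := by
    have : 4 * s ≤ k := by omega
    have : 4 * (s : ℝ) ≤ k := by exact_mod_cast this
    linarith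
  have hsk : s ≤ k := by omega
  have hsp : 1 ≤ s := by omega
  have hs0 : (0 : ℝ) < s := by linarith
  -- the level of the error
  obtain ⟨η, hη⟩ : ∃ η : ℝ, η = 1 / (k : ℝ) ^ 20 := ⟨_, rfl⟩
  have hη0 : 0 ≤ η := by rw [hη]; positivity
  have hη2 : η ≤ 1 / (k : ℝ) ^ 3 := by
    rw [hη]
    exact one_div_le_one_div_of_le (by positivity) (pow_le_pow_right₀ (by linarith) (by norm_num))
  have hη3 : η * (k : ℝ) ^ 3 ≤ 1 := by
    rwa [le_div_iff₀ (by positivity)] at hη2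
  have hk3 : (25000000 : ℝ) * k ^ 2 ≤ (k : ℝ) ^ 3 := by
    have : (k : ℝ) ^ 3 = k * k ^ 2 := by ring
    rw [this]
    exact mul_le_mul_of_nonneg_right hk1 (by positivity)
  have hk2 : (25000000 : ℝ) * k ≤ (k : ℝ) ^ 2 := by
    have : (k : ℝ) ^ 2 = k * k := by ring
    rw [this]
    exact mul_le_mul_of_nonneg_right hk1 (by positivity)
  have hη16 : η ≤ 1 / 16 := by
    have : η * 16 ≤ η * (k : ℝ) ^ 3 := mul_le_mul_of_nonneg_left (by linarith) hη0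
    linarith
  have hηc : 10 ^ 6 * x * η ≤ c / 4 := by
    -- `η ≤ 1 / k ^ 3`, `x ≤ k`, `10 ^ 6 ≤ k`
    have g1 : x ≤ k := by rw [hkx]; nlinarith
    have g2 : 10 ^ 6 * x * η ≤ 10 ^ 6 * k * η := by
      refine mul_le_mul_of_nonneg_right (by linarith) hη0
    have g3 : 10 ^ 6 * (k : ℝ) * η * k ≤ 1 := by
      have : 10 ^ 6 * (k : ℝ) * η * k = η * (10 ^ 6 * k ^ 2) := by ring
      rw [this]
      refine le_trans (mul_le_mul_of_nonneg_left ?_ hη0) hη3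
      linarith
    have g4 : 4 / c ≤ k := by
      rw [div_le_iff₀ hc]
      have : c * x ≤ c * k := mul_le_mul_of_nonneg_left g1 hc.le
      linarith
    have g5 : 10 ^ 6 * (k : ℝ) * η * (4 / c) ≤ 1 :=
      (mul_le_mul_of_nonneg_left g4 (by positivity)).trans g3
    have g6 : 10 ^ 6 * (k : ℝ) * η * (4 / c) = 10 ^ 6 * (k : ℝ) * η * 4 / c := by ring
    rw [g6, div_le_one hc] at g5
    linarith
  -- the length
  obtain ⟨l, hl⟩ : ∃ l : ℝ, l = s * (k : ℝ) ^ 3 := ⟨_, rfl⟩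
  have hl0 : (0 : ℝ) < l := by rw [hl]; positivity
  have hlc : ((s * k ^ 3 : ℕ) : ℝ) = l := by rw [hl]; push_cast; ring
  rw [← hs] at hTl hTu
  have hTl' : l ≤ 10 ^ 4 * (T : ℝ) := by rw [← hlc]; exact_mod_cast hTl
  have hTu' : (T : ℝ) ≤ 10 ^ 4 * l := by rw [← hlc]; exact_mod_cast hTu
  have hT0 : (0 : ℝ) < T := by
    by_contra h
    push Not at h
    linarith
  have hT4 : T ≤ 10 ^ 4 * k ^ 4 := by
    refine hTu.trans (Nat.mul_le_mul_left _ ?_)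
    calc s * k ^ 3 ≤ k * k ^ 3 := Nat.mul_le_mul_right _ hsk
      _ = k ^ 4 := by ring
  -- the slope `ρ₀`
  obtain ⟨ρ₀, hρ₀⟩ : ∃ ρ₀ : ℝ, ρ₀ = √((T : ℝ) / (k * l)) := ⟨_, rfl⟩
  have hρp : 0 < ρ₀ := by rw [hρ₀]; exact Real.sqrt_pos.2 (by positivity)
  have hρT : (T : ℝ) = ρ₀ ^ 2 * (k * l) := by
    rw [hρ₀, Real.sq_sqrt (by positivity)]
    field_simp
  have hρx : (ρ₀ * x) ^ 2 * l = T := by rw [hρT, hkx]; ring
  have hρ1 : 1 / 100 ≤ ρ₀ * x := by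
    have : (1 / 100 : ℝ) ^ 2 ≤ (ρ₀ * x) ^ 2 := by
      refine le_of_mul_le_mul_right ?_ hl0
      rw [hρx]; linarith
    exact (pow_le_pow_iff_left₀ (by norm_num) (by positivity) (by norm_num)).1 this
  have hρ2 : ρ₀ * x ≤ 100 := by
    have : (ρ₀ * x) ^ 2 ≤ (100 : ℝ) ^ 2 := by
      refine le_of_mul_le_mul_right ?_ hl0
      rw [hρx]; linarith
    exact (pow_le_pow_iff_left₀ (by positivity) (by norm_num) (by norm_num)).1 this
  -- the basic estimate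
  have key : ∀ (ρ : ℝ) (R : ℕ) (B : ℝ), 1 / 10 ^ 6 ≤ ρ * x → ρ * x ≤ 200 → k ^ 3 ≤ R →
      R ≤ 3 * 10 ^ 9 * k ^ 3 → 200 * (T : ℝ) ≤ ρ ^ 2 * k * ((R * s : ℕ) : ℝ) →
      (∀ r ≤ R, fseg k T r - ρ * ((r * s : ℕ) : ℝ) ≤ B) →
      (T : ℝ) / k * ((1 - ρ) / ρ * (1 - η) - c / 4) ≤
        B + ρ * s + c / (4 * 10 ^ 5) * (k : ℝ) ^ 3 := by
    intro ρ R B h1 h2 hR1 hR2 h3 hB'
    have hρ0 : 0 < ρ := by
      by_contra h
      push Not at h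
      have := mul_nonpos_of_nonpos_of_nonneg h hx0.le
      linarith
    have hρ1 : ρ < 1 := by
      by_contra h
      push Not at h
      have : 1 * x ≤ ρ * x := mul_le_mul_of_nonneg_right h hx0.le
      linarith
    have hN1 : k ≤ R * s := by
      calc k ≤ k ^ 3 * 1 := by rw [mul_one]; exact Nat.le_self_pow (by norm_num) k
        _ ≤ R * s := Nat.mul_le_mul hR1 hsp
    have hN2 : R * s ≤ k ^ 6 := by
      calc R * s ≤ 3 * 10 ^ 9 * k ^ 3 * k := Nat.mul_le_mul hR2 hsk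
        _ = 3 * 10 ^ 9 * k ^ 4 := by ring
        _ ≤ k * k * k ^ 4 := Nat.mul_le_mul_right _
            (le_trans (by norm_num) (Nat.mul_le_mul hkn hkn))
        _ = k ^ 6 := by ring
    have i1 := seg_lower hE (k := k) (T := T) (R := R) (ρ := ρ) (ε := c / 4) (η := η) hkp hρ0 hρ1
      (fun t ht b => by
        rw [hη, ← hs]
        refine hT ρ h1 h2 t (R * s) hN1 hN2 (le_trans ?_ h3) b
        have : (t : ℝ) ≤ T := by exact_mod_cast ht.le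
        linarith)
      (fun t ht => hB ρ h1 h2 t R (by rw [← hs]; exact hN2))
    have i2 := hM k hkp T R ρ B hρ0 hρ1 (by rw [← hs]; exact hB')
    have i3 := herr T R s hsk hT4 hR2
    rw [← hs] at i1 i2
    linarith
  -- bounds for `f`
  have hf0 : fseg k T 0 = 0 := fseg_zero k T
  have hfR : fseg k T (k ^ 3) ≤ 2 * (ρ₀ * l) := by
    have := (hP k hkp T 0 (k ^ 3)).2
    rw [← hs] at this
    refine this.trans (le_of_eq ?_)
    congr 1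
    rw [Real.sqrt_eq_iff_mul_self_eq (by positivity) (by positivity)]
    rw [mul_comm (k ^ 3) s, hlc]
    rw [hρT]
    field_simp
  -- first application
  have first : ∃ r ≤ 3200 * k ^ 3, 3 * (ρ₀ * l) < fseg k T r := by
    by_contra hcon
    push Not at hcon
    have i1 := key (ρ₀ / 4) (3200 * k ^ 3) (3 * (ρ₀ * l)) (by linarith) (by linarith)
      (by omega) (by omega)
      (by
        have : ((3200 * k ^ 3 * s : ℕ) : ℝ) = 3200 * l := by rw [← hlc]; push_cast; ring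
        rw [this, hρT]
        refine le_of_eq ?_
        ring)
      (fun r hr => by
        have h1 := hcon r hr
        have h2 : 0 ≤ ρ₀ / 4 * ((r * s : ℕ) : ℝ) := by positivity
        linarith)
    have i2 := num_one (ρ₀ := ρ₀) (x := x) (k := k) (s := s) (l := l) (T := T) (η := η)
      (ε := c / 4) (δ := c / (4 * 10 ^ 5)) hx hkx hρp hρ1 hρ2 hs5 hl hρT hη16 (by linarith)
      (by
        rw [div_le_one (by norm_num)]
        linarith)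
    linarith
  obtain ⟨r, hr, hfr⟩ := first
  obtain ⟨d, hd⟩ : ∃ d : ℝ, d = fseg k T (k ^ 3 + 1) - fseg k T (k ^ 3) := ⟨_, rfl⟩
  have hd0 : 0 ≤ d := by
    have := fseg_mono k T (k ^ 3) hkp
    linarith
  have tang : ∀ r, fseg k T r ≤ fseg k T (k ^ 3) + ((r : ℝ) - (k : ℝ) ^ 3) * d := by
    intro r
    have := concave_tangent (fseg k T) (fun r => stmt_Conc k T r hkp) (k ^ 3) r
    rw [← hd] at this
    push_cast at this
    exact this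
  have hk30 : (0 : ℝ) < (k : ℝ) ^ 3 := by positivity
  have hdl : ρ₀ * l < 3200 * (k : ℝ) ^ 3 * d := by
    have h1 := tang r
    have h2 : ρ₀ * l < ((r : ℝ) - (k : ℝ) ^ 3) * d := by linarith
    have h3 : (r : ℝ) ≤ 3200 * (k : ℝ) ^ 3 := by exact_mod_cast hr
    have h4 : ((r : ℝ) - (k : ℝ) ^ 3) * d ≤ (3200 * (k : ℝ) ^ 3) * d :=
      mul_le_mul_of_nonneg_right (by linarith) hd0
    linarith
  have hdu : (k : ℝ) ^ 3 * d ≤ 2 * (ρ₀ * l) := by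
    have h1 := tang 0
    rw [hf0] at h1
    push_cast at h1
    linarith
  obtain ⟨ρ, hρ⟩ : ∃ ρ : ℝ, ρ = d / s := ⟨_, rfl⟩
  have hρs : ρ * s = d := by rw [hρ]; field_simp
  have hρl : ρ₀ < 3200 * ρ := by
    have h1 : ρ₀ * l < 3200 * ρ * l := by
      calc ρ₀ * l < 3200 * (k : ℝ) ^ 3 * d := hdl
        _ = 3200 * ρ * l := by rw [← hρs, hl]; ring
    exact lt_of_mul_lt_mul_right h1 hl0.le
  have hρu : ρ ≤ 2 * ρ₀ := by
    have h1 : ρ * l ≤ 2 * ρ₀ * l := by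
      calc ρ * l = (k : ℝ) ^ 3 * d := by rw [← hρs, hl]; ring
        _ ≤ 2 * (ρ₀ * l) := hdu
        _ = 2 * ρ₀ * l := by ring
    exact le_of_mul_le_mul_right h1 hl0
  have hρp' : 0 < ρ := by linarith
  have hρx1 : 1 / 10 ^ 6 ≤ ρ * x := by
    have : ρ₀ * x ≤ 3200 * ρ * x := mul_le_mul_of_nonneg_right hρl.le hx0.le
    linarith
  have hρx2 : ρ * x ≤ 200 := by
    have : ρ * x ≤ 2 * ρ₀ * x := mul_le_mul_of_nonneg_right hρu hx0.le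
    linarith
  have hρ1' : ρ < 1 := by
    by_contra h
    push Not at h
    have : 1 * x ≤ ρ * x := mul_le_mul_of_nonneg_right h hx0.le
    linarith
  have hR2s : ((3 * 10 ^ 9 * k ^ 3 * s : ℕ) : ℝ) = 3 * 10 ^ 9 * l := by
    rw [← hlc]; push_cast; ring
  have h200 : 200 * (T : ℝ) ≤ ρ ^ 2 * k * ((3 * 10 ^ 9 * k ^ 3 * s : ℕ) : ℝ) := by
    rw [hR2s, hρT]
    have h1 : ρ₀ ^ 2 ≤ (3200 * ρ) ^ 2 := pow_le_pow_left₀ hρp.le hρl.le 2
    have h2 : ρ₀ ^ 2 * (k * l) ≤ (3200 * ρ) ^ 2 * (k * l) :=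
      mul_le_mul_of_nonneg_right h1 (by positivity)
    have h3 : 0 ≤ ρ ^ 2 * (k * l) := by positivity
    have h4 : ρ ^ 2 * k * (3 * 10 ^ 9 * l) = 3 * 10 ^ 9 * (ρ ^ 2 * (k * l)) := by ring
    have h5 : (3200 * ρ) ^ 2 * (k * l) = 10240000 * (ρ ^ 2 * (k * l)) := by ring
    rw [h4]
    rw [h5] at h2
    linarith
  have second := key ρ (3 * 10 ^ 9 * k ^ 3) (fseg k T (k ^ 3) - ρ * l) hρx1 hρx2
    (by omega) le_rfl h200 (fun r' _ => by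
      have h1 := tang r'
      have h2 : ρ * ((r' * s : ℕ) : ℝ) = r' * d := by
        rw [← hρs]; push_cast; ring
      have h3 : ρ * l = (k : ℝ) ^ 3 * d := by rw [← hρs, hl]; ring
      rw [h2, h3]
      linarith)
  have hN1 : k ≤ 3 * 10 ^ 9 * k ^ 3 * s := by
    calc k ≤ k ^ 3 * 1 := by rw [mul_one]; exact Nat.le_self_pow (by norm_num) k
      _ ≤ 3 * 10 ^ 9 * k ^ 3 * s := Nat.mul_le_mul (by omega) hsp
  have hN2 : 3 * 10 ^ 9 * k ^ 3 * s ≤ k ^ 6 := by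
    calc 3 * 10 ^ 9 * k ^ 3 * s ≤ 3 * 10 ^ 9 * k ^ 3 * k := Nat.mul_le_mul_left _ hsk
      _ = 3 * 10 ^ 9 * k ^ 4 := by ring
      _ ≤ k * k * k ^ 4 := Nat.mul_le_mul_right _
          (le_trans (by norm_num) (Nat.mul_le_mul hkn hkn))
      _ = k ^ 6 := by ring
  have third := iid_upper hE (k := k) (T := T) (N := 3 * 10 ^ 9 * k ^ 3 * s) (ρ := ρ) (c := c)
    hkp hρp' hρ1' (fun t ht => hA ρ hρx1 hρx2 t _ hN1 hN2 (le_trans (by
      have : (t : ℝ) ≤ T := by exact_mod_cast ht.le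
      linarith) h200))
  have fourth := phi_le (k := k) (T := T) (l := s * k ^ 3) (N := 3 * 10 ^ 9 * k ^ 3 * s) (ρ := ρ)
    hkp hρp' hρ1' (by
      calc s * k ^ 3 = 1 * k ^ 3 * s := by ring
        _ ≤ 3 * 10 ^ 9 * k ^ 3 * s :=
          Nat.mul_le_mul_right _ (Nat.mul_le_mul_right _ (by norm_num)))
  rw [hlc] at fourth
  have fifth := num_two (ρ := ρ) (x := x) (k := k) (s := s) (l := l) (T := T) (η := η) (c := c)
    (δ := c / (4 * 10 ^ 5)) hx hkx hρp' hρ1' hρx1 hs5 hs4 hl hTl' hη0 hηc hc le_rfl hxc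
  have e1 : (T : ℝ) / k * ((1 - ρ) / ρ * (1 - η) - c / 4) -
      (T : ℝ) / k * ((1 - ρ) / ρ - c) = T / k * (c - c / 4 - (1 - ρ) / ρ * η) := by ring
  rw [← hs]
  clear hA hB hT herr key tang hdl hdu hTl hTu hTl' hTu' h200 hN1 hN2 hk1 hk2 hk3
  generalize (T : ℝ) / k * ((1 - ρ) / ρ * (1 - η) - c / 4) = P1 at second e1
  generalize (T : ℝ) / k * ((1 - ρ) / ρ - c) = P2 at third e1
  generalize (T : ℝ) / k * (c - c / 4 - (1 - ρ) / ρ * η) = P3 at fifth e1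
  generalize c / (4 * 10 ^ 5) * (k : ℝ) ^ 3 = P4 at second fifth
  generalize c / (2 * 10 ^ 5) * (k : ℝ) ^ 3 = P5 at fifth ⊢
  linarith only [second, third, fourth, fifth, e1]

/-- C1. -/
theorem stmt_C1 (hA : Stmt_A) (hB : Stmt_B) (hT : Stmt_Tail) (hE : Stmt_EMSum) (hM : Stmt_EMax)
    (hP : Stmt_PhiUB) : Stmt_C1 := by
  obtain ⟨cA, hcA, hA1⟩ := hA (1 / 10 ^ 6) 200 (by norm_num) (by norm_num)
  obtain ⟨c, hc⟩ : ∃ c : ℝ, c = min cA 1 := ⟨_, rfl⟩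
  have hc0 : 0 < c := by rw [hc]; exact lt_min hcA one_pos
  have hc1 : c ≤ 1 := by rw [hc]; exact min_le_right _ _
  have hcc : c ≤ cA := by rw [hc]; exact min_le_left _ _
  have hB1 := hB (1 / 10 ^ 6) 200 (c / 4) (by norm_num) (by norm_num) (by positivity)
  have hT1 := hT (1 / 10 ^ 6) 200 (by norm_num) (by norm_num)
  have hX := (Real.tendsto_sqrt_atTop.comp tendsto_natCast_atTop_atTop).eventually_ge_atTop
    (max 5000 (4 * 10 ^ 5 / c))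
  refine ⟨c / (2 * 10 ^ 5), by positivity, ?_⟩
  filter_upwards [hA1, hB1, hT1, err_small (c / (4 * 10 ^ 5)) (by positivity), hX] with
    k hA2 hB2 hT2 herr hX2 T hTl hTu
  have hX3 : max 5000 (4 * 10 ^ 5 / c) ≤ √(k : ℝ) := hX2
  have hX4 := (le_max_left _ _).trans hX3
  have hX5 := (le_max_right _ _).trans hX3
  refine c1_core hE hM hP hc0 hc1 hX4 ?_ ?_ hB2 hT2 herr hTl hTu
  · rw [div_le_iff₀ hc0] at hX5
    linarith
  · intro ρ h1 h2 t N h3 h4 h5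
    exact hcc.trans (hA2 ρ h1 h2 t N h3 h4 h5)

end Pool.Agent.LCS13
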