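import Pool.Agent.Work.MP_bec1e1_pr_h13.CONC
import Pool.Agent.Work.MP_bec1e1_pr_h13.ES
import Pool.Agent.Work.MP_bec1e1_pr_h13.SYS

/-!
# Segment words beat random words: auxiliary lemmas (block C1)
-/

open Finset BigOperators Filter
open scoped Classical

namespace Pool.Agent.LCS13

/-- Tangent line of a concave sequence. -/
theorem concave_tangent (f : ℕ → ℝ) (hf : ∀ r, f r + f (r + 2) ≤ 2 * f (r + 1)) (n r : ℕ) :
    f r ≤ f n + ((r : ℝ) - n) * (f (n + 1) - f n) := by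
  have hd : ∀ m n, f (n + m + 1) - f (n + m) ≤ f (n + 1) - f n := by
    intro m n
    induction m with
    | zero => simp
    | succ m ih =>
      have := hf (n + m)
      have e1 : n + (m + 1) + 1 = n + m + 2 := by ring
      have e2 : n + (m + 1) = n + m + 1 := by ring
      rw [e1, e2]
      linarith
  rcases le_total n r with h | h
  · obtain ⟨m, rfl⟩ := Nat.exists_eq_add_of_le h
    have : ∀ m : ℕ, f (n + m) ≤ f n + (m : ℝ) * (f (n + 1) - f n) := by
      intro m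
      induction m with
      | zero => simp
      | succ m ih =>
        have h1 := hd m n
        have e2 : n + (m + 1) = n + m + 1 := by ring
        rw [e2]
        push_cast
        linarith
    have h2 := this m
    push_cast
    linarith
  · obtain ⟨m, rfl⟩ := Nat.exists_eq_add_of_le h
    have : ∀ m : ℕ, f r ≤ f (r + m) - (m : ℝ) * (f (r + m + 1) - f (r + m)) := by
      intro m
      induction m with
      | zero => simp
      | succ m ih =>
        have h1 := hd 1 (r + m)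
        have e1 : r + (m + 1) = r + m + 1 := by ring
        rw [e1]
        have h3 : ((m + 1 : ℕ) : ℝ) * (f (r + m + 1 + 1) - f (r + m + 1)) ≤
            ((m + 1 : ℕ) : ℝ) * (f (r + m + 1) - f (r + m)) :=
          mul_le_mul_of_nonneg_left h1 (by positivity)
        push_cast at h3 ⊢
        linarith
    have h2 := this m
    push_cast
    linarith

theorem fseg_zero (k T : ℕ) : fseg k T 0 = 0 := by
  unfold fseg
  simp [lp]

theorem fseg_mono (k T r : ℕ) (hk : 0 < k) : fseg k T r ≤ fseg k T (r + 1) := by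
  rw [← stmt_Marg k T r (r + 1) hk (by omega), ← stmt_Marg k T (r + 1) (r + 1) hk le_rfl]
  refine Finset.expect_le_expect fun a _ => Finset.expect_le_expect fun ω _ => ?_
  have := lp_mono (m := mt (wn a) (sw ω)) (i := 0) (j := 0) (le_refl T)
    (Nat.mul_le_mul_right (k / 2 / 2) (Nat.le_succ r))
  exact_mod_cast this

theorem sw_letters {k R : ℕ} (ω : Fin R → Seg (k / 2 / 2) (k / 2)) :
    ∀ j < R * (k / 2 / 2), ∃ x < k, sw ω j = some x := by
  intro j hj
  have hs : 0 < k / 2 / 2 := by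
    rcases Nat.eq_zero_or_pos (k / 2 / 2) with h0 | h0
    · rw [h0] at hj; simp at hj
    · exact h0
  have h1 : j / (k / 2 / 2) < R := (Nat.div_lt_iff_lt_mul hs).2 hj
  have h2 : j % (k / 2 / 2) < k / 2 / 2 := Nat.mod_lt _ hs
  unfold sw
  rw [dif_pos ⟨h1, h2⟩]
  refine ⟨_, ?_, rfl⟩
  have h3 := ((ω ⟨j / (k / 2 / 2), h1⟩).1 ⟨j % (k / 2 / 2), h2⟩).2
  rcases Nat.mod_two_eq_zero_or_one (j / (k / 2 / 2)) with h | h
  · rw [h]; omega
  · rw [h]; omega

theorem wn_letters {k N : ℕ} (b : Fin N → Fin k) : ∀ j < N, ∃ x < k, wn b j = some x := by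
  intro j hj
  unfold wn
  rw [dif_pos hj]
  exact ⟨_, (b ⟨j, hj⟩).2, rfl⟩

theorem ES_card_mean (ρ : ℝ) (I : Finset ℕ) : ES ρ I (fun A => (#A : ℝ)) = ρ * #I := by
  induction I using Finset.induction_on with
  | empty => rw [ES_empty]; simp
  | insert x I hx ih =>
    rw [ES_insert hx, ES_congr (g := fun A => (#A : ℝ) + 1) (fun A hA => by
      rw [Finset.card_insert_of_notMem fun h => hx (hA h)]; push_cast; ring), ES_add, ES_const,
      ih, Finset.card_insert_of_notMem hx]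
    push_cast
    ring

theorem ES_cntC (ρ : ℝ) {l N : ℕ} (h : l ≤ N) :
    ES ρ (range N) (fun A => (cnt A 0 l : ℝ)) = ρ * l := by
  have h1 : ES ρ (range N) (fun A => (cnt A 0 l : ℝ)) =
      ES ρ (range N) (fun A => (#(A ∩ range l) : ℝ)) := by
    refine ES_congr fun A _ => ?_
    rw [cnt_eq_card_inter, Finset.range_eq_Ico]
  rw [h1, ES_inter (f := fun A => (#A : ℝ)) (Finset.range_mono h), ES_card_mean,
    Finset.card_range]

/-- The probability that the last gap is a maximiser. -/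
noncomputable def PZ (k : ℕ) (b : ℕ → Option ℕ) (t N : ℕ) (ρ : ℝ) : ℝ :=
  𝔼 a : Fin t → Fin k, ES ρ (range N) (fun A => ind (N ∈ ZZ (uu (wn a) b t) A 0 N))

theorem PZ_nonneg {k : ℕ} {b : ℕ → Option ℕ} {t N : ℕ} {ρ : ℝ} (h0 : 0 ≤ ρ) (h1 : ρ ≤ 1) :
    0 ≤ PZ k b t N ρ :=
  Finset.expect_nonneg fun _ _ => ES_nonneg h0 h1 fun _ _ => ind_nonneg _

theorem PZ_le {k : ℕ} {b : ℕ → Option ℕ} {t N : ℕ} {ρ B : ℝ} (h0 : 0 ≤ ρ) (h1 : ρ ≤ 1)
    (hB : 𝔼 a : Fin t → Fin k, ES ρ (range N) (fun A =>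
    ind (∃ g ∈ ZZ (uu (wn a) b t) A 0 N, N ≤ 2 * g)) ≤ B) : PZ k b t N ρ ≤ B := by
  refine le_trans ?_ hB
  refine Finset.expect_le_expect fun a _ => ES_mono h0 h1 fun A _ => ind_mono fun h => ?_
  exact ⟨N, h, by omega⟩

/-- Lower bound for the expected maximum with segment columns. -/
theorem seg_lower (hE : Stmt_EMSum) {k T R : ℕ} {ρ ε η : ℝ} (hk : 0 < k) (h0 : 0 < ρ) (h1 : ρ < 1)
    (hT : ∀ t < T, ∀ b : ℕ → Option ℕ, 𝔼 a : Fin t → Fin k,
      ES ρ (range (R * (k / 2 / 2))) (fun A =>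
      ind (∃ g ∈ ZZ (uu (wn a) b t) A 0 (R * (k / 2 / 2)), R * (k / 2 / 2) ≤ 2 * g)) ≤ η)
    (hB : ∀ t < T, 𝔼 ω : Fin R → Seg (k / 2 / 2) (k / 2),
      del k (sw ω) t (R * (k / 2 / 2)) ρ ≤ ε) :
    (T : ℝ) / k * ((1 - ρ) / ρ * (1 - η) - ε) ≤
      𝔼 ω : Fin R → Seg (k / 2 / 2) (k / 2), EM k (sw ω) T (R * (k / 2 / 2)) ρ := by
  have : Nonempty (Seg (k / 2 / 2) (k / 2)) := seg_nonempty (Nat.div_le_self _ _)
  have hkr : (0 : ℝ) < k := by exact_mod_cast hk
  have e1 : ∀ ω : Fin R → Seg (k / 2 / 2) (k / 2), EM k (sw ω) T (R * (k / 2 / 2)) ρ =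
      (∑ t ∈ range T, ((1 - ρ) / ρ * (1 - PZ k (sw ω) t (R * (k / 2 / 2)) ρ) -
        del k (sw ω) t (R * (k / 2 / 2)) ρ)) / k := fun ω =>
    hE k hk (sw ω) (R * (k / 2 / 2)) (sw_letters ω) ρ h0 h1 T
  rw [Finset.expect_congr rfl fun ω _ => e1 ω]
  rw [← Finset.expect_div, Finset.expect_sum_comm, div_mul_eq_mul_div]
  refine div_le_div_of_nonneg_right ?_ hkr.le
  have e2 : (T : ℝ) * ((1 - ρ) / ρ * (1 - η) - ε) =
      ∑ t ∈ range T, ((1 - ρ) / ρ * (1 - η) - ε) := by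
    rw [Finset.sum_const, Finset.card_range, nsmul_eq_mul]
  rw [e2]
  refine Finset.sum_le_sum fun t ht => ?_
  rw [Finset.mem_range] at ht
  rw [Finset.expect_sub_distrib, ← Finset.mul_expect]
  have hq : 0 ≤ (1 - ρ) / ρ := div_nonneg (by linarith) h0.le
  have h3 : 1 - η ≤ 𝔼 ω : Fin R → Seg (k / 2 / 2) (k / 2),
      (1 - PZ k (sw ω) t (R * (k / 2 / 2)) ρ) := by
    rw [← Finset.expect_const (s := (univ : Finset (Fin R → Seg (k / 2 / 2) (k / 2))))
      Finset.univ_nonempty (1 - η)]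
    refine Finset.expect_le_expect fun ω _ => ?_
    have := PZ_le h0.le h1.le (hT t ht (sw ω))
    linarith
  have h4 := mul_le_mul_of_nonneg_left h3 hq
  have h5 := hB t ht
  linarith

/-- Upper bound for the expected maximum with random columns. -/
theorem iid_upper (hE : Stmt_EMSum) {k T N : ℕ} {ρ c : ℝ} (hk : 0 < k) (h0 : 0 < ρ) (h1 : ρ < 1)
    (hA : ∀ t < T, c ≤ 𝔼 b : Fin N → Fin k, del k (wn b) t N ρ) :
    𝔼 b : Fin N → Fin k, EM k (wn b) T N ρ ≤ (T : ℝ) / k * ((1 - ρ) / ρ - c) := by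
  have : Nonempty (Fin k) := ⟨⟨0, hk⟩⟩
  have hkr : (0 : ℝ) < k := by exact_mod_cast hk
  have e1 : ∀ b : Fin N → Fin k, EM k (wn b) T N ρ =
      (∑ t ∈ range T, ((1 - ρ) / ρ * (1 - PZ k (wn b) t N ρ) -
        del k (wn b) t N ρ)) / k := fun b =>
    hE k hk (wn b) N (wn_letters b) ρ h0 h1 T
  rw [Finset.expect_congr rfl fun b _ => e1 b]
  rw [← Finset.expect_div, Finset.expect_sum_comm, div_mul_eq_mul_div]
  refine div_le_div_of_nonneg_right ?_ hkr.le
  have e2 : (T : ℝ) * ((1 - ρ) / ρ - c) = ∑ t ∈ range T, ((1 - ρ) / ρ - c) := by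
    rw [Finset.sum_const, Finset.card_range, nsmul_eq_mul]
  rw [e2]
  refine Finset.sum_le_sum fun t ht => ?_
  rw [Finset.mem_range] at ht
  rw [Finset.expect_sub_distrib, ← Finset.mul_expect]
  have hq : 0 ≤ (1 - ρ) / ρ := div_nonneg (by linarith) h0.le
  have h3 : 𝔼 b : Fin N → Fin k, (1 - PZ k (wn b) t N ρ) ≤ 1 := by
    refine le_of_le_of_eq (Finset.expect_le_expect (g := fun _ => (1 : ℝ)) fun b _ => ?_)
      (Finset.expect_const Finset.univ_nonempty (1 : ℝ))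
    have := PZ_nonneg (k := k) (b := wn b) (t := t) (N := N) h0.le h1.le
    linarith
  have h4 := mul_le_mul_of_nonneg_left h3 hq
  have h5 := hA t ht
  linarith

/-- The expected LCS of random words is controlled by the expected maximum. -/
theorem phi_le {k T l N : ℕ} {ρ : ℝ} (hk : 0 < k) (h0 : 0 < ρ) (h1 : ρ < 1) (hl : l ≤ N) :
    phi k T l - ρ * l ≤ 𝔼 b : Fin N → Fin k, EM k (wn b) T N ρ := by
  have : Nonempty (Fin k) := ⟨⟨0, hk⟩⟩
  have e1 : phi k T l = 𝔼 b : Fin N → Fin k, 𝔼 a : Fin T → Fin k,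
      (lp (mt (wn a) (wn b)) 0 0 T l : ℝ) := by
    rw [Finset.expect_comm]
    unfold phi
    refine Finset.expect_congr rfl fun a _ => ?_
    rw [← expect_comp_inj (Fin.castLE hl) (Fin.castLE_injective hl)
      (fun b : Fin l → Fin k => (lcs a b : ℝ))]
    refine Finset.expect_congr rfl fun b _ => ?_
    unfold lcs
    congr 1
    refine lp_congr fun i' j' _ _ _ hj => ?_
    rw [zero_add] at hj
    unfold mt wn
    rw [dif_pos hj, dif_pos (lt_of_lt_of_le hj hl)]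
    rfl
  have e2 : phi k T l - ρ * l = 𝔼 b : Fin N → Fin k, 𝔼 a : Fin T → Fin k,
      ES ρ (range N) (fun A => (lp (mt (wn a) (wn b)) 0 0 T l : ℝ) - cnt A 0 l) := by
    rw [e1]
    have : ∀ (b : Fin N → Fin k) (a : Fin T → Fin k),
        ES ρ (range N) (fun A => (lp (mt (wn a) (wn b)) 0 0 T l : ℝ) - cnt A 0 l) =
        (lp (mt (wn a) (wn b)) 0 0 T l : ℝ) - ρ * l := by
      intro b a
      rw [ES_sub, ES_const, ES_cntC ρ hl]
    simp only [this, Finset.expect_sub_distrib, Fintype.expect_const]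
  rw [e2]
  unfold EM
  refine Finset.expect_le_expect fun b _ => Finset.expect_le_expect fun a _ =>
    ES_mono h0.le h1.le fun A _ => ?_
  have h2 := XX_le_MM (u := uu (wn a) (wn b) T) (A := A) (Nat.zero_le l) hl
  have h3 : XX (uu (wn a) (wn b) T) A 0 l = (lp (mt (wn a) (wn b)) 0 0 T l : ℤ) - cnt A 0 l := by
    unfold XX
    rw [uu_zero, sub_zero]
    rfl
  rw [h3] at h2
  exact_mod_cast h2

end Pool.Agent.LCS13
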