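import Pool.Agent.Work.MP_bec1e1_pr_h13.EMAX

/-!
# Binomial tails (block CHERN)
-/

open Finset BigOperators
open scoped Classical

namespace Pool.Agent.LCS13

/-- Moment generating function of the number of ones, positive parameter. -/
theorem ES_exp_card_pos {ρ l : ℝ} (h0 : 0 ≤ ρ) (h1 : ρ ≤ 1) (hl : 0 ≤ l) (hl1 : l ≤ 1)
    (I : Finset ℕ) :
    ES ρ I (fun A => Real.exp (l * #A)) ≤ Real.exp (ρ * (l + l ^ 2) * #I) := by
  have hstep : ρ * Real.exp l + (1 - ρ) ≤ Real.exp (ρ * (l + l ^ 2)) := by
    have h2 := Real.abs_exp_sub_one_sub_id_le (x := l) (by rw [abs_of_nonneg hl]; exact hl1)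
    rw [abs_le] at h2
    have h3 := Real.add_one_le_exp (ρ * (l + l ^ 2))
    nlinarith [h2.2]
  induction I using Finset.induction_on with
  | empty => rw [ES_empty]; simp
  | insert x I hx ih =>
    rw [ES_insert hx]
    rw [ES_congr (g := fun A => Real.exp l * Real.exp (l * #A)) (fun A hA => by
      rw [Finset.card_insert_of_notMem fun h => hx (hA h), ← Real.exp_add]
      push_cast
      congr 1; ring)]
    rw [ES_mul_left, Finset.card_insert_of_notMem hx]
    push_cast
    rw [mul_add, mul_one, Real.exp_add]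
    have h5 := ES_nonneg (f := fun A => Real.exp (l * #A)) (I := I) h0 h1
      (fun A _ => (Real.exp_pos _).le)
    calc _ = (ρ * Real.exp l + (1 - ρ)) * ES ρ I (fun A => Real.exp (l * #A)) := by ring
      _ ≤ Real.exp (ρ * (l + l ^ 2)) * Real.exp (ρ * (l + l ^ 2) * #I) := by
        refine mul_le_mul hstep ih h5 (Real.exp_pos _).le
      _ = _ := by ring

/-- CHERN (upper tail). -/
theorem stmt_ChernUp : Stmt_ChernUp := by
  intro ρ h0 h1 I z hz hz2
  rcases Nat.eq_zero_or_pos #I with hI | hI
  · rw [hI]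
    simp only [Nat.cast_zero, mul_zero, div_zero, neg_zero, Real.exp_zero]
    calc _ ≤ ES ρ I (fun _ => 1) := ES_mono h0.le h1.le fun A _ => ind_le_one _
      _ = 1 := ES_const ρ I 1
  have hn : (0 : ℝ) < #I := by exact_mod_cast hI
  set n : ℝ := (#I : ℝ) with hn'
  set l : ℝ := z / (2 * ρ * n) with hl
  have hd : 0 < 2 * ρ * n := by positivity
  have hl0 : 0 ≤ l := by positivity
  have hl1 : l ≤ 1 := by rw [hl, div_le_one hd]; exact hz2
  have hm := ES_exp_card_pos h0.le h1.le hl0 hl1 I
  calc ES ρ I (fun A => ind (ρ * n + z ≤ #A))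
      ≤ ES ρ I (fun A => Real.exp (-(l * (ρ * n + z))) * Real.exp (l * #A)) := by
        refine ES_mono h0.le h1.le fun A _ => ?_
        by_cases h : ρ * n + z ≤ #A
        · rw [ind_true h, ← Real.exp_add]
          refine Real.one_le_exp ?_
          have := mul_le_mul_of_nonneg_left h hl0
          linarith
        · rw [ind_false h]; positivity
    _ = Real.exp (-(l * (ρ * n + z))) * ES ρ I (fun A => Real.exp (l * #A)) := ES_mul_left _
    _ ≤ Real.exp (-(l * (ρ * n + z))) * Real.exp (ρ * (l + l ^ 2) * n) :=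
        mul_le_mul_of_nonneg_left hm (Real.exp_pos _).le
    _ = Real.exp (-(z ^ 2 / (4 * ρ * n))) := by
        rw [← Real.exp_add]
        congr 1
        rw [hl]
        field_simp
        ring

/-- CHERN (lower tail). -/
theorem stmt_ChernLow : Stmt_ChernLow := by
  intro ρ h0 h1 I
  have hm := ES_exp_card h0.le h1.le (by norm_num : (0 : ℝ) ≤ 1 / 2) I
  calc ES ρ I (fun A => ind (2 * (#A : ℝ) ≤ ρ * #I))
      ≤ ES ρ I (fun A => Real.exp (ρ * #I / 4) * Real.exp (-(1 / 2 * #A))) := by
        refine ES_mono h0.le h1.le fun A _ => ?_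
        by_cases h : 2 * (#A : ℝ) ≤ ρ * #I
        · rw [ind_true h, ← Real.exp_add]
          refine Real.one_le_exp ?_
          linarith
        · rw [ind_false h]; positivity
    _ = Real.exp (ρ * #I / 4) * ES ρ I (fun A => Real.exp (-(1 / 2 * #A))) := ES_mul_left _
    _ ≤ Real.exp (ρ * #I / 4) * Real.exp ((-(1 / 2 * ρ) + ρ * (1 / 2) ^ 2 / 2) * #I) :=
        mul_le_mul_of_nonneg_left hm (Real.exp_pos _).le
    _ = Real.exp (-(ρ * #I / 8)) := by
        rw [← Real.exp_add]
        congr 1
        ring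

end Pool.Agent.LCS13
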