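import Pool.Agent.Work.MP_bec1e1_pr_h13.CRITphi

/-!
# Variance criterion (block CRIT)
-/

open Finset BigOperators Filter
open scoped Classical

namespace Pool.Agent.LCS13

noncomputable section

namespace Cr

section main
variable {k n m l : ℕ} (hm : m * l ≤ n) {Ω : Type} [Fintype Ω] [Nonempty Ω]
  (V : Ω → (Fin l → Fin k)) (μ : ℝ)

/-- the functional of an alignment -/
def GG (h : Fin m → ℕ) (a b : Fin n → Fin k) : ℝ :=
  ∑ i : Fin m, ((1 + μ) * (AA a (ys (hx h) i) (h i) (b ∘ eb hm i) : ℝ) -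
    𝔼 ω, (AA a (ys (hx h) i) (h i) (V ω) : ℝ))

theorem ys_add_le {h : Fin m → ℕ} (hh : ∑ i, h i ≤ n) (i : Fin m) :
    ys (hx h) i + h i ≤ n := by
  have h1 : ys (hx h) i + h i = ys (hx h) (i + 1) := by rw [ys_succ, hx_fin]
  have h2 := ys_mono (hx h) (show (i : ℕ) + 1 ≤ m from i.2)
  rw [ys_hx] at h2
  omega

theorem ys_lt {h : Fin m → ℕ} {i j : Fin m} (hij : (i : ℕ) < j) :
    ys (hx h) i + h i ≤ ys (hx h) j := by
  have h1 : ys (hx h) i + h i = ys (hx h) (i + 1) := by rw [ys_succ, hx_fin]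
  have h2 := ys_mono (hx h) (show (i : ℕ) + 1 ≤ j from hij)
  omega

theorem GG_row (hμ : 0 ≤ μ) (h : Fin m → ℕ) {a a' b : Fin n → Fin k} (p : Fin n)
    (haa : ∀ q, q ≠ p → a q = a' q) :
    |GG hm V μ h a b - GG hm V μ h a' b| ≤ 2 + μ := by
  unfold GG
  have hkey : ∀ i : Fin m, ¬ (ys (hx h) i ≤ p ∧ (p : ℕ) < ys (hx h) i + h i) →
      (1 + μ) * (AA a (ys (hx h) i) (h i) (b ∘ eb hm i) : ℝ) -
        𝔼 ω, (AA a (ys (hx h) i) (h i) (V ω) : ℝ) =
      (1 + μ) * (AA a' (ys (hx h) i) (h i) (b ∘ eb hm i) : ℝ) -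
        𝔼 ω, (AA a' (ys (hx h) i) (h i) (V ω) : ℝ) := by
    intro i hp
    rw [AA_row_congr _ p haa hp]
    congr 1
    exact Finset.expect_congr rfl fun ω _ => by rw [AA_row_congr _ p haa hp]
  refine sum_one_diff _ _ _ (by linarith) ?_ ?_
  · intro i j hi hj
    have h1 := not_not.1 fun h => hi (hkey i h)
    have h2 := not_not.1 fun h => hj (hkey j h)
    rcases lt_trichotomy (i : ℕ) j with h3 | h3 | h3
    · have := ys_lt (h := h) h3
      omega
    · exact Fin.ext h3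
    · have := ys_lt (h := h) h3
      omega
  · intro i
    have h1 := AA_row_change (y := ys (hx h) i) (h := h i) (b ∘ eb hm i) p haa
    have h2 : |𝔼 ω, (AA a (ys (hx h) i) (h i) (V ω) : ℝ) -
        𝔼 ω, (AA a' (ys (hx h) i) (h i) (V ω) : ℝ)| ≤ 1 := by
      rw [← Finset.expect_sub_distrib]
      refine (Finset.abs_expect_le _ _).trans ?_
      exact Finset.expect_le Finset.univ_nonempty fun ω _ => AA_row_change (V ω) p haa
    rw [abs_le] at h1 h2 ⊢
    constructor <;> nlinarith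

omit [Nonempty Ω] in
theorem GG_col (hμ : 0 ≤ μ) (h : Fin m → ℕ) {a b b' : Fin n → Fin k} (p : Fin n)
    (hbb : ∀ q, q ≠ p → b q = b' q) :
    |GG hm V μ h a b - GG hm V μ h a b'| ≤ 2 + μ := by
  unfold GG
  have hkey : ∀ i : Fin m, (∀ q, eb hm i q ≠ p) →
      (1 + μ) * (AA a (ys (hx h) i) (h i) (b ∘ eb hm i) : ℝ) -
        𝔼 ω, (AA a (ys (hx h) i) (h i) (V ω) : ℝ) =
      (1 + μ) * (AA a (ys (hx h) i) (h i) (b' ∘ eb hm i) : ℝ) -
        𝔼 ω, (AA a (ys (hx h) i) (h i) (V ω) : ℝ) := by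
    intro i hp
    have : b ∘ eb hm i = b' ∘ eb hm i := funext fun q => hbb _ (hp q)
    rw [this]
  refine sum_one_diff _ _ _ (by linarith) ?_ ?_
  · intro i j hi hj
    by_contra hij
    have h1 : ∃ q, eb hm i q = p := by
      by_contra hc
      push Not at hc
      exact hi (hkey i hc)
    have h2 : ∃ q, eb hm j q = p := by
      by_contra hc
      push Not at hc
      exact hj (hkey j hc)
    obtain ⟨q, hq⟩ := h1
    obtain ⟨q', hq'⟩ := h2
    exact eb_disj hm hij q q' (hq.trans hq'.symm)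
  · intro i
    by_cases hp : ∃ q, eb hm i q = p
    · obtain ⟨q, hq⟩ := hp
      have h1 := AA_col_change (a := a) (y := ys (hx h) i) (h := h i) (w := b ∘ eb hm i)
        (w' := b' ∘ eb hm i) q (fun q' hq' => hbb _ fun e => hq' (eb_inj hm i (e.trans hq.symm)))
      rw [abs_le] at h1 ⊢
      constructor <;> nlinarith
    · push Not at hp
      rw [hkey i hp, sub_self, abs_zero]
      linarith

theorem E_AA {Θ : Type} [Fintype Θ] (hk : 0 < k) (W : Θ → (Fin l → Fin k)) (y h : ℕ)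
    (hy : y + h ≤ n) : 𝔼 a : Fin n → Fin k, 𝔼 ω, (AA a y h (W ω) : ℝ) =
      𝔼 a : Fin h → Fin k, 𝔼 ω, (lcs a (W ω) : ℝ) := by
  have : Nonempty (Fin k) := ⟨⟨0, hk⟩⟩
  rw [← marg (ea_inj hy) (fun a : Fin h → Fin k => 𝔼 ω, (lcs a (W ω) : ℝ))]
  refine Finset.expect_congr rfl fun a _ => Finset.expect_congr rfl fun v _ => ?_
  rw [AA_eq a _ _ hy]

omit [Nonempty Ω] in
/-- expectation of `GG` -/
theorem E_GG (hk : 0 < k) {h : Fin m → ℕ} (hh : ∑ i, h i ≤ n) :
    𝔼 a, 𝔼 b, GG hm V μ h a b = ∑ i : Fin m, ((1 + μ) * phi k (h i) l -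
      𝔼 a : Fin (h i) → Fin k, 𝔼 ω, (lcs a (V ω) : ℝ)) := by
  have : Nonempty (Fin k) := ⟨⟨0, hk⟩⟩
  have e1 : ∀ a : Fin n → Fin k, 𝔼 b, GG hm V μ h a b =
      ∑ i : Fin m, ((1 + μ) * 𝔼 v : Fin l → Fin k, (AA a (ys (hx h) i) (h i) v : ℝ) -
        𝔼 ω, (AA a (ys (hx h) i) (h i) (V ω) : ℝ)) := by
    intro a
    unfold GG
    rw [Finset.expect_sum_comm]
    refine Finset.sum_congr rfl fun i _ => ?_
    rw [Finset.expect_sub_distrib, Fintype.expect_const, ← Finset.mul_expect,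
      marg (eb_inj hm i) fun v => (AA a (ys (hx h) i) (h i) v : ℝ)]
  simp only [e1]
  rw [Finset.expect_sum_comm]
  refine Finset.sum_congr rfl fun i _ => ?_
  have hy := ys_add_le hh i
  have e2 := E_AA (n := n) hk (fun v : Fin l → Fin k => v) _ _ hy
  have e3 := E_AA (n := n) hk V _ _ hy
  rw [Finset.expect_sub_distrib, ← Finset.mul_expect, e2, e3]
  rfl

/-- the mean LCS for a fixed second word -/
def ff (b : Fin n → Fin k) : ℝ := 𝔼 a : Fin n → Fin k, (lcs a b : ℝ)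

theorem E_ff : 𝔼 b : Fin n → Fin k, ff b = phi k n n := by
  unfold ff phi
  exact Finset.expect_comm _ _ _

theorem var_ff (hk : 0 < k) : 𝔼 b : Fin n → Fin k, (ff b - 𝔼 b' : Fin n → Fin k, ff b') ^ 2 ≤
    varL k n := by
  have : Nonempty (Fin k) := ⟨⟨0, hk⟩⟩
  rw [E_ff]
  unfold varL
  rw [Finset.expect_comm]
  refine Finset.expect_le_expect fun b _ => ?_
  have h1 := sq_expect_le fun a : Fin n → Fin k => (lcs a b : ℝ) - phi k n n
  rw [Finset.expect_sub_distrib, Fintype.expect_const] at h1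
  exact h1

/-- the gain of replacing the block `i` by `V` -/
def gain (i : Fin m) : ℝ :=
  𝔼 ω, (𝔼 b : Fin n → Fin k, ff (ov (eb hm i) (V ω) b) - 𝔼 b : Fin n → Fin k, ff b)

/-- the alignment chosen for `(a, b)` -/
def hs (a b : Fin n → Fin k) : Fin m → ℕ := fun i => (exists_opt hm a b).choose i

theorem hs_mem (a b : Fin n → Fin k) : hs hm a b ∈ SS m n := by
  rw [mem_SS]
  have h1 := (exists_opt hm a b).choose_spec.1
  unfold ys at h1
  rw [Finset.sum_range] at h1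
  exact h1

theorem ys_hs (a b : Fin n → Fin k) (i : ℕ) (hi : i ≤ m) :
    ys (hx (hs hm a b)) i = ys (exists_opt hm a b).choose i := by
  apply ys_congr
  intro j hj
  unfold hx hs
  rw [dif_pos (by omega)]

theorem pointwise (hμ : 0 ≤ μ) (a b : Fin n → Fin k) :
    μ * ((lcs a b : ℝ) - (n - m * l : ℕ)) ≤
      ∑ i : Fin m, (𝔼 ω, (lcs a (ov (eb hm i) (V ω) b) : ℝ) - lcs a b) +
        GG hm V μ (hs hm a b) a b := by
  obtain ⟨h1, h2, h3⟩ := (exists_opt hm a b).choose_spec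
  set h := (exists_opt hm a b).choose with hh
  unfold GG
  have e1 : ∀ i : Fin m, ys (hx (hs hm a b)) i = ys h i := fun i => ys_hs hm a b i i.2.le
  have e2 : ∀ i : Fin m, hs hm a b i = h i := fun i => rfl
  simp only [e1, e2]
  have h4 : ∀ i : Fin m, (lcs a b : ℝ) + 𝔼 ω, (AA a (ys h i) (h i) (V ω) : ℝ) ≤
      𝔼 ω, (lcs a (ov (eb hm i) (V ω) b) : ℝ) + AA a (ys h i) (h i) (b ∘ eb hm i) := by
    intro i
    have h5 : ∀ ω, (lcs a b : ℝ) + AA a (ys h i) (h i) (V ω) ≤
        lcs a (ov (eb hm i) (V ω) b) + AA a (ys h i) (h i) (b ∘ eb hm i) := fun ω => by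
      exact_mod_cast h3 i (V ω)
    have h6 := Finset.expect_le_expect (s := univ) fun ω _ => h5 ω
    rwa [Finset.expect_add_distrib, Finset.expect_add_distrib, Fintype.expect_const,
      Fintype.expect_const] at h6
  have h7 : (lcs a b : ℝ) - (n - m * l : ℕ) ≤
      ∑ i : Fin m, (AA a (ys h i) (h i) (b ∘ eb hm i) : ℝ) := by
    have : (lcs a b : ℝ) ≤ ∑ i : Fin m, (AA a (ys h i) (h i) (b ∘ eb hm i) : ℝ) +
      (n - m * l : ℕ) := by exact_mod_cast h2
    linarith
  have h8 := mul_le_mul_of_nonneg_left h7 hμ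
  rw [← Finset.sum_add_distrib]
  refine h8.trans ?_
  rw [Finset.mul_sum]
  refine Finset.sum_le_sum fun i _ => ?_
  have := h4 i
  linarith

theorem E_gain (hk : 0 < k) :
    𝔼 a : Fin n → Fin k, 𝔼 b : Fin n → Fin k,
      ∑ i : Fin m, (𝔼 ω, (lcs a (ov (eb hm i) (V ω) b) : ℝ) - lcs a b) =
    ∑ i : Fin m, gain hm V i := by
  have : Nonempty (Fin k) := ⟨⟨0, hk⟩⟩
  have e1 : ∀ a : Fin n → Fin k, 𝔼 b : Fin n → Fin k,
      ∑ i : Fin m, (𝔼 ω, (lcs a (ov (eb hm i) (V ω) b) : ℝ) - lcs a b) =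
      ∑ i : Fin m, (𝔼 ω, 𝔼 b : Fin n → Fin k, (lcs a (ov (eb hm i) (V ω) b) : ℝ) -
        𝔼 b : Fin n → Fin k, (lcs a b : ℝ)) := by
    intro a
    rw [Finset.expect_sum_comm]
    refine Finset.sum_congr rfl fun i _ => ?_
    rw [Finset.expect_sub_distrib, Finset.expect_comm]
  simp only [e1]
  rw [Finset.expect_sum_comm]
  refine Finset.sum_congr rfl fun i _ => ?_
  unfold gain ff
  rw [Finset.expect_sub_distrib, Finset.expect_sub_distrib, Fintype.expect_const]
  congr 1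
  · rw [Finset.expect_comm]
    exact Finset.expect_congr rfl fun ω _ => Finset.expect_comm _ _ _
  · exact Finset.expect_comm _ _ _

/-- from a large total gain to a large variance -/
theorem var_of_gain (hk : 0 < k) (X : ℝ) (hX0 : 0 ≤ X) (hX : X ≤ ∑ i : Fin m, gain hm V i) :
    X ^ 2 ≤ m * (k : ℝ) ^ l * varL k n := by
  have : Nonempty (Fin k) := ⟨⟨0, hk⟩⟩
  have h1 := bessel (eb hm) (eb_inj hm) (fun i j hij p q => eb_disj hm hij p q)
    (ff : (Fin n → Fin k) → ℝ)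
  have h2 := h1.trans (var_ff hk)
  have h3 : ∀ i : Fin m, gain hm V i ^ 2 ≤ (k : ℝ) ^ l * 𝔼 v : Fin l → Fin k,
      (𝔼 b : Fin n → Fin k, ff (ov (eb hm i) v b) - 𝔼 b : Fin n → Fin k, ff b) ^ 2 := by
    intro i
    refine (sq_expect_le _).trans ?_
    refine Finset.expect_le Finset.univ_nonempty fun ω _ => ?_
    have e : (k : ℝ) ^ l * 𝔼 v : Fin l → Fin k,
      (𝔼 b : Fin n → Fin k, ff (ov (eb hm i) v b) - 𝔼 b : Fin n → Fin k, ff b) ^ 2 =
      ∑ v : Fin l → Fin k,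
      (𝔼 b : Fin n → Fin k, ff (ov (eb hm i) v b) - 𝔼 b : Fin n → Fin k, ff b) ^ 2 := by
      rw [← Fintype.card_mul_expect]
      simp
    rw [e]
    exact Finset.single_le_sum (f := fun v : Fin l → Fin k =>
      (𝔼 b : Fin n → Fin k, ff (ov (eb hm i) v b) - 𝔼 b : Fin n → Fin k, ff b) ^ 2)
      (fun _ _ => sq_nonneg _) (Finset.mem_univ (V ω))
  calc X ^ 2 ≤ (∑ i : Fin m, gain hm V i) ^ 2 := pow_le_pow_left₀ hX0 hX 2
    _ ≤ m * ∑ i : Fin m, gain hm V i ^ 2 := by
        have := sq_sum_le_card_mul_sum_sq (s := (univ : Finset (Fin m)))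
          (f := fun i => gain hm V i)
        simpa using this
    _ ≤ m * ∑ i : Fin m, ((k : ℝ) ^ l * 𝔼 v : Fin l → Fin k,
      (𝔼 b : Fin n → Fin k, ff (ov (eb hm i) v b) - 𝔼 b : Fin n → Fin k, ff b) ^ 2) :=
        mul_le_mul_of_nonneg_left (Finset.sum_le_sum fun i _ => h3 i) (Nat.cast_nonneg _)
    _ = m * (k : ℝ) ^ l * ∑ i : Fin m, 𝔼 v : Fin l → Fin k,
      (𝔼 b : Fin n → Fin k, ff (ov (eb hm i) v b) - 𝔼 b : Fin n → Fin k, ff b) ^ 2 := by
        rw [← Finset.mul_sum, mul_assoc]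
    _ ≤ m * (k : ℝ) ^ l * varL k n := mul_le_mul_of_nonneg_left h2 (by positivity)

/-- the total gain is large -/
theorem gain_ge (hk : 0 < k) (hμ : 0 ≤ μ) (E1 B lam : ℝ) (hlam : 0 < lam)
    (hE : ∀ h ∈ SS m n, ∑ i : Fin m, ((1 + μ) * phi k (h i) l -
      𝔼 a : Fin (h i) → Fin k, 𝔼 ω, (lcs a (V ω) : ℝ)) ≤ E1)
    (hB : (#(SS m n) : ℝ) * Real.exp (lam * (E1 - B) + lam ^ 2 * (n * (2 + μ) ^ 2)) ≤ 1) :
    μ * (phi k n n - (n - m * l : ℕ)) - B ≤ ∑ i : Fin m, gain hm V i := by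
  have : Nonempty (Fin k) := ⟨⟨0, hk⟩⟩
  have h1 := expmax (ι := Fin n ⊕ Fin n) (α := Fin k) (SS m n)
    (fun h ω => GG hm V μ h (ω ∘ Sum.inl) (ω ∘ Sum.inr)) (fun _ => 2 + μ)
    (by
      intro h _ i ω ω' hi
      rcases i with p | p
      · have e : ω ∘ Sum.inr = ω' ∘ Sum.inr := funext fun q => hi _ (by simp)
        simp only [e]
        exact GG_row hm V μ hμ h p fun q hq => hi _ (by simpa using hq)
      · have e : ω ∘ Sum.inl = ω' ∘ Sum.inl := funext fun q => hi _ (by simp)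
        simp only [e]
        exact GG_col hm V μ hμ h p fun q hq => hi _ (by simpa using hq))
    E1 B lam hlam
    (by
      intro h hh
      rw [expect_sum_type (fun a b => GG hm V μ h a b), E_GG hm V μ hk (mem_SS.1 hh)]
      exact hE h hh)
    (by
      refine le_trans (le_of_eq ?_) hB
      congr 3
      simp only [Finset.sum_const, Finset.card_univ, Fintype.card_sum, Fintype.card_fin,
        nsmul_eq_mul]
      push_cast
      ring)
    (fun ω => hs hm (ω ∘ Sum.inl) (ω ∘ Sum.inr)) (fun ω => hs_mem hm _ _)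
  rw [expect_sum_type (fun a b => GG hm V μ (hs hm a b) a b)] at h1
  have h2 : 𝔼 a : Fin n → Fin k, 𝔼 b : Fin n → Fin k, μ * ((lcs a b : ℝ) - (n - m * l : ℕ)) ≤
      𝔼 a : Fin n → Fin k, 𝔼 b : Fin n → Fin k,
      (∑ i : Fin m, (𝔼 ω, (lcs a (ov (eb hm i) (V ω) b) : ℝ) - lcs a b) +
        GG hm V μ (hs hm a b) a b) :=
    Finset.expect_le_expect fun a _ => Finset.expect_le_expect fun b _ =>
      pointwise hm V μ hμ a b
  have e3 : 𝔼 a : Fin n → Fin k, 𝔼 b : Fin n → Fin k,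
      μ * ((lcs a b : ℝ) - (n - m * l : ℕ)) = μ * (phi k n n - (n - m * l : ℕ)) := by
    simp only [← Finset.mul_expect, Finset.expect_sub_distrib, Fintype.expect_const]
    rfl
  have e4 : 𝔼 a : Fin n → Fin k, 𝔼 b : Fin n → Fin k,
      (∑ i : Fin m, (𝔼 ω, (lcs a (ov (eb hm i) (V ω) b) : ℝ) - lcs a b) +
        GG hm V μ (hs hm a b) a b) = ∑ i : Fin m, gain hm V i +
        𝔼 a : Fin n → Fin k, 𝔼 b : Fin n → Fin k, GG hm V μ (hs hm a b) a b := by
    rw [← E_gain hm V hk, ← Finset.expect_add_distrib]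
    exact Finset.expect_congr rfl fun a _ => Finset.expect_add_distrib _ _ _
  rw [e3, e4] at h2
  linarith

end main

/-- numerical facts -/
theorem num_facts {l : ℕ} {c g : ℝ} (hc : 0 < c) (hc1 : c ≤ 1) (hg : 0 < g)
    (hg1 : g ≤ 1) (H4 : 80000 * (3 + Real.log l) ≤ (c * g) ^ 2 * l) (hl : 1 ≤ l) :
    2 ≤ l ∧ 0 ≤ Real.log l ∧
    (2 + Real.log l) * (16 * (2 + (1 + 4 * c / g)) ^ 2) ≤ c ^ 2 * l := by
  have hlog : 0 ≤ Real.log l := Real.log_nonneg (by exact_mod_cast hl)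
  have hcg : c * g ≤ 1 := by nlinarith
  have hcg0 : 0 < c * g := mul_pos hc hg
  have h1 : (c * g) ^ 2 ≤ 1 := by nlinarith
  have hl0 : (0 : ℝ) ≤ l := Nat.cast_nonneg _
  refine ⟨?_, hlog, ?_⟩
  · by_contra hcon
    have : (l : ℝ) ≤ 1 := by exact_mod_cast (show l ≤ 1 by omega)
    nlinarith
  · have h2 : (2 + (1 + 4 * c / g)) * g ≤ 7 := by
      have : (2 + (1 + 4 * c / g)) * g = 3 * g + 4 * c := by field_simp; ring
      rw [this]; linarith
    have h3 : 0 ≤ (2 + (1 + 4 * c / g)) * g := by positivity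
    have h4 : ((2 + (1 + 4 * c / g)) * g) ^ 2 ≤ 49 := by nlinarith
    have h5 : (2 + Real.log l) * (16 * (2 + (1 + 4 * c / g)) ^ 2) * g ^ 2 ≤ c ^ 2 * l * g ^ 2 := by
      have e : (2 + Real.log l) * (16 * (2 + (1 + 4 * c / g)) ^ 2) * g ^ 2 =
        (2 + Real.log l) * 16 * ((2 + (1 + 4 * c / g)) * g) ^ 2 := by ring
      rw [e]
      have h6 : (2 + Real.log l) * 16 * ((2 + (1 + 4 * c / g)) * g) ^ 2 ≤
          (2 + Real.log l) * 16 * 49 := mul_le_mul_of_nonneg_left h4 (by positivity)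
      nlinarith
    exact le_of_mul_le_mul_right h5 (by positivity)

end Cr

open Cr in
/-- CRIT -/
theorem stmt_Crit : Stmt_Crit := by
  intro k l Ω _ _ V c g hk2 hl hc hc1 hg hg1 H1 H2 H3 H4
  have hk : 0 < k := by omega
  obtain ⟨hl2, hlog, hnum⟩ := num_facts hc hc1 hg hg1 H4 hl
  obtain ⟨γ, hγ1, hγ2⟩ := exists_gamma hk
  set μ : ℝ := 1 + 4 * c / g with hμ
  have hcg : 0 < 4 * c / g := by positivity
  have hμ1 : 1 ≤ μ := by rw [hμ]; linarith
  have hμ0 : 0 ≤ μ := by linarith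
  have hμg : g * (μ - 1) = 4 * c := by rw [hμ]; field_simp; ring
  have hγg : g ≤ γ := by
    obtain ⟨n, hn1, hn2⟩ := (H3.and (Filter.eventually_gt_atTop 0)).exists
    have h1 := hγ1 n
    have hn' : (0 : ℝ) < n := by exact_mod_cast hn2
    exact le_of_mul_le_mul_right (hn1.trans h1) hn'
  have hγ0 : 0 < γ := by linarith
  have hl0 : (0 : ℝ) < l := by exact_mod_cast (show 0 < l by omega)
  set S : ℝ := (2 + μ) ^ 2 with hS
  have hS0 : 0 < S := by positivity
  -- the bound for the expectation of each term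
  have hterm : ∀ h : ℕ, (1 + μ) * phi k h l - 𝔼 a : Fin h → Fin k, 𝔼 ω, (lcs a (V ω) : ℝ) ≤
      μ * (γ / 2) * (l + h) - c * l := by
    intro h
    have h1 := phi_le_half hk hγ1 h l
    by_cases hr : l ≤ 10 ^ 4 * h ∧ h ≤ 10 ^ 4 * l
    · have h2 := H1 h hr.1 hr.2
      have h3 := mul_le_mul_of_nonneg_left h1 hμ0
      linarith
    · have h2 := H2 h hr
      have h3 : 0 ≤ 𝔼 a : Fin h → Fin k, 𝔼 ω, (lcs a (V ω) : ℝ) :=
        Finset.expect_nonneg fun _ _ => Finset.expect_nonneg fun _ _ => Nat.cast_nonneg _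
      have h4 : (1 + μ) * phi k h l ≤ (1 + μ) * (g / 4 * (l + h)) :=
        mul_le_mul_of_nonneg_left h2 (by linarith)
      have h5 : (0 : ℝ) ≤ (l : ℝ) + h := by positivity
      have h6 : μ * (g / 2) * ((l : ℝ) + h) ≤ μ * (γ / 2) * (l + h) := by
        refine mul_le_mul_of_nonneg_right ?_ h5
        exact mul_le_mul_of_nonneg_left (by linarith) hμ0
      have h7 : (1 + μ) * (g / 4 * ((l : ℝ) + h)) = μ * (g / 2) * (l + h) -
          (g * (μ - 1)) / 4 * (l + h) := by ring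
      rw [hμg] at h7
      have h8 : 0 ≤ c * (h : ℝ) := by positivity
      nlinarith
  have hkl : (0 : ℝ) < (k : ℝ) ^ l := by
    have : (0 : ℝ) < k := by exact_mod_cast hk
    positivity
  refine ⟨c ^ 2 / (16 * (k : ℝ) ^ l), by positivity, ?_⟩
  have hε : (0 : ℝ) < c / (8 * μ) := by positivity
  filter_upwards [hγ2 _ hε, Filter.eventually_gt_atTop 0,
    (tendsto_natCast_atTop_atTop (R := ℝ)).eventually_ge_atTop (8 * ((c + μ) * l) / c)]
    with n hn1 hn2 hn3
  have hn' : (0 : ℝ) < n := by exact_mod_cast hn2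
  set m := n / l with hmdef
  have hm : m * l ≤ n := Nat.div_mul_le_self n l
  have hmn : n < m * l + l := by
    have := Nat.lt_div_mul_add (a := n) (b := l) (by omega)
    exact this
  have hmR : (m : ℝ) * l ≤ n := by exact_mod_cast hm
  have hmR' : (n : ℝ) ≤ m * l + l := by exact_mod_cast hmn.le
  have hrest : ((n - m * l : ℕ) : ℝ) ≤ l := by exact_mod_cast (show n - m * l ≤ l by omega)
  set lam : ℝ := c / (4 * S) with hlam
  have hlam0 : 0 < lam := by positivity
  set E1 : ℝ := μ * γ * n - c * l * m with hE1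
  set B : ℝ := E1 + lam * (n * S) + (2 * n / l + m * Real.log l) / lam with hB
  have hgain := gain_ge hm V μ hk hμ0 E1 B lam hlam0
    (by
      intro h hh
      rw [mem_SS] at hh
      have hh' : ∑ i, (h i : ℝ) ≤ n := by exact_mod_cast hh
      calc ∑ i : Fin m, ((1 + μ) * phi k (h i) l -
            𝔼 a : Fin (h i) → Fin k, 𝔼 ω, (lcs a (V ω) : ℝ))
          ≤ ∑ i : Fin m, (μ * (γ / 2) * ((l : ℝ) + h i) - c * l) :=
            Finset.sum_le_sum fun i _ => hterm (h i)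
        _ = μ * (γ / 2) * (m * l + ∑ i, (h i : ℝ)) - c * l * m := by
            rw [Finset.sum_sub_distrib, ← Finset.mul_sum, Finset.sum_add_distrib]
            simp only [Finset.sum_const, Finset.card_univ, Fintype.card_fin, nsmul_eq_mul]
            ring
        _ ≤ μ * (γ / 2) * (n + n) - c * l * m := by
            have : μ * (γ / 2) * (m * l + ∑ i, (h i : ℝ)) ≤ μ * (γ / 2) * (n + n) :=
              mul_le_mul_of_nonneg_left (by linarith) (by positivity)
            linarith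
        _ = E1 := by rw [hE1]; ring)
    (by
      have e1 : lam * (E1 - B) + lam ^ 2 * (n * (2 + μ) ^ 2) =
          -(2 * n / l + m * Real.log l) := by
        rw [hB, ← hS]
        field_simp
        ring
      rw [e1, Real.exp_neg, Real.exp_add, ← Real.log_pow, Real.exp_log (by positivity)]
      rw [← div_eq_mul_inv, div_le_one (by positivity)]
      exact card_SS m n l hl2)
  -- the total gain is at least `c n / 4`
  have hfin : c * n / 4 ≤ ∑ i : Fin m, gain hm V i := by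
    refine le_trans ?_ hgain
    have e1 : lam * (n * S) = c * n / 4 := by rw [hlam]; field_simp
    have e2 : (2 * n / l + m * Real.log l) / lam ≤ c * n / 4 := by
      rw [hlam, div_div_eq_mul_div, div_le_iff₀ hc]
      have h1 : 2 * (n : ℝ) / l + m * Real.log l ≤ n / l * (2 + Real.log l) := by
        have : (m : ℝ) ≤ n / l := by rw [le_div_iff₀ hl0]; exact hmR
        have := mul_le_mul_of_nonneg_right this hlog
        have e : n / l * (2 + Real.log l) = 2 * (n : ℝ) / l + n / l * Real.log l := by ring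
        linarith
      have h2 : (2 * (n : ℝ) / l + m * Real.log l) * (4 * S) ≤
          n / l * (2 + Real.log l) * (4 * S) := mul_le_mul_of_nonneg_right h1 (by positivity)
      refine h2.trans ?_
      have h3 : (n : ℝ) / l * ((2 + Real.log l) * (16 * S)) ≤ n / l * (c ^ 2 * l) :=
        mul_le_mul_of_nonneg_left hnum (by positivity)
      have h4 : (n : ℝ) / l * (c ^ 2 * l) = c ^ 2 * n := by field_simp
      rw [h4] at h3
      nlinarith
    have e3 : (γ - c / (8 * μ)) * n * μ = μ * γ * n - c * n / 8 := by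
      have : μ ≠ 0 := by positivity
      field_simp
    have e4 := mul_le_mul_of_nonneg_right hn1 hμ0
    rw [e3] at e4
    have e5 : μ * ((n - m * l : ℕ) : ℝ) ≤ μ * l := mul_le_mul_of_nonneg_left hrest hμ0
    have e6 : c * (n - l) ≤ c * (m * l) := mul_le_mul_of_nonneg_left (by linarith) hc.le
    have e7 : 8 * ((c + μ) * l) ≤ n * c := by
      rw [div_le_iff₀ hc] at hn3
      exact hn3
    rw [hB, hE1, e1]
    clear hgain hterm
    linarith
  have hvar := var_of_gain hm V hk (c * n / 4) (by positivity) hfin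
  have hvar0 : 0 ≤ varL k n := by
    unfold varL
    exact Finset.expect_nonneg fun _ _ => Finset.expect_nonneg fun _ _ => sq_nonneg _
  have hmn' : (m : ℝ) ≤ n := by exact_mod_cast Nat.div_le_self n l
  have h1 : (m : ℝ) * (k : ℝ) ^ l * varL k n ≤ n * (k : ℝ) ^ l * varL k n :=
    mul_le_mul_of_nonneg_right (mul_le_mul_of_nonneg_right hmn' hkl.le) hvar0
  have h2 : (c * n / 4) ^ 2 ≤ n * (k : ℝ) ^ l * varL k n := hvar.trans h1
  have h3 : c ^ 2 * n / 16 ≤ (k : ℝ) ^ l * varL k n := by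
    have e : (c * n / 4) ^ 2 = n * (c ^ 2 * n / 16) := by ring
    rw [e, mul_assoc] at h2
    exact le_of_mul_le_mul_left h2 hn'
  rw [div_mul_eq_mul_div, div_le_iff₀ (by positivity)]
  linarith

end

end Pool.Agent.LCS13
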