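import Pool.Agent.Work.MP_bec1e1_pr_h13.CRITaux
import Pool.Agent.Work.MP_bec1e1_pr_h13.LP

/-!
# Variance criterion: alignments
-/

open Finset BigOperators
open scoped Classical

namespace Pool.Agent.LCS13

noncomputable section

namespace Cr

/-- partial sums -/
def ys (h : ℕ → ℕ) (i : ℕ) : ℕ := ∑ j ∈ range i, h j

theorem ys_zero (h : ℕ → ℕ) : ys h 0 = 0 := by simp [ys]
theorem ys_succ (h : ℕ → ℕ) (i : ℕ) : ys h (i + 1) = ys h i + h i := by
  simp [ys, Finset.sum_range_succ]
theorem ys_mono (h : ℕ → ℕ) {i j : ℕ} (hij : i ≤ j) : ys h i ≤ ys h j := by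
  induction j, hij using Nat.le_induction with
  | base => exact le_rfl
  | succ j _ ih => rw [ys_succ]; omega
theorem ys_congr {h h' : ℕ → ℕ} {i : ℕ} (e : ∀ j < i, h j = h' j) : ys h i = ys h' i :=
  Finset.sum_congr rfl fun j hj => e j (Finset.mem_range.1 hj)

theorem exists_align (M : ℕ → ℕ → Prop) (l r : ℕ) : ∀ m c, ∃ h : ℕ → ℕ, ys h m ≤ r ∧
    lp M 0 0 r (m * l + c) = ∑ i ∈ range m, lp M (ys h i) (i * l) (h i) l +
      lp M (ys h m) (m * l) (r - ys h m) c := by
  intro m
  induction m with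
  | zero =>
    intro c
    refine ⟨fun _ => 0, by simp [ys], ?_⟩
    simp [ys]
  | succ m ih =>
    intro c
    obtain ⟨h, h1, h2⟩ := ih (l + c)
    obtain ⟨r₁, h3, h4⟩ := lp_col_split M (ys h m) (m * l) (r - ys h m) l c
    refine ⟨fun i => if i = m then r₁ else h i, ?_, ?_⟩
    · rw [ys_succ, if_pos rfl, ys_congr (h' := h)]
      · omega
      · intro j hj
        rw [if_neg (by omega)]
    · have e1 : ∀ i, i ≤ m → ys (fun i => if i = m then r₁ else h i) i = ys h i := by
        intro i hi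
        apply ys_congr
        intro j hj
        rw [if_neg (by omega)]
      have e2 : (m + 1) * l + c = m * l + (l + c) := by ring
      rw [e2, h2, h4, Finset.sum_range_succ, ys_succ, if_pos rfl, e1 m le_rfl]
      have e3 : ∑ i ∈ range m, lp M (ys (fun i => if i = m then r₁ else h i) i) (i * l)
          (if i = m then r₁ else h i) l = ∑ i ∈ range m, lp M (ys h i) (i * l) (h i) l := by
        apply Finset.sum_congr rfl
        intro i hi
        rw [Finset.mem_range] at hi
        rw [e1 i hi.le, if_neg (by omega)]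
      rw [e3]
      have e4 : (m + 1) * l = m * l + l := by ring
      have e5 : r - (ys h m + r₁) = r - ys h m - r₁ := by omega
      rw [e4, e5]
      simp only [if_true]
      rw [Nat.add_assoc]

theorem superadd_align (M : ℕ → ℕ → Prop) (l r : ℕ) (h : ℕ → ℕ) : ∀ m c, ys h m ≤ r →
    ∑ i ∈ range m, lp M (ys h i) (i * l) (h i) l + lp M (ys h m) (m * l) (r - ys h m) c ≤
      lp M 0 0 r (m * l + c) := by
  intro m
  induction m with
  | zero =>
    intro c _
    simp [ys]
  | succ m ih =>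
    intro c hr
    rw [ys_succ] at hr
    have h1 := ih (l + c) (by omega)
    have h2 := lp_superadd M (ys h m) (m * l) (h m) (r - ys h m - h m) l c
    have e2 : (m + 1) * l + c = m * l + (l + c) := by ring
    have e4 : (m + 1) * l = m * l + l := by ring
    have e5 : r - (ys h m + h m) = r - ys h m - h m := by omega
    have e6 : h m + (r - ys h m - h m) = r - ys h m := by omega
    rw [e6] at h2
    rw [e2, Finset.sum_range_succ, ys_succ, e4, e5]
    omega

/-- LCS of the rows `[y, y+h)` with a word -/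
def AA {n l k : ℕ} (a : Fin n → Fin k) (y h : ℕ) (w : Fin l → Fin k) : ℕ :=
  lp (mt (wn a) (wn w)) y 0 h l

theorem wn_lt {n k : ℕ} {w : Fin n → Fin k} {i : ℕ} (h : i < n) :
    wn w i = some (w ⟨i, h⟩ : ℕ) := by
  unfold wn
  rw [dif_pos h]

/-- the sub-interval embedding -/
def ea {n : ℕ} (y h : ℕ) (hy : y + h ≤ n) : Fin h → Fin n := fun p => ⟨y + p, by omega⟩

theorem ea_inj {n : ℕ} {y h : ℕ} (hy : y + h ≤ n) : Function.Injective (ea y h hy) := by
  intro p q hpq
  have : y + (p : ℕ) = y + q := congrArg Fin.val hpq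
  exact Fin.ext (by omega)

theorem AA_eq {n l k : ℕ} (a : Fin n → Fin k) (y h : ℕ) (hy : y + h ≤ n) (w : Fin l → Fin k) :
    AA a y h w = lcs (a ∘ ea y h hy) w := by
  unfold AA lcs
  have h1 := lp_shift (mt (wn a) (wn w)) 0 0 h l y 0
  rw [Nat.zero_add, Nat.zero_add] at h1
  rw [← h1]
  apply lp_congr
  intro i' j' _ h2 _ _
  rw [Nat.zero_add] at h2
  unfold mt
  rw [wn_lt (show i' + y < n by omega), wn_lt (show i' < h from h2)]
  have e : (ea y h hy ⟨i', h2⟩) = ⟨i' + y, by omega⟩ := Fin.ext (Nat.add_comm _ _)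
  simp only [Function.comp, e, Nat.add_zero]

section blocks
variable {n m l k : ℕ} (hm : m * l ≤ n)

/-- the block embedding -/
def eb (i : Fin m) : Fin l → Fin n := fun p => ⟨i * l + p, by
  have h1 : (i + 1) * l ≤ m * l := Nat.mul_le_mul_right _ i.2
  have h2 := p.2
  rw [add_mul, one_mul] at h1
  omega⟩

theorem eb_inj (i : Fin m) : Function.Injective (eb hm i) := by
  intro p q hpq
  have : (i : ℕ) * l + (p : ℕ) = i * l + q := congrArg Fin.val hpq
  exact Fin.ext (by omega)

theorem eb_disj {i j : Fin m} (hij : i ≠ j) (p q : Fin l) : eb hm i p ≠ eb hm j q := by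
  intro h
  have h1 : (i : ℕ) * l + (p : ℕ) = j * l + q := congrArg Fin.val h
  apply hij
  have hp := p.2
  have hq := q.2
  apply Fin.ext
  have e1 : ((i : ℕ) * l + (p : ℕ)) / l = i := by
    rw [Nat.add_comm, Nat.add_mul_div_right _ _ (by omega), Nat.div_eq_of_lt hp, Nat.zero_add]
  have e2 : ((j : ℕ) * l + (q : ℕ)) / l = j := by
    rw [Nat.add_comm, Nat.add_mul_div_right _ _ (by omega), Nat.div_eq_of_lt hq, Nat.zero_add]
  rw [← e1, ← e2, h1]

theorem lp_block (a b : Fin n → Fin k) (i : Fin m) (y h : ℕ) :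
    lp (mt (wn a) (wn b)) y (i * l) h l = AA a y h (b ∘ eb hm i) := by
  unfold AA
  have h1 := lp_shift (mt (wn a) (wn b)) y 0 h l 0 (i * l)
  rw [Nat.zero_add, Nat.add_zero] at h1
  rw [← h1]
  apply lp_congr
  intro i' j' _ _ _ h2
  rw [Nat.zero_add] at h2
  unfold mt
  have h3 : j' + i * l < n := by
    have h4 : ((i : ℕ) + 1) * l ≤ m * l := Nat.mul_le_mul_right _ i.2
    rw [add_mul, one_mul] at h4
    omega
  rw [wn_lt h3, wn_lt (show j' < l from h2)]
  have e : (eb hm i ⟨j', h2⟩) = ⟨j' + i * l, h3⟩ := Fin.ext (Nat.add_comm _ _)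
  simp only [Function.comp, e, Nat.add_zero]

theorem wn_ov_rest (b : Fin n → Fin k) (v : Fin l → Fin k) (i : Fin m) {q : ℕ}
    (hq : m * l ≤ q) : wn (ov (eb hm i) v b) q = wn b q := by
  unfold wn
  split_ifs with h
  · rw [ov_of_ne]
    intro p hp
    have h1 : (i : ℕ) * l + p = q := congrArg Fin.val hp
    have h4 : ((i : ℕ) + 1) * l ≤ m * l := Nat.mul_le_mul_right _ i.2
    rw [add_mul, one_mul] at h4
    have := p.2
    omega
  · rfl

/-- the optimal alignment -/
theorem exists_opt (a b : Fin n → Fin k) : ∃ h : ℕ → ℕ, ys h m ≤ n ∧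
    lcs a b ≤ ∑ i : Fin m, AA a (ys h i) (h i) (b ∘ eb hm i) + (n - m * l) ∧
    ∀ (i : Fin m) (v : Fin l → Fin k), lcs a b + AA a (ys h i) (h i) v ≤
      lcs a (ov (eb hm i) v b) + AA a (ys h i) (h i) (b ∘ eb hm i) := by
  obtain ⟨h, h1, h2⟩ := exists_align (mt (wn a) (wn b)) l n m (n - m * l)
  have e1 : m * l + (n - m * l) = n := by omega
  rw [e1] at h2
  have e2 : ∑ i ∈ range m, lp (mt (wn a) (wn b)) (ys h i) (i * l) (h i) l =
      ∑ i : Fin m, AA a (ys h i) (h i) (b ∘ eb hm i) := by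
    rw [Finset.sum_range]
    exact Finset.sum_congr rfl fun i _ => lp_block hm a b i _ _
  rw [e2] at h2
  refine ⟨h, h1, ?_, ?_⟩
  · have := lp_le_col (m := mt (wn a) (wn b)) (i := ys h m) (j := m * l) (r := n - ys h m)
      (c := n - m * l)
    unfold lcs
    omega
  · intro i v
    have h3 := superadd_align (mt (wn a) (wn (ov (eb hm i) v b))) l n h m (n - m * l) h1
    rw [e1] at h3
    have e3 : ∑ j ∈ range m, lp (mt (wn a) (wn (ov (eb hm i) v b))) (ys h j) (j * l) (h j) l =
        ∑ j : Fin m, AA a (ys h j) (h j) (ov (eb hm i) v b ∘ eb hm j) := by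
      rw [Finset.sum_range]
      exact Finset.sum_congr rfl fun j _ => lp_block hm a _ j _ _
    rw [e3] at h3
    have e4 : lp (mt (wn a) (wn (ov (eb hm i) v b))) (ys h m) (m * l) (n - ys h m) (n - m * l) =
        lp (mt (wn a) (wn b)) (ys h m) (m * l) (n - ys h m) (n - m * l) := by
      apply lp_congr
      intro i' j' _ _ h5 _
      unfold mt
      rw [wn_ov_rest hm b v i h5]
    rw [e4] at h3
    rw [← Finset.add_sum_erase _ _ (Finset.mem_univ i)] at h2 h3
    have e5 : ∑ j ∈ univ.erase i, AA a (ys h j) (h j) (ov (eb hm i) v b ∘ eb hm j) =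
        ∑ j ∈ univ.erase i, AA a (ys h j) (h j) (b ∘ eb hm j) := by
      apply Finset.sum_congr rfl
      intro j hj
      have hji : i ≠ j := (Finset.ne_of_mem_erase hj).symm
      congr 1
      funext p
      exact ov_of_ne fun q => eb_disj hm hji q p
    rw [e5, ov_comp (eb_inj hm i)] at h3
    unfold lcs
    omega

end blocks

/-- at most one summand changes -/
theorem sum_one_diff {J : Type} [Fintype J] (X X' : J → ℝ) (C : ℝ) (hC : 0 ≤ C)
    (h1 : ∀ i j, X i ≠ X' i → X j ≠ X' j → i = j) (h2 : ∀ i, |X i - X' i| ≤ C) :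
    |∑ i, X i - ∑ i, X' i| ≤ C := by
  rw [← Finset.sum_sub_distrib]
  by_cases h : ∃ i, X i ≠ X' i
  · obtain ⟨i, hi⟩ := h
    rw [Finset.sum_eq_single i]
    · exact h2 i
    · intro j _ hj
      by_contra hne
      exact hj (h1 j i (fun e => hne (by rw [e, sub_self])) hi)
    · intro h; exact absurd (Finset.mem_univ i) h
  · push Not at h
    rw [Finset.sum_eq_zero fun i _ => by rw [h i, sub_self], abs_zero]
    exact hC

theorem AA_row_change {n l k : ℕ} {a a' : Fin n → Fin k} {y h : ℕ} (w : Fin l → Fin k) (p : Fin n)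
    (haa : ∀ q, q ≠ p → a q = a' q) : |(AA a y h w : ℝ) - AA a' y h w| ≤ 1 := by
  have key : ∀ a a' : Fin n → Fin k, (∀ q, q ≠ p → a q = a' q) → AA a y h w ≤ AA a' y h w + 1 := by
    intro a a' haa
    apply lp_row_change (p : ℕ)
    intro x z hx
    unfold mt
    have : wn a x = wn a' x := by
      unfold wn
      split_ifs with h
      · rw [haa ⟨x, h⟩ (fun e => hx (congrArg Fin.val e))]
      · rfl
    rw [this]
  have h1 := key a a' haa
  have h2 := key a' a fun q hq => (haa q hq).symm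
  rw [abs_le]
  constructor
  · have : (AA a' y h w : ℝ) ≤ AA a y h w + 1 := by exact_mod_cast h2
    linarith
  · have : (AA a y h w : ℝ) ≤ AA a' y h w + 1 := by exact_mod_cast h1
    linarith

theorem AA_row_congr {n l k : ℕ} {a a' : Fin n → Fin k} {y h : ℕ} (w : Fin l → Fin k) (p : Fin n)
    (haa : ∀ q, q ≠ p → a q = a' q) (hp : ¬ (y ≤ p ∧ (p : ℕ) < y + h)) :
    AA a y h w = AA a' y h w := by
  apply lp_congr
  intro i' j' h1 h2 _ _
  unfold mt
  have : wn a i' = wn a' i' := by
    unfold wn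
    split_ifs with h
    · rw [haa ⟨i', h⟩ (fun e => hp (by rw [← e]; exact ⟨h1, h2⟩))]
    · rfl
  rw [this]

theorem AA_col_change {n l k : ℕ} {a : Fin n → Fin k} {y h : ℕ} {w w' : Fin l → Fin k} (p : Fin l)
    (hww : ∀ q, q ≠ p → w q = w' q) : |(AA a y h w : ℝ) - AA a y h w'| ≤ 1 := by
  have key : ∀ w w' : Fin l → Fin k, (∀ q, q ≠ p → w q = w' q) → AA a y h w ≤ AA a y h w' + 1 := by
    intro w w' hww
    apply lp_col_change (p : ℕ)
    intro x z hz
    unfold mt
    have : wn w z = wn w' z := by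
      unfold wn
      split_ifs with h
      · rw [hww ⟨z, h⟩ (fun e => hz (congrArg Fin.val e))]
      · rfl
    rw [this]
  have h1 := key w w' hww
  have h2 := key w' w fun q hq => (hww q hq).symm
  rw [abs_le]
  constructor
  · have : (AA a y h w' : ℝ) ≤ AA a y h w + 1 := by exact_mod_cast h2
    linarith
  · have : (AA a y h w : ℝ) ≤ AA a y h w' + 1 := by exact_mod_cast h1
    linarith

end Cr

end

end Pool.Agent.LCS13
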