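import Pool.Agent.Work.MP_bec1e1_pr_h13.Interface
import Pool.Agent.Work.MP_8d2cba_co_helper57.MCD

/-!
# Variance criterion: probability tools (exchange, marginals, Bessel, exponential moments)
-/

open Finset BigOperators
open scoped Classical

namespace Pool.Agent.LCS13

noncomputable section

namespace Cr

section ov
variable {ι κ α : Type}

/-- overwrite `b` on the range of `e` by `v` -/
def ov (e : κ → ι) (v : κ → α) (b : ι → α) : ι → α := fun q =>
  if h : ∃ p, e p = q then v h.choose else b q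

theorem ov_apply {e : κ → ι} (he : Function.Injective e) (v : κ → α) (b : ι → α) (p : κ) :
    ov e v b (e p) = v p := by
  unfold ov
  have h : ∃ p', e p' = e p := ⟨p, rfl⟩
  rw [dif_pos h]
  exact congrArg v (he h.choose_spec)

theorem ov_of_ne {e : κ → ι} {v : κ → α} {b : ι → α} {q : ι} (hq : ∀ p, e p ≠ q) :
    ov e v b q = b q := by
  unfold ov
  rw [dif_neg (by push Not; exact hq)]

theorem ov_comp {e : κ → ι} (he : Function.Injective e) (v : κ → α) (b : ι → α) :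
    ov e v b ∘ e = v := funext (ov_apply he v b)

theorem ov_ov {e : κ → ι} (he : Function.Injective e) (v : κ → α) (b : ι → α) :
    ov e (b ∘ e) (ov e v b) = b := by
  funext q
  by_cases h : ∃ p, e p = q
  · obtain ⟨p, rfl⟩ := h
    rw [ov_apply he]; rfl
  · push Not at h
    rw [ov_of_ne h, ov_of_ne h]

variable [Fintype ι] [Fintype κ] [Fintype α] [DecidableEq ι] [DecidableEq κ]

/-- exchange of a block with an independent copy -/
theorem exch {e : κ → ι} (he : Function.Injective e) (Φ : (κ → α) → (ι → α) → ℝ) :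
    𝔼 v, 𝔼 b, Φ v b = 𝔼 v, 𝔼 b, Φ (b ∘ e) (ov e v b) := by
  rw [← Finset.expect_product' univ univ Φ, ← Finset.expect_product' univ univ
    (fun v b => Φ (b ∘ e) (ov e v b))]
  rw [Finset.univ_product_univ]
  let E : (κ → α) × (ι → α) ≃ (κ → α) × (ι → α) :=
    { toFun := fun p => (p.2 ∘ e, ov e p.1 p.2)
      invFun := fun p => (p.2 ∘ e, ov e p.1 p.2)
      left_inv := by
        rintro ⟨v, b⟩
        simp only [ov_comp he, ov_ov he]
      right_inv := by
        rintro ⟨v, b⟩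
        simp only [ov_comp he, ov_ov he] }
  exact (Fintype.expect_equiv E _ _ fun p => rfl).symm

variable [Nonempty α]

/-- marginal -/
theorem marg {e : κ → ι} (he : Function.Injective e) (F : (κ → α) → ℝ) :
    𝔼 b : ι → α, F (b ∘ e) = 𝔼 v, F v := by
  have h := exch (α := α) he (fun v _ => F v)
  simp only [Fintype.expect_const] at h
  exact h.symm

theorem marg2 {e : κ → ι} (he : Function.Injective e) (G : (κ → α) → ℝ) (f : (ι → α) → ℝ) :
    𝔼 b : ι → α, G (b ∘ e) * f b = 𝔼 v, G v * 𝔼 b, f (ov e v b) := by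
  have h := exch (α := α) he (fun v b => G v * f (ov e v b))
  simp only [ov_ov he, Fintype.expect_const] at h
  rw [← h]
  exact Finset.expect_congr rfl fun v _ => (Finset.mul_expect _ _ _).symm

theorem marg3 {e : κ → ι} (he : Function.Injective e) (f : (ι → α) → ℝ) :
    𝔼 v, 𝔼 b, f (ov e v b) = 𝔼 b, f b := by
  have := marg2 he (fun _ => 1) f
  simpa using this.symm

variable {J : Type} [Fintype J]

/-- Bessel inequality for disjoint blocks -/
theorem bessel (e : J → κ → ι) (he : ∀ j, Function.Injective (e j))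
    (hd : ∀ i j, i ≠ j → ∀ p q, e i p ≠ e j q) (f : (ι → α) → ℝ) :
    ∑ j, 𝔼 v, (𝔼 b, f (ov (e j) v b) - 𝔼 b, f b) ^ 2 ≤ 𝔼 b, (f b - 𝔼 b', f b') ^ 2 := by
  set E0 := 𝔼 b, f b with hE0
  set ψ : J → (κ → α) → ℝ := fun j v => 𝔼 b, f (ov (e j) v b) - E0 with hψ
  have h1 : ∀ j, 𝔼 b : ι → α, ψ j (b ∘ e j) * (f b - E0) = 𝔼 v, ψ j v ^ 2 := by
    intro j
    rw [marg2 (he j) (ψ j) (fun b => f b - E0)]
    refine Finset.expect_congr rfl fun v _ => ?_
    rw [Finset.expect_sub_distrib, Fintype.expect_const, sq]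
  have h2 : ∀ j, 𝔼 b : ι → α, ψ j (b ∘ e j) = 0 := by
    intro j
    rw [marg (he j) (ψ j)]
    simp only [hψ]
    rw [Finset.expect_sub_distrib, Fintype.expect_const, marg3 (he j), sub_self]
  have h3 : ∀ i j, i ≠ j → 𝔼 b : ι → α, ψ i (b ∘ e i) * ψ j (b ∘ e j) = 0 := by
    intro i j hij
    rw [marg2 (he i) (ψ i) (fun b => ψ j (b ∘ e j))]
    refine Finset.expect_eq_zero fun v _ => ?_
    have : ∀ b : ι → α, ov (e i) v b ∘ e j = b ∘ e j := by
      intro b
      funext p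
      exact ov_of_ne fun q => hd i j hij q p
    simp only [this, h2, mul_zero]
  have h4 : ∀ i, 𝔼 b : ι → α, ψ i (b ∘ e i) * ψ i (b ∘ e i) = 𝔼 v, ψ i v ^ 2 := by
    intro i
    rw [marg (he i) (fun v => ψ i v * ψ i v)]
    exact Finset.expect_congr rfl fun v _ => (sq _).symm
  have h0 : 0 ≤ 𝔼 b, (f b - E0 - ∑ j, ψ j (b ∘ e j)) ^ 2 :=
    Finset.expect_nonneg fun _ _ => sq_nonneg _
  have h5 : 𝔼 b, (f b - E0 - ∑ j, ψ j (b ∘ e j)) ^ 2 =
      𝔼 b, (f b - E0) ^ 2 - 2 * ∑ j, 𝔼 b, ψ j (b ∘ e j) * (f b - E0) +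
        ∑ i, ∑ j, 𝔼 b, ψ i (b ∘ e i) * ψ j (b ∘ e j) := by
    have e1 : ∀ b, (f b - E0 - ∑ j, ψ j (b ∘ e j)) ^ 2 = (f b - E0) ^ 2 -
        2 * ∑ j, ψ j (b ∘ e j) * (f b - E0) + ∑ i, ∑ j, ψ i (b ∘ e i) * ψ j (b ∘ e j) := by
      intro b
      rw [← Finset.sum_mul, ← Finset.sum_mul_sum]
      ring
    simp only [e1, Finset.expect_add_distrib, Finset.expect_sub_distrib, ← Finset.mul_expect,
      ← Finset.expect_sum_comm]
  have h6 : ∑ i, ∑ j, 𝔼 b, ψ i (b ∘ e i) * ψ j (b ∘ e j) = ∑ i, 𝔼 v, ψ i v ^ 2 := by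
    refine Finset.sum_congr rfl fun i _ => ?_
    rw [Finset.sum_eq_single i (fun j _ hj => h3 i j (Ne.symm hj)) (by simp), h4]
  rw [h5, h6] at h0
  simp only [h1] at h0
  linarith

end ov

section mgf
variable {ι α : Type} [Fintype ι] [DecidableEq ι] [Fintype α] [Nonempty α]

theorem mgfE (f : (ι → α) → ℝ) (c : ι → ℝ)
    (hf : ∀ i (ω ω' : ι → α), (∀ j, j ≠ i → ω j = ω' j) → |f ω - f ω'| ≤ c i) :
    𝔼 ω, Real.exp (f ω - 𝔼 ω', f ω') ≤ Real.exp ((∑ i, c i ^ 2) / 2) := by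
  have hα : (Fintype.card α : ℝ) ≠ 0 := by exact_mod_cast Fintype.card_ne_zero
  have h := Pool.OM.helper57.mgf' (fun (_ : ι) (_ : α) => 1 / (Fintype.card α : ℝ)) f c
    (fun _ _ => by positivity) (fun _ => by
      rw [Finset.sum_const, Finset.card_univ, nsmul_eq_mul]; field_simp) hf
  have hconv : ∀ F : (ι → α) → ℝ,
      ∑ ω : ι → α, (∏ _i : ι, 1 / (Fintype.card α : ℝ)) * F ω = 𝔼 ω, F ω := by
    intro F
    rw [Fintype.expect_eq_sum_div_card, ← Finset.mul_sum, Finset.prod_const, Finset.card_univ,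
      Fintype.card_fun]
    push_cast
    rw [one_div, inv_pow]
    ring
  simp only [hconv] at h
  exact h

/-- expectation of a maximum -/
theorem expmax {H : Type} (S : Finset H) (G : H → (ι → α) → ℝ) (c : ι → ℝ)
    (hG : ∀ h ∈ S, ∀ i (ω ω' : ι → α), (∀ j, j ≠ i → ω j = ω' j) → |G h ω - G h ω'| ≤ c i)
    (E1 B lam : ℝ) (hlam : 0 < lam) (hE : ∀ h ∈ S, 𝔼 ω, G h ω ≤ E1)
    (hB : (#S : ℝ) * Real.exp (lam * (E1 - B) + lam ^ 2 * (∑ i, c i ^ 2) / 2) ≤ 1)
    (hs : (ι → α) → H) (hsS : ∀ ω, hs ω ∈ S) :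
    𝔼 ω, G (hs ω) ω ≤ B := by
  have h1 : ∀ h ∈ S, 𝔼 ω, Real.exp (lam * (G h ω - B)) ≤
      Real.exp (lam * (E1 - B) + lam ^ 2 * (∑ i, c i ^ 2) / 2) := by
    intro h hh
    have e1 := mgfE (fun ω => lam * G h ω) (fun i => lam * c i) (by
      intro i ω ω' hi
      rw [← mul_sub, abs_mul, abs_of_pos hlam]
      exact mul_le_mul_of_nonneg_left (hG h hh i ω ω' hi) hlam.le)
    have e2 : 𝔼 ω, lam * G h ω = lam * 𝔼 ω, G h ω := (Finset.mul_expect _ _ _).symm
    simp only [e2] at e1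
    have e3 : ∀ ω, Real.exp (lam * (G h ω - B)) =
        Real.exp (lam * (𝔼 ω, G h ω - B)) * Real.exp (lam * G h ω - lam * 𝔼 ω, G h ω) := by
      intro ω
      rw [← Real.exp_add]
      congr 1
      ring
    simp only [e3]
    rw [← Finset.mul_expect, Real.exp_add]
    have e4 : (∑ i, (lam * c i) ^ 2) / 2 = lam ^ 2 * (∑ i, c i ^ 2) / 2 := by
      rw [Finset.mul_sum]
      congr 1
      exact Finset.sum_congr rfl fun i _ => by ring
    rw [e4] at e1
    refine mul_le_mul (Real.exp_le_exp.2 ?_) e1 (Finset.expect_nonneg fun _ _ => (Real.exp_pos _).le)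
      (Real.exp_pos _).le
    exact mul_le_mul_of_nonneg_left (by linarith [hE h hh]) hlam.le
  have h2 : ∀ ω, lam * (G (hs ω) ω - B) ≤ ∑ h ∈ S, Real.exp (lam * (G h ω - B)) - 1 := by
    intro ω
    have e1 := Real.add_one_le_exp (lam * (G (hs ω) ω - B))
    have e2 : Real.exp (lam * (G (hs ω) ω - B)) ≤ ∑ h ∈ S, Real.exp (lam * (G h ω - B)) :=
      Finset.single_le_sum (f := fun h => Real.exp (lam * (G h ω - B)))
        (fun _ _ => (Real.exp_pos _).le) (hsS ω)
    linarith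
  have h3 : 𝔼 ω, lam * (G (hs ω) ω - B) ≤
      𝔼 ω, (∑ h ∈ S, Real.exp (lam * (G h ω - B)) - 1) :=
    Finset.expect_le_expect fun ω _ => h2 ω
  rw [Finset.expect_sub_distrib, Fintype.expect_const, Finset.expect_sum_comm,
    ← Finset.mul_expect, Finset.expect_sub_distrib, Fintype.expect_const] at h3
  have h4 : ∑ h ∈ S, 𝔼 ω, Real.exp (lam * (G h ω - B)) ≤ 1 := by
    refine (Finset.sum_le_sum h1).trans ?_
    rw [Finset.sum_const, nsmul_eq_mul]
    exact hB
  have h5 : lam * (𝔼 ω, G (hs ω) ω - B) ≤ 0 := by linarith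
  by_contra hcon
  push Not at hcon
  have := mul_pos hlam (sub_pos.2 hcon)
  linarith

end mgf

end Cr

end

end Pool.Agent.LCS13
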