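import Pool.Agent.Work.MP_bec1e1_pr_h13.CRITal

/-!
# Variance criterion: the expected LCS `phi`
-/

open Finset BigOperators Filter
open scoped Classical

namespace Pool.Agent.LCS13

noncomputable section

namespace Cr

theorem lp_sub {n p k : ℕ} (a : Fin n → Fin k) (b : Fin p → Fin k) (y h : ℕ) (hy : y + h ≤ n)
    (z h' : ℕ) (hz : z + h' ≤ p) :
    lp (mt (wn a) (wn b)) y z h h' = lcs (a ∘ ea y h hy) (b ∘ ea z h' hz) := by
  unfold lcs
  have h1 := lp_shift (mt (wn a) (wn b)) 0 0 h h' y z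
  rw [Nat.zero_add, Nat.zero_add] at h1
  rw [← h1]
  apply lp_congr
  intro i' j' _ h2 _ h3
  rw [Nat.zero_add] at h2 h3
  unfold mt
  rw [wn_lt (show i' + y < n by omega), wn_lt (show i' < h from h2),
    wn_lt (show j' + z < p by omega), wn_lt (show j' < h' from h3)]
  have e : (ea y h hy ⟨i', h2⟩) = ⟨i' + y, by omega⟩ := Fin.ext (Nat.add_comm _ _)
  have e' : (ea z h' hz ⟨j', h3⟩) = ⟨j' + z, by omega⟩ := Fin.ext (Nat.add_comm _ _)
  simp only [Function.comp, e, e']

theorem lcs_symm {n p k : ℕ} (a : Fin n → Fin k) (b : Fin p → Fin k) : lcs a b = lcs b a := by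
  unfold lcs
  rw [lp_transpose]
  apply lp_congr
  intro i' j' _ _ _ _
  unfold mt
  constructor <;> rintro ⟨x, h1, h2⟩ <;> exact ⟨x, h2, h1⟩

theorem phi_symm (k T l : ℕ) : phi k T l = phi k l T := by
  unfold phi
  rw [Finset.expect_comm]
  exact Finset.expect_congr rfl fun b _ => Finset.expect_congr rfl fun a _ => by rw [lcs_symm]

theorem phi_nonneg (k T l : ℕ) : 0 ≤ phi k T l :=
  Finset.expect_nonneg fun _ _ => Finset.expect_nonneg fun _ _ => Nat.cast_nonneg _

theorem phi_superadd {k : ℕ} (hk : 0 < k) (h1 h2 l1 l2 : ℕ) :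
    phi k h1 l1 + phi k h2 l2 ≤ phi k (h1 + h2) (l1 + l2) := by
  have : Nonempty (Fin k) := ⟨⟨0, hk⟩⟩
  have e1 : phi k h1 l1 = 𝔼 a : Fin (h1 + h2) → Fin k, 𝔼 b : Fin (l1 + l2) → Fin k,
      (lcs (a ∘ ea 0 h1 (by omega)) (b ∘ ea 0 l1 (by omega)) : ℝ) := by
    unfold phi
    rw [← marg (ea_inj (n := h1 + h2) (y := 0) (h := h1) (by omega))
      (fun a => 𝔼 b : Fin l1 → Fin k, (lcs a b : ℝ))]
    refine Finset.expect_congr rfl fun a _ => ?_
    rw [← marg (ea_inj (n := l1 + l2) (y := 0) (h := l1) (by omega))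
      (fun b => (lcs (a ∘ ea 0 h1 (by omega)) b : ℝ))]
  have e2 : phi k h2 l2 = 𝔼 a : Fin (h1 + h2) → Fin k, 𝔼 b : Fin (l1 + l2) → Fin k,
      (lcs (a ∘ ea h1 h2 le_rfl) (b ∘ ea l1 l2 le_rfl) : ℝ) := by
    unfold phi
    rw [← marg (ea_inj (n := h1 + h2) (y := h1) (h := h2) le_rfl)
      (fun a => 𝔼 b : Fin l2 → Fin k, (lcs a b : ℝ))]
    refine Finset.expect_congr rfl fun a _ => ?_
    rw [← marg (ea_inj (n := l1 + l2) (y := l1) (h := l2) le_rfl)
      (fun b => (lcs (a ∘ ea h1 h2 le_rfl) b : ℝ))]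
  rw [e1, e2, ← Finset.expect_add_distrib]
  refine Finset.expect_le_expect fun a _ => ?_
  rw [← Finset.expect_add_distrib]
  refine Finset.expect_le_expect fun b _ => ?_
  rw [← lp_sub, ← lp_sub]
  have := lp_superadd (mt (wn a) (wn b)) 0 0 h1 h2 l1 l2
  rw [Nat.zero_add, Nat.zero_add] at this
  exact_mod_cast this

theorem phi_le_n (k n : ℕ) : phi k n n ≤ n := by
  unfold phi
  rcases Nat.eq_zero_or_pos k with hk | hk
  · subst hk
    rcases Nat.eq_zero_or_pos n with hn | hn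
    · subst hn
      simp only [lcs, lp_zero_row, Nat.cast_zero, Finset.expect_const_zero, le_refl]
    · have : IsEmpty (Fin n → Fin 0) := ⟨fun f => (f ⟨0, hn⟩).elim0⟩
      simp
  · have : Nonempty (Fin k) := ⟨⟨0, hk⟩⟩
    refine Finset.expect_le Finset.univ_nonempty fun a _ => ?_
    refine Finset.expect_le Finset.univ_nonempty fun b _ => ?_
    exact_mod_cast lp_le_row

/-- the limit constant -/
theorem exists_gamma {k : ℕ} (hk : 0 < k) : ∃ γ : ℝ, (∀ n, phi k n n ≤ γ * n) ∧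
    ∀ ε : ℝ, 0 < ε → ∀ᶠ n : ℕ in atTop, (γ - ε) * n ≤ phi k n n := by
  have hsub : Subadditive fun n => - phi k n n := by
    intro m n
    have := phi_superadd hk m n m n
    linarith
  have hbdd : BddBelow (Set.range fun n : ℕ => (- phi k n n) / n) := by
    refine ⟨-1, ?_⟩
    rintro _ ⟨n, rfl⟩
    rcases Nat.eq_zero_or_pos n with hn | hn
    · subst hn; simp
    · have hn' : (0 : ℝ) < n := by exact_mod_cast hn
      change -1 ≤ - phi k n n / n
      rw [le_div_iff₀ hn']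
      have := phi_le_n k n
      linarith
  refine ⟨- hsub.lim, ?_, ?_⟩
  · intro n
    rcases Nat.eq_zero_or_pos n with hn | hn
    · subst hn
      have := phi_le_n k 0
      simpa using this
    · have hn' : (0 : ℝ) < n := by exact_mod_cast hn
      have h1 := hsub.lim_le_div hbdd (n := n) (by omega)
      rw [le_div_iff₀ hn'] at h1
      linarith
  · intro ε hε
    have ht := hsub.tendsto_lim hbdd
    have h1 : ∀ᶠ n : ℕ in atTop, (- phi k n n) / n < hsub.lim + ε :=
      ht.eventually_lt_const (by linarith)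
    filter_upwards [h1, Filter.eventually_gt_atTop 0] with n h2 hn
    have hn' : (0 : ℝ) < n := by exact_mod_cast hn
    rw [div_lt_iff₀ hn'] at h2
    linarith

theorem phi_le_half {k : ℕ} (hk : 0 < k) {γ : ℝ} (hγ : ∀ n, phi k n n ≤ γ * n) (h l : ℕ) :
    phi k h l ≤ γ / 2 * (l + h) := by
  have h1 := phi_superadd hk h l l h
  rw [phi_symm k l h, Nat.add_comm l h] at h1
  have h2 := hγ (h + l)
  push_cast at h2
  linarith

theorem expect_sum_type {n k : ℕ} (F : (Fin n → Fin k) → (Fin n → Fin k) → ℝ) :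
    𝔼 ω : (Fin n ⊕ Fin n) → Fin k, F (ω ∘ Sum.inl) (ω ∘ Sum.inr) = 𝔼 a, 𝔼 b, F a b := by
  rw [← Finset.expect_product' univ univ F, Finset.univ_product_univ]
  exact Fintype.expect_equiv (Equiv.sumArrowEquivProdArrow (Fin n) (Fin n) (Fin k)) _ _
    fun ω => rfl

theorem sq_expect_le {Ω : Type} [Fintype Ω] [Nonempty Ω] (X : Ω → ℝ) :
    (𝔼 ω, X ω) ^ 2 ≤ 𝔼 ω, X ω ^ 2 := by
  have h0 : 0 ≤ 𝔼 ω, (X ω - 𝔼 ω', X ω') ^ 2 := Finset.expect_nonneg fun _ _ => sq_nonneg _
  have e : ∀ ω, (X ω - 𝔼 ω', X ω') ^ 2 =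
      X ω ^ 2 - 2 * (𝔼 ω', X ω') * X ω + (𝔼 ω', X ω') ^ 2 := fun ω => by ring
  simp only [e] at h0
  rw [Finset.expect_add_distrib, Finset.expect_sub_distrib, Fintype.expect_const,
    ← Finset.mul_expect] at h0
  nlinarith

/-- extension by zero -/
def hx {m : ℕ} (h : Fin m → ℕ) : ℕ → ℕ := fun i => if hi : i < m then h ⟨i, hi⟩ else 0

theorem hx_fin {m : ℕ} (h : Fin m → ℕ) (i : Fin m) : hx h i = h i := by
  unfold hx
  rw [dif_pos i.2]

theorem ys_hx {m : ℕ} (h : Fin m → ℕ) : ys (hx h) m = ∑ i, h i := by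
  unfold ys
  rw [Finset.sum_range]
  exact Finset.sum_congr rfl fun i _ => hx_fin h i

/-- the set of alignments -/
def SS (m n : ℕ) : Finset (Fin m → ℕ) :=
  (Fintype.piFinset fun _ => range (n + 1)).filter fun h => ∑ i, h i ≤ n

theorem mem_SS {m n : ℕ} {h : Fin m → ℕ} : h ∈ SS m n ↔ ∑ i, h i ≤ n := by
  unfold SS
  rw [Finset.mem_filter, Fintype.mem_piFinset]
  constructor
  · exact fun h => h.2
  · intro hs
    refine ⟨fun i => ?_, hs⟩
    rw [Finset.mem_range]
    have := Finset.single_le_sum (f := h) (fun _ _ => Nat.zero_le _) (Finset.mem_univ i)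
    omega

theorem card_SS (m n l : ℕ) (hl : 2 ≤ l) :
    (#(SS m n) : ℝ) ≤ Real.exp (2 * n / l) * (l : ℝ) ^ m := by
  have hl' : (2 : ℝ) ≤ l := by exact_mod_cast hl
  have hl0 : (0 : ℝ) < l := by linarith
  set x : ℝ := 1 - 1 / l with hx
  have hx0 : 1 / 2 ≤ x := by
    rw [hx]
    have : 1 / (l : ℝ) ≤ 1 / 2 := one_div_le_one_div_of_le (by norm_num) hl'
    linarith
  have hx1 : x < 1 := by
    rw [hx]
    have : 0 < 1 / (l : ℝ) := by positivity
    linarith
  have h1 : (#(SS m n) : ℝ) * x ^ n ≤ (l : ℝ) ^ m := by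
    calc (#(SS m n) : ℝ) * x ^ n = ∑ _h ∈ SS m n, x ^ n := by
          rw [Finset.sum_const, nsmul_eq_mul]
      _ ≤ ∑ h ∈ SS m n, ∏ i, x ^ (h i) := by
          refine Finset.sum_le_sum fun h hh => ?_
          rw [Finset.prod_pow_eq_pow_sum]
          exact pow_le_pow_of_le_one (by linarith) hx1.le (mem_SS.1 hh)
      _ ≤ ∑ h ∈ Fintype.piFinset (fun _ : Fin m => range (n + 1)), ∏ i, x ^ (h i) := by
          refine Finset.sum_le_sum_of_subset_of_nonneg (Finset.filter_subset _ _) fun h _ _ => ?_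
          exact Finset.prod_nonneg fun i _ => pow_nonneg (by linarith) _
      _ = (∑ j ∈ range (n + 1), x ^ j) ^ m := by
          rw [← Finset.prod_univ_sum (fun _ => range (n + 1)) fun (_ : Fin m) (j : ℕ) => x ^ j,
            Finset.prod_const, Finset.card_univ, Fintype.card_fin]
      _ ≤ (l : ℝ) ^ m := by
          refine pow_le_pow_left₀ (Finset.sum_nonneg fun _ _ => pow_nonneg (by linarith) _) ?_ m
          have h2 := geom_sum_mul_neg x (n + 1)
          have h3 : 1 - x = 1 / l := by rw [hx]; ring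
          rw [h3, mul_one_div, div_eq_iff hl0.ne'] at h2
          rw [h2]
          have h4 : 0 ≤ x ^ (n + 1) := pow_nonneg (by linarith) _
          nlinarith
  have h2 : Real.exp (-(2 * n / l)) ≤ x ^ n := by
    have h3 : Real.exp (-(2 / l)) ≤ x := by
      rw [Real.exp_neg]
      have h4 := Real.add_one_le_exp (2 / (l : ℝ))
      rw [inv_le_comm₀ (Real.exp_pos _) (by linarith)]
      refine le_trans ?_ h4
      rw [inv_le_iff_one_le_mul₀ (by linarith)]
      have h5 : (2 / (l : ℝ) + 1) * x = 1 + (1 / l) * (1 - 2 / l) := by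
        rw [hx]; field_simp; ring
      rw [h5]
      have h6 : 2 / (l : ℝ) ≤ 1 := by rw [div_le_one hl0]; exact hl'
      have h7 : 0 ≤ 1 / (l : ℝ) * (1 - 2 / l) := mul_nonneg (by positivity) (by linarith)
      linarith
    calc Real.exp (-(2 * n / l)) = Real.exp (-(2 / l)) ^ n := by
          rw [← Real.exp_nat_mul]; congr 1; ring
      _ ≤ x ^ n := pow_le_pow_left₀ (Real.exp_pos _).le h3 n
  have h3 : (#(SS m n) : ℝ) * Real.exp (-(2 * n / l)) ≤ (l : ℝ) ^ m :=
    (mul_le_mul_of_nonneg_left h2 (Nat.cast_nonneg _)).trans h1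
  rw [Real.exp_neg, ← div_eq_mul_inv, div_le_iff₀ (Real.exp_pos _)] at h3
  linarith

end Cr

end

end Pool.Agent.LCS13
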