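import Mathlib

/-!
# Linear variance of the LCS for large alphabets: definitions

Rows are indexed by `i`, columns by `j`, both start at `0`; the gap `g` is the position just before
the column `g`. Letters are natural numbers; a word is a function `ℕ → Option ℕ`, where `none`
matches nothing.
-/

open Finset BigOperators
open scoped Classical

namespace Pool.Agent.LCS13

noncomputable section

/-- Longest strictly increasing chain of matches with rows `i, …, i+r-1`, columns `j, …, j+c-1`. -/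
def lp (m : ℕ → ℕ → Prop) (i j : ℕ) : ℕ → ℕ → ℕ
  | 0, _ => 0
  | _ + 1, 0 => 0
  | r + 1, c + 1 =>
    if m (i + r) (j + c) then lp m i j r c + 1
    else max (lp m i j r (c + 1)) (lp m i j (r + 1) c)
termination_by r c => (r, c)

/-- The match relation of two words. -/
def mt (a b : ℕ → Option ℕ) (i j : ℕ) : Prop := ∃ x, a i = some x ∧ b j = some x

/-- The word given by a finite sequence of letters. -/
def wn {n k : ℕ} (w : Fin n → Fin k) : ℕ → Option ℕ := fun i =>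
  if h : i < n then some (w ⟨i, h⟩ : ℕ) else none

/-- Longest common subsequence of two finite words. -/
def lcs {n p k : ℕ} (a : Fin n → Fin k) (b : Fin p → Fin k) : ℕ := lp (mt (wn a) (wn b)) 0 0 n p

/-- The profile of the first `t` rows. -/
def uu (a b : ℕ → Option ℕ) (t : ℕ) : ℕ → ℤ := fun g => (lp (mt a b) 0 0 t g : ℤ)

/-- A profile: the increments are `0` or `1`. -/
def IsProf (u : ℕ → ℤ) : Prop := ∀ g, u g ≤ u (g + 1) ∧ u (g + 1) ≤ u g + 1

/-- Expectation over a random subset of `I`, each element is chosen with probability `ρ`. -/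
def ES (ρ : ℝ) (I : Finset ℕ) (f : Finset ℕ → ℝ) : ℝ :=
  ∑ A ∈ I.powerset, ρ ^ #A * (1 - ρ) ^ (#I - #A) * f A

/-- Number of elements of `A` in `[g, h)`. -/
def cnt (A : Finset ℕ) (g h : ℕ) : ℕ := #{i ∈ A | g ≤ i ∧ i < h}

/-- `X(g)` for the system started at the gap `g0`. -/
def XX (u : ℕ → ℤ) (A : Finset ℕ) (g0 g : ℕ) : ℤ := u g - u g0 - cnt A g0 g

/-- The maximum of `X` over the gaps `g0, …, N` (it is nonnegative for `g0 ≤ N`). -/
def MM (u : ℕ → ℤ) (A : Finset ℕ) (g0 N : ℕ) : ℕ := (Icc g0 N).sup fun g => (XX u A g0 g).toNat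

/-- The set `J` of the columns `j` with `u(j) - S(j+1) = M`. -/
def JJ (u : ℕ → ℤ) (A : Finset ℕ) (g0 N : ℕ) : Finset ℕ :=
  {j ∈ Ico g0 N | u j - u g0 - cnt A g0 (j + 1) = (MM u A g0 N : ℤ)}

/-- The set `Z` of the gaps `g` with `X(g) = M`. -/
def ZZ (u : ℕ → ℤ) (A : Finset ℕ) (g0 N : ℕ) : Finset ℕ :=
  {g ∈ Icc g0 N | XX u A g0 g = (MM u A g0 N : ℤ)}

/-- The set `J1` of the columns `j`, which are not ones, at level `M - 1` before the first visit of
the level `M`. -/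
def J1 (u : ℕ → ℤ) (A : Finset ℕ) (g0 N : ℕ) : Finset ℕ :=
  {j ∈ Ico g0 N | j ∉ A ∧ XX u A g0 j = (MM u A g0 N : ℤ) - 1 ∧
    ∀ g ∈ Icc g0 j, XX u A g0 g ≤ (MM u A g0 N : ℤ) - 1}

/-- Indicator of a proposition. -/
def ind (P : Prop) : ℝ := if P then 1 else 0

/-- Letters of the rows `f, …, t-1`. -/
def rowL (a : ℕ → Option ℕ) (f t : ℕ) : Finset (Option ℕ) := (Ico f t).image a

/-- Random segment words: segment `r` is an injective word of length `s` over the alphabet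
`{0, …, K-1}` (`r` even) or `{K, …, 2K-1}` (`r` odd). -/
abbrev Seg (s K : ℕ) : Type := {v : Fin s → Fin K // Function.Injective v}

/-- The word of a sequence of `R` segments. -/
def sw {s K R : ℕ} (ω : Fin R → Seg s K) : ℕ → Option ℕ := fun p =>
  if h : p / s < R ∧ p % s < s then
    some (((ω ⟨p / s, h.1⟩).1 ⟨p % s, h.2⟩ : ℕ) + (p / s % 2) * K) else none

/-- Old crossing at the column `j`: an optimal path which jumps over a row `f < t - H` and over the
column `j`. -/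
def Old (a b : ℕ → Option ℕ) (t H : ℕ) (A : Finset ℕ) (N j : ℕ) : Prop :=
  ∃ f g : ℕ, f + H < t ∧ j + 1 ≤ g ∧ g ≤ N ∧
    (MM (uu a b t) A 0 N : ℤ) ≤
      lp (mt a b) 0 0 f j + lp (mt a b) (f + 1) (j + 1) (t - f - 1) (g - j - 1) - cnt A 0 g

/-- Expected maximum `E M_t` for the word `b` with `N` columns and `t` random rows. -/
def EM (k : ℕ) (b : ℕ → Option ℕ) (t N : ℕ) (ρ : ℝ) : ℝ :=
  𝔼 a : Fin t → Fin k, ES ρ (range N) fun A => (MM (uu (wn a) b t) A 0 N : ℝ)

/-- `δ_t` for a fixed word `b`. -/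
def del (k : ℕ) (b : ℕ → Option ℕ) (t N : ℕ) (ρ : ℝ) : ℝ :=
  𝔼 a : Fin t → Fin k, ES ρ (range N) fun A =>
    (#(JJ (uu (wn a) b t) A 0 N) : ℝ) - (#((JJ (uu (wn a) b t) A 0 N).image b) : ℝ)

/-- `f(r)`: expected LCS of `T` random rows and `r` random segments (alphabet size `k`). -/
def fseg (k T r : ℕ) : ℝ :=
  𝔼 a : Fin T → Fin k, 𝔼 ω : Fin r → Seg (k / 2 / 2) (k / 2),
    (lp (mt (wn a) (sw ω)) 0 0 T (r * (k / 2 / 2)) : ℝ)

/-- `φ(h)`: expected LCS of random words of lengths `T` and `l`. -/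
def phi (k T l : ℕ) : ℝ := 𝔼 a : Fin T → Fin k, 𝔼 b : Fin l → Fin k, (lcs a b : ℝ)

/-- `Sep Δ m B`: the set `B` contains `m + 1` points, consecutive ones at distance `≥ Δ`. -/
def Sep (Δ m : ℕ) (B : Finset ℕ) : Prop :=
  ∃ f : ℕ → ℕ, (∀ i ≤ m, f i ∈ B) ∧ ∀ i < m, f i + Δ ≤ f (i + 1)

/-- Binomial tail: probability that a random subset of `Δ` points has more than `y` elements. -/
def bt (ρ : ℝ) (Δ y : ℕ) : ℝ := ES ρ (range Δ) fun A => ind (y < #A)

/-- Ratio condition of (UP). -/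
def Ratio (ρ : ℝ) (Δ y x0 : ℕ) : Prop :=
  2 ≤ x0 ∧ ∀ n ≤ y + x0, (1 - 1 / (x0 : ℝ)) * ((n + 1 : ℝ) * (1 - ρ)) ≤ ((Δ : ℝ) - n) * ρ

end

end Pool.Agent.LCS13
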