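import Pool.Agent.Work.MP_bec1e1_pr_h13.PHIUB
import Pool.Agent.Work.MP_bec1e1_pr_h13.MARG
import Pool.Agent.Work.MP_8d2cba_co_helper57.MCD

/-!
# The expected maximum (block EMAX)
-/

open Finset BigOperators
open scoped Classical

namespace Pool.Agent.LCS13

/-- McDiarmid's moment generating function bound for the uniform measure. -/
theorem mgf_unif {α : Type} [Fintype α] [Nonempty α] (n : ℕ) (f : (Fin n → α) → ℝ) (c : ℝ)
    (hf : ∀ i (ω ω' : Fin n → α), (∀ j, j ≠ i → ω j = ω' j) → |f ω - f ω'| ≤ c) :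
    𝔼 ω, Real.exp (f ω) ≤ Real.exp ((𝔼 ω, f ω) + (n * c ^ 2) / 2) := by
  have hα : (0 : ℝ) < Fintype.card α := by exact_mod_cast Fintype.card_pos
  have h := Pool.OM.helper57.mgf n (fun _ _ => 1 / (Fintype.card α : ℝ)) f (fun _ => c)
    (fun _ _ => by positivity) (fun _ => by
      rw [Finset.sum_const, Finset.card_univ, nsmul_eq_mul]; field_simp) hf
  have hP : ∀ F : (Fin n → α) → ℝ, ∑ ω, (∏ _i : Fin n, 1 / (Fintype.card α : ℝ)) * F ω =
      𝔼 ω, F ω := by
    intro F
    rw [← Finset.mul_sum, Fintype.expect_eq_sum_div_card, Finset.prod_const, Fintype.card_fun,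
      Finset.card_univ]
    push_cast
    rw [Fintype.card_fin, one_div, inv_pow]
    field_simp
  simp only [hP] at h
  rw [Finset.sum_const, Finset.card_univ, Fintype.card_fin, nsmul_eq_mul] at h
  rw [Real.exp_add]
  calc 𝔼 ω, Real.exp (f ω) = Real.exp (𝔼 ω, f ω) * 𝔼 ω, Real.exp (f ω - 𝔼 ω', f ω') := by
        rw [Finset.mul_expect]
        refine Finset.expect_congr rfl fun ω _ => ?_
        rw [← Real.exp_add]; congr 1; ring
    _ ≤ _ := mul_le_mul_of_nonneg_left h (Real.exp_pos _).le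

/-- Two families of independent variables. -/
theorem mgf_two {α β : Type} [Fintype α] [Nonempty α] [Fintype β] [Nonempty β] (n m : ℕ)
    (F : (Fin n → α) → (Fin m → β) → ℝ) (c d : ℝ)
    (hf : ∀ i (a a' : Fin n → α) (ω : Fin m → β), (∀ j, j ≠ i → a j = a' j) →
      |F a ω - F a' ω| ≤ c)
    (hg : ∀ i (a : Fin n → α) (ω ω' : Fin m → β), (∀ j, j ≠ i → ω j = ω' j) →
      |F a ω - F a ω'| ≤ d) :
    𝔼 ω, 𝔼 a, Real.exp (F a ω) ≤
      Real.exp ((𝔼 ω, 𝔼 a, F a ω) + (n * c ^ 2) / 2 + (m * d ^ 2) / 2) := by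
  calc 𝔼 ω, 𝔼 a, Real.exp (F a ω)
      ≤ 𝔼 ω, Real.exp ((𝔼 a, F a ω) + (n * c ^ 2) / 2) :=
        Finset.expect_le_expect fun ω _ => mgf_unif n (fun a => F a ω) c
          (fun i a a' h => hf i a a' ω h)
    _ = Real.exp ((n * c ^ 2) / 2) * 𝔼 ω, Real.exp (𝔼 a, F a ω) := by
        rw [Finset.mul_expect]
        refine Finset.expect_congr rfl fun ω _ => ?_
        rw [← Real.exp_add, add_comm]
    _ ≤ Real.exp ((n * c ^ 2) / 2) * Real.exp ((𝔼 ω, 𝔼 a, F a ω) + (m * d ^ 2) / 2) := by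
        refine mul_le_mul_of_nonneg_left ?_ (Real.exp_pos _).le
        refine mgf_unif m (fun ω => 𝔼 a, F a ω) d fun i ω ω' h => ?_
        rw [← Finset.expect_sub_distrib]
        calc |𝔼 a, (F a ω - F a ω')| ≤ 𝔼 a, |F a ω - F a ω'| := Finset.abs_expect_le _ _
          _ ≤ 𝔼 _a : Fin n → α, d := Finset.expect_le_expect fun a _ => hg i a ω ω' h
          _ = d := by rw [Fintype.expect_const]
    _ = _ := by rw [← Real.exp_add]; congr 1; ring

/-- Changing `s` columns changes `lp` by at most `s`. -/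
theorem lp_cols_change (j₀ : ℕ) {i j r c : ℕ} : ∀ (s : ℕ) (m m' : ℕ → ℕ → Prop),
    (∀ x y, ¬ (j₀ ≤ y ∧ y < j₀ + s) → (m x y ↔ m' x y)) →
    lp m i j r c ≤ lp m' i j r c + s := by
  intro s
  induction s with
  | zero =>
    intro m m' h
    rw [lp_congr (m' := m') fun i' j' _ _ _ _ => h i' j' (by omega)]
    omega
  | succ s ih =>
    intro m m' h
    have h1 := lp_col_change (i := i) (j := j) (r := r) (c := c) (m := m)
      (m' := fun x y => if y = j₀ + s then m' x y else m x y) (j₀ + s) (fun x y hy => by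
        rw [if_neg hy])
    have h2 := ih (fun x y => if y = j₀ + s then m' x y else m x y) m' (fun x y hy => by
      show (if y = j₀ + s then m' x y else m x y) ↔ m' x y
      by_cases hy' : y = j₀ + s
      · rw [if_pos hy']
      · rw [if_neg hy']; exact h x y (by omega))
    omega

theorem wn_change {n k : ℕ} (i : Fin n) (a a' : Fin n → Fin k) (h : ∀ j, j ≠ i → a j = a' j)
    {x : ℕ} (hx : x ≠ i) : wn a x = wn a' x := by
  unfold wn
  split_ifs with h1
  · rw [h ⟨x, h1⟩ (fun h2 => hx (by rw [← h2]))]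
  · rfl

theorem sw_change {s K R : ℕ} (i : Fin R) (ω ω' : Fin R → Seg s K)
    (h : ∀ j, j ≠ i → ω j = ω' j) {y : ℕ} (hy : ¬ ((i : ℕ) * s ≤ y ∧ y < i * s + s)) :
    sw ω y = sw ω' y := by
  unfold sw
  split_ifs with h1
  · have h2 : (⟨y / s, h1.1⟩ : Fin R) ≠ i := by
      intro h2
      apply hy
      have h3 : y / s = i := by rw [← h2]
      rw [← h3]
      have h4 := Nat.div_add_mod y s
      have h5 : y / s * s = s * (y / s) := Nat.mul_comm _ _
      omega
    rw [h _ h2]
  · rfl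

theorem lp_change_a {T k : ℕ} (i : Fin T) (a a' : Fin T → Fin k) (b : ℕ → Option ℕ)
    (h : ∀ j, j ≠ i → a j = a' j) (g : ℕ) :
    |(lp (mt (wn a) b) 0 0 T g : ℝ) - lp (mt (wn a') b) 0 0 T g| ≤ 1 := by
  have h1 := lp_row_change (i := 0) (j := 0) (r := T) (c := g) (m := mt (wn a) b)
    (m' := mt (wn a') b) (i : ℕ) (fun x y hx => by unfold mt; rw [wn_change i a a' h hx])
  have h2 := lp_row_change (i := 0) (j := 0) (r := T) (c := g) (m := mt (wn a') b)
    (m' := mt (wn a) b) (i : ℕ) (fun x y hx => by unfold mt; rw [wn_change i a a' h hx])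
  have h1' : (lp (mt (wn a) b) 0 0 T g : ℝ) ≤ lp (mt (wn a') b) 0 0 T g + 1 := by exact_mod_cast h1
  have h2' : (lp (mt (wn a') b) 0 0 T g : ℝ) ≤ lp (mt (wn a) b) 0 0 T g + 1 := by exact_mod_cast h2
  rw [abs_le]
  constructor <;> linarith

theorem lp_change_w {R s K : ℕ} (i : Fin R) (ω ω' : Fin R → Seg s K) (a : ℕ → Option ℕ)
    (h : ∀ j, j ≠ i → ω j = ω' j) (T g : ℕ) :
    |(lp (mt a (sw ω)) 0 0 T g : ℝ) - lp (mt a (sw ω')) 0 0 T g| ≤ s := by
  have h1 := lp_cols_change (i := 0) (j := 0) (r := T) (c := g) ((i : ℕ) * s) s (mt a (sw ω))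
    (mt a (sw ω')) (fun x y hy => by unfold mt; rw [sw_change i ω ω' h hy])
  have h2 := lp_cols_change (i := 0) (j := 0) (r := T) (c := g) ((i : ℕ) * s) s (mt a (sw ω'))
    (mt a (sw ω)) (fun x y hy => by unfold mt; rw [sw_change i ω ω' h hy])
  have h1' : (lp (mt a (sw ω)) 0 0 T g : ℝ) ≤ lp (mt a (sw ω')) 0 0 T g + s := by
    exact_mod_cast h1
  have h2' : (lp (mt a (sw ω')) 0 0 T g : ℝ) ≤ lp (mt a (sw ω)) 0 0 T g + s := by
    exact_mod_cast h2
  rw [abs_le]
  constructor <;> linarith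

/-- Moment generating function of the number of ones. -/
theorem ES_exp_card {ρ l : ℝ} (h0 : 0 ≤ ρ) (h1 : ρ ≤ 1) (hl : 0 ≤ l) (I : Finset ℕ) :
    ES ρ I (fun A => Real.exp (-(l * #A))) ≤ Real.exp ((-(l * ρ) + ρ * l ^ 2 / 2) * #I) := by
  have hstep : ρ * Real.exp (-l) + (1 - ρ) ≤ Real.exp (-(l * ρ) + ρ * l ^ 2 / 2) := by
    have h2 : Real.exp (-l) ≤ 1 - l + l ^ 2 / 2 := by
      have h3 := Real.quadratic_le_exp_of_nonneg hl
      have h4 : (1 - l + l ^ 2 / 2) * Real.exp l ≥ 1 := by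
        have h5 : 0 < 1 - l + l ^ 2 / 2 := by nlinarith [sq_nonneg (l - 1)]
        have h6 : (1 - l + l ^ 2 / 2) * (1 + l + l ^ 2 / 2) = 1 + l ^ 4 / 4 := by ring
        have h7 : 0 ≤ l ^ 4 / 4 := by positivity
        have h8 := mul_le_mul_of_nonneg_left h3 h5.le
        linarith
      have h5 := Real.exp_pos (-l)
      have h6 : Real.exp (-l) * Real.exp l = 1 := by rw [← Real.exp_add]; simp
      nlinarith [Real.exp_pos l]
    have h3 := Real.add_one_le_exp (-(l * ρ) + ρ * l ^ 2 / 2)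
    nlinarith
  induction I using Finset.induction_on with
  | empty => rw [ES_empty]; simp
  | insert x I hx ih =>
    rw [ES_insert hx]
    rw [ES_congr (g := fun A => Real.exp (-l) * Real.exp (-(l * #A))) (fun A hA => by
      rw [Finset.card_insert_of_notMem fun h => hx (hA h), ← Real.exp_add]
      push_cast
      congr 1; ring)]
    rw [ES_mul_left, Finset.card_insert_of_notMem hx]
    push_cast
    rw [mul_add, mul_one, Real.exp_add]
    have h5 := ES_nonneg (f := fun A => Real.exp (-(l * #A))) (I := I) h0 h1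
      (fun A _ => (Real.exp_pos _).le)
    calc _ = (ρ * Real.exp (-l) + (1 - ρ)) * ES ρ I (fun A => Real.exp (-(l * #A))) := by ring
      _ ≤ Real.exp (-(l * ρ) + ρ * l ^ 2 / 2) *
          Real.exp ((-(l * ρ) + ρ * l ^ 2 / 2) * #I) := by
        refine mul_le_mul hstep ih h5 (Real.exp_pos _).le
      _ = _ := by ring

/-- EMAX. -/
theorem stmt_EMax : Stmt_EMax := by
  intro k hk T R ρ B h0 h1 hB
  set s := k / 2 / 2 with hs
  have hne : Nonempty (Seg s (k / 2)) := seg_nonempty (Nat.div_le_self (k / 2) 2)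
  have hnk : Nonempty (Fin k) := ⟨⟨0, hk⟩⟩
  set N := R * s with hN
  -- the mean of `X(g)`
  have hmean : ∀ g ≤ N, (𝔼 ω : Fin R → Seg s (k / 2), 𝔼 a : Fin T → Fin k,
      (lp (mt (wn a) (sw ω)) 0 0 T g : ℝ)) ≤ B + ρ * s + ρ * g := by
    intro g hg
    obtain ⟨r, hr, hr1, hr2⟩ : ∃ r ≤ R, g ≤ r * s ∧ r * s ≤ g + s := by
      rcases Nat.eq_zero_or_pos s with h2 | h2
      · exact ⟨0, Nat.zero_le _, by rw [hN, h2] at hg; omega, by omega⟩
      · refine ⟨(g + s - 1) / s, ?_, ?_, ?_⟩
        · have h3 : (g + s - 1) / s < R + 1 := by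
            rw [Nat.div_lt_iff_lt_mul h2]
            have : (R + 1) * s = N + s := by rw [hN]; ring
            omega
          omega
        · have h3 := Nat.div_add_mod (g + s - 1) s
          have h4 := Nat.mod_lt (g + s - 1) h2
          have h5 : (g + s - 1) / s * s = s * ((g + s - 1) / s) := Nat.mul_comm _ _
          omega
        · have h3 := Nat.div_mul_le_self (g + s - 1) s
          omega
    have h2 := hB r hr
    have h3 := stmt_Marg k T r R hk hr
    rw [Finset.expect_comm] at h3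
    calc _ ≤ 𝔼 ω : Fin R → Seg s (k / 2), 𝔼 a : Fin T → Fin k,
          (lp (mt (wn a) (sw ω)) 0 0 T (r * s) : ℝ) := by
          refine Finset.expect_le_expect fun ω _ => Finset.expect_le_expect fun a _ => ?_
          exact_mod_cast lp_mono le_rfl hr1
      _ = fseg k T r := h3
      _ ≤ B + ρ * ((r * s : ℕ) : ℝ) := by linarith
      _ ≤ B + ρ * s + ρ * g := by
          have h4 : ((r * s : ℕ) : ℝ) ≤ g + s := by exact_mod_cast hr2
          nlinarith
  have hB0 : 0 ≤ B := by
    have h2 := hB 0 (Nat.zero_le _)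
    have h3 : 0 ≤ fseg k T 0 := by
      unfold fseg
      exact Finset.expect_nonneg fun a _ => Finset.expect_nonneg fun ω _ => Nat.cast_nonneg _
    rw [zero_mul] at h2
    push_cast at h2
    linarith
  rcases Nat.eq_zero_or_pos T with hT | hT
  · subst hT
    have h2 : 𝔼 ω : Fin R → Seg s (k / 2), EM k (sw ω) 0 N ρ = 0 := by
      unfold EM
      simp only [MM_zero_row, Nat.cast_zero, ES_const, Finset.expect_const_zero]
    rw [h2]
    positivity
  set W : ℝ := (T : ℝ) + R * (s : ℝ) ^ 2 with hW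
  have hT' : (1 : ℝ) ≤ T := by exact_mod_cast hT
  have hW1 : 1 ≤ W := by
    have : 0 ≤ (R : ℝ) * (s : ℝ) ^ 2 := by positivity
    linarith
  have hlog : 0 < Real.log ((N : ℝ) + 2) := by
    apply Real.log_pos
    have : (0 : ℝ) ≤ N := Nat.cast_nonneg _
    linarith
  set l : ℝ := √(Real.log ((N : ℝ) + 2) / W) with hl
  have hl0 : 0 < l := Real.sqrt_pos.2 (by positivity)
  have hlsq : l ^ 2 = Real.log ((N : ℝ) + 2) / W := Real.sq_sqrt (by positivity)
  -- the moment generating function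
  have hmgf : ∀ g ≤ N, (𝔼 ω : Fin R → Seg s (k / 2), 𝔼 a : Fin T → Fin k,
      ES ρ (range N) (fun A => Real.exp (l * (XX (uu (wn a) (sw ω) T) A 0 g : ℝ)))) ≤
      Real.exp (l * (B + ρ * s) + l ^ 2 * W) := by
    intro g hg
    have h2 : ES ρ (range N) (fun A => Real.exp (-(l * (cnt A 0 g : ℝ)))) ≤
        Real.exp ((-(l * ρ) + ρ * l ^ 2 / 2) * g) := by
      have h3 := ES_inter (ρ := ρ) (Finset.range_subset_range.2 hg)
        (fun A => Real.exp (-(l * (#A : ℝ))))
      have h4 := ES_exp_card h0.le h1.le hl0.le (range g)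
      rw [Finset.card_range, ← h3] at h4
      refine le_trans (le_of_eq ?_) h4
      refine ES_congr fun A _ => ?_
      rw [cnt_eq_card_inter, Finset.range_eq_Ico]
    have h3 : ∀ (ω : Fin R → Seg s (k / 2)) (a : Fin T → Fin k),
        ES ρ (range N) (fun A => Real.exp (l * (XX (uu (wn a) (sw ω) T) A 0 g : ℝ))) ≤
        Real.exp ((-(l * ρ) + ρ * l ^ 2 / 2) * g) *
          Real.exp (l * (lp (mt (wn a) (sw ω)) 0 0 T g : ℝ)) := by
      intro ω a
      rw [mul_comm]
      refine le_trans (le_of_eq ?_) (mul_le_mul_of_nonneg_left h2 (Real.exp_pos _).le)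
      rw [← ES_mul_left]
      refine ES_congr fun A _ => ?_
      rw [← Real.exp_add, XX_uu_zero]
      unfold uu
      push_cast
      congr 1
      ring
    have h4 := mgf_two T R (fun (a : Fin T → Fin k) (ω : Fin R → Seg s (k / 2)) => l * (lp (mt (wn a) (sw ω)) 0 0 T g : ℝ)) (l * 1)
      (l * s) (fun i a a' ω h => by
        rw [← mul_sub, abs_mul, abs_of_pos hl0]
        exact mul_le_mul_of_nonneg_left (lp_change_a i a a' _ h g) hl0.le)
      (fun i a ω ω' h => by
        rw [← mul_sub, abs_mul, abs_of_pos hl0]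
        exact mul_le_mul_of_nonneg_left (lp_change_w i ω ω' _ h T g) hl0.le)
    have h5 := hmean g hg
    have h6 : (𝔼 ω : Fin R → Seg s (k / 2), 𝔼 a : Fin T → Fin k,
        l * (lp (mt (wn a) (sw ω)) 0 0 T g : ℝ)) =
        l * 𝔼 ω : Fin R → Seg s (k / 2), 𝔼 a : Fin T → Fin k,
        (lp (mt (wn a) (sw ω)) 0 0 T g : ℝ) := by
      rw [Finset.mul_expect]
      refine Finset.expect_congr rfl fun ω _ => ?_
      rw [Finset.mul_expect]
    rw [h6] at h4
    calc _ ≤ 𝔼 ω : Fin R → Seg s (k / 2), 𝔼 a : Fin T → Fin k,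
          Real.exp ((-(l * ρ) + ρ * l ^ 2 / 2) * g) *
          Real.exp (l * (lp (mt (wn a) (sw ω)) 0 0 T g : ℝ)) :=
          Finset.expect_le_expect fun ω _ => Finset.expect_le_expect fun a _ => h3 ω a
      _ = Real.exp ((-(l * ρ) + ρ * l ^ 2 / 2) * g) * 𝔼 ω : Fin R → Seg s (k / 2),
          𝔼 a : Fin T → Fin k, Real.exp (l * (lp (mt (wn a) (sw ω)) 0 0 T g : ℝ)) := by
          rw [Finset.mul_expect]
          refine Finset.expect_congr rfl fun ω _ => ?_
          rw [Finset.mul_expect]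
      _ ≤ _ := mul_le_mul_of_nonneg_left h4 (Real.exp_pos _).le
      _ = _ := by rw [← Real.exp_add]
      _ ≤ _ := by
          refine Real.exp_le_exp.2 ?_
          have h7 := mul_le_mul_of_nonneg_left h5 hl0.le
          have h8 : (g : ℝ) ≤ R * s := by
            have : (g : ℝ) ≤ ((R * s : ℕ) : ℝ) := by exact_mod_cast hg
            push_cast at this
            exact this
          have h9 : (s : ℝ) ≤ (s : ℝ) ^ 2 := by
            have : s ≤ s ^ 2 := Nat.le_self_pow (by norm_num) s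
            exact_mod_cast this
          have h10 : ρ * (l ^ 2 * g) ≤ 1 * (l ^ 2 * (R * (s : ℝ) ^ 2)) := by
            refine mul_le_mul h1.le ?_ (by positivity) zero_le_one
            refine mul_le_mul_of_nonneg_left (h8.trans ?_) (by positivity)
            exact mul_le_mul_of_nonneg_left h9 (Nat.cast_nonneg _)
          have h11 : 0 ≤ l ^ 2 * (T : ℝ) := by positivity
          rw [hW]
          nlinarith
  -- Jensen
  set m : ℝ := 𝔼 ω : Fin R → Seg s (k / 2), EM k (sw ω) T N ρ with hm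
  have hJ : Real.exp (l * m) ≤ ((N : ℝ) + 1) * Real.exp (l * (B + ρ * s) + l ^ 2 * W) := by
    have j1 : Real.exp (l * m) ≤ 𝔼 ω : Fin R → Seg s (k / 2), 𝔼 a : Fin T → Fin k,
        ES ρ (range N) (fun A => Real.exp (l * (MM (uu (wn a) (sw ω) T) A 0 N : ℝ))) := by
      have e1 : Real.exp (l * m) = 𝔼 ω : Fin R → Seg s (k / 2), 𝔼 a : Fin T → Fin k,
        ES ρ (range N) (fun A => Real.exp (l * m) *
          (1 + l * ((MM (uu (wn a) (sw ω) T) A 0 N : ℝ) - m))) := by
        simp only [ES_mul_left, ← Finset.mul_expect]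
        have e2 : (𝔼 ω : Fin R → Seg s (k / 2), 𝔼 a : Fin T → Fin k,
          ES ρ (range N) (fun A => 1 + l * ((MM (uu (wn a) (sw ω) T) A 0 N : ℝ) - m))) = 1 := by
          simp only [ES_add, ES_mul_left, ES_sub, ES_const, Finset.expect_add_distrib,
            ← Finset.mul_expect, Finset.expect_sub_distrib, Fintype.expect_const]
          rw [hm]
          unfold EM
          ring
        rw [e2, mul_one]
      rw [e1]
      refine Finset.expect_le_expect fun ω _ => Finset.expect_le_expect fun a _ =>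
        ES_mono h0.le h1.le fun A _ => ?_
      have h5 := Real.add_one_le_exp (l * ((MM (uu (wn a) (sw ω) T) A 0 N : ℝ) - m))
      calc _ ≤ Real.exp (l * m) * Real.exp (l * ((MM (uu (wn a) (sw ω) T) A 0 N : ℝ) - m)) :=
            mul_le_mul_of_nonneg_left (by linarith) (Real.exp_pos _).le
        _ = _ := by rw [← Real.exp_add]; congr 1; ring
    refine j1.trans ?_
    calc _ ≤ 𝔼 ω : Fin R → Seg s (k / 2), 𝔼 a : Fin T → Fin k,
        ES ρ (range N) (fun A => ∑ g ∈ range (N + 1),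
          Real.exp (l * (XX (uu (wn a) (sw ω) T) A 0 g : ℝ))) := by
          refine Finset.expect_le_expect fun ω _ => Finset.expect_le_expect fun a _ =>
            ES_mono h0.le h1.le fun A _ => ?_
          obtain ⟨g, _, hg, hgM⟩ := exists_MM (u := uu (wn a) (sw ω) T) (A := A) (g0 := 0)
            (N := N) (Nat.zero_le _)
          have h5 : ((MM (uu (wn a) (sw ω) T) A 0 N : ℕ) : ℝ) =
              (XX (uu (wn a) (sw ω) T) A 0 g : ℝ) := by rw [hgM]; simp
          rw [h5]
          exact Finset.single_le_sum (f := fun g =>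
            Real.exp (l * (XX (uu (wn a) (sw ω) T) A 0 g : ℝ)))
            (fun _ _ => (Real.exp_pos _).le) (Finset.mem_range.2 (by omega))
      _ = ∑ g ∈ range (N + 1), 𝔼 ω : Fin R → Seg s (k / 2), 𝔼 a : Fin T → Fin k,
        ES ρ (range N) (fun A => Real.exp (l * (XX (uu (wn a) (sw ω) T) A 0 g : ℝ))) := by
          simp only [ES_sum, Finset.expect_sum_comm]
      _ ≤ ∑ g ∈ range (N + 1), Real.exp (l * (B + ρ * s) + l ^ 2 * W) :=
          Finset.sum_le_sum fun g hg => hmgf g (by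
            have := Finset.mem_range.1 hg; omega)
      _ = _ := by
          rw [Finset.sum_const, Finset.card_range, nsmul_eq_mul]
          push_cast; rfl
  have hN1 : (0 : ℝ) < (N : ℝ) + 1 := by positivity
  have h2 : l * m ≤ Real.log ((N : ℝ) + 1) + (l * (B + ρ * s) + l ^ 2 * W) := by
    have h3 := Real.log_le_log (Real.exp_pos _) hJ
    rwa [Real.log_exp, Real.log_mul hN1.ne' (Real.exp_pos _).ne', Real.log_exp] at h3
  have h3 : Real.log ((N : ℝ) + 1) ≤ Real.log ((N : ℝ) + 2) :=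
    Real.log_le_log hN1 (by linarith)
  have h4 : Real.log ((N : ℝ) + 2) = l ^ 2 * W := by rw [hlsq]; field_simp
  have h5 : √(W * Real.log ((N : ℝ) + 2)) = l * W := by
    rw [h4, Real.sqrt_eq_iff_mul_self_eq (by positivity) (by positivity)]
    ring
  rw [h5]
  have h6 : l * m ≤ l * (B + ρ * s + 2 * (l * W)) := by
    have : l * (B + ρ * s + 2 * (l * W)) = l * (B + ρ * s) + l ^ 2 * W + l ^ 2 * W := by ring
    rw [this]
    linarith
  have h7 := le_of_mul_le_mul_left h6 hl0
  have h8 : 0 ≤ l * W := by positivity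
  linarith

end Pool.Agent.LCS13
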