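import Pool.Agent.Work.MP_bec1e1_pr_h13.UP
import Pool.Agent.Work.MP_bec1e1_pr_h13.SYS

/-!
# Blocks FAR0, FAR1, CLUS: far ties of the maximum
-/

open Finset BigOperators
open scoped Classical

namespace Pool.Agent.LCS13

namespace FarAux

variable {ρ : ℝ} {u : ℕ → ℤ} {A B : Finset ℕ} {g0 g1 g h N a D y c : ℕ}

theorem XX_inter (h1 : g0 ≤ g) (h2 : g ≤ a) : XX u (A ∩ Ico g0 a) g0 g = XX u A g0 g :=
  XX_congr (fun _ _ _ => rfl) (fun _ h3 h4 => mem_inter_Ico_iff h3 (lt_of_lt_of_le h4 h2)) h1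

theorem cnt_inter (h1 : g0 ≤ g) (h2 : h ≤ N) : cnt (A ∩ Ico g0 N) g h = cnt A g h :=
  cnt_congr fun _ h3 h4 => mem_inter_Ico_iff (h1.trans h3) (lt_of_lt_of_le h4 h2)

theorem cnt_subset (hAB : A ⊆ B) : cnt A g h ≤ cnt B g h := by
  unfold cnt
  exact Finset.card_le_card (Finset.filter_subset_filter _ hAB)

/-- `a` is a strict left record -/
def Rec (u : ℕ → ℤ) (A : Finset ℕ) (g0 a : ℕ) : Prop :=
  ∀ g, g0 ≤ g → g < a → XX u A g0 g < XX u A g0 a

/-- the walk does not exceed its value at `a` -/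
def Low (u : ℕ → ℤ) (A : Finset ℕ) (a g1 : ℕ) : Prop :=
  ∀ g, a ≤ g → g ≤ g1 → XX u A a g ≤ 0

/-- all windows have few ones -/
def Wn (D y g0 N : ℕ) (A : Finset ℕ) : Prop := ∀ g, g0 ≤ g → g + D ≤ N → cnt A g (g + D) ≤ y

/-- condition on the left part -/
def P1 (u : ℕ → ℤ) (g0 a c : ℕ) (A : Finset ℕ) : Prop := Rec u A g0 a ∧ XX u A g0 a ≤ c

theorem P1_inter (h : g0 ≤ a) : P1 u g0 a c (A ∩ Ico g0 a) ↔ P1 u g0 a c A := by
  unfold P1 Rec
  rw [XX_inter h le_rfl]
  refine and_congr_left fun _ => ?_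
  exact forall_congr' fun g => forall_congr' fun h1 => forall_congr' fun h2 => by
    rw [XX_inter h1 h2.le]

theorem Low_inter : Low u (A ∩ Ico a g1) a g1 ↔ Low u A a g1 := by
  unfold Low
  exact forall_congr' fun g => forall_congr' fun h1 => forall_congr' fun h2 => by
    rw [XX_inter h1 h2]

theorem Low_mono (hAB : A ⊆ B) (hA : Low u A a g1) : Low u B a g1 := by
  intro g h1 h2
  have h3 := hA g h1 h2
  unfold XX at h3 ⊢
  have h4 : cnt A a g ≤ cnt B a g := cnt_subset hAB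
  have h5 : (cnt A a g : ℤ) ≤ cnt B a g := by exact_mod_cast h4
  linarith

theorem Wn_inter : Wn D y g1 N (A ∩ Ico g1 N) ↔ Wn D y g1 N A := by
  unfold Wn
  exact forall_congr' fun g => forall_congr' fun h1 => forall_congr' fun h2 => by
    rw [cnt_inter h1 h2]

theorem ES_split3 (h1 : g0 ≤ a) (h2 : a ≤ g1) (h3 : g1 ≤ N)
    (F : Finset ℕ → Finset ℕ → Finset ℕ → ℝ) :
    ES ρ (Ico g0 N) (fun A => F (A ∩ Ico g0 a) (A ∩ Ico a g1) (A ∩ Ico g1 N)) =
      ES ρ (Ico g0 a) fun A1 => ES ρ (Ico a g1) fun σ => ES ρ (Ico g1 N) fun A3 => F A1 σ A3 := by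
  have e1 : Ico g0 N = Ico g0 a ∪ (Ico a g1 ∪ Ico g1 N) := by
    ext x
    simp only [Finset.mem_union, Finset.mem_Ico]
    omega
  rw [e1, ES_union]
  · apply ES_congr
    intro A1 hA1
    rw [ES_union]
    · apply ES_congr
      intro σ hσ
      apply ES_congr
      intro A3 hA3
      have q1 : (A1 ∪ (σ ∪ A3)) ∩ Ico g0 a = A1 := by
        ext x
        simp only [Finset.mem_inter, Finset.mem_union, Finset.mem_Ico]
        constructor
        · rintro ⟨h4 | h4 | h4, h5⟩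
          · exact h4
          · have := Finset.mem_Ico.1 (hσ h4); omega
          · have := Finset.mem_Ico.1 (hA3 h4); omega
        · intro h4
          exact ⟨Or.inl h4, Finset.mem_Ico.1 (hA1 h4)⟩
      have q2 : (A1 ∪ (σ ∪ A3)) ∩ Ico a g1 = σ := by
        ext x
        simp only [Finset.mem_inter, Finset.mem_union, Finset.mem_Ico]
        constructor
        · rintro ⟨h4 | h4 | h4, h5⟩
          · have := Finset.mem_Ico.1 (hA1 h4); omega
          · exact h4
          · have := Finset.mem_Ico.1 (hA3 h4); omega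
        · intro h4
          exact ⟨Or.inr (Or.inl h4), Finset.mem_Ico.1 (hσ h4)⟩
      have q3 : (A1 ∪ (σ ∪ A3)) ∩ Ico g1 N = A3 := by
        ext x
        simp only [Finset.mem_inter, Finset.mem_union, Finset.mem_Ico]
        constructor
        · rintro ⟨h4 | h4 | h4, h5⟩
          · have := Finset.mem_Ico.1 (hA1 h4); omega
          · have := Finset.mem_Ico.1 (hσ h4); omega
          · exact h4
        · intro h4
          exact ⟨Or.inr (Or.inr h4), Finset.mem_Ico.1 (hA3 h4)⟩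
      rw [q1, q2, q3]
    · rw [Finset.disjoint_left]
      intro x hx hx'
      rw [Finset.mem_Ico] at hx hx'
      omega
  · rw [Finset.disjoint_left]
    intro x hx hx'
    rw [Finset.mem_union, Finset.mem_Ico, Finset.mem_Ico] at hx'
    rw [Finset.mem_Ico] at hx
    omega

theorem switch (h0 : 0 < ρ) (h1 : ρ < 1) {x0 r : ℕ} (hR : Ratio ρ D y x0) (hr : r ≤ 1)
    (ha : g0 ≤ a) (haN : a + D ≤ N) (Q1 Q3 : Finset ℕ → Prop) :
    (x0 : ℝ) * ES ρ (Ico g0 N) (fun A => ind (Q1 (A ∩ Ico g0 a) ∧ Low u A a (a + D) ∧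
      (cnt A a (a + D) : ℤ) + r = (u (a + D) - u a) + MM u A (a + D) N ∧
      cnt A a (a + D) ≤ y ∧ Q3 (A ∩ Ico (a + D) N))) ≤
    4 * ES ρ (Ico g0 N) (fun A => ind (Q1 (A ∩ Ico g0 a) ∧ Low u A a (a + D) ∧
      (u (a + D) - u a) + MM u A (a + D) N ≤ cnt A a (a + D) ∧ Q3 (A ∩ Ico (a + D) N))) := by
  have haD : a ≤ a + D := Nat.le_add_right a D
  obtain ⟨F, hF⟩ : ∃ F : Finset ℕ → Finset ℕ → Finset ℕ → ℝ, F = fun A1 σ A3 =>
      ind (Q1 A1 ∧ Low u σ a (a + D) ∧
        (#σ : ℤ) + r = (u (a + D) - u a) + MM u A3 (a + D) N ∧ #σ ≤ y ∧ Q3 A3) := ⟨_, rfl⟩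
  obtain ⟨G, hG⟩ : ∃ G : Finset ℕ → Finset ℕ → Finset ℕ → ℝ, G = fun A1 σ A3 =>
      ind (Q1 A1 ∧ Low u σ a (a + D) ∧
        (u (a + D) - u a) + MM u A3 (a + D) N ≤ (#σ : ℤ) ∧ Q3 A3) := ⟨_, rfl⟩
  have e1 : (fun A => ind (Q1 (A ∩ Ico g0 a) ∧ Low u A a (a + D) ∧
      (cnt A a (a + D) : ℤ) + r = (u (a + D) - u a) + MM u A (a + D) N ∧
      cnt A a (a + D) ≤ y ∧ Q3 (A ∩ Ico (a + D) N))) = fun A =>
      F (A ∩ Ico g0 a) (A ∩ Ico a (a + D)) (A ∩ Ico (a + D) N) := by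
    funext A
    rw [hF]
    simp only [Low_inter, MM_inter, ← cnt_eq_card_inter]
  have e2 : (fun A => ind (Q1 (A ∩ Ico g0 a) ∧ Low u A a (a + D) ∧
      (u (a + D) - u a) + MM u A (a + D) N ≤ cnt A a (a + D) ∧ Q3 (A ∩ Ico (a + D) N))) = fun A =>
      G (A ∩ Ico g0 a) (A ∩ Ico a (a + D)) (A ∩ Ico (a + D) N) := by
    funext A
    rw [hG]
    simp only [Low_inter, MM_inter, ← cnt_eq_card_inter]
  rw [e1, e2, ES_split3 ha haD haN, ES_split3 ha haD haN, ← ES_mul_left, ← ES_mul_left]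
  subst hF hG
  apply ES_mono h0.le h1.le
  intro A1 _
  rw [ES_comm ρ (Ico a (a + D)) (Ico (a + D) N), ES_comm ρ (Ico a (a + D)) (Ico (a + D) N),
    ← ES_mul_left, ← ES_mul_left]
  apply ES_mono h0.le h1.le
  intro A3 _
  by_cases hgood : Q1 A1 ∧ Q3 A3 ∧ (r : ℤ) ≤ (u (a + D) - u a) + MM u A3 (a + D) N ∧
      (u (a + D) - u a) + MM u A3 (a + D) N - r ≤ y
  · obtain ⟨g1', g2', g3', g4'⟩ := hgood
    obtain ⟨n, hn⟩ : ∃ n : ℕ, (n : ℤ) = (u (a + D) - u a) + MM u A3 (a + D) N - r :=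
      ⟨((u (a + D) - u a) + MM u A3 (a + D) N - r).toNat, Int.toNat_of_nonneg (by linarith)⟩
    have hny : n ≤ y := by
      have : (n : ℤ) ≤ y := by rw [hn]; exact g4'
      exact_mod_cast this
    have hcard : #(Ico a (a + D)) = D := by rw [Nat.card_Ico]; omega
    have hup := stmt_Up ρ h0 h1 (Ico a (a + D)) (fun σ => Low u σ a (a + D))
      (fun A B hAB _ hA => Low_mono hAB hA) n y x0 r hny hr (by rw [hcard]; exact hR)
    have e3 : ES ρ (Ico a (a + D)) (fun σ => ind (Q1 A1 ∧ Low u σ a (a + D) ∧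
        (#σ : ℤ) + r = (u (a + D) - u a) + MM u A3 (a + D) N ∧ #σ ≤ y ∧ Q3 A3)) =
        ES ρ (Ico a (a + D)) (fun σ => ind (Low u σ a (a + D) ∧ #σ = n)) := by
      apply ES_congr
      intro σ _
      congr 1
      apply propext
      constructor
      · rintro ⟨_, h2, h3, _, _⟩
        refine ⟨h2, ?_⟩
        have : (#σ : ℤ) = n := by rw [hn]; linarith
        exact_mod_cast this
      · rintro ⟨h2, h3⟩
        refine ⟨g1', h2, ?_, by omega, g2'⟩
        rw [h3, hn]; ring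
    have e4 : ES ρ (Ico a (a + D)) (fun σ => ind (Q1 A1 ∧ Low u σ a (a + D) ∧
        (u (a + D) - u a) + MM u A3 (a + D) N ≤ (#σ : ℤ) ∧ Q3 A3)) =
        ES ρ (Ico a (a + D)) (fun σ => ind (Low u σ a (a + D) ∧ n + r ≤ #σ)) := by
      apply ES_congr
      intro σ _
      congr 1
      apply propext
      constructor
      · rintro ⟨_, h2, h3, _⟩
        refine ⟨h2, ?_⟩
        have : (n : ℤ) + r ≤ #σ := by rw [hn]; linarith
        exact_mod_cast this
      · rintro ⟨h2, h3⟩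
        refine ⟨g1', h2, ?_, g2'⟩
        have : (n : ℤ) + r ≤ #σ := by exact_mod_cast h3
        rw [hn] at this; linarith
    rw [e3, e4]
    exact hup
  · have e3 : ES ρ (Ico a (a + D)) (fun σ => ind (Q1 A1 ∧ Low u σ a (a + D) ∧
        (#σ : ℤ) + r = (u (a + D) - u a) + MM u A3 (a + D) N ∧ #σ ≤ y ∧ Q3 A3)) = 0 := by
      rw [← ES_const ρ (Ico a (a + D)) 0]
      apply ES_congr
      intro σ _
      apply ind_false
      rintro ⟨h2, _, h4, h5, h6⟩
      apply hgood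
      have h7 : (#σ : ℤ) ≤ y := by exact_mod_cast h5
      have h8 : (0 : ℤ) ≤ #σ := by positivity
      exact ⟨h2, h6, by linarith, by linarith⟩
    rw [e3, mul_zero]
    exact mul_nonneg (by norm_num) (ES_nonneg h0.le h1.le fun _ _ => ind_nonneg _)

theorem applyIH (h0 : 0 < ρ) (h1 : ρ < 1) (ha : g0 ≤ a) (h2 : a ≤ g1) (h3 : g1 ≤ N)
    (Q1 Q3 : Finset ℕ → Prop) {K : ℝ}
    (hK : ∀ c : ℕ, ES ρ (Ico g1 N) (fun A => ind (Q3 A ∧ MM u A g1 N ≤ c)) ≤
      K * ES ρ (Ico g1 N) (fun A => ind (MM u A g1 N ≤ c))) :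
    ES ρ (Ico g0 N) (fun A => ind (Q1 (A ∩ Ico g0 a) ∧ Low u A a g1 ∧
      (u g1 - u a) + MM u A g1 N ≤ cnt A a g1 ∧ Q3 (A ∩ Ico g1 N))) ≤
    K * ES ρ (Ico g0 N) (fun A => ind (Q1 (A ∩ Ico g0 a) ∧ Low u A a g1 ∧
      (u g1 - u a) + MM u A g1 N ≤ cnt A a g1)) := by
  obtain ⟨F, hF⟩ : ∃ F : Finset ℕ → Finset ℕ → Finset ℕ → ℝ, F = fun A1 σ A3 =>
      ind (Q1 A1 ∧ Low u σ a g1 ∧
        (u g1 - u a) + MM u A3 g1 N ≤ (#σ : ℤ) ∧ Q3 A3) := ⟨_, rfl⟩
  obtain ⟨G, hG⟩ : ∃ G : Finset ℕ → Finset ℕ → Finset ℕ → ℝ, G = fun A1 σ A3 =>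
      ind (Q1 A1 ∧ Low u σ a g1 ∧
        (u g1 - u a) + MM u A3 g1 N ≤ (#σ : ℤ)) := ⟨_, rfl⟩
  have e1 : (fun A => ind (Q1 (A ∩ Ico g0 a) ∧ Low u A a g1 ∧
      (u g1 - u a) + MM u A g1 N ≤ cnt A a g1 ∧ Q3 (A ∩ Ico g1 N))) = fun A =>
      F (A ∩ Ico g0 a) (A ∩ Ico a g1) (A ∩ Ico g1 N) := by
    funext A
    rw [hF]
    simp only [Low_inter, MM_inter, ← cnt_eq_card_inter]
  have e2 : (fun A => ind (Q1 (A ∩ Ico g0 a) ∧ Low u A a g1 ∧
      (u g1 - u a) + MM u A g1 N ≤ cnt A a g1)) = fun A =>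
      G (A ∩ Ico g0 a) (A ∩ Ico a g1) (A ∩ Ico g1 N) := by
    funext A
    rw [hG]
    simp only [Low_inter, MM_inter, ← cnt_eq_card_inter]
  rw [e1, e2, ES_split3 ha h2 h3, ES_split3 ha h2 h3, ← ES_mul_left]
  subst hF hG
  apply ES_mono h0.le h1.le
  intro A1 _
  rw [← ES_mul_left]
  apply ES_mono h0.le h1.le
  intro σ hσ
  by_cases hgood : Q1 A1 ∧ Low u σ a g1
  · obtain ⟨g1', g2'⟩ := hgood
    have h4 := g2' g1 h2 le_rfl
    have h5 : cnt σ a g1 = #σ := by
      rw [cnt_eq_card_inter, Finset.inter_eq_left.2 hσ]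
    unfold XX at h4
    rw [h5] at h4
    obtain ⟨c, hc⟩ : ∃ c : ℕ, (c : ℤ) = #σ - (u g1 - u a) :=
      ⟨((#σ : ℤ) - (u g1 - u a)).toNat, Int.toNat_of_nonneg (by linarith)⟩
    have e3 : ES ρ (Ico g1 N) (fun A3 => ind (Q1 A1 ∧ Low u σ a g1 ∧
        (u g1 - u a) + MM u A3 g1 N ≤ (#σ : ℤ) ∧ Q3 A3)) =
        ES ρ (Ico g1 N) (fun A3 => ind (Q3 A3 ∧ MM u A3 g1 N ≤ c)) := by
      apply ES_congr
      intro A3 _
      congr 1
      apply propext
      constructor
      · rintro ⟨_, _, h6, h7⟩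
        refine ⟨h7, ?_⟩
        have : (MM u A3 g1 N : ℤ) ≤ c := by rw [hc]; linarith
        exact_mod_cast this
      · rintro ⟨h6, h7⟩
        refine ⟨g1', g2', ?_, h6⟩
        have : (MM u A3 g1 N : ℤ) ≤ c := by exact_mod_cast h7
        rw [hc] at this; linarith
    have e4 : ES ρ (Ico g1 N) (fun A3 => ind (Q1 A1 ∧ Low u σ a g1 ∧
        (u g1 - u a) + MM u A3 g1 N ≤ (#σ : ℤ))) =
        ES ρ (Ico g1 N) (fun A3 => ind (MM u A3 g1 N ≤ c)) := by
      apply ES_congr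
      intro A3 _
      congr 1
      apply propext
      constructor
      · rintro ⟨_, _, h6⟩
        have : (MM u A3 g1 N : ℤ) ≤ c := by rw [hc]; linarith
        exact_mod_cast this
      · intro h7
        refine ⟨g1', g2', ?_⟩
        have : (MM u A3 g1 N : ℤ) ≤ c := by exact_mod_cast h7
        rw [hc] at this; linarith
    rw [e3, e4]
    exact hK c
  · have e3 : ES ρ (Ico g1 N) (fun A3 => ind (Q1 A1 ∧ Low u σ a g1 ∧
        (u g1 - u a) + MM u A3 g1 N ≤ (#σ : ℤ) ∧ Q3 A3)) = 0 := by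
      rw [← ES_const ρ (Ico g1 N) 0]
      apply ES_congr
      intro A3 _
      apply ind_false
      rintro ⟨h6, h7, _⟩
      exact hgood ⟨h6, h7⟩
    have e4 : ES ρ (Ico g1 N) (fun A3 => ind (Q1 A1 ∧ Low u σ a g1 ∧
        (u g1 - u a) + MM u A3 g1 N ≤ (#σ : ℤ))) = 0 := by
      rw [← ES_const ρ (Ico g1 N) 0]
      apply ES_congr
      intro A3 _
      apply ind_false
      rintro ⟨h6, h7, _⟩
      exact hgood ⟨h6, h7⟩
    rw [e3, e4, mul_zero]

/-- after the switching the record is the leftmost maximiser -/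
theorem leftmost (ha : g0 ≤ a) (h2 : a ≤ g1) (hrec : Rec u A g0 a)
    (hlow : Low u A a g1) (hY : (u g1 - u a) + MM u A g1 N ≤ cnt A a g1) :
    ∀ x, g0 ≤ x → x ≤ N → XX u A g0 x ≤ XX u A g0 a := by
  intro x hx1 hx2
  rcases lt_or_ge x a with h | h
  · exact (hrec x hx1 h).le
  · rcases le_or_gt x g1 with h' | h'
    · have := hlow x h h'
      rw [XX_add ha h]; linarith
    · have h4 := XX_le_MM (u := u) (A := A) h'.le hx2
      rw [XX_add ha h, XX_add h2 h'.le]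
      have h5 : XX u A a g1 = u g1 - u a - cnt A a g1 := rfl
      rw [h5]; linarith

theorem sum_rec_le (c : ℕ) (A : Finset ℕ) :
    ∑ a ∈ (Icc g0 N).filter (fun a => a + D ≤ N), ind (P1 u g0 a c (A ∩ Ico g0 a) ∧
      Low u A a (a + D) ∧ (u (a + D) - u a) + MM u A (a + D) N ≤ cnt A a (a + D)) ≤
      ind (MM u A g0 N ≤ c) := by
  by_cases hex : ∃ a ∈ (Icc g0 N).filter (fun a => a + D ≤ N), (P1 u g0 a c (A ∩ Ico g0 a) ∧
      Low u A a (a + D) ∧ (u (a + D) - u a) + MM u A (a + D) N ≤ cnt A a (a + D))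
  · obtain ⟨a, haS, hP, hL, hY⟩ := hex
    have haS' := haS
    rw [Finset.mem_filter, Finset.mem_Icc] at haS'
    obtain ⟨⟨ha1, ha2⟩, ha3⟩ := haS'
    have hP' := (P1_inter ha1).1 hP
    have hmax := leftmost ha1 (Nat.le_add_right a D) hP'.1 hL hY
    have hM : MM u A g0 N ≤ c := by
      rw [MM_le_iff (ha1.trans ha2)]
      intro g hg1 hg2
      exact (hmax g hg1 hg2).trans hP'.2
    rw [ind_true hM, Finset.sum_eq_single a]
    · exact ind_le_one _
    · intro b hb hba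
      apply ind_false
      rintro ⟨hPb, hLb, hYb⟩
      rw [Finset.mem_filter, Finset.mem_Icc] at hb
      obtain ⟨⟨hb1, hb2⟩, hb3⟩ := hb
      have hPb' := (P1_inter hb1).1 hPb
      have hmaxb := leftmost hb1 (Nat.le_add_right b D) hPb'.1 hLb hYb
      rcases lt_or_gt_of_ne hba with h | h
      · have h4 := hP'.1 b hb1 h
        have h5 := hmaxb a ha1 ha2
        linarith
      · have h4 := hPb'.1 a ha1 h
        have h5 := hmax b hb1 hb2
        linarith
    · intro h; exact absurd haS h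
  · rw [Finset.sum_eq_zero]
    · exact ind_nonneg _
    · intro b hb
      apply ind_false
      intro h
      exact hex ⟨b, hb, h⟩

/-- combination of the switching and the bound for the right part -/
theorem combine (h0 : 0 < ρ) (h1 : ρ < 1) {x0 r : ℕ} (hR : Ratio ρ D y x0) (hr : r ≤ 1)
    (c : ℕ) (Q3 : ℕ → Finset ℕ → Prop) {K : ℝ} (hK0 : 0 ≤ K)
    (hK : ∀ a, g0 ≤ a → a + D ≤ N → ∀ c : ℕ,
      ES ρ (Ico (a + D) N) (fun A => ind (Q3 a A ∧ MM u A (a + D) N ≤ c)) ≤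
      K * ES ρ (Ico (a + D) N) (fun A => ind (MM u A (a + D) N ≤ c)))
    (E : Finset ℕ → Prop)
    (hE : ∀ A ⊆ Ico g0 N, E A → ∃ a ∈ (Icc g0 N).filter (fun a => a + D ≤ N),
      P1 u g0 a c (A ∩ Ico g0 a) ∧ Low u A a (a + D) ∧
      (cnt A a (a + D) : ℤ) + r = (u (a + D) - u a) + MM u A (a + D) N ∧
      cnt A a (a + D) ≤ y ∧ Q3 a (A ∩ Ico (a + D) N)) :
    ES ρ (Ico g0 N) (fun A => ind (E A)) ≤
      4 / x0 * K * ES ρ (Ico g0 N) (fun A => ind (MM u A g0 N ≤ c)) := by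
  have hx0 : (0 : ℝ) < x0 := by
    have := hR.1
    have h2 : 0 < x0 := by omega
    exact_mod_cast h2
  set S := (Icc g0 N).filter (fun a => a + D ≤ N) with hS
  have step1 : ES ρ (Ico g0 N) (fun A => ind (E A)) ≤ ∑ a ∈ S,
      ES ρ (Ico g0 N) (fun A => ind (P1 u g0 a c (A ∩ Ico g0 a) ∧ Low u A a (a + D) ∧
      (cnt A a (a + D) : ℤ) + r = (u (a + D) - u a) + MM u A (a + D) N ∧
      cnt A a (a + D) ≤ y ∧ Q3 a (A ∩ Ico (a + D) N))) := by
    rw [← ES_sum]
    apply ES_mono h0.le h1.le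
    intro A hA
    by_cases hEA : E A
    · obtain ⟨a, haS, ha⟩ := hE A hA hEA
      have h2 := Finset.single_le_sum (s := S) (f := fun a => ind (P1 u g0 a c (A ∩ Ico g0 a) ∧
        Low u A a (a + D) ∧ (cnt A a (a + D) : ℤ) + r = (u (a + D) - u a) + MM u A (a + D) N ∧
        cnt A a (a + D) ≤ y ∧ Q3 a (A ∩ Ico (a + D) N))) (fun a _ => ind_nonneg _) haS
      refine le_trans ?_ h2
      rw [ind_true ha, ind_true hEA]
    · rw [ind_false hEA]
      exact Finset.sum_nonneg fun a _ => ind_nonneg _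
  have step2 : ∀ a ∈ S, ES ρ (Ico g0 N) (fun A => ind (P1 u g0 a c (A ∩ Ico g0 a) ∧
      Low u A a (a + D) ∧ (cnt A a (a + D) : ℤ) + r = (u (a + D) - u a) + MM u A (a + D) N ∧
      cnt A a (a + D) ≤ y ∧ Q3 a (A ∩ Ico (a + D) N))) ≤ 4 / x0 * K *
      ES ρ (Ico g0 N) (fun A => ind (P1 u g0 a c (A ∩ Ico g0 a) ∧ Low u A a (a + D) ∧
      (u (a + D) - u a) + MM u A (a + D) N ≤ cnt A a (a + D))) := by
    intro a haS
    rw [hS, Finset.mem_filter, Finset.mem_Icc] at haS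
    obtain ⟨⟨ha1, _⟩, ha3⟩ := haS
    have h2 := switch (u := u) h0 h1 hR hr ha1 ha3 (P1 u g0 a c) (Q3 a)
    have h3 := applyIH (u := u) h0 h1 ha1 (Nat.le_add_right a D) ha3 (P1 u g0 a c) (Q3 a)
      (hK a ha1 ha3)
    have h4 := h2.trans (mul_le_mul_of_nonneg_left h3 (by norm_num : (0 : ℝ) ≤ 4))
    rw [← le_div_iff₀' hx0] at h4
    refine h4.trans (le_of_eq ?_)
    field_simp
  have step3 : ∑ a ∈ S, ES ρ (Ico g0 N) (fun A => ind (P1 u g0 a c (A ∩ Ico g0 a) ∧
      Low u A a (a + D) ∧ (u (a + D) - u a) + MM u A (a + D) N ≤ cnt A a (a + D))) ≤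
      ES ρ (Ico g0 N) (fun A => ind (MM u A g0 N ≤ c)) := by
    rw [← ES_sum]
    apply ES_mono h0.le h1.le
    intro A _
    exact sum_rec_le c A
  calc ES ρ (Ico g0 N) (fun A => ind (E A)) ≤ _ := step1
    _ ≤ ∑ a ∈ S, 4 / x0 * K * ES ρ (Ico g0 N) (fun A => ind (P1 u g0 a c (A ∩ Ico g0 a) ∧
      Low u A a (a + D) ∧ (u (a + D) - u a) + MM u A (a + D) N ≤ cnt A a (a + D))) :=
      Finset.sum_le_sum step2
    _ = 4 / x0 * K * ∑ a ∈ S, ES ρ (Ico g0 N) (fun A => ind (P1 u g0 a c (A ∩ Ico g0 a) ∧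
      Low u A a (a + D) ∧ (u (a + D) - u a) + MM u A (a + D) N ≤ cnt A a (a + D))) := by
      rw [Finset.mul_sum]
    _ ≤ _ := mul_le_mul_of_nonneg_left step3 (by positivity)

/-- union bound for the windows -/
theorem windows (h0 : 0 < ρ) (h1 : ρ < 1) (N D y : ℕ) :
    ES ρ (range N) (fun A => ind (¬ Wn D y 0 N A)) ≤ (N + 1) * bt ρ D y := by
  have hbt : 0 ≤ bt ρ D y := ES_nonneg h0.le h1.le fun _ _ => ind_nonneg _
  have h2 : ES ρ (range N) (fun A => ind (¬ Wn D y 0 N A)) ≤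
      ∑ g ∈ range (N + 1), ES ρ (range N) (fun A => ind (g + D ≤ N ∧ y < cnt A g (g + D))) := by
    rw [← ES_sum]
    apply ES_mono h0.le h1.le
    intro A _
    by_cases hW : Wn D y 0 N A
    · rw [ind_false (not_not.2 hW)]
      exact Finset.sum_nonneg fun _ _ => ind_nonneg _
    · have hW' := hW
      unfold Wn at hW'
      push Not at hW'
      obtain ⟨g, _, hg2, hg3⟩ := hW'
      have h3 := Finset.single_le_sum (s := range (N + 1))
        (f := fun g => ind (g + D ≤ N ∧ y < cnt A g (g + D))) (fun _ _ => ind_nonneg _)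
        (Finset.mem_range.2 (by omega : g < N + 1))
      have hgg : g + D ≤ N ∧ y < cnt A g (g + D) := ⟨hg2, hg3⟩
      rw [ind_true hgg] at h3
      exact (ind_le_one _).trans h3
  refine h2.trans ?_
  have h3 : ∀ g ∈ range (N + 1),
      ES ρ (range N) (fun A => ind (g + D ≤ N ∧ y < cnt A g (g + D))) ≤ bt ρ D y := by
    intro g _
    by_cases hg : g + D ≤ N
    · have hsub : Ico g (g + D) ⊆ range N := by
        intro x hx
        rw [Finset.mem_Ico] at hx
        rw [Finset.mem_range]; omega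
      have e1 : (fun A => ind (g + D ≤ N ∧ y < cnt A g (g + D))) =
          fun A => ind (y < #(A ∩ Ico g (g + D))) := by
        funext A
        simp only [hg, true_and, cnt_eq_card_inter]
      rw [e1]
      have e2 := ES_inter (ρ := ρ) hsub (fun B => ind (y < #B))
      have e3 := ES_card (ρ := ρ) (I := Ico g (g + D)) (J := range D)
        (by rw [Nat.card_Ico, Finset.card_range]; omega) (fun n => ind (y < n))
      exact le_of_eq (e2.trans e3)
    · rw [ES_congr (g := fun _ => (0 : ℝ)) (fun A _ => ind_false (fun h => hg h.1)), ES_const]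
      exact hbt
  refine (Finset.sum_le_sum h3).trans ?_
  rw [Finset.sum_const, Finset.card_range, nsmul_eq_mul]
  push_cast
  exact le_rfl

theorem exists_bound (u : ℕ → ℤ) (N : ℕ) : ∃ c : ℕ, ∀ A ⊆ Ico 0 N, MM u A 0 N ≤ c := by
  refine ⟨(Ico 0 N).powerset.sup (fun A => MM u A 0 N), fun A hA => ?_⟩
  exact Finset.le_sup (f := fun A => MM u A 0 N) (Finset.mem_powerset.2 hA)

theorem ratio_pos {x0 : ℕ} (h1 : ρ < 1) (hR : Ratio ρ D y x0) : 0 < D := by
  obtain ⟨h2, h3⟩ := hR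
  rcases Nat.eq_zero_or_pos D with h | h
  · exfalso
    have h4 := h3 0 (Nat.zero_le _)
    rw [h] at h4
    have hx0' : (2 : ℝ) ≤ x0 := by exact_mod_cast h2
    have h6 : (1 : ℝ) / x0 ≤ 1 / 2 := by
      rw [div_le_div_iff₀ (by linarith) (by norm_num)]; linarith
    have h7 : 0 < (1 - 1 / (x0 : ℝ)) * (((0 : ℕ) + 1 : ℝ) * (1 - ρ)) := by
      apply mul_pos (by linarith)
      simp only [Nat.cast_zero, zero_add, one_mul]
      linarith
    have h8 : (((0 : ℕ) : ℝ) - ((0 : ℕ) : ℝ)) * ρ = 0 := by simp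
    rw [h8] at h4
    linarith
  · exact h

end FarAux

open FarAux in
theorem clus_ind {ρ : ℝ} (h0 : 0 < ρ) (h1 : ρ < 1) {u : ℕ → ℤ} {N D y x0 : ℕ}
    (hR : Ratio ρ D y x0) : ∀ m g0 : ℕ, g0 ≤ N → ∀ c : ℕ,
    ES ρ (Ico g0 N) (fun A => ind (Sep D m (J1 u A g0 N) ∧ MM u A g0 N ≤ c ∧ Wn D y g0 N A)) ≤
      (4 / (x0 : ℝ)) ^ m * ES ρ (Ico g0 N) (fun A => ind (MM u A g0 N ≤ c)) := by
  intro m
  induction m with
  | zero =>
    intro g0 _ c
    rw [pow_zero, one_mul]
    exact ES_mono h0.le h1.le fun A _ => ind_mono fun h => h.2.1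
  | succ m ih =>
    intro g0 hg0 c
    have hx0 : (0 : ℝ) < x0 := by
      have := hR.1
      have h2 : 0 < x0 := by omega
      exact_mod_cast h2
    have key := combine (u := u) (g0 := g0) (N := N) (r := 1) h0 h1 hR le_rfl c
      (fun a A => Sep D m (J1 u A (a + D) N) ∧ Wn D y (a + D) N A)
      (K := (4 / (x0 : ℝ)) ^ m) (by positivity) ?_
      (fun A => Sep D (m + 1) (J1 u A g0 N) ∧ MM u A g0 N ≤ c ∧ Wn D y g0 N A) ?_
    · rw [pow_succ, mul_comm ((4 / (x0 : ℝ)) ^ m)]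
      exact key
    · intro a _ ha2 c'
      have h2 := ih (a + D) ha2 c'
      refine le_trans (le_of_eq ?_) h2
      apply ES_congr
      intro A _
      congr 1
      apply propext
      tauto
    · rintro A _ ⟨⟨f, hf1, hf2⟩, hc, hW⟩
      have hf0 := mem_J1.1 (hf1 0 (Nat.zero_le _))
      have hf1' := mem_J1.1 (hf1 1 (by omega))
      have hf01 := hf2 0 (by omega)
      rw [Nat.zero_add] at hf01
      -- the first gap of level `M - 1`
      have hex : ∃ a, g0 ≤ a ∧ (MM u A g0 N : ℤ) - 1 ≤ XX u A g0 a :=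
        ⟨f 0, hf0.1.1, hf0.2.2.1.ge⟩
      obtain ⟨ha1, ha2⟩ := Nat.find_spec hex
      have hmin := fun b (hb : b < Nat.find hex) => Nat.find_min hex hb
      have haf : Nat.find hex ≤ f 0 := Nat.find_min' hex ⟨hf0.1.1, hf0.2.2.1.ge⟩
      set a := Nat.find hex with hadef
      have haD : a + D ≤ f 1 := by omega
      have haN : a + D ≤ N := by omega
      have hXa : XX u A g0 a = (MM u A g0 N : ℤ) - 1 :=
        le_antisymm (hf1'.2.2.2 a ha1 (by omega)) ha2
      have hrec : Rec u A g0 a := by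
        intro g hg1 hg2
        have h3 := hmin g hg2
        rw [hXa]
        by_contra hcon
        push Not at hcon
        exact h3 ⟨hg1, hcon⟩
      have hlow : Low u A a (a + D) := by
        intro g hg1 hg2
        have h3 := hf1'.2.2.2 g (by omega) (by omega)
        rw [XX_add ha1 hg1, hXa] at h3
        linarith
      have hX1 : XX u A g0 (a + D) ≤ (MM u A g0 N : ℤ) - 1 := hf1'.2.2.2 (a + D) (by omega) haD
      -- maximum of the right part
      have hMr : (MM u A (a + D) N : ℤ) = MM u A g0 N - XX u A g0 (a + D) := by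
        obtain ⟨gm, hgm1, hgm2, hgm3⟩ := exists_MM (u := u) (A := A) hg0
        have hgm4 : a + D ≤ gm := by
          by_contra hcon
          push Not at hcon
          have := hf1'.2.2.2 gm hgm1 (by omega)
          linarith
        obtain ⟨c', hc'⟩ : ∃ c' : ℕ, (c' : ℤ) = MM u A g0 N - XX u A g0 (a + D) :=
          ⟨((MM u A g0 N : ℤ) - XX u A g0 (a + D)).toNat, Int.toNat_of_nonneg (by linarith)⟩
        have h3 := MM_eq_of (u := u) (A := A) hgm4 hgm2 c' (by
            rw [hc', ← hgm3, XX_add (by omega : g0 ≤ a + D) hgm4]; ring) (by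
            intro x hx1 hx2
            have h4 := XX_le_MM (u := u) (A := A) (g0 := g0) (g := x) (by omega) hx2
            rw [XX_add (by omega : g0 ≤ a + D) hx1] at h4
            rw [hc']; linarith)
        rw [h3, hc']
      have hXX : XX u A g0 (a + D) = (MM u A g0 N : ℤ) - 1 + (u (a + D) - u a - cnt A a (a + D)) := by
        rw [XX_add ha1 (Nat.le_add_right a D), hXa]; rfl
      have hmonof : ∀ i, i ≤ m → f 1 ≤ f (i + 1) := by
        intro i
        induction i with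
        | zero => intro _; exact le_rfl
        | succ i ihi =>
          intro hi
          have h3 := ihi (by omega)
          have h4 := hf2 (i + 1) (by omega)
          omega
      refine ⟨a, ?_, ?_, hlow, ?_, hW a ha1 haN, ?_, ?_⟩
      · rw [Finset.mem_filter, Finset.mem_Icc]
        exact ⟨⟨ha1, by omega⟩, haN⟩
      · rw [P1_inter ha1]
        refine ⟨hrec, ?_⟩
        rw [hXa]
        have : (MM u A g0 N : ℤ) ≤ c := by exact_mod_cast hc
        linarith
      · rw [hMr, hXX]; push_cast; ring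
      · rw [J1_inter]
        refine ⟨fun i => f (i + 1), fun i hi => ?_, fun i hi => hf2 (i + 1) (by omega)⟩
        have h3 := mem_J1.1 (hf1 (i + 1) (by omega))
        have h4 := hmonof i hi
        change f (i + 1) ∈ J1 u A (a + D) N
        rw [mem_J1]
        refine ⟨⟨by omega, h3.1.2⟩, h3.2.1, ?_, ?_⟩
        · have h5 := h3.2.2.1
          rw [XX_add (by omega : g0 ≤ a + D) (by omega : a + D ≤ f (i + 1))] at h5
          rw [hMr]; linarith
        · intro g hg1 hg2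
          have h5 := h3.2.2.2 g (by omega) hg2
          rw [XX_add (by omega : g0 ≤ a + D) hg1] at h5
          rw [hMr]; linarith
      · rw [Wn_inter]
        intro g hg1 hg2
        exact hW g (by omega) hg2

open FarAux in
theorem stmt_Clus : Stmt_Clus := by
  intro ρ h0 h1 u _ N D y x0 m hR
  obtain ⟨c, hc⟩ := exists_bound u N
  have hx0 : (0 : ℝ) < x0 := by
    have := hR.1
    have h2 : 0 < x0 := by omega
    exact_mod_cast h2
  have h2 := clus_ind (u := u) (N := N) h0 h1 hR m 0 (Nat.zero_le _) c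
  have h3 := windows h0 h1 N D y
  have h4 : ES ρ (Ico 0 N) (fun A => ind (MM u A 0 N ≤ c)) ≤ 1 := by
    rw [← ES_const ρ (Ico 0 N) 1]
    exact ES_mono h0.le h1.le fun A _ => ind_le_one _
  have h5 : ES ρ (range N) (fun A => ind (Sep D m (J1 u A 0 N))) ≤
      ES ρ (Ico 0 N) (fun A => ind (Sep D m (J1 u A 0 N) ∧ MM u A 0 N ≤ c ∧ Wn D y 0 N A)) +
      ES ρ (range N) (fun A => ind (¬ Wn D y 0 N A)) := by
    rw [← Finset.range_eq_Ico, ← ES_add]
    apply ES_mono h0.le h1.le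
    intro A hA
    rw [Finset.range_eq_Ico] at hA
    refine le_trans ?_ (ind_or_le _ _)
    apply ind_mono
    intro hS
    by_cases hW : Wn D y 0 N A
    · exact Or.inl ⟨hS, hc A hA, hW⟩
    · exact Or.inr hW
  have h6 : (4 / (x0 : ℝ)) ^ m * ES ρ (Ico 0 N) (fun A => ind (MM u A 0 N ≤ c)) ≤
      (4 / (x0 : ℝ)) ^ m := by
    have : 0 ≤ (4 / (x0 : ℝ)) ^ m := by positivity
    calc _ ≤ (4 / (x0 : ℝ)) ^ m * 1 := mul_le_mul_of_nonneg_left h4 this
      _ = _ := mul_one _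
  linarith

theorem stmt_Far1 : Stmt_Far1 := by
  intro ρ h0 h1 u hu N D y x0 hR
  have h2 := stmt_Clus ρ h0 h1 u hu N D y x0 1 hR
  rw [pow_one] at h2
  refine le_trans ?_ h2
  apply ES_mono h0.le h1.le
  intro A _
  apply ind_mono
  rintro ⟨g, hg, g', hg', hD⟩
  refine ⟨fun i => if i = 0 then g else g', fun i _ => ?_, fun i hi => ?_⟩
  · by_cases hi : i = 0
    · simp only [hi, if_true]; exact hg
    · simp only [hi, if_false]; exact hg'
  · have hi0 : i = 0 := by omega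
    subst hi0
    simpa using hD

open FarAux in
theorem stmt_Far0 : Stmt_Far0 := by
  intro ρ h0 h1 u _ N D y x0 hR
  obtain ⟨c, hc⟩ := exists_bound u N
  have hx0 : (0 : ℝ) < x0 := by
    have := hR.1
    have h2 : 0 < x0 := by omega
    exact_mod_cast h2
  have h3 := windows h0 h1 N D y
  have h4 : ES ρ (Ico 0 N) (fun A => ind (MM u A 0 N ≤ c)) ≤ 1 := by
    rw [← ES_const ρ (Ico 0 N) 1]
    exact ES_mono h0.le h1.le fun A _ => ind_le_one _
  have key := combine (u := u) (g0 := 0) (N := N) (r := 0) h0 h1 hR (Nat.zero_le _) c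
      (fun _ _ => True) (K := 1) zero_le_one (by
        intro a _ _ c'
        simp only [true_and, one_mul]
        exact le_rfl)
      (fun A => (∃ g ∈ ZZ u A 0 N, ∃ g' ∈ ZZ u A 0 N, g + D ≤ g') ∧ Wn D y 0 N A) (by
        rintro A hA ⟨⟨g, hg, g', hg', hgg⟩, hW⟩
        have hex : ∃ a, a ∈ ZZ u A 0 N := ⟨g, hg⟩
        have haZ := Nat.find_spec hex
        have hmin := fun b (hb : b < Nat.find hex) => Nat.find_min hex hb
        have hag : Nat.find hex ≤ g := Nat.find_min' hex hg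
        set a := Nat.find hex with hadef
        have hZa := mem_ZZ.1 haZ
        have hZg' := mem_ZZ.1 hg'
        have ha0 : 0 ≤ a := Nat.zero_le _
        have haD : a + D ≤ g' := by omega
        have haN : a + D ≤ N := by omega
        have hXX : XX u A 0 (a + D) = (MM u A 0 N : ℤ) + (u (a + D) - u a - cnt A a (a + D)) := by
          rw [XX_add ha0 (Nat.le_add_right a D), hZa.2]; rfl
        have hle : XX u A 0 (a + D) ≤ MM u A 0 N := XX_le_MM (Nat.zero_le _) haN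
        refine ⟨a, ?_, ?_, ?_, ?_, hW a ha0 haN, trivial⟩
        · rw [Finset.mem_filter, Finset.mem_Icc]
          exact ⟨⟨ha0, by omega⟩, haN⟩
        · rw [P1_inter ha0]
          refine ⟨?_, ?_⟩
          · intro b hb1 hb2
            have h5 : XX u A 0 b ≤ MM u A 0 N := XX_le_MM (Nat.zero_le _) (by omega)
            rw [hZa.2]
            refine lt_of_le_of_ne h5 fun h6 => ?_
            exact hmin b hb2 (mem_ZZ.2 ⟨⟨Nat.zero_le _, by omega⟩, h6⟩)
          · rw [hZa.2]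
            exact_mod_cast hc A hA
        · intro b hb1 hb2
          have h5 : XX u A 0 b ≤ MM u A 0 N := XX_le_MM (Nat.zero_le _) (by omega)
          rw [XX_add ha0 hb1, hZa.2] at h5
          linarith
        · obtain ⟨c', hc'⟩ : ∃ c' : ℕ, (c' : ℤ) = MM u A 0 N - XX u A 0 (a + D) :=
            ⟨((MM u A 0 N : ℤ) - XX u A 0 (a + D)).toNat, Int.toNat_of_nonneg (by linarith)⟩
          have h5 := MM_eq_of (u := u) (A := A) haD hZg'.1.2 c' (by
              rw [hc', ← hZg'.2, XX_add (Nat.zero_le (a + D)) haD]; ring) (by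
              intro x hx1 hx2
              have h6 := XX_le_MM (u := u) (A := A) (g0 := 0) (g := x) (Nat.zero_le _) hx2
              rw [XX_add (Nat.zero_le (a + D)) hx1] at h6
              rw [hc']; linarith)
          rw [h5, hc', hXX]
          push_cast; ring)
  have h5 : ES ρ (range N) (fun A => ind (∃ g ∈ ZZ u A 0 N, ∃ g' ∈ ZZ u A 0 N, g + D ≤ g')) ≤
      ES ρ (Ico 0 N) (fun A => ind ((∃ g ∈ ZZ u A 0 N, ∃ g' ∈ ZZ u A 0 N, g + D ≤ g') ∧
        Wn D y 0 N A)) +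
      ES ρ (range N) (fun A => ind (¬ Wn D y 0 N A)) := by
    rw [← Finset.range_eq_Ico, ← ES_add]
    apply ES_mono h0.le h1.le
    intro A hA
    refine le_trans ?_ (ind_or_le _ _)
    apply ind_mono
    intro hS
    by_cases hW : Wn D y 0 N A
    · exact Or.inl ⟨hS, hW⟩
    · exact Or.inr hW
  have h6 : 4 / (x0 : ℝ) * 1 * ES ρ (Ico 0 N) (fun A => ind (MM u A 0 N ≤ c)) ≤
      4 / (x0 : ℝ) := by
    have : 0 ≤ 4 / (x0 : ℝ) := by positivity
    calc _ ≤ (4 / (x0 : ℝ)) * 1 * 1 := mul_le_mul_of_nonneg_left h4 (by positivity)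
      _ = _ := by ring
  linarith

end Pool.Agent.LCS13
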