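import Pool.Agent.Work.MP_bec1e1_pr_h13.LP
import Pool.Agent.Work.MP_bec1e1_pr_h13.ES

/-!
# Resampling, independence of disjoint blocks, first moment bound for `lp`
-/

open Finset BigOperators
open scoped Classical

namespace Pool.Agent.LCS13

section resample

variable {ι α : Type*} [Fintype ι] [DecidableEq ι] [Fintype α]

theorem expect_le {Ω : Type*} [Fintype Ω] {F G : Ω → ℝ} (h : ∀ ω, F ω ≤ G ω) :
    𝔼 ω, F ω ≤ 𝔼 ω, G ω := Finset.expect_le_expect fun ω _ => h ω

theorem expect_nn {Ω : Type*} [Fintype Ω] {F : Ω → ℝ} (h : ∀ ω, 0 ≤ F ω) :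
    0 ≤ 𝔼 ω, F ω := Finset.expect_nonneg fun ω _ => h ω

/-- Exchange of one letter with a fresh letter. -/
theorem expect_resample_swap (x : ι) (F : (ι → α) → α → ℝ) :
    𝔼 a : ι → α, 𝔼 z : α, F (Function.update a x z) (a x) = 𝔼 a : ι → α, 𝔼 z : α, F a z := by
  rw [← Finset.expect_product', ← Finset.expect_product']
  refine Finset.expect_nbij' (fun p => (Function.update p.1 x p.2, p.1 x))
    (fun p => (Function.update p.1 x p.2, p.1 x)) ?_ ?_ ?_ ?_ ?_
  · intro p _; simp
  · intro p _; simp
  · rintro ⟨a, z⟩ _; simp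
  · rintro ⟨a, z⟩ _; simp
  · rintro ⟨a, z⟩ _; simp

/-- Resampling one letter. -/
theorem expect_resample [Nonempty α] (x : ι) (F : (ι → α) → ℝ) :
    𝔼 a : ι → α, F a = 𝔼 a : ι → α, 𝔼 z : α, F (Function.update a x z) := by
  rw [expect_resample_swap x (fun a _ => F a)]
  simp

/-- Mixture of two words: the letters in `s` from `a`, the others from `b`. -/
noncomputable def mix (s : Set ι) (a b : ι → α) : ι → α := fun i => if i ∈ s then a i else b i

omit [Fintype ι] [DecidableEq ι] [Fintype α] in
theorem mix_mix (s : Set ι) (a b : ι → α) : mix s (mix s a b) (mix s b a) = a := by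
  funext i; unfold mix; split_ifs <;> rfl

theorem expect_mix (s : Set ι) (F : (ι → α) → (ι → α) → ℝ) :
    𝔼 a : ι → α, 𝔼 b : ι → α, F (mix s a b) (mix s b a) = 𝔼 a : ι → α, 𝔼 b : ι → α, F a b := by
  rw [← Finset.expect_product', ← Finset.expect_product']
  refine Finset.expect_nbij' (fun p => (mix s p.1 p.2, mix s p.2 p.1))
    (fun p => (mix s p.1 p.2, mix s p.2 p.1)) ?_ ?_ ?_ ?_ ?_
  · intro p _; simp
  · intro p _; simp
  · rintro ⟨a, z⟩ _; simp only [mix_mix]
  · rintro ⟨a, z⟩ _; simp only [mix_mix]
  · rintro ⟨a, z⟩ _; simp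

/-- Independence: `F` depends on the letters in `s`, `G` on the letters outside `s`. -/
theorem expect_indep [Nonempty α] (s : Set ι) (F G : (ι → α) → ℝ)
    (hF : ∀ a b, (∀ i ∈ s, a i = b i) → F a = F b) (hG : ∀ a b, (∀ i ∉ s, a i = b i) → G a = G b) :
    𝔼 a : ι → α, F a * G a = (𝔼 a : ι → α, F a) * 𝔼 a : ι → α, G a := by
  have h1 : 𝔼 a : ι → α, F a * G a = 𝔼 a : ι → α, 𝔼 b : ι → α, F (mix s a b) * G (mix s b a) := by
    refine Finset.expect_congr rfl fun a _ => ?_
    have h2 : ∀ b, F (mix s a b) * G (mix s b a) = F a * G a := by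
      intro b
      rw [hF (mix s a b) a fun i hi => by unfold mix; rw [if_pos hi],
        hG (mix s b a) a fun i hi => by unfold mix; rw [if_neg hi]]
    simp only [h2]
    simp
  rw [h1, expect_mix s (fun a b => F a * G b), Finset.expect_mul_expect]

/-- Independence for two words. -/
theorem expect_indep₂ {ι' : Type*} [Fintype ι'] [DecidableEq ι'] [Nonempty α] (s : Set ι)
    (s' : Set ι') (F G : (ι → α) → (ι' → α) → ℝ)
    (hF : ∀ a b a' b', (∀ i ∈ s, a i = b i) → (∀ i ∈ s', a' i = b' i) → F a a' = F b b')
    (hG : ∀ a b a' b', (∀ i ∉ s, a i = b i) → (∀ i ∉ s', a' i = b' i) → G a a' = G b b') :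
    𝔼 a : ι → α, 𝔼 b : ι' → α, F a b * G a b =
      (𝔼 a : ι → α, 𝔼 b : ι' → α, F a b) * 𝔼 a : ι → α, 𝔼 b : ι' → α, G a b := by
  have h1 : ∀ a : ι → α, 𝔼 b : ι' → α, F a b * G a b =
      (𝔼 b : ι' → α, F a b) * 𝔼 b : ι' → α, G a b := fun a =>
    expect_indep s' (F a) (G a) (fun b b' h => hF a a b b' (fun _ _ => rfl) h)
      (fun b b' h => hG a a b b' (fun _ _ => rfl) h)
  simp only [h1]
  refine expect_indep s (fun a => 𝔼 b : ι' → α, F a b) (fun a => 𝔼 b : ι' → α, G a b) ?_ ?_
  · intro a a' h
    exact Finset.expect_congr rfl fun b _ => hF a a' b b h fun _ _ => rfl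
  · intro a a' h
    exact Finset.expect_congr rfl fun b _ => hG a a' b b h fun _ _ => rfl

end resample

/-- Probability that a random letter is a given one. -/
theorem expect_letter_le {k : ℕ} (hk : 0 < k) (v : Option ℕ) :
    𝔼 z : Fin k, ind (∃ x, some (z : ℕ) = some x ∧ v = some x) ≤ 1 / k := by
  have : Nonempty (Fin k) := ⟨⟨0, hk⟩⟩
  rw [Fintype.expect_eq_sum_div_card, Fintype.card_fin]
  refine div_le_div_of_nonneg_right ?_ (by positivity)
  by_cases hv : ∃ z : Fin k, v = some (z : ℕ)
  · obtain ⟨z, rfl⟩ := hv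
    rw [Finset.sum_eq_single z]
    · exact ind_le_one _
    · intro z' _ hz
      apply ind_false
      rintro ⟨x, h1, h2⟩
      apply hz
      apply Fin.ext
      simp only [Option.some.injEq] at h1 h2
      omega
    · intro h; exact absurd (Finset.mem_univ z) h
  · rw [Finset.sum_eq_zero]
    · norm_num
    · intro z _
      apply ind_false
      rintro ⟨x, h1, h2⟩
      apply hv
      refine ⟨z, ?_⟩
      rw [h2, h1]

/-- Update of a finite word. -/
theorem wn_update_of_ne {n k : ℕ} (w : Fin n → Fin k) (x : Fin n) (z : Fin k) {i : ℕ}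
    (hi : i ≠ x) : wn (Function.update w x z) i = wn w i := by
  unfold wn
  by_cases h : i < n
  · rw [dif_pos h, dif_pos h, Function.update_of_ne]
    intro h'
    apply hi
    rw [← h']
  · rw [dif_neg h, dif_neg h]

theorem wn_update_self {n k : ℕ} (w : Fin n → Fin k) (x : Fin n) (z : Fin k) :
    wn (Function.update w x z) x = some (z : ℕ) := by
  unfold wn
  rw [dif_pos x.2]
  simp

/-- The first column where the value of the last row is attained. -/
theorem lp_succ_cases (m : ℕ → ℕ → Prop) (i j r c : ℕ) : lp m i j (r + 1) c = lp m i j r c ∨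
    ∃ c' < c, m (i + r) (j + c') ∧ lp m i j (r + 1) c = lp m i j r c' + 1 := by
  induction c with
  | zero => left; rw [lp_zero_col, lp_zero_col]
  | succ c ih =>
    rw [lp_succ]
    by_cases hm : m (i + r) (j + c)
    · right
      exact ⟨c, Nat.lt_succ_self c, hm, by rw [if_pos hm]⟩
    · rw [if_neg hm]
      rcases le_total (lp m i j (r + 1) c) (lp m i j r (c + 1)) with h | h
      · left; exact max_eq_left h
      · rw [max_eq_right h]
        rcases ih with ih | ⟨c', h1, h2, h3⟩
        · left
          refine le_antisymm ?_ h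
          rw [ih]
          exact lp_mono le_rfl (Nat.le_succ c)
        · right
          exact ⟨c', by omega, h2, h3⟩

/-- First moment bound, for every fixed word `b`. -/
theorem first_moment {k : ℕ} (hk : 0 < k) (t : ℕ) (b : ℕ → Option ℕ) (i j r c n : ℕ) :
    𝔼 a : Fin t → Fin k, ind (n ≤ lp (mt (wn a) b) i j r c) ≤
      (r.choose n : ℝ) * c.choose n / (k : ℝ) ^ n := by
  have : Nonempty (Fin k) := ⟨⟨0, hk⟩⟩
  have hk' : (0 : ℝ) < k := by exact_mod_cast hk
  induction r generalizing c n with
  | zero =>
    cases n with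
    | zero =>
      simp only [Nat.choose_zero_right, Nat.cast_one, pow_zero, mul_one, div_one]
      calc _ ≤ 𝔼 a : Fin t → Fin k, (1 : ℝ) := expect_le fun a => ind_le_one _
        _ = 1 := by simp
    | succ n =>
      simp only [lp_zero_row]
      rw [ind_false (by omega)]
      simp
  | succ r ih =>
    cases n with
    | zero =>
      simp only [Nat.choose_zero_right, Nat.cast_one, pow_zero, mul_one, div_one]
      calc _ ≤ 𝔼 a : Fin t → Fin k, (1 : ℝ) := expect_le fun a => ind_le_one _
        _ = 1 := by simp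
    | succ n =>
      have h1 : ∀ a : Fin t → Fin k, ind (n + 1 ≤ lp (mt (wn a) b) i j (r + 1) c) ≤
          ind (n + 1 ≤ lp (mt (wn a) b) i j r c) +
            ∑ c' ∈ range c, ind (mt (wn a) b (i + r) (j + c')) *
              ind (n ≤ lp (mt (wn a) b) i j r c') := by
        intro a
        have hs : 0 ≤ ∑ c' ∈ range c, ind (mt (wn a) b (i + r) (j + c')) *
              ind (n ≤ lp (mt (wn a) b) i j r c') :=
          Finset.sum_nonneg fun c' _ => mul_nonneg (ind_nonneg _) (ind_nonneg _)
        by_cases h : n + 1 ≤ lp (mt (wn a) b) i j (r + 1) c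
        · rw [ind_true h]
          rcases lp_succ_cases (mt (wn a) b) i j r c with h2 | ⟨c', h2, h3, h4⟩
          · rw [h2] at h
            rw [ind_true h]
            linarith
          · have h5 : (1 : ℝ) ≤ ∑ c' ∈ range c, ind (mt (wn a) b (i + r) (j + c')) *
              ind (n ≤ lp (mt (wn a) b) i j r c') := by
              calc (1 : ℝ) = ind (mt (wn a) b (i + r) (j + c')) *
                  ind (n ≤ lp (mt (wn a) b) i j r c') := by
                    rw [ind_true h3, ind_true (by omega)]; norm_num
                _ ≤ _ := Finset.single_le_sum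
                  (f := fun c' => ind (mt (wn a) b (i + r) (j + c')) *
                    ind (n ≤ lp (mt (wn a) b) i j r c'))
                  (fun c' _ => mul_nonneg (ind_nonneg _) (ind_nonneg _)) (Finset.mem_range.2 h2)
            have h6 := ind_nonneg (n + 1 ≤ lp (mt (wn a) b) i j r c)
            linarith
        · rw [ind_false h]
          have h6 := ind_nonneg (n + 1 ≤ lp (mt (wn a) b) i j r c)
          linarith
      have h2 : ∀ c', 𝔼 a : Fin t → Fin k, ind (mt (wn a) b (i + r) (j + c')) *
          ind (n ≤ lp (mt (wn a) b) i j r c') ≤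
          1 / k * ((r.choose n : ℝ) * c'.choose n / (k : ℝ) ^ n) := by
        intro c'
        by_cases hr : i + r < t
        · rw [expect_resample ⟨i + r, hr⟩]
          have h3 : ∀ (a : Fin t → Fin k) (z : Fin k),
              ind (mt (wn (Function.update a ⟨i + r, hr⟩ z)) b (i + r) (j + c')) *
                ind (n ≤ lp (mt (wn (Function.update a ⟨i + r, hr⟩ z)) b) i j r c') =
              ind (∃ x, some (z : ℕ) = some x ∧ b (j + c') = some x) *
                ind (n ≤ lp (mt (wn a) b) i j r c') := by
            intro a z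
            congr 1
            · unfold mt
              have := wn_update_self a ⟨i + r, hr⟩ z
              simp only at this
              rw [this]
            · rw [lp_congr (m' := mt (wn a) b)]
              intro i' j' h4 h5 _ _
              unfold mt
              rw [wn_update_of_ne]
              simp only
              omega
          simp only [h3, ← Finset.expect_mul]
          rw [← Finset.mul_expect]
          refine mul_le_mul (expect_letter_le hk _) (ih c' n) ?_ (by positivity)
          exact expect_nn fun a => ind_nonneg _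
        · have h3 : ∀ a : Fin t → Fin k, ind (mt (wn a) b (i + r) (j + c')) = 0 := by
            intro a
            apply ind_false
            rintro ⟨x, h4, _⟩
            unfold wn at h4
            rw [dif_neg hr] at h4
            exact absurd h4 (by simp)
          simp only [h3, zero_mul]
          rw [Finset.expect_const_zero]
          positivity
      calc 𝔼 a : Fin t → Fin k, ind (n + 1 ≤ lp (mt (wn a) b) i j (r + 1) c)
          ≤ 𝔼 a : Fin t → Fin k, (ind (n + 1 ≤ lp (mt (wn a) b) i j r c) +
            ∑ c' ∈ range c, ind (mt (wn a) b (i + r) (j + c')) *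
              ind (n ≤ lp (mt (wn a) b) i j r c')) := expect_le h1
        _ = 𝔼 a : Fin t → Fin k, ind (n + 1 ≤ lp (mt (wn a) b) i j r c) +
            ∑ c' ∈ range c, 𝔼 a : Fin t → Fin k, ind (mt (wn a) b (i + r) (j + c')) *
              ind (n ≤ lp (mt (wn a) b) i j r c') := by
            rw [Finset.expect_add_distrib, Finset.expect_sum_comm]
        _ ≤ (r.choose (n + 1) : ℝ) * c.choose (n + 1) / (k : ℝ) ^ (n + 1) +
            ∑ c' ∈ range c, 1 / k * ((r.choose n : ℝ) * c'.choose n / (k : ℝ) ^ n) :=
            add_le_add (ih c (n + 1)) (Finset.sum_le_sum fun c' _ => h2 c')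
        _ = ((r + 1).choose (n + 1) : ℝ) * c.choose (n + 1) / (k : ℝ) ^ (n + 1) := by
            have h4 : ∑ c' ∈ range c, (c'.choose n : ℝ) = c.choose (n + 1) := by
              clear h1 h2 ih
              induction c with
              | zero => simp
              | succ c ihc =>
                rw [Finset.sum_range_succ, ihc, Nat.choose_succ_succ]
                push_cast
                ring
            have h5 : ∑ c' ∈ range c, 1 / (k : ℝ) * ((r.choose n : ℝ) * c'.choose n / (k : ℝ) ^ n) =
                (r.choose n : ℝ) * c.choose (n + 1) / (k : ℝ) ^ (n + 1) := by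
              rw [← h4, Finset.mul_sum, Finset.sum_div]
              refine Finset.sum_congr rfl fun c' _ => ?_
              rw [pow_succ]
              field_simp
            rw [h5, Nat.choose_succ_succ]
            push_cast
            ring

/-- First moment bound in exponential form. -/
theorem first_moment_exp {k : ℕ} (hk : 0 < k) (t : ℕ) (b : ℕ → Option ℕ) (i j r c n : ℕ)
    (hn : 0 < n) :
    𝔼 a : Fin t → Fin k, ind (n ≤ lp (mt (wn a) b) i j r c) ≤
      (Real.exp 2 * r * c / ((n : ℝ) ^ 2 * k)) ^ n := by
  have hk' : (0 : ℝ) < k := by exact_mod_cast hk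
  have hn' : (0 : ℝ) < n := by exact_mod_cast hn
  refine (first_moment hk t b i j r c n).trans ?_
  have h1 : ∀ x : ℕ, (x.choose n : ℝ) ≤ (Real.exp 1 * x / n) ^ n := by
    intro x
    have h2 : (x.choose n : ℝ) ≤ (x : ℝ) ^ n / n.factorial := Nat.choose_le_pow_div n x
    have h3 := Real.pow_div_factorial_le_exp (n : ℝ) hn'.le n
    have h4 : (0 : ℝ) < n.factorial := by exact_mod_cast n.factorial_pos
    have h5 : Real.exp (n : ℝ) = Real.exp 1 ^ n := by
      rw [← Real.exp_nat_mul, mul_one]
    rw [h5] at h3
    refine h2.trans ?_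
    rw [div_pow, mul_pow, div_le_div_iff₀ h4 (by positivity)]
    rw [div_le_iff₀ h4] at h3
    calc (x : ℝ) ^ n * (n : ℝ) ^ n ≤ (x : ℝ) ^ n * (Real.exp 1 ^ n * n.factorial) :=
          mul_le_mul_of_nonneg_left h3 (by positivity)
      _ = _ := by ring
  calc (r.choose n : ℝ) * c.choose n / (k : ℝ) ^ n
      ≤ (Real.exp 1 * r / n) ^ n * (Real.exp 1 * c / n) ^ n / (k : ℝ) ^ n := by
        refine div_le_div_of_nonneg_right ?_ (by positivity)
        exact mul_le_mul (h1 r) (h1 c) (by positivity) (by positivity)
    _ = (Real.exp 2 * r * c / ((n : ℝ) ^ 2 * k)) ^ n := by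
        rw [← mul_pow, ← div_pow]
        congr 1
        have : Real.exp 2 = Real.exp 1 * Real.exp 1 := by rw [← Real.exp_add]; norm_num
        rw [this]
        field_simp

end Pool.Agent.LCS13
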