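import Pool.Agent.Work.MP_bec1e1_pr_h13.MARG

/-!
# A crude lower bound for the mean (block GAM)
-/

open Finset BigOperators Filter
open scoped Classical

namespace Pool.Agent.LCS13

noncomputable section

namespace GamB

/-- Marginal of one coordinate. -/
theorem expect_one {β S : Type*} [Fintype β] [DecidableEq β] [Fintype S] [Nonempty S]
    (i : β) (G : S → ℝ) : 𝔼 ω : β → S, G (ω i) = 𝔼 x : S, G x := by
  have hinj : Function.Injective (fun _ : Unit => i) := fun _ _ _ => rfl
  have := expect_comp_inj (S := S) (fun _ : Unit => i) hinj (fun ω' => G (ω' ()))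
  rw [this]
  exact Fintype.expect_equiv (Equiv.funUnique Unit S) _ _ (fun ω => rfl)

/-- Marginal of two coordinates. -/
theorem expect_two {β S : Type*} [Fintype β] [DecidableEq β] [Fintype S] [Nonempty S]
    {i j : β} (hij : i ≠ j) (G : S → S → ℝ) :
    𝔼 ω : β → S, G (ω i) (ω j) = 𝔼 x : S, 𝔼 y : S, G x y := by
  have hinj : Function.Injective (fun q : Bool => if q then i else j) := by
    intro x y hxy
    cases x <;> cases y <;> simp_all
  have := expect_comp_inj (S := S) (fun q : Bool => if q then i else j) hinj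
    (fun ω' => G (ω' true) (ω' false))
  simp only [if_true, if_false, Bool.false_eq_true] at this
  rw [this]
  have h2 : 𝔼 x : S, 𝔼 y : S, G x y = 𝔼 p : S × S, G p.1 p.2 := by
    rw [← Finset.univ_product_univ, Finset.expect_product]
  rw [h2]
  refine Fintype.expect_equiv ((Equiv.boolArrowEquivProd S).trans (Equiv.prodComm S S)) _ _
    (fun ω => ?_)
  simp [Equiv.boolArrowEquivProd]

theorem sum_diag_split {m : ℕ} (P Q : ℝ) :
    ∑ j : Fin m, ∑ j' : Fin m, (if j = j' then P else Q) = m * P + m * (m - 1) * Q := by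
  have h : ∀ j : Fin m, ∑ j' : Fin m, (if j = j' then P else Q) = P - Q + m * Q := by
    intro j
    have : ∀ j' : Fin m, (if j = j' then P else Q) = (if j = j' then P - Q else 0) + Q := by
      intro j'
      split_ifs <;> ring
    rw [Finset.sum_congr rfl fun j' _ => this j', Finset.sum_add_distrib, Finset.sum_ite_eq]
    simp
  rw [Finset.sum_congr rfl fun j _ => h j]
  simp
  ring

/-- Number of matches of two words. -/
def nW {m k : ℕ} (a b : Fin m → Fin k) : ℝ := ∑ j : Fin m, ∑ i : Fin m, if a i = b j then 1 else 0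

theorem nW_moments (k m : ℕ) (hk : 0 < k) :
    𝔼 a : Fin m → Fin k, 𝔼 b : Fin m → Fin k, nW a b = (m : ℝ) ^ 2 / k ∧
    𝔼 a : Fin m → Fin k, 𝔼 b : Fin m → Fin k, nW a b ^ 2 ≤
      ((m : ℝ) ^ 2 / k) ^ 2 + (m : ℝ) ^ 2 / k := by
  have : Nonempty (Fin k) := ⟨⟨0, hk⟩⟩
  have hk' : (k : ℝ) ≠ 0 := by positivity
  set c : (Fin m → Fin k) → Fin k → ℝ := fun a x => ∑ i : Fin m, if a i = x then 1 else 0 with hc
  have hc1 : ∀ a, 𝔼 x : Fin k, c a x = m / k := by
    intro a
    rw [Fintype.expect_eq_sum_div_card, hc]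
    simp only
    rw [Finset.sum_comm]
    simp
  have hb1 : ∀ a : Fin m → Fin k, 𝔼 b : Fin m → Fin k, nW a b = (m : ℝ) ^ 2 / k := by
    intro a
    have : ∀ b : Fin m → Fin k, nW a b = ∑ j : Fin m, c a (b j) := fun b => rfl
    rw [Finset.expect_congr rfl fun b _ => this b, Finset.expect_sum_comm]
    rw [Finset.sum_congr rfl fun j _ => expect_one j (c a)]
    rw [hc1]
    simp
    ring
  have hb2 : ∀ a : Fin m → Fin k, 𝔼 b : Fin m → Fin k, nW a b ^ 2 =
      m * (𝔼 x : Fin k, c a x ^ 2) + m * (m - 1) * (m / k) ^ 2 := by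
    intro a
    have : ∀ b : Fin m → Fin k, nW a b ^ 2 =
        ∑ j : Fin m, ∑ j' : Fin m, c a (b j) * c a (b j') := by
      intro b
      rw [sq, show nW a b = ∑ j : Fin m, c a (b j) from rfl, Finset.sum_mul_sum]
    rw [Finset.expect_congr rfl fun b _ => this b, Finset.expect_sum_comm]
    rw [← sum_diag_split]
    refine Finset.sum_congr rfl fun j _ => ?_
    rw [Finset.expect_sum_comm]
    refine Finset.sum_congr rfl fun j' _ => ?_
    split_ifs with h
    · subst h
      rw [expect_one j (fun x => c a x * c a x)]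
      simp only [sq]
    · rw [expect_two h (fun x y => c a x * c a y)]
      simp only [← Finset.mul_expect]
      rw [← Finset.expect_mul, hc1]
      ring
  have hc2 : 𝔼 a : Fin m → Fin k, 𝔼 x : Fin k, c a x ^ 2 = (m + m * (m - 1) / k) / k := by
    have h1 : ∀ a, 𝔼 x : Fin k, c a x ^ 2 =
        (∑ i : Fin m, ∑ i' : Fin m, if a i = a i' then (1 : ℝ) else 0) / k := by
      intro a
      rw [Fintype.expect_eq_sum_div_card, Fintype.card_fin]
      congr 1
      have : ∀ x, c a x ^ 2 = ∑ i : Fin m, ∑ i' : Fin m,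
          (if a i = x then (if a i' = x then (1 : ℝ) else 0) else 0) := by
        intro x
        rw [sq, hc]
        simp only
        rw [Finset.sum_mul_sum]
        refine Finset.sum_congr rfl fun i _ => Finset.sum_congr rfl fun i' _ => ?_
        split_ifs <;> simp
      rw [Finset.sum_congr rfl fun x _ => this x, Finset.sum_comm]
      refine Finset.sum_congr rfl fun i _ => ?_
      rw [Finset.sum_comm]
      refine Finset.sum_congr rfl fun i' _ => ?_
      rw [Finset.sum_ite_eq]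
      simp only [Finset.mem_univ, if_true]
      split_ifs with h1 h2 h2 <;> simp_all
    rw [Finset.expect_congr rfl fun a _ => h1 a, ← Finset.expect_div]
    congr 1
    rw [Finset.expect_sum_comm]
    have e : (m : ℝ) + m * (m - 1) / k = m * 1 + m * (m - 1) * (1 / k) := by ring
    rw [e, ← sum_diag_split]
    refine Finset.sum_congr rfl fun j _ => ?_
    rw [Finset.expect_sum_comm]
    refine Finset.sum_congr rfl fun j' _ => ?_
    split_ifs with h
    · subst h
      simp
    · rw [expect_two h (fun x y => if x = y then (1 : ℝ) else 0)]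
      have : ∀ x : Fin k, 𝔼 y : Fin k, (if x = y then (1 : ℝ) else 0) = 1 / k := by
        intro x
        rw [Fintype.expect_eq_sum_div_card]
        simp
      rw [Finset.expect_congr rfl fun x _ => this x]
      simp
  constructor
  · rw [Finset.expect_congr rfl fun a _ => hb1 a]
    simp
  · rw [Finset.expect_congr rfl fun a _ => hb2 a, Finset.expect_add_distrib, ← Finset.mul_expect,
      hc2, Fintype.expect_const]
    have e : (m : ℝ) * ((m + m * (m - 1) / k) / k) + m * (m - 1) * (m / k) ^ 2 =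
        ((m : ℝ) ^ 2 / k) ^ 2 + (m : ℝ) ^ 2 / k - (m : ℝ) ^ 2 / k ^ 2 := by
      field_simp
      ring
    rw [e]
    have : 0 ≤ (m : ℝ) ^ 2 / (k : ℝ) ^ 2 := by positivity
    linarith

/-- The probability of a match, second moment bound. -/
theorem expect_lb (k m : ℕ) (hk : 0 < k) :
    ((m : ℝ) ^ 2 / k) / (1 + (m : ℝ) ^ 2 / k) ≤
    𝔼 a : Fin m → Fin k, 𝔼 b : Fin m → Fin k,
      (2 * (1 / (1 + (m : ℝ) ^ 2 / k)) * nW a b - (1 / (1 + (m : ℝ) ^ 2 / k)) ^ 2 * nW a b ^ 2) := by
  obtain ⟨h1, h2⟩ := nW_moments k m hk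
  set x := (m : ℝ) ^ 2 / k with hx
  have hx0 : 0 ≤ x := by positivity
  simp only [Finset.expect_sub_distrib, ← Finset.mul_expect]
  rw [h1]
  have h3 : (1 / (1 + x)) ^ 2 * 𝔼 a : Fin m → Fin k, 𝔼 b : Fin m → Fin k, nW a b ^ 2 ≤
      (1 / (1 + x)) ^ 2 * (x ^ 2 + x) := by
    exact mul_le_mul_of_nonneg_left h2 (by positivity)
  have h4 : x / (1 + x) = 2 * (1 / (1 + x)) * x - (1 / (1 + x)) ^ 2 * (x ^ 2 + x) := by
    field_simp
    ring
  rw [h4]
  linarith

/-- Diagonal blocks. -/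
theorem lp_blocks (M : ℕ → ℕ → Prop) (m q : ℕ) :
    ∑ p ∈ range q, lp M (p * m) (p * m) m m ≤ lp M 0 0 (q * m) (q * m) := by
  induction q with
  | zero => simp
  | succ q ih =>
    rw [Finset.sum_range_succ]
    have h := lp_superadd M 0 0 (q * m) m (q * m) m
    rw [zero_add] at h
    have e : (q + 1) * m = q * m + m := by ring
    rw [e]
    omega

theorem one_le_lp {M : ℕ → ℕ → Prop} {i j r c x y : ℕ} (hx : x < r) (hy : y < c)
    (h : M (i + x) (j + y)) : 1 ≤ lp M i j r c := by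
  have h1 := lp_through (m := M) (i := i) (j := j) x (r - x - 1) y (c - y - 1) h
  rw [show x + 1 + (r - x - 1) = r by omega, show y + 1 + (c - y - 1) = c by omega] at h1
  omega

theorem block_lb {n k m p : ℕ} (l : ℝ) (hp : p * m + m ≤ n) (a b : Fin n → Fin k) :
    2 * l * nW (fun i : Fin m => a ⟨p * m + i, by omega⟩) (fun j : Fin m => b ⟨p * m + j, by omega⟩)
      - l ^ 2 * nW (fun i : Fin m => a ⟨p * m + i, by omega⟩)
          (fun j : Fin m => b ⟨p * m + j, by omega⟩) ^ 2 ≤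
      (lp (mt (wn a) (wn b)) (p * m) (p * m) m m : ℝ) := by
  set W := nW (fun i : Fin m => a ⟨p * m + i, by omega⟩)
    (fun j : Fin m => b ⟨p * m + j, by omega⟩) with hW
  by_cases h0 : ∃ i j : Fin m, a ⟨p * m + i, by omega⟩ = b ⟨p * m + j, by omega⟩
  · obtain ⟨i, j, hij⟩ := h0
    have h1 : 1 ≤ lp (mt (wn a) (wn b)) (p * m) (p * m) m m := by
      refine one_le_lp i.2 j.2 ?_
      unfold mt wn
      refine ⟨(a ⟨p * m + i, by omega⟩ : ℕ), ?_, ?_⟩
      · rw [dif_pos (by omega)]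
      · rw [dif_pos (by omega), hij]
    have h2 : (1 : ℝ) ≤ (lp (mt (wn a) (wn b)) (p * m) (p * m) m m : ℝ) := by exact_mod_cast h1
    nlinarith [sq_nonneg (1 - l * W)]
  · have h1 : W = 0 := by
      rw [hW]
      unfold nW
      refine Finset.sum_eq_zero fun j _ => Finset.sum_eq_zero fun i _ => ?_
      rw [if_neg]
      intro h
      exact h0 ⟨i, j, h⟩
    rw [h1]
    have : (0 : ℝ) ≤ (lp (mt (wn a) (wn b)) (p * m) (p * m) m m : ℝ) := by positivity
    simp

theorem phi_lb (k n m q : ℕ) (hk : 0 < k) (hq : q * m ≤ n) :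
    (q : ℝ) * (((m : ℝ) ^ 2 / k) / (1 + (m : ℝ) ^ 2 / k)) ≤ phi k n n := by
  have : Nonempty (Fin k) := ⟨⟨0, hk⟩⟩
  set l := 1 / (1 + (m : ℝ) ^ 2 / k) with hl
  have hblk : ∀ p ∈ range q, p * m + m ≤ n := by
    intro p hp
    rw [Finset.mem_range] at hp
    calc p * m + m = (p + 1) * m := by ring
      _ ≤ q * m := Nat.mul_le_mul_right m hp
      _ ≤ n := hq
  have h1 : ∀ p ∈ range q, (((m : ℝ) ^ 2 / k) / (1 + (m : ℝ) ^ 2 / k)) ≤
      𝔼 a : Fin n → Fin k, 𝔼 b : Fin n → Fin k,
        (lp (mt (wn a) (wn b)) (p * m) (p * m) m m : ℝ) := by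
    intro p hp
    have hp' := hblk p hp
    refine (expect_lb k m hk).trans ?_
    rw [← hl]
    set e : Fin m → Fin n := fun i => ⟨p * m + i, by omega⟩ with he
    have hinj : Function.Injective e := by
      intro x y hxy
      simp only [he, Fin.mk.injEq] at hxy
      exact Fin.ext (by omega)
    rw [← expect_comp_inj e hinj (fun a : Fin m → Fin k => 𝔼 b : Fin m → Fin k,
      (2 * l * nW a b - l ^ 2 * nW a b ^ 2))]
    refine Finset.expect_le_expect fun a _ => ?_
    rw [← expect_comp_inj e hinj (fun b : Fin m → Fin k =>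
      (2 * l * nW (fun i => a (e i)) b - l ^ 2 * nW (fun i => a (e i)) b ^ 2))]
    refine Finset.expect_le_expect fun b _ => ?_
    exact block_lb l hp' a b
  have h2 : (q : ℝ) * (((m : ℝ) ^ 2 / k) / (1 + (m : ℝ) ^ 2 / k)) =
      ∑ p ∈ range q, (((m : ℝ) ^ 2 / k) / (1 + (m : ℝ) ^ 2 / k)) := by simp
  rw [h2]
  refine (Finset.sum_le_sum h1).trans ?_
  simp only [← Finset.expect_sum_comm]
  unfold phi
  refine Finset.expect_le_expect fun a _ => Finset.expect_le_expect fun b _ => ?_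
  have h3 := lp_blocks (mt (wn a) (wn b)) m q
  have h4 : lp (mt (wn a) (wn b)) 0 0 (q * m) (q * m) ≤ lcs a b := lp_mono hq hq
  exact_mod_cast h3.trans h4

end GamB

open GamB in
/-- GAM. -/
theorem stmt_Gam : Stmt_Gam := by
  intro k hk
  set m : ℕ := ⌈√(k : ℝ)⌉₊ with hm
  have hk1 : (1 : ℝ) ≤ k := by exact_mod_cast hk
  have hs1 : 1 ≤ √(k : ℝ) := by
    rw [show (1 : ℝ) = √1 by simp]
    exact Real.sqrt_le_sqrt hk1
  have hm1 : √(k : ℝ) ≤ m := Nat.le_ceil _
  have hm2 : (m : ℝ) < √(k : ℝ) + 1 := Nat.ceil_lt_add_one (by positivity)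
  have hmpos : 0 < m := by
    rw [hm]
    exact Nat.ceil_pos.2 (by linarith)
  filter_upwards [eventually_ge_atTop (4 * m)] with n hn
  have h1 := phi_lb k n m (n / m) hk (Nat.div_mul_le_self n m)
  refine le_trans ?_ h1
  have hx : (1 : ℝ) / 2 ≤ ((m : ℝ) ^ 2 / k) / (1 + (m : ℝ) ^ 2 / k) := by
    have : (1 : ℝ) ≤ (m : ℝ) ^ 2 / k := by
      rw [le_div_iff₀ (by linarith), one_mul]
      calc (k : ℝ) = √k ^ 2 := (Real.sq_sqrt (by positivity)).symm
        _ ≤ (m : ℝ) ^ 2 := by gcongr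
    rw [div_le_div_iff₀ (by norm_num) (by linarith)]
    linarith
  have hq : (n : ℝ) / m - 1 ≤ ((n / m : ℕ) : ℝ) := by
    have h2 : n < m * (n / m + 1) := Nat.lt_mul_div_succ n hmpos
    have h3 : (n : ℝ) < m * (((n / m : ℕ) : ℝ) + 1) := by exact_mod_cast h2
    rw [sub_le_iff_le_add, div_le_iff₀ (by exact_mod_cast hmpos)]
    linarith
  have hq2 : (n : ℝ) / m * (3 / 4) ≤ ((n / m : ℕ) : ℝ) := by
    have h4 : (4 : ℝ) ≤ (n : ℝ) / m := by
      rw [le_div_iff₀ (by exact_mod_cast hmpos)]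
      exact_mod_cast hn
    linarith
  have hm3 : (m : ℝ) ≤ 2 * √k := by linarith
  have h5 : (n : ℝ) / (2 * √k) ≤ n / m := by
    apply div_le_div_of_nonneg_left (by positivity) (by exact_mod_cast hmpos) hm3
  have h6 : 0 ≤ (n : ℝ) / (2 * √k) := by positivity
  have h7 : 0.08 / √(k : ℝ) * n = 0.16 * ((n : ℝ) / (2 * √k)) := by
    field_simp
    ring
  rw [h7]
  have h8 : (n : ℝ) / m * (3 / 4) * (1 / 2) ≤ ((n / m : ℕ) : ℝ) *
      (((m : ℝ) ^ 2 / k) / (1 + (m : ℝ) ^ 2 / k)) := by
    apply mul_le_mul hq2 hx (by norm_num) (by positivity)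
  nlinarith

end

end Pool.Agent.LCS13
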