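import Pool.Agent.Work.MP_bec1e1_pr_h13.Defs

/-!
# Linear variance of the LCS for large alphabets: statements of the blocks

See `BLUEPRINT.md`. Each block `X` is a file `X.lean` in this folder with `theorem stmt_X : Stmt_X`.
-/

open Finset BigOperators Filter
open scoped Classical

namespace Pool.Agent.LCS13

noncomputable section

/-! ### The law of `|J|` for a fixed profile -/

/-- LAW (tail). -/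
def Stmt_LawTail : Prop := ∀ (ρ : ℝ), 0 < ρ → ρ < 1 → ∀ u, IsProf u → ∀ g0 N, g0 ≤ N → ∀ c m : ℕ,
  ES ρ (Ico g0 N) (fun A => ind (MM u A g0 N ≤ c ∧ m ≤ #(JJ u A g0 N))) ≤
    (1 - ρ) ^ m * ES ρ (Ico g0 N) (fun A => ind (MM u A g0 N ≤ c))

/-- LAW (mean). -/
def Stmt_LawMean : Prop := ∀ (ρ : ℝ), 0 < ρ → ρ < 1 → ∀ u, IsProf u → ∀ g0 N, g0 ≤ N →
  ES ρ (Ico g0 N) (fun A => (#(JJ u A g0 N) : ℝ)) =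
    (1 - ρ) / ρ * (1 - ES ρ (Ico g0 N) (fun A => ind (N ∈ ZZ u A g0 N)))

/-- LAW (pairs). -/
def Stmt_LawPairs : Prop := ∀ (ρ : ℝ), 0 < ρ → ρ < 1 → ∀ u, IsProf u → ∀ g0 N, g0 ≤ N →
  ((1 - ρ) / ρ) ^ 2 - ES ρ (Ico g0 N) (fun A => ind (N ∈ ZZ u A g0 N)) *
      (((1 - ρ) / ρ) ^ 2 + ((N : ℝ) - g0) * ((1 - ρ) / ρ)) ≤
    ES ρ (Ico g0 N) (fun A => (#(JJ u A g0 N) : ℝ) * ((#(JJ u A g0 N) : ℝ) - 1) / 2)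

/-- GEO: the expected number of elements of `J` to the right of `i ∈ J`. -/
def Stmt_Geo : Prop := ∀ (ρ : ℝ), 0 < ρ → ρ < 1 → ∀ u, IsProf u → ∀ i N, i < N →
  ES ρ (range N) (fun A => ind (i ∈ JJ u A 0 N) * (#{j ∈ JJ u A 0 N | i < j} : ℝ)) ≤
    (1 - ρ) / ρ * ES ρ (range N) (fun A => ind (i ∈ JJ u A 0 N))

/-! ### Far ties -/

/-- UP: switching inequality for up-sets. -/
def Stmt_Up : Prop := ∀ (ρ : ℝ), 0 < ρ → ρ < 1 → ∀ (I : Finset ℕ) (U : Finset ℕ → Prop),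
  (∀ A B, A ⊆ B → B ⊆ I → U A → U B) → ∀ n y x0 c : ℕ, n ≤ y → c ≤ 1 → Ratio ρ #I y x0 →
  (x0 : ℝ) * ES ρ I (fun A => ind (U A ∧ #A = n)) ≤ 4 * ES ρ I (fun A => ind (U A ∧ n + c ≤ #A))

/-- FAR0: far ties of the maximum. -/
def Stmt_Far0 : Prop := ∀ (ρ : ℝ), 0 < ρ → ρ < 1 → ∀ u, IsProf u → ∀ N D y x0 : ℕ,
  Ratio ρ D y x0 →
  ES ρ (range N) (fun A => ind (∃ g ∈ ZZ u A 0 N, ∃ g' ∈ ZZ u A 0 N, g + D ≤ g')) ≤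
    4 / x0 + (N + 1) * bt ρ D y

/-- FAR1: the same at the level `M - 1`. -/
def Stmt_Far1 : Prop := ∀ (ρ : ℝ), 0 < ρ → ρ < 1 → ∀ u, IsProf u → ∀ N D y x0 : ℕ,
  Ratio ρ D y x0 →
  ES ρ (range N) (fun A => ind (∃ g ∈ J1 u A 0 N, ∃ g' ∈ J1 u A 0 N, g + D ≤ g')) ≤
    4 / x0 + (N + 1) * bt ρ D y

/-- CLUS: many separated points of `J1`. -/
def Stmt_Clus : Prop := ∀ (ρ : ℝ), 0 < ρ → ρ < 1 → ∀ u, IsProf u → ∀ N D y x0 m : ℕ,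
  Ratio ρ D y x0 →
  ES ρ (range N) (fun A => ind (Sep D m (J1 u A 0 N))) ≤ (4 / (x0 : ℝ)) ^ m + (N + 1) * bt ρ D y

/-- CHERN: binomial tails. -/
def Stmt_ChernUp : Prop := ∀ (ρ : ℝ), 0 < ρ → ρ < 1 → ∀ (I : Finset ℕ) (z : ℝ), 0 ≤ z →
  z ≤ 2 * ρ * #I → ES ρ I (fun A => ind (ρ * #I + z ≤ #A)) ≤ Real.exp (-(z ^ 2 / (4 * ρ * #I)))

def Stmt_ChernLow : Prop := ∀ (ρ : ℝ), 0 < ρ → ρ < 1 → ∀ (I : Finset ℕ),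
  ES ρ I (fun A => ind (2 * (#A : ℝ) ≤ ρ * #I)) ≤ Real.exp (-(ρ * #I / 8))

/-- U1. -/
def Stmt_U1 : Prop := ∀ c1 c2 θ : ℝ, 0 < c1 → 0 < c2 → 0 < θ → ∀ᶠ k : ℕ in atTop,
  ∀ ρ : ℝ, c1 ≤ ρ * √k → ρ * √k ≤ c2 → ∀ N ≤ k ^ 6, ∀ u, IsProf u →
  ES ρ (range N) (fun A => ind (∃ g ∈ ZZ u A 0 N, ∃ g' ∈ ZZ u A 0 N, (g : ℝ) + θ * k ≤ g')) ≤
    (k : ℝ) ^ (-(1 / 5) : ℝ)

/-- U23: few far pairs. -/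
def Stmt_U23 : Prop := ∀ c1 c2 ε : ℝ, 0 < c1 → 0 < c2 → 0 < ε → ∀ᶠ k : ℕ in atTop,
  ∀ ρ : ℝ, c1 ≤ ρ * √k → ρ * √k ≤ c2 → ∀ N ≤ k ^ 6, ∀ u, IsProf u →
  ES ρ (range N) (fun A => (#{p ∈ JJ u A 0 N ×ˢ JJ u A 0 N | p.1 + k / 2 / 2 ≤ p.2} : ℝ)) ≤ ε * k ∧
  ES ρ (range N) (fun A => (#{p ∈ J1 u A 0 N ×ˢ J1 u A 0 N | p.1 + k / 2 / 2 ≤ p.2} : ℝ)) ≤ ε * k

/-! ### Columns iid -/

/-- TAIL: the maximum is attained in the left half only. -/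
def Stmt_Tail : Prop := ∀ c1 c2 : ℝ, 0 < c1 → 0 < c2 → ∀ᶠ k : ℕ in atTop,
  ∀ ρ : ℝ, c1 ≤ ρ * √k → ρ * √k ≤ c2 → ∀ t N : ℕ, k ≤ N → N ≤ k ^ 6 →
  200 * (t : ℝ) ≤ ρ ^ 2 * k * N → ∀ b : ℕ → Option ℕ,
  𝔼 a : Fin t → Fin k, ES ρ (range N) (fun A =>
    ind (∃ g ∈ ZZ (uu (wn a) b t) A 0 N, N ≤ 2 * g)) ≤ 1 / (k : ℝ) ^ 20

/-- TYP: typical environment. -/
def Stmt_Typ : Prop := ∀ c1 c2 : ℝ, 0 < c1 → 0 < c2 → ∃ θ : ℝ, 0 < θ ∧ ∀ᶠ k : ℕ in atTop,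
  ∀ ρ : ℝ, c1 ≤ ρ * √k → ρ * √k ≤ c2 → ∀ t N : ℕ, k ≤ N → N ≤ k ^ 6 →
  200 * (t : ℝ) ≤ ρ ^ 2 * k * N → ∀ f j : ℕ, f + k / 8 < t → 2 * j ≤ N →
  ∃ h, j + 1 + h ≤ N ∧
  𝔼 a : Fin t → Fin k, 𝔼 b : Fin N → Fin k, ES ρ (range N) (fun A => ind (
    (lp (mt (wn a) (wn b)) f (j + 1) (t - f) h : ℤ) - cnt A (j + 1) (j + 1 + h) ≤
      lp (mt (wn a) (wn b)) (f + 1) (j + 1) (t - f - 1) ⌊θ * k⌋₊)) ≤ 1 / (k : ℝ) ^ 20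

/-- QEV: old crossings are unlikely. -/
def Stmt_Q : Prop := ∀ c1 c2 : ℝ, 0 < c1 → 0 < c2 → ∀ᶠ k : ℕ in atTop,
  ∀ ρ : ℝ, c1 ≤ ρ * √k → ρ * √k ≤ c2 → ∀ t N : ℕ, k ≤ N → N ≤ k ^ 6 →
  200 * (t : ℝ) ≤ ρ ^ 2 * k * N →
  𝔼 a : Fin t → Fin k, 𝔼 b : Fin N → Fin k, ES ρ (range N) (fun A => ind (
    ∃ j ∈ JJ (uu (wn a) (wn b) t) A 0 N, Old (wn a) (wn b) t (k / 8) A N j)) ≤
    (k : ℝ) ^ (-(1 / 6) : ℝ)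

/-- AMAIN: random columns lose a constant. -/
def Stmt_A : Prop := ∀ c1 c2 : ℝ, 0 < c1 → 0 < c2 → ∃ cA : ℝ, 0 < cA ∧ ∀ᶠ k : ℕ in atTop,
  ∀ ρ : ℝ, c1 ≤ ρ * √k → ρ * √k ≤ c2 → ∀ t N : ℕ, k ≤ N → N ≤ k ^ 6 →
  200 * (t : ℝ) ≤ ρ ^ 2 * k * N → cA ≤ 𝔼 b : Fin N → Fin k, del k (wn b) t N ρ

/-! ### Columns in segments -/

/-- BMAIN: segment columns lose nothing. -/
def Stmt_B : Prop := ∀ c1 c2 ε : ℝ, 0 < c1 → 0 < c2 → 0 < ε → ∀ᶠ k : ℕ in atTop,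
  ∀ ρ : ℝ, c1 ≤ ρ * √k → ρ * √k ≤ c2 → ∀ t R : ℕ, R * (k / 2 / 2) ≤ k ^ 6 →
  𝔼 ω : Fin R → Seg (k / 2 / 2) (k / 2), del k (sw ω) t (R * (k / 2 / 2)) ρ ≤ ε

/-! ### The process -/

/-- STEP: one more random row. -/
def Stmt_Step : Prop := ∀ k : ℕ, 0 < k → ∀ (b : ℕ → Option ℕ) (N : ℕ),
  (∀ j < N, ∃ x < k, b j = some x) → ∀ (ρ : ℝ) (t : ℕ),
  EM k b (t + 1) N ρ = EM k b t N ρ + (𝔼 a : Fin t → Fin k, ES ρ (range N) fun A =>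
    (#((JJ (uu (wn a) b t) A 0 N).image b) : ℝ)) / k

/-- EMSUM (from STEP and LAW). -/
def Stmt_EMSum : Prop := ∀ k : ℕ, 0 < k → ∀ (b : ℕ → Option ℕ) (N : ℕ),
  (∀ j < N, ∃ x < k, b j = some x) → ∀ (ρ : ℝ), 0 < ρ → ρ < 1 → ∀ T : ℕ,
  EM k b T N ρ = (∑ t ∈ range T, ((1 - ρ) / ρ * (1 - 𝔼 a : Fin t → Fin k, ES ρ (range N) (fun A =>
    ind (N ∈ ZZ (uu (wn a) b t) A 0 N))) - del k b t N ρ)) / k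

/-- PHIUB: upper bounds for expected LCS. -/
def Stmt_PhiUB : Prop := ∀ k : ℕ, 0 < k → ∀ T l r : ℕ,
  phi k T l ≤ 2 * √(T * l / k) ∧
  fseg k T r ≤ 2 * √(T * ((r * (k / 2 / 2) : ℕ) : ℝ) / k)

/-- CONC: concavity of `f`. -/
def Stmt_Conc : Prop := ∀ k T r : ℕ, 0 < k →
  fseg k T r + fseg k T (r + 2) ≤ 2 * fseg k T (r + 1)

/-- MARG: the first `r` of `R` segments. -/
def Stmt_Marg : Prop := ∀ k T r R : ℕ, 0 < k → r ≤ R →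
  𝔼 a : Fin T → Fin k, 𝔼 ω : Fin R → Seg (k / 2 / 2) (k / 2),
    (lp (mt (wn a) (sw ω)) 0 0 T (r * (k / 2 / 2)) : ℝ) = fseg k T r

/-- EMAX. -/
def Stmt_EMax : Prop := ∀ k : ℕ, 0 < k → ∀ (T R : ℕ) (ρ B : ℝ), 0 < ρ → ρ < 1 →
  (∀ r ≤ R, fseg k T r - ρ * ((r * (k / 2 / 2) : ℕ) : ℝ) ≤ B) →
  𝔼 ω : Fin R → Seg (k / 2 / 2) (k / 2), EM k (sw ω) T (R * (k / 2 / 2)) ρ ≤
    B + ρ * ((k / 2 / 2 : ℕ) : ℝ) + 4 * √(((T : ℝ) + R * ((k / 2 / 2 : ℕ) : ℝ) ^ 2) *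
      Real.log (((R * (k / 2 / 2) : ℕ) : ℝ) + 2))

/-- C1: segment words beat random words. -/
def Stmt_C1 : Prop := ∃ c : ℝ, 0 < c ∧ ∀ᶠ k : ℕ in atTop, ∀ T : ℕ,
  k / 2 / 2 * k ^ 3 ≤ 10 ^ 4 * T → T ≤ 10 ^ 4 * (k / 2 / 2 * k ^ 3) →
  phi k T (k / 2 / 2 * k ^ 3) + c * (k : ℝ) ^ 3 ≤ fseg k T (k ^ 3)

/-! ### The variance criterion -/

/-- Variance of the LCS of two random words of length `n`. -/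
def varL (k n : ℕ) : ℝ :=
  𝔼 a : Fin n → Fin k, 𝔼 b : Fin n → Fin k, ((lcs a b : ℝ) - phi k n n) ^ 2

/-- CRIT. -/
def Stmt_Crit : Prop := ∀ (k l : ℕ) (Ω : Type) [Fintype Ω] [Nonempty Ω] (V : Ω → (Fin l → Fin k))
  (c g : ℝ), 2 ≤ k → 1 ≤ l → 0 < c → c ≤ 1 → 0 < g → g ≤ 1 →
  (∀ h : ℕ, l ≤ 10 ^ 4 * h → h ≤ 10 ^ 4 * l →
    phi k h l + c * l ≤ 𝔼 a : Fin h → Fin k, 𝔼 ω : Ω, (lcs a (V ω) : ℝ)) →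
  (∀ h : ℕ, ¬ (l ≤ 10 ^ 4 * h ∧ h ≤ 10 ^ 4 * l) → phi k h l ≤ g / 4 * (l + h)) →
  (∀ᶠ n : ℕ in atTop, g * n ≤ phi k n n) →
  80000 * (3 + Real.log l) ≤ (c * g) ^ 2 * l →
  ∃ c' : ℝ, 0 < c' ∧ ∀ᶠ n : ℕ in atTop, c' * n ≤ varL k n

/-- GAM: crude lower bound for the mean. -/
def Stmt_Gam : Prop := ∀ k : ℕ, 0 < k → ∀ᶠ n : ℕ in atTop, 0.08 / √k * n ≤ phi k n n

/-- VUP: upper bound of the variance. -/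
def Stmt_VUp : Prop := ∀ k n : ℕ, 0 < k → varL k n ≤ 2 * n

/-- LCSDEF: `lcs` is the usual LCS. -/
def Stmt_LcsDef : Prop := ∀ (k n p : ℕ) (a : Fin n → Fin k) (b : Fin p → Fin k),
  lcs a b = sSup {m : ℕ | ∃ l : List (Fin k), l.length = m ∧
    l.Sublist (List.ofFn a) ∧ l.Sublist (List.ofFn b)}

/-- The final theorem. -/
def Stmt_Final : Prop := ∃ K₀ : ℕ, ∀ k : ℕ, K₀ ≤ k →
  Asymptotics.IsTheta Filter.atTop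
    (fun n : ℕ =>
      ProbabilityTheory.variance
        (fun p : (Fin n → Fin (k + 2)) × (Fin n → Fin (k + 2)) =>
          (((sSup {m : ℕ | ∃ l : List (Fin (k + 2)), l.length = m ∧
              l.Sublist (List.ofFn p.1) ∧ l.Sublist (List.ofFn p.2)}) : ℕ) : ℝ))
        (PMF.uniformOfFintype
          ((Fin n → Fin (k + 2)) × (Fin n → Fin (k + 2)))).toMeasure)
    (fun n : ℕ => (n : ℝ))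

end

end Pool.Agent.LCS13
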