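import Pool.Agent.Work.MP_bec1e1_pr_h13.ES
import Pool.Agent.Work.MP_bec1e1_pr_h13.SYS
import Pool.Agent.Work.MP_bec1e1_pr_h13.Interface

/-!
# The law of `|J|` for a fixed profile (blocks LawTail, LawMean, LawPairs, Geo)
-/

open Finset BigOperators
open scoped Classical

namespace Pool.Agent.LCS13

namespace Law

variable {ρ : ℝ} {u : ℕ → ℤ} {A : Finset ℕ} {g N : ℕ}

theorem mm_zero_of_idle (h : g < N) (hw : u (g + 1) = u g) (hD : MM u A (g + 1) N = 0) :
    MM u A g N = 0 := by
  have h1 := MM_step (u := u) (A := A) h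
  rw [hw, hD] at h1
  have : (MM u A g N : ℤ) = 0 := by
    rw [h1]; split_ifs <;> simp
  exact_mod_cast this

theorem jj_idle0 (h : g < N) (hw : u (g + 1) = u g) (hD : MM u A (g + 1) N = 0) (hg : g ∉ A) :
    JJ u A g N = insert g (JJ u A (g + 1) N) := by
  have h0 := mm_zero_of_idle (A := A) h hw hD
  ext j
  rw [mem_insert, mem_JJ', mem_JJ', h0, hD]
  constructor
  · rintro ⟨⟨h1, h2⟩, h3, h4⟩
    rcases Nat.eq_or_lt_of_le h1 with h5 | h5
    · exact Or.inl h5.symm
    · right
      refine ⟨⟨h5, h2⟩, h3, ?_⟩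
      rw [XX_add (Nat.le_succ g) h5, XX_succ le_rfl, XX_self, if_neg hg, hw] at h4
      rw [← h4]; ring
  · rintro (rfl | ⟨⟨h1, h2⟩, h3, h4⟩)
    · exact ⟨⟨le_rfl, h⟩, hg, by rw [XX_self]; simp⟩
    · refine ⟨⟨by omega, h2⟩, h3, ?_⟩
      rw [XX_add (Nat.le_succ g) h1, XX_succ le_rfl, XX_self, if_neg hg, hw, h4]
      ring

theorem jj_idle1 (h : g < N) (hw : u (g + 1) = u g) (hD : MM u A (g + 1) N = 0) (hg : g ∈ A) :
    JJ u A g N = ∅ := by
  have h0 := mm_zero_of_idle (A := A) h hw hD
  ext j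
  simp only [notMem_empty, iff_false]
  rw [mem_JJ', h0]
  rintro ⟨⟨h1, h2⟩, h3, h4⟩
  rcases Nat.eq_or_lt_of_le h1 with h5 | h5
  · rw [← h5] at h3; exact h3 hg
  · rw [XX_add (Nat.le_succ g) h5, XX_succ le_rfl, XX_self, if_pos hg, hw] at h4
    have h6 := XX_le_MM (u := u) (A := A) (g0 := g + 1) (g := j) h5 h2.le
    rw [hD] at h6
    push_cast at h4 h6
    linarith

/-- In the non idle case the maximum does not hit the reflection. -/
theorem mm_non (hu : IsProf u) (h : g < N) (hn : ¬ (u (g + 1) = u g ∧ MM u A (g + 1) N = 0)) :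
    (MM u A g N : ℤ) = (u (g + 1) - u g) - (if g ∈ A then 1 else 0) + MM u A (g + 1) N := by
  rw [MM_step h]
  apply max_eq_right
  have h1 := hu g
  have h2 : (if g ∈ A then (1 : ℤ) else 0) ≤ 1 := by split_ifs <;> norm_num
  by_cases hw : u (g + 1) = u g
  · have h3 : MM u A (g + 1) N ≠ 0 := fun h3 => hn ⟨hw, h3⟩
    have h4 : (1 : ℤ) ≤ MM u A (g + 1) N := by
      have : 1 ≤ MM u A (g + 1) N := Nat.one_le_iff_ne_zero.2 h3
      exact_mod_cast this
    linarith
  · have h3 : u g < u (g + 1) := lt_of_le_of_ne h1.1 (Ne.symm hw)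
    have h4 : (0 : ℤ) ≤ MM u A (g + 1) N := Int.natCast_nonneg _
    have h5 : u g + 1 ≤ u (g + 1) := h3
    linarith

theorem jj_non (hu : IsProf u) (h : g < N)
    (hn : ¬ (u (g + 1) = u g ∧ MM u A (g + 1) N = 0)) : JJ u A g N = JJ u A (g + 1) N := by
  have h0 := mm_non (A := A) hu h hn
  ext j
  constructor
  · intro hj
    have hj' := hj
    rw [mem_JJ', h0] at hj
    obtain ⟨⟨h1, h2⟩, h3, h4⟩ := hj
    rcases Nat.eq_or_lt_of_le h1 with h5 | h5
    · exfalso
      subst h5
      have h6 := (JJ_props hu hj').2.2.2.1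
      rw [XX_self, if_neg h3, h6] at h4
      refine hn ⟨h6, ?_⟩
      have : (MM u A (g + 1) N : ℤ) = 0 := by linarith
      exact_mod_cast this
    · rw [mem_JJ']
      refine ⟨⟨h5, h2⟩, h3, ?_⟩
      rw [XX_add (Nat.le_succ g) h5, XX_succ le_rfl, XX_self] at h4
      linarith
  · intro hj
    rw [mem_JJ'] at hj
    obtain ⟨⟨h1, h2⟩, h3, h4⟩ := hj
    rw [mem_JJ', h0]
    refine ⟨⟨by omega, h2⟩, h3, ?_⟩
    rw [XX_add (Nat.le_succ g) h1, XX_succ le_rfl, XX_self, h4]
    ring

theorem zz_idle0 (h : g < N) (hw : u (g + 1) = u g) (hD : MM u A (g + 1) N = 0) (hg : g ∉ A) :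
    N ∈ ZZ u A g N ↔ N ∈ ZZ u A (g + 1) N := by
  have h0 := mm_zero_of_idle (A := A) h hw hD
  rw [mem_ZZ, mem_ZZ, h0, hD, XX_add (Nat.le_succ g) h, XX_succ le_rfl, XX_self, if_neg hg, hw]
  constructor
  · rintro ⟨h1, h2⟩; exact ⟨⟨h, le_rfl⟩, by linarith⟩
  · rintro ⟨h1, h2⟩; exact ⟨⟨h.le, le_rfl⟩, by linarith⟩

theorem zz_idle1 (h : g < N) (hw : u (g + 1) = u g) (hD : MM u A (g + 1) N = 0) (hg : g ∈ A) :
    ¬ N ∈ ZZ u A g N := by
  have h0 := mm_zero_of_idle (A := A) h hw hD
  rw [mem_ZZ, h0, XX_add (Nat.le_succ g) h, XX_succ le_rfl, XX_self, if_pos hg, hw]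
  rintro ⟨h1, h2⟩
  have h6 := XX_le_MM (u := u) (A := A) (g0 := g + 1) (g := N) h le_rfl
  rw [hD] at h6
  push_cast at h2 h6
  linarith

theorem zz_non (hu : IsProf u) (h : g < N)
    (hn : ¬ (u (g + 1) = u g ∧ MM u A (g + 1) N = 0)) :
    N ∈ ZZ u A g N ↔ N ∈ ZZ u A (g + 1) N := by
  have h0 := mm_non (A := A) hu h hn
  rw [mem_ZZ, mem_ZZ, h0, XX_add (Nat.le_succ g) h, XX_succ le_rfl, XX_self]
  constructor
  · rintro ⟨h1, h2⟩; exact ⟨⟨h, le_rfl⟩, by linarith⟩
  · rintro ⟨h1, h2⟩; exact ⟨⟨h.le, le_rfl⟩, by linarith⟩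

/-- The expectation of a function of `(M, |J|, 1[N ∈ Z])` for the system started at `g`. -/
noncomputable def EF (ρ : ℝ) (u : ℕ → ℤ) (g N : ℕ) (F : ℕ → ℕ → ℝ → ℝ) : ℝ :=
  ES ρ (Ico g N) fun A => F (MM u A g N) #(JJ u A g N) (ind (N ∈ ZZ u A g N))

theorem EF_top (F : ℕ → ℕ → ℝ → ℝ) : EF ρ u N N F = F 0 0 1 := by
  unfold EF
  rw [Ico_self, ES_empty]
  have h1 : MM u ∅ N N = 0 := by
    apply Nat.le_zero.1
    rw [MM_le_iff le_rfl]
    intro g h1 h2
    have : g = N := by omega
    rw [this, XX_self]; simp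
  have h2 : JJ u ∅ N N = ∅ := by
    unfold JJ; rw [Ico_self]; rfl
  have h3 : N ∈ ZZ u ∅ N N := by
    rw [mem_ZZ, h1, XX_self]; simp
  rw [h1, h2, ind_true h3, card_empty]

/-- One more column on the left. -/
noncomputable def nextF (ρ : ℝ) (w0 : Prop) (F : ℕ → ℕ → ℝ → ℝ) : ℕ → ℕ → ℝ → ℝ :=
  fun d c z =>
    if w0 then
      (if d = 0 then ρ * F 0 0 0 + (1 - ρ) * F 0 (c + 1) z
        else ρ * F (d - 1) c z + (1 - ρ) * F d c z)
    else ρ * F d c z + (1 - ρ) * F (d + 1) c z

theorem EF_step (hu : IsProf u) (h : g < N) (F : ℕ → ℕ → ℝ → ℝ) :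
    EF ρ u g N F = EF ρ u (g + 1) N (nextF ρ (u (g + 1) = u g) F) := by
  unfold EF
  have hI : Ico g N = insert g (Ico (g + 1) N) := by
    ext x; simp only [mem_insert, mem_Ico]; omega
  have hg' : g ∉ Ico (g + 1) N := by simp
  rw [hI, ES_insert hg', ← ES_mul_left, ← ES_mul_left, ← ES_add]
  refine ES_congr fun A hA => ?_
  have hgA : g ∉ A := fun h' => hg' (hA h')
  have e1 : MM u (insert g A) (g + 1) N = MM u A (g + 1) N :=
    MM_congr (fun _ _ _ => rfl) fun i h1 h2 => by
      rw [mem_insert]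
      constructor
      · rintro (h3 | h3)
        · omega
        · exact h3
      · exact Or.inr
  have e2 : JJ u (insert g A) (g + 1) N = JJ u A (g + 1) N :=
    JJ_congr (fun _ _ _ => rfl) fun i h1 h2 => by
      rw [mem_insert]
      constructor
      · rintro (h3 | h3)
        · omega
        · exact h3
      · exact Or.inr
  have e3 : ZZ u (insert g A) (g + 1) N = ZZ u A (g + 1) N :=
    ZZ_congr (fun _ _ _ => rfl) fun i h1 h2 => by
      rw [mem_insert]
      constructor
      · rintro (h3 | h3)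
        · omega
        · exact h3
      · exact Or.inr
  have hgi : g ∈ insert g A := mem_insert_self g A
  unfold nextF
  by_cases hw : u (g + 1) = u g
  · rw [if_pos hw]
    by_cases hD : MM u A (g + 1) N = 0
    · rw [if_pos hD]
      have hD' : MM u (insert g A) (g + 1) N = 0 := by rw [e1, hD]
      rw [mm_zero_of_idle h hw hD, mm_zero_of_idle h hw hD', jj_idle0 h hw hD hgA,
        jj_idle1 h hw hD' hgi, ind_false (zz_idle1 h hw hD' hgi), card_empty]
      rw [card_insert_of_notMem (by rw [mem_JJ']; rintro ⟨⟨h1, _⟩, _⟩; omega)]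
      simp only [zz_idle0 h hw hD hgA]
    · rw [if_neg hD]
      have hn : ¬ (u (g + 1) = u g ∧ MM u A (g + 1) N = 0) := fun h' => hD h'.2
      have hn' : ¬ (u (g + 1) = u g ∧ MM u (insert g A) (g + 1) N = 0) := by rw [e1]; exact hn
      have m0 := mm_non hu h hn
      have m1 := mm_non hu h hn'
      rw [if_neg hgA, hw] at m0
      rw [if_pos hgi, hw, e1] at m1
      have m0' : MM u A g N = MM u A (g + 1) N := by
        have : (MM u A g N : ℤ) = MM u A (g + 1) N := by rw [m0]; ring
        exact_mod_cast this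
      have m1' : MM u (insert g A) g N = MM u A (g + 1) N - 1 := by omega
      rw [m0', m1', jj_non hu h hn, jj_non hu h hn', e2]
      simp only [zz_non hu h hn, zz_non hu h hn', e3]
  · rw [if_neg hw]
    have hn : ¬ (u (g + 1) = u g ∧ MM u A (g + 1) N = 0) := fun h' => hw h'.1
    have hn' : ¬ (u (g + 1) = u g ∧ MM u (insert g A) (g + 1) N = 0) := fun h' => hw h'.1
    have m0 := mm_non hu h hn
    have m1 := mm_non hu h hn'
    have h7 : u (g + 1) = u g + 1 := by
      have h8 := hu g
      have h9 : u g < u (g + 1) := lt_of_le_of_ne h8.1 (Ne.symm hw)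
      omega
    rw [if_neg hgA, h7] at m0
    rw [if_pos hgi, h7, e1] at m1
    have m0' : MM u A g N = MM u A (g + 1) N + 1 := by omega
    have m1' : MM u (insert g A) g N = MM u A (g + 1) N := by omega
    rw [m0', m1', jj_non hu h hn, jj_non hu h hn', e2]
    simp only [zz_non hu h hn, zz_non hu h hn', e3]

theorem EF_congr {F G : ℕ → ℕ → ℝ → ℝ} (hFG : ∀ d c z, z = 0 ∨ z = 1 → F d c z = G d c z) :
    EF ρ u g N F = EF ρ u g N G := by
  unfold EF
  refine ES_congr fun A _ => hFG _ _ _ ?_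
  unfold ind; split_ifs <;> simp

theorem EF_mono (h0 : 0 ≤ ρ) (h1 : ρ ≤ 1) {F G : ℕ → ℕ → ℝ → ℝ}
    (hFG : ∀ d c z, z = 0 ∨ z = 1 → F d c z ≤ G d c z) :
    EF ρ u g N F ≤ EF ρ u g N G := by
  unfold EF
  refine ES_mono h0 h1 fun A _ => hFG _ _ _ ?_
  unfold ind; split_ifs <;> simp

theorem EF_add (F G : ℕ → ℕ → ℝ → ℝ) :
    EF ρ u g N (fun d c z => F d c z + G d c z) = EF ρ u g N F + EF ρ u g N G := by
  unfold EF; exact ES_add

theorem EF_mul (a : ℝ) (F : ℕ → ℕ → ℝ → ℝ) :
    EF ρ u g N (fun d c z => a * F d c z) = a * EF ρ u g N F := by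
  unfold EF; exact ES_mul_left a

/-- Induction principle: if `G` is obtained from `F` at the top and the step is consistent. -/
theorem EF_tail (h0 : 0 < ρ) (h1 : ρ < 1) (hu : IsProf u) :
    ∀ n g N : ℕ, g + n = N → ∀ (m : ℕ) (F : ℕ → ℝ), (∀ d, 0 ≤ F d) →
    EF ρ u g N (fun d c _ => F d * ind (m ≤ c)) ≤ (1 - ρ) ^ m * EF ρ u g N (fun d _ _ => F d) := by
  intro n
  induction n with
  | zero =>
    intro g N hg m F hF
    have : g = N := by omega
    subst this
    rw [EF_top, EF_top]
    rcases Nat.eq_zero_or_pos m with rfl | hm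
    · rw [ind_true le_rfl]; simp
    · rw [ind_false (by omega), mul_zero]
      have := hF 0
      have h2 : 0 ≤ 1 - ρ := by linarith
      positivity
  | succ n ih =>
    intro g N hg m F hF
    have hgN : g < N := by omega
    rw [EF_step hu hgN, EF_step hu hgN]
    have hq : 0 ≤ 1 - ρ := by linarith
    rcases Nat.eq_zero_or_pos m with rfl | hm
    · rw [pow_zero, one_mul]
      refine EF_mono h0.le h1.le fun d c z _ => ?_
      unfold nextF
      have hi : ∀ x : ℕ, ind (0 ≤ x) = 1 := fun x => ind_true (Nat.zero_le x)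
      have hT : ind True = 1 := ind_true trivial
      simp only [hi, hT, mul_one, le_refl]
    · obtain ⟨m, rfl⟩ : ∃ m', m = m' + 1 := ⟨m - 1, by omega⟩
      by_cases hw : u (g + 1) = u g
      · -- split according to `d = 0`
        have a1 := ih (g + 1) N (by omega) m (fun d => if d = 0 then (1 - ρ) * F 0 else 0)
          (fun d => by
            have := hF 0
            show 0 ≤ (if d = 0 then (1 - ρ) * F 0 else 0)
            split_ifs
            · positivity
            · exact le_rfl)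
        have a2 := ih (g + 1) N (by omega) (m + 1)
          (fun d => if d = 0 then 0 else ρ * F (d - 1) + (1 - ρ) * F d)
          (fun d => by
            have h3 := hF (d - 1)
            have h4 := hF d
            show 0 ≤ (if d = 0 then (0 : ℝ) else ρ * F (d - 1) + (1 - ρ) * F d)
            split_ifs
            · exact le_rfl
            · positivity)
        have e : EF ρ u (g + 1) N (nextF ρ (u (g + 1) = u g) (fun d c _ => F d * ind (m + 1 ≤ c))) =
            EF ρ u (g + 1) N (fun d c _ => (if d = 0 then (1 - ρ) * F 0 else 0) * ind (m ≤ c)) +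
            EF ρ u (g + 1) N (fun d c _ => (if d = 0 then 0 else ρ * F (d - 1) + (1 - ρ) * F d) *
              ind (m + 1 ≤ c)) := by
          rw [← EF_add]
          refine EF_congr fun d c z _ => ?_
          unfold nextF
          rw [if_pos hw]
          by_cases hd : d = 0
          · simp only [hd, if_true]
            rw [ind_false (by omega : ¬ (m + 1 ≤ 0))]
            have : ind (m + 1 ≤ c + 1) = ind (m ≤ c) := by
              simp only [Nat.add_le_add_iff_right]
            rw [this]; ring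
          · simp only [hd, if_false]; ring
        have e' : (1 - ρ) ^ (m + 1) * EF ρ u (g + 1) N (nextF ρ (u (g + 1) = u g)
            (fun d _ _ => F d)) ≥
            (1 - ρ) ^ m * EF ρ u (g + 1) N (fun d _ _ => (if d = 0 then (1 - ρ) * F 0 else 0)) +
            (1 - ρ) ^ (m + 1) * EF ρ u (g + 1) N
              (fun d _ _ => (if d = 0 then 0 else ρ * F (d - 1) + (1 - ρ) * F d)) := by
          rw [← EF_mul, ← EF_mul, ← EF_mul, ← EF_add, ge_iff_le]
          refine EF_mono h0.le h1.le fun d c z _ => ?_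
          unfold nextF
          rw [if_pos hw]
          by_cases hd : d = 0
          · simp only [hd, if_true]
            have h3 := hF 0
            have h4 : 0 ≤ (1 - ρ) ^ (m + 1) := by positivity
            have : (1 - ρ) ^ (m + 1) * (ρ * F 0 + (1 - ρ) * F 0) = (1 - ρ) ^ m * ((1 - ρ) * F 0) := by
              rw [pow_succ]; ring
            rw [this]; linarith
          · simp only [hd, if_false]; linarith
        rw [e]
        linarith
      · have a2 := ih (g + 1) N (by omega) (m + 1) (fun d => ρ * F d + (1 - ρ) * F (d + 1))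
          (fun d => by
            have h3 := hF (d + 1)
            have h4 := hF d
            positivity)
        have e : EF ρ u (g + 1) N (nextF ρ (u (g + 1) = u g) (fun d c _ => F d * ind (m + 1 ≤ c))) =
            EF ρ u (g + 1) N (fun d c _ => (ρ * F d + (1 - ρ) * F (d + 1)) * ind (m + 1 ≤ c)) := by
          refine EF_congr fun d c z _ => ?_
          unfold nextF
          rw [if_neg hw]; ring
        have e' : EF ρ u (g + 1) N (nextF ρ (u (g + 1) = u g) (fun d _ _ => F d)) =
            EF ρ u (g + 1) N (fun d _ _ => ρ * F d + (1 - ρ) * F (d + 1)) := by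
          refine EF_congr fun d c z _ => ?_
          unfold nextF
          rw [if_neg hw]
        rw [e, e']
        exact a2

/-- The mean, in functional form. -/
theorem EF_mean (h0 : 0 < ρ) (hu : IsProf u) :
    ∀ n g N : ℕ, g + n = N → ∀ (F : ℕ → ℝ),
    EF ρ u g N (fun d c _ => F d * c) =
      (1 - ρ) / ρ * EF ρ u g N (fun d _ z => F d * (1 - z)) := by
  intro n
  induction n with
  | zero =>
    intro g N hg F
    have : g = N := by omega
    subst this
    rw [EF_top, EF_top]
    simp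
  | succ n ih =>
    intro g N hg F
    have hgN : g < N := by omega
    rw [EF_step hu hgN, EF_step hu hgN]
    by_cases hw : u (g + 1) = u g
    · have e : EF ρ u (g + 1) N (nextF ρ (u (g + 1) = u g) (fun d c _ => F d * c)) =
          EF ρ u (g + 1) N (fun d c _ => (if d = 0 then (1 - ρ) * F 0 else
            ρ * F (d - 1) + (1 - ρ) * F d) * c) +
          EF ρ u (g + 1) N (fun d _ _ => (if d = 0 then (1 - ρ) * F 0 else 0)) := by
        rw [← EF_add]
        refine EF_congr fun d c z _ => ?_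
        unfold nextF
        rw [if_pos hw]
        by_cases hd : d = 0
        · simp only [hd, if_true]; push_cast; ring
        · simp only [hd, if_false]; ring
      rw [e, ih (g + 1) N (by omega) (fun d => if d = 0 then (1 - ρ) * F 0 else
            ρ * F (d - 1) + (1 - ρ) * F d), ← EF_mul, ← EF_mul, ← EF_add]
      refine EF_congr fun d c z _ => ?_
      unfold nextF
      rw [if_pos hw]
      by_cases hd : d = 0
      · simp only [hd, if_true]; field_simp; ring
      · simp only [hd, if_false]; ring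
    · have e : EF ρ u (g + 1) N (nextF ρ (u (g + 1) = u g) (fun d c _ => F d * c)) =
          EF ρ u (g + 1) N (fun d c _ => (ρ * F d + (1 - ρ) * F (d + 1)) * c) := by
        refine EF_congr fun d c z _ => ?_
        unfold nextF
        rw [if_neg hw]; ring
      rw [e, ih (g + 1) N (by omega) (fun d => ρ * F d + (1 - ρ) * F (d + 1))]
      congr 1
      refine EF_congr fun d c z _ => ?_
      unfold nextF
      rw [if_neg hw]; ring

/-- Pairs, in functional form. -/
theorem EF_pairs (h0 : 0 < ρ) (h1 : ρ < 1) (hu : IsProf u) :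
    ∀ n g N : ℕ, g + n = N → ∀ (F : ℕ → ℝ), (∀ d, 0 ≤ F d) →
    EF ρ u g N (fun d _ z => F d * (((1 - ρ) / ρ) ^ 2 -
        z * (((1 - ρ) / ρ) ^ 2 + (n : ℝ) * ((1 - ρ) / ρ)))) ≤
      EF ρ u g N (fun d c _ => F d * ((c : ℝ) * (c - 1) / 2)) := by
  intro n
  induction n with
  | zero =>
    intro g N hg F hF
    have : g = N := by omega
    subst this
    rw [EF_top, EF_top]
    simp
  | succ n ih =>
    intro g N hg F hF
    have hgN : g < N := by omega
    rw [EF_step hu hgN, EF_step hu hgN]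
    have hq : 0 ≤ 1 - ρ := by linarith
    have hqr : 0 ≤ (1 - ρ) / ρ := by positivity
    by_cases hw : u (g + 1) = u g
    · set G : ℕ → ℝ := fun d => if d = 0 then (1 - ρ) * F 0 else
            ρ * F (d - 1) + (1 - ρ) * F d with hG
      set H : ℕ → ℝ := fun d => if d = 0 then (1 - ρ) * F 0 else 0 with hH
      have e : EF ρ u (g + 1) N (nextF ρ (u (g + 1) = u g)
            (fun d c _ => F d * ((c : ℝ) * (c - 1) / 2))) =
          EF ρ u (g + 1) N (fun d c _ => G d * ((c : ℝ) * (c - 1) / 2)) +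
          EF ρ u (g + 1) N (fun d c _ => H d * c) := by
        rw [← EF_add]
        refine EF_congr fun d c z _ => ?_
        unfold nextF
        rw [if_pos hw, hG, hH]
        by_cases hd : d = 0
        · simp only [hd, if_true]; push_cast; ring
        · simp only [hd, if_false]; ring
      have a1 := ih (g + 1) N (by omega) G (fun d => by
        have h3 := hF (d - 1)
        have h4 := hF d
        have h5 := hF 0
        rw [hG]
        show 0 ≤ (if d = 0 then (1 - ρ) * F 0 else ρ * F (d - 1) + (1 - ρ) * F d)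
        split_ifs <;> positivity)
      rw [e, EF_mean h0 hu n (g + 1) N (by omega) H]
      refine le_trans ?_ (add_le_add a1 le_rfl)
      rw [← EF_mul, ← EF_add]
      refine EF_mono h0.le h1.le fun d c z hz => ?_
      unfold nextF
      rw [if_pos hw, hG, hH]
      by_cases hd : d = 0
      · simp only [hd, if_true]
        apply le_of_eq
        push_cast
        field_simp
        ring
      · simp only [hd, if_false]
        have h3 := hF (d - 1)
        have h4 := hF d
        have hz' : 0 ≤ z := by rcases hz with rfl | rfl <;> norm_num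
        have h5 : 0 ≤ (ρ * F (d - 1) + (1 - ρ) * F d) * (z * ((1 - ρ) / ρ)) := by positivity
        push_cast
        nlinarith [h5]
    · have e : EF ρ u (g + 1) N (nextF ρ (u (g + 1) = u g)
            (fun d c _ => F d * ((c : ℝ) * (c - 1) / 2))) =
          EF ρ u (g + 1) N (fun d c _ => (ρ * F d + (1 - ρ) * F (d + 1)) *
            ((c : ℝ) * (c - 1) / 2)) := by
        refine EF_congr fun d c z _ => ?_
        unfold nextF
        rw [if_neg hw]; ring
      rw [e]
      refine le_trans ?_ (ih (g + 1) N (by omega) (fun d => ρ * F d + (1 - ρ) * F (d + 1))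
        (fun d => by
          have h3 := hF (d + 1)
          have h4 := hF d
          positivity))
      refine EF_mono h0.le h1.le fun d c z hz => ?_
      unfold nextF
      rw [if_neg hw]
      have h3 := hF (d + 1)
      have h4 := hF d
      have hz' : 0 ≤ z := by rcases hz with rfl | rfl <;> norm_num
      have h5 : 0 ≤ (ρ * F d + (1 - ρ) * F (d + 1)) * (z * ((1 - ρ) / ρ)) := by positivity
      push_cast
      nlinarith [h5]

end Law

/-- LAW (tail). -/
theorem stmt_LawTail : Stmt_LawTail := by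
  intro ρ h0 h1 u hu g0 N h c m
  obtain ⟨n, rfl⟩ := Nat.exists_eq_add_of_le h
  have := Law.EF_tail h0 h1 hu n g0 (g0 + n) rfl m (fun d => ind (d ≤ c)) (fun d => ind_nonneg _)
  unfold Law.EF at this
  simpa only [ind_and] using this

/-- LAW (mean). -/
theorem stmt_LawMean : Stmt_LawMean := by
  intro ρ h0 h1 u hu g0 N h
  obtain ⟨n, rfl⟩ := Nat.exists_eq_add_of_le h
  have := Law.EF_mean h0 hu n g0 (g0 + n) rfl (fun _ => 1)
  unfold Law.EF at this
  simp only [one_mul] at this
  rw [this, ES_sub, ES_const]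

/-- LAW (pairs). -/
theorem stmt_LawPairs : Stmt_LawPairs := by
  intro ρ h0 h1 u hu g0 N h
  obtain ⟨n, rfl⟩ := Nat.exists_eq_add_of_le h
  have := Law.EF_pairs h0 h1 hu n g0 (g0 + n) rfl (fun _ => 1) (fun _ => zero_le_one)
  unfold Law.EF at this
  simp only [one_mul] at this
  rw [ES_sub, ES_const, ES_mul_right] at this
  push_cast
  rw [add_sub_cancel_left]
  exact this

/-- The mean of `|J|` on the event `M = 0`. -/
theorem law_mean_zero {ρ : ℝ} (h0 : 0 < ρ) (h1 : ρ < 1) {u : ℕ → ℤ} (hu : IsProf u) {g0 N : ℕ}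
    (h : g0 ≤ N) :
    ES ρ (Ico g0 N) (fun A => ind (MM u A g0 N = 0) * (#(JJ u A g0 N) : ℝ)) ≤
      (1 - ρ) / ρ * ES ρ (Ico g0 N) (fun A => ind (MM u A g0 N = 0)) := by
  obtain ⟨n, rfl⟩ := Nat.exists_eq_add_of_le h
  have := Law.EF_mean h0 hu n g0 (g0 + n) rfl (fun d => ind (d = 0))
  unfold Law.EF at this
  rw [this]
  have hq : 0 ≤ (1 - ρ) / ρ := by
    have : 0 ≤ 1 - ρ := by linarith
    positivity
  refine mul_le_mul_of_nonneg_left (ES_mono h0.le h1.le fun A _ => ?_) hq
  have h3 := ind_nonneg (MM u A g0 (g0 + n) = 0)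
  have h4 := ind_nonneg (g0 + n ∈ ZZ u A g0 (g0 + n))
  nlinarith

/-- Description of `i ∈ J` by the systems on the left and on the right of `i`. -/
theorem mem_JJ_split {u : ℕ → ℤ} (hu : IsProf u) {A : Finset ℕ} {i N : ℕ} (hi : i < N) :
    i ∈ JJ u A 0 N ↔ (∀ g ≤ i, XX u A 0 g ≤ XX u A 0 i) ∧ i ∉ A ∧ u (i + 1) = u i ∧
      MM u A (i + 1) N = 0 := by
  constructor
  · intro h
    obtain ⟨_, _, h1, h2, h3, h4⟩ := JJ_props hu h
    rw [mem_ZZ] at h3 h4
    refine ⟨fun g hg => ?_, h1, h2, ?_⟩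
    · rw [h3.2]; exact XX_le_MM (Nat.zero_le _) (hg.trans hi.le)
    · apply Nat.le_zero.1
      rw [MM_le_iff (by omega)]
      intro g hg hgN
      have := XX_le_MM (u := u) (A := A) (g0 := 0) (N := N) (Nat.zero_le g) hgN
      rw [XX_add (Nat.zero_le (i + 1)) hg, h4.2] at this
      push_cast
      linarith
  · rintro ⟨h1, h2, h3, h4⟩
    rw [mem_JJ']
    refine ⟨⟨Nat.zero_le _, hi⟩, h2, ?_⟩
    apply le_antisymm
    · exact XX_le_MM (Nat.zero_le _) hi.le
    · obtain ⟨g, hg0, hg, hgM⟩ := exists_MM (u := u) (A := A) (g0 := 0) (N := N) (Nat.zero_le _)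
      rw [← hgM]
      rcases Nat.lt_or_ge i g with h5 | h5
      · have h6 := XX_le_MM (u := u) (A := A) (g0 := i + 1) (N := N) (g := g) h5 hg
        rw [h4] at h6
        rw [XX_add (Nat.zero_le (i + 1)) h5, XX_succ (Nat.zero_le i), if_neg h2, h3]
        push_cast at h6
        linarith
      · exact h1 g h5

/-- The elements of `J` to the right of `i ∈ J`. -/
theorem JJ_right {u : ℕ → ℤ} (hu : IsProf u) {A : Finset ℕ} {i N : ℕ} (h : i ∈ JJ u A 0 N) :
    {j ∈ JJ u A 0 N | i < j} = JJ u A (i + 1) N := by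
  obtain ⟨_, hi, h1, h2, h3, h4⟩ := JJ_props hu h
  have h5 := ((mem_JJ_split hu hi).1 h).2.2.2
  rw [mem_ZZ] at h4
  ext j
  rw [mem_filter, mem_JJ', mem_JJ', h5]
  constructor
  · rintro ⟨⟨⟨_, h6⟩, h7, h8⟩, h9⟩
    refine ⟨⟨h9, h6⟩, h7, ?_⟩
    rw [XX_add (Nat.zero_le (i + 1)) h9, h4.2] at h8
    push_cast
    linarith
  · rintro ⟨⟨h6, h7⟩, h8, h9⟩
    refine ⟨⟨⟨Nat.zero_le _, h7⟩, h8, ?_⟩, h6⟩
    rw [XX_add (Nat.zero_le (i + 1)) h6, h4.2, h9]
    simp

/-- GEO. -/
theorem stmt_Geo : Stmt_Geo := by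
  intro ρ h0 h1 u hu i N hi
  have hI : range N = range (i + 1) ∪ Ico (i + 1) N := by
    ext x; simp only [mem_range, mem_union, mem_Ico]; omega
  have hd : Disjoint (range (i + 1)) (Ico (i + 1) N) := by
    rw [Finset.disjoint_left]
    intro x h2 h3
    rw [mem_range] at h2; rw [mem_Ico] at h3; omega
  set L : Finset ℕ → ℝ := fun A =>
    ind ((∀ g ≤ i, XX u A 0 g ≤ XX u A 0 i) ∧ i ∉ A ∧ u (i + 1) = u i) with hL
  have key : ∀ A ⊆ range (i + 1), ∀ B ⊆ Ico (i + 1) N,
      ind (i ∈ JJ u (A ∪ B) 0 N) = L A * ind (MM u B (i + 1) N = 0) := by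
    intro A hA B hB
    rw [hL]
    simp only
    rw [← ind_and]
    congr 1
    rw [mem_JJ_split hu hi]
    have e1 : ∀ g ≤ i, XX u (A ∪ B) 0 g = XX u A 0 g := fun g hg =>
      XX_congr (fun _ _ _ => rfl) (fun x _ hx => by
        rw [mem_union]
        constructor
        · rintro (h2 | h2)
          · exact h2
          · have := mem_Ico.1 (hB h2); omega
        · exact Or.inl) (Nat.zero_le _)
    have e2 : i ∈ A ∪ B ↔ i ∈ A := by
      rw [mem_union]
      constructor
      · rintro (h2 | h2)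
        · exact h2
        · have := mem_Ico.1 (hB h2); omega
      · exact Or.inl
    have e3 : MM u (A ∪ B) (i + 1) N = MM u B (i + 1) N :=
      MM_congr (fun _ _ _ => rfl) (fun x hx _ => by
        rw [mem_union]
        constructor
        · rintro (h2 | h2)
          · have := mem_range.1 (hA h2); omega
          · exact h2
        · exact Or.inr)
    rw [e2, e3, e1 i le_rfl]
    have e4 : (∀ g ≤ i, XX u (A ∪ B) 0 g ≤ XX u A 0 i) ↔ (∀ g ≤ i, XX u A 0 g ≤ XX u A 0 i) :=
      forall_congr' fun g => forall_congr' fun hg => by rw [e1 g hg]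
    rw [e4]
    exact propext ⟨fun h => ⟨⟨h.1, h.2.1, h.2.2.1⟩, h.2.2.2⟩,
      fun h => ⟨h.1.1, h.1.2.1, h.1.2.2, h.2⟩⟩
  have key2 : ∀ A ⊆ range (i + 1), ∀ B ⊆ Ico (i + 1) N,
      ind (i ∈ JJ u (A ∪ B) 0 N) * (#{j ∈ JJ u (A ∪ B) 0 N | i < j} : ℝ) =
        L A * (ind (MM u B (i + 1) N = 0) * (#(JJ u B (i + 1) N) : ℝ)) := by
    intro A hA B hB
    by_cases h : i ∈ JJ u (A ∪ B) 0 N
    · rw [JJ_right hu h]
      have e3 : JJ u (A ∪ B) (i + 1) N = JJ u B (i + 1) N :=
        JJ_congr (fun _ _ _ => rfl) (fun x hx _ => by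
          rw [mem_union]
          constructor
          · rintro (h2 | h2)
            · have := mem_range.1 (hA h2); omega
            · exact h2
          · exact Or.inr)
      rw [e3, key A hA B hB, mul_assoc]
    · rw [← mul_assoc, ← key A hA B hB, ind_false h]; simp
  rw [hI, ES_union hd, ES_union hd, ← ES_mul_left]
  refine ES_mono h0.le h1.le fun A hA => ?_
  rw [ES_congr (key2 A hA), ES_congr (key A hA), ES_mul_left, ES_mul_left]
  have h5 := law_mean_zero h0 h1 hu (g0 := i + 1) (N := N) hi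
  have h6 : 0 ≤ L A := ind_nonneg _
  calc _ ≤ L A * ((1 - ρ) / ρ * ES ρ (Ico (i + 1) N) (fun B => ind (MM u B (i + 1) N = 0))) :=
        mul_le_mul_of_nonneg_left h5 h6
    _ = _ := by ring

end Pool.Agent.LCS13

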