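import Pool.Agent.Work.MP_bec1e1_pr_h13.Defs

/-!
# Toolkit for `lp` (longest chains of matches)
-/

open Finset BigOperators
open scoped Classical

namespace Pool.Agent.LCS13.LPK

noncomputable section

variable (m : ℕ → ℕ → Prop)

@[simp] theorem lp_zero_row (i j c : ℕ) : lp m i j 0 c = 0 := by
  rw [lp]

@[simp] theorem lp_zero_col (i j r : ℕ) : lp m i j r 0 = 0 := by
  cases r <;> rw [lp]

theorem lp_succ (i j r c : ℕ) : lp m i j (r + 1) (c + 1) =
    if m (i + r) (j + c) then lp m i j r c + 1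
    else max (lp m i j r (c + 1)) (lp m i j (r + 1) c) := by
  rw [lp]

theorem lp_aux (i j : ℕ) : ∀ r : ℕ,
    (∀ c, lp m i j r c ≤ lp m i j r (c + 1) ∧ lp m i j r (c + 1) ≤ lp m i j r c + 1) ∧
    (∀ c, lp m i j r c ≤ lp m i j (r + 1) c ∧ lp m i j (r + 1) c ≤ lp m i j r c + 1) := by
  have key : ∀ r : ℕ,
      (∀ c, lp m i j r c ≤ lp m i j r (c + 1) ∧ lp m i j r (c + 1) ≤ lp m i j r c + 1) →
      (∀ c, lp m i j r c ≤ lp m i j (r + 1) c ∧ lp m i j (r + 1) c ≤ lp m i j r c + 1) := by
    intro r hr c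
    induction c with
    | zero => simp
    | succ c ih =>
      have h1 := hr c
      rw [lp_succ]
      split_ifs
      · omega
      · rcases max_cases (lp m i j r (c + 1)) (lp m i j (r + 1) c) with h | h <;> omega
  intro r
  induction r with
  | zero =>
    have h0 : ∀ c, lp m i j 0 c ≤ lp m i j 0 (c + 1) ∧ lp m i j 0 (c + 1) ≤ lp m i j 0 c + 1 := by
      intro c; simp
    exact ⟨h0, key 0 h0⟩
  | succ r ih =>
    have h0 : ∀ c, lp m i j (r + 1) c ≤ lp m i j (r + 1) (c + 1) ∧
        lp m i j (r + 1) (c + 1) ≤ lp m i j (r + 1) c + 1 := by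
      intro c
      have h1 := ih.1 c
      have h2 := ih.2 c
      rw [lp_succ]
      split_ifs
      · omega
      · rcases max_cases (lp m i j r (c + 1)) (lp m i j (r + 1) c) with h | h <;> omega
    exact ⟨h0, key _ h0⟩

theorem lp_le_succ_col (i j r c : ℕ) : lp m i j r c ≤ lp m i j r (c + 1) :=
  ((lp_aux m i j r).1 c).1

theorem lp_succ_col_le (i j r c : ℕ) : lp m i j r (c + 1) ≤ lp m i j r c + 1 :=
  ((lp_aux m i j r).1 c).2

theorem lp_le_succ_row (i j r c : ℕ) : lp m i j r c ≤ lp m i j (r + 1) c :=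
  ((lp_aux m i j r).2 c).1

theorem lp_succ_row_le (i j r c : ℕ) : lp m i j (r + 1) c ≤ lp m i j r c + 1 :=
  ((lp_aux m i j r).2 c).2

/-- Monotonicity in the size. -/
theorem lp_mono {r r' c c' : ℕ} (hr : r ≤ r') (hc : c ≤ c') (i j : ℕ) :
    lp m i j r c ≤ lp m i j r' c' := by
  have h1 : lp m i j r c ≤ lp m i j r' c := by
    induction hr with
    | refl => exact le_refl _
    | step _ ih => exact le_trans ih (lp_le_succ_row m i j _ c)
  have h2 : lp m i j r' c ≤ lp m i j r' c' := by
    induction hc with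
    | refl => exact le_refl _
    | step _ ih => exact le_trans ih (lp_le_succ_col m i j r' _)
  exact le_trans h1 h2

/-- Lipschitz in the columns. -/
theorem lp_add_col_le (i j r c d : ℕ) : lp m i j r (c + d) ≤ lp m i j r c + d := by
  induction d with
  | zero => simp
  | succ d ih => have := lp_succ_col_le m i j r (c + d); rw [← add_assoc]; omega

/-- Lipschitz in the rows. -/
theorem lp_add_row_le (i j r d c : ℕ) : lp m i j (r + d) c ≤ lp m i j r c + d := by
  induction d with
  | zero => simp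
  | succ d ih => have := lp_succ_row_le m i j (r + d) c; rw [← add_assoc]; omega

theorem lp_le_rows (i j r c : ℕ) : lp m i j r c ≤ r := by
  have := lp_add_row_le m i j 0 r c
  simpa using this

theorem lp_le_cols (i j r c : ℕ) : lp m i j r c ≤ c := by
  have := lp_add_col_le m i j r 0 c
  simpa using this

/-- A match adds one. -/
theorem lp_match (i j r c : ℕ) (h : m (i + r) (j + c)) :
    lp m i j (r + 1) (c + 1) = lp m i j r c + 1 := by
  rw [lp_succ, if_pos h]

/-- The new row: lower bound. -/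
theorem lp_row_ge (i j r c y : ℕ) (hy : y < c) (h : m (i + r) (j + y)) :
    lp m i j r y + 1 ≤ lp m i j (r + 1) c := by
  rw [← lp_match m i j r y h]
  exact lp_mono m le_rfl hy i j

/-- The new row: exact description. -/
theorem lp_row_cases (i j r c : ℕ) :
    lp m i j (r + 1) c = lp m i j r c ∨
      ∃ y < c, m (i + r) (j + y) ∧ lp m i j (r + 1) c = lp m i j r y + 1 := by
  induction c with
  | zero => left; simp
  | succ c ih =>
    rw [lp_succ]
    split_ifs with h
    · right; exact ⟨c, by omega, h, rfl⟩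
    · rcases ih with h1 | ⟨y, hy, hm, h1⟩
      · left; rw [h1]; exact max_eq_left (lp_le_succ_col m i j r c)
      · rcases max_cases (lp m i j r (c + 1)) (lp m i j (r + 1) c) with h2 | h2
        · left; exact h2.1
        · right; exact ⟨y, by omega, hm, by rw [h2.1, h1]⟩

/-- The new column: lower bound. -/
theorem lp_col_ge (i j r c x : ℕ) (hx : x < r) (h : m (i + x) (j + c)) :
    lp m i j x c + 1 ≤ lp m i j r (c + 1) := by
  rw [← lp_match m i j x c h]
  exact lp_mono m hx le_rfl i j

/-- The new column: exact description. -/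
theorem lp_col_cases (i j r c : ℕ) :
    lp m i j r (c + 1) = lp m i j r c ∨
      ∃ x < r, m (i + x) (j + c) ∧ lp m i j r (c + 1) = lp m i j x c + 1 := by
  induction r with
  | zero => left; simp
  | succ r ih =>
    rw [lp_succ]
    split_ifs with h
    · right; exact ⟨r, by omega, h, rfl⟩
    · rcases ih with h1 | ⟨x, hx, hm, h1⟩
      · left; rw [h1]; exact max_eq_right (lp_le_succ_row m i j r c)
      · rcases max_cases (lp m i j r (c + 1)) (lp m i j (r + 1) c) with h2 | h2
        · right; exact ⟨x, by omega, hm, by rw [h2.1, h1]⟩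
        · left; exact h2.1

/-- Locality and translation. -/
theorem lp_congr {m m' : ℕ → ℕ → Prop} {i j i' j' : ℕ} : ∀ {r c : ℕ},
    (∀ x y, x < r → y < c → (m (i + x) (j + y) ↔ m' (i' + x) (j' + y))) →
    lp m i j r c = lp m' i' j' r c
  | 0, c, _ => by simp
  | r + 1, 0, _ => by simp
  | r + 1, c + 1, h => by
    have h1 : lp m i j r (c + 1) = lp m' i' j' r (c + 1) :=
      lp_congr fun x y hx hy => h x y (by omega) hy
    have h2 : lp m i j (r + 1) c = lp m' i' j' (r + 1) c :=
      lp_congr fun x y hx hy => h x y hx (by omega)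
    have h3 : lp m i j r c = lp m' i' j' r c :=
      lp_congr fun x y hx hy => h x y (by omega) (by omega)
    rw [lp_succ, lp_succ, h1, h2, h3]
    simp only [h r c (by omega) (by omega)]
termination_by r c => (r, c)

/-- Translation to the origin. -/
theorem lp_shift (i j r c : ℕ) : lp m i j r c = lp (fun x y => m (i + x) (j + y)) 0 0 r c :=
  lp_congr fun x y _ _ => by simp

/-- Monotonicity in the match relation. -/
theorem lp_mono_rel {m m' : ℕ → ℕ → Prop} {i j : ℕ} : ∀ {r c : ℕ},
    (∀ x y, x < r → y < c → m (i + x) (j + y) → m' (i + x) (j + y)) →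
    lp m i j r c ≤ lp m' i j r c
  | 0, c, _ => by simp
  | r + 1, 0, _ => by simp
  | r + 1, c + 1, h => by
    have h1 : lp m i j r (c + 1) ≤ lp m' i j r (c + 1) :=
      lp_mono_rel fun x y hx hy => h x y (by omega) hy
    have h2 : lp m i j (r + 1) c ≤ lp m' i j (r + 1) c :=
      lp_mono_rel fun x y hx hy => h x y hx (by omega)
    have h3 : lp m i j r c ≤ lp m' i j r c :=
      lp_mono_rel fun x y hx hy => h x y (by omega) (by omega)
    rw [lp_succ m]
    split_ifs with hm
    · rw [lp_succ m', if_pos (h r c (by omega) (by omega) hm)]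
      omega
    · exact max_le (le_trans h1 (lp_le_succ_row m' i j r (c + 1)))
        (le_trans h2 (lp_le_succ_col m' i j (r + 1) c))
termination_by r c => (r, c)

/-- Transposition. -/
theorem lp_transpose {m : ℕ → ℕ → Prop} {i j : ℕ} : ∀ {r c : ℕ},
    lp (fun x y => m y x) j i c r = lp m i j r c
  | 0, c => by simp
  | r + 1, 0 => by simp
  | r + 1, c + 1 => by
    have h1 : lp (fun x y => m y x) j i (c + 1) r = lp m i j r (c + 1) := lp_transpose
    have h2 : lp (fun x y => m y x) j i c (r + 1) = lp m i j (r + 1) c := lp_transpose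
    have h3 : lp (fun x y => m y x) j i c r = lp m i j r c := lp_transpose
    rw [lp_succ, lp_succ, h1, h2, h3, max_comm]
termination_by r c => (r, c)

/-! ### Splitting -/

/-- Superadditivity. -/
theorem lp_superadd (i j r1 c1 : ℕ) : ∀ r2 c2 : ℕ,
    lp m i j r1 c1 + lp m (i + r1) (j + c1) r2 c2 ≤ lp m i j (r1 + r2) (c1 + c2)
  | 0, c2 => by simpa using lp_mono m (le_refl r1) (Nat.le_add_right c1 c2) i j
  | r2 + 1, 0 => by simpa using lp_mono m (Nat.le_add_right r1 (r2 + 1)) (le_refl c1) i j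
  | r2 + 1, c2 + 1 => by
    have h1 := lp_superadd i j r1 c1 r2 c2
    have h2 := lp_superadd i j r1 c1 r2 (c2 + 1)
    have h3 := lp_superadd i j r1 c1 (r2 + 1) c2
    have h4 := lp_le_succ_row m i j (r1 + r2) (c1 + (c2 + 1))
    have h5 := lp_le_succ_col m i j (r1 + (r2 + 1)) (c1 + c2)
    rw [lp_succ m (i + r1)]
    split_ifs with hm
    · rw [← add_assoc r1, ← add_assoc c1, lp_match m i j (r1 + r2) (c1 + c2)
        (by rw [← add_assoc, ← add_assoc]; exact hm)]
      omega
    · have e1 : r1 + (r2 + 1) = r1 + r2 + 1 := by ring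
      have e2 : c1 + (c2 + 1) = c1 + c2 + 1 := by ring
      rw [e1] at h3 h5 ⊢
      rw [e2] at h2 h4 ⊢
      rcases max_cases (lp m (i + r1) (j + c1) r2 (c2 + 1)) (lp m (i + r1) (j + c1) (r2 + 1) c2)
        with h | h
      · rw [h.1]; omega
      · rw [h.1]; omega
termination_by r2 c2 => (r2, c2)

/-- Splitting at a row: there is a column. -/
theorem lp_split_row (i j r1 : ℕ) : ∀ r2 c : ℕ, ∃ c1 ≤ c,
    lp m i j (r1 + r2) c = lp m i j r1 c1 + lp m (i + r1) (j + c1) r2 (c - c1)
  | 0, c => ⟨c, le_rfl, by simp⟩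
  | r2 + 1, c => by
    rcases lp_row_cases m i j (r1 + r2) c with h | ⟨y, hy, hm, h⟩
    · obtain ⟨c1, hc1, h1⟩ := lp_split_row i j r1 r2 c
      refine ⟨c1, hc1, le_antisymm ?_ ?_⟩
      · rw [← add_assoc, h, h1]
        exact Nat.add_le_add_left (lp_le_succ_row m _ _ _ _) _
      · have := lp_superadd m i j r1 c1 (r2 + 1) (c - c1)
        rwa [Nat.add_sub_of_le hc1] at this
    · obtain ⟨c1, hc1, h1⟩ := lp_split_row i j r1 r2 y
      refine ⟨c1, by omega, le_antisymm ?_ ?_⟩
      · rw [← add_assoc, h, h1, add_assoc]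
        refine Nat.add_le_add_left (lp_row_ge m (i + r1) (j + c1) r2 (c - c1) (y - c1) (by omega) ?_) _
        have e1 : i + r1 + r2 = i + (r1 + r2) := by ring
        have e2 : j + c1 + (y - c1) = j + y := by omega
        rw [e1, e2]; exact hm
      · have := lp_superadd m i j r1 c1 (r2 + 1) (c - c1)
        rwa [Nat.add_sub_of_le (by omega : c1 ≤ c)] at this

/-- Splitting at a column: there is a row. -/
theorem lp_split_col (i j c1 r c2 : ℕ) : ∃ r1 ≤ r,
    lp m i j r (c1 + c2) = lp m i j r1 c1 + lp m (i + r1) (j + c1) (r - r1) c2 := by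
  obtain ⟨r1, h1, h2⟩ := lp_split_row (fun x y => m y x) j i c1 c2 r
  refine ⟨r1, h1, ?_⟩
  have e1 : lp (fun x y => m y x) j i (c1 + c2) r = lp m i j r (c1 + c2) := lp_transpose
  have e2 : lp (fun x y => m y x) j i c1 r1 = lp m i j r1 c1 := lp_transpose
  have e3 : lp (fun x y => m y x) (j + c1) (i + r1) c2 (r - r1) =
      lp m (i + r1) (j + c1) (r - r1) c2 := lp_transpose
  rw [← e1, ← e2, ← e3]
  exact h2

/-- Sub-boxes. -/
theorem lp_sub {i j r c i' j' r' c' : ℕ} (hi : i ≤ i') (hj : j ≤ j') (hr : i' + r' ≤ i + r)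
    (hc : j' + c' ≤ j + c) : lp m i' j' r' c' ≤ lp m i j r c := by
  obtain ⟨a, rfl⟩ := Nat.exists_eq_add_of_le hi
  obtain ⟨b, rfl⟩ := Nat.exists_eq_add_of_le hj
  have h := lp_superadd m i j a b r' c'
  refine le_trans (le_trans (Nat.le_add_left _ _) h) ?_
  exact lp_mono m (by omega) (by omega) i j

/-- Superadditivity for two boxes inside a third one. -/
theorem lp_two {i j r c r1 c1 i2 j2 r2 c2 : ℕ} (h1 : i + r1 ≤ i2) (h2 : j + c1 ≤ j2)
    (h3 : i2 + r2 ≤ i + r) (h4 : j2 + c2 ≤ j + c) :
    lp m i j r1 c1 + lp m i2 j2 r2 c2 ≤ lp m i j r c := by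
  obtain ⟨a, rfl⟩ := Nat.exists_eq_add_of_le h1
  obtain ⟨b, rfl⟩ := Nat.exists_eq_add_of_le h2
  have h := lp_superadd m i j (r1 + a) (c1 + b) r2 c2
  have h5 := lp_mono m (Nat.le_add_right r1 a) (Nat.le_add_right c1 b) i j
  have h6 := lp_mono m (show r1 + a + r2 ≤ r by omega) (show c1 + b + c2 ≤ c by omega) i j
  rw [← add_assoc, ← add_assoc] at h
  omega

/-- Subadditivity in the columns. -/
theorem lp_subadd_col (i j r c1 c2 : ℕ) :
    lp m i j r (c1 + c2) ≤ lp m i j r c1 + lp m i (j + c1) r c2 := by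
  obtain ⟨r1, h1, h2⟩ := lp_split_col m i j c1 r c2
  rw [h2]
  exact Nat.add_le_add (lp_mono m h1 le_rfl i j) (lp_sub m (by omega) le_rfl (by omega) le_rfl)

/-- Subadditivity in the rows. -/
theorem lp_subadd_row (i j r1 r2 c : ℕ) :
    lp m i j (r1 + r2) c ≤ lp m i j r1 c + lp m (i + r1) j r2 c := by
  obtain ⟨c1, h1, h2⟩ := lp_split_row m i j r1 r2 c
  rw [h2]
  exact Nat.add_le_add (lp_mono m le_rfl h1 i j) (lp_sub m le_rfl (by omega) le_rfl (by omega))

/-- Lipschitz at the first rows. -/
theorem lp_left_row_le (i j d r c : ℕ) : lp m i j (d + r) c ≤ d + lp m (i + d) j r c :=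
  le_trans (lp_subadd_row m i j d r c) (Nat.add_le_add_right (lp_le_rows m i j d c) _)

/-- Lipschitz at the first columns. -/
theorem lp_left_col_le (i j r d c : ℕ) : lp m i j r (d + c) ≤ d + lp m i (j + d) r c :=
  le_trans (lp_subadd_col m i j r d c) (Nat.add_le_add_right (lp_le_cols m i j r d) _)

/-- A match in the first row and column adds one. -/
theorem lp_match_left (i j r c : ℕ) (h : m i j) :
    lp m i j (1 + r) (1 + c) = 1 + lp m (i + 1) (j + 1) r c := by
  have h1 : lp m i j 1 1 = 1 := by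
    have := lp_match m i j 0 0 (by simpa using h)
    simpa using this
  refine le_antisymm ?_ ?_
  · obtain ⟨c1, hc1, h2⟩ := lp_split_row m i j 1 r (1 + c)
    rw [h2]
    rcases Nat.eq_zero_or_pos c1 with h0 | h0
    · subst h0
      simp only [lp_zero_col, add_zero, Nat.sub_zero, zero_add]
      exact lp_left_col_le m (i + 1) j r 1 c
    · exact Nat.add_le_add (lp_le_rows m i j 1 c1) (lp_sub m le_rfl (by omega) le_rfl (by omega))
  · have := lp_superadd m i j 1 1 r c
    rwa [h1] at this

/-! ### Monge -/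

/-- One row: Monge inequality. -/
theorem lp_monge_one (x j c d e : ℕ) :
    lp m x j 1 (c + d + e) + lp m x (j + c) 1 d ≤ lp m x j 1 (c + d) + lp m x (j + c) 1 (d + e) := by
  have h0 := lp_le_rows m x (j + c) 1 d
  have h1 := lp_le_rows m x j 1 (c + d + e)
  have h2 : lp m x (j + c) 1 d ≤ lp m x j 1 (c + d) :=
    lp_sub m le_rfl (by omega) le_rfl (by omega)
  have h3 : lp m x (j + c) 1 d ≤ lp m x (j + c) 1 (d + e) := lp_mono m le_rfl (by omega) _ _
  have h4 := lp_subadd_col m x j 1 (c + d) e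
  have h5 : lp m x (j + (c + d)) 1 e ≤ lp m x (j + c) 1 (d + e) :=
    lp_sub m le_rfl (by omega) le_rfl (by omega)
  rcases Nat.eq_zero_or_pos (lp m x (j + c) 1 d) with h | h <;> omega

/-- Monge inequality. -/
theorem lp_monge (i : ℕ) : ∀ r j c d e : ℕ,
    lp m i j r (c + d + e) + lp m i (j + c) r d ≤
      lp m i j r (c + d) + lp m i (j + c) r (d + e)
  | 0, j, c, d, e => by simp
  | r + 1, j, c, d, e => by
    obtain ⟨c1, hc1, h1⟩ := lp_split_row m i j r 1 (c + d + e)
    obtain ⟨c2, hc2, h2⟩ := lp_split_row m i (j + c) r 1 d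
    rw [h1, h2]
    by_cases hcase : c1 ≤ c + c2
    · have h3 := lp_monge_one m (i + r) (j + c1) (c + c2 - c1) (d - c2) e
      have h4 : lp m i j r c1 + lp m (i + r) (j + c1) 1 (c + d - c1) ≤
          lp m i j (r + 1) (c + d) := lp_two m le_rfl le_rfl le_rfl (by omega)
      have h5 : lp m i (j + c) r c2 + lp m (i + r) (j + c + c2) 1 (d + e - c2) ≤
          lp m i (j + c) (r + 1) (d + e) := lp_two m le_rfl le_rfl le_rfl (by omega)
      rw [show c + c2 - c1 + (d - c2) + e = c + d + e - c1 by omega,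
        show j + c1 + (c + c2 - c1) = j + c + c2 by omega,
        show c + c2 - c1 + (d - c2) = c + d - c1 by omega,
        show d - c2 + e = d + e - c2 by omega] at h3
      omega
    · have h3 := lp_monge i r j c c2 (c1 - c - c2)
      have h4 : lp m i j r (c + c2) + lp m (i + r) (j + c + c2) 1 (d - c2) ≤
          lp m i j (r + 1) (c + d) := lp_two m le_rfl (by omega) le_rfl (by omega)
      have h5 : lp m i (j + c) r (c1 - c) + lp m (i + r) (j + c1) 1 (c + d + e - c1) ≤
          lp m i (j + c) (r + 1) (d + e) := lp_two m le_rfl (by omega) le_rfl (by omega)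
      rw [show c + c2 + (c1 - c - c2) = c1 by omega, show c2 + (c1 - c - c2) = c1 - c by omega] at h3
      omega

/-! ### Chains -/

/-- `lp` counts the longest chain. -/
theorem le_lp_iff {i j n : ℕ} : ∀ {r c : ℕ}, n ≤ lp m i j r c ↔
    ∃ f g : ℕ → ℕ, (∀ x < n, f x < r ∧ g x < c ∧ m (i + f x) (j + g x)) ∧
      ∀ x y, x < y → y < n → f x < f y ∧ g x < g y := by
  have hR : ∀ n r c : ℕ, (∃ f g : ℕ → ℕ, (∀ x < n, f x < r ∧ g x < c ∧ m (i + f x) (j + g x)) ∧
      ∀ x y, x < y → y < n → f x < f y ∧ g x < g y) → n ≤ lp m i j r c := by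
    intro n
    induction n with
    | zero => intro r c _; exact Nat.zero_le _
    | succ n ih =>
      rintro r c ⟨f, g, h1, h2⟩
      obtain ⟨a1, a2, a3⟩ := h1 n (by omega)
      have h3 := ih (f n) (g n) ⟨f, g, fun x hx => ⟨(h2 x n hx (by omega)).1,
        (h2 x n hx (by omega)).2, (h1 x (by omega)).2.2⟩, fun x y hxy hy => h2 x y hxy (by omega)⟩
      calc n + 1 ≤ lp m i j (f n) (g n) + 1 := by omega
        _ = lp m i j (f n + 1) (g n + 1) := (lp_match m i j _ _ a3).symm
        _ ≤ lp m i j r c := lp_mono m a1 a2 i j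
  have hL : ∀ r c n : ℕ, n ≤ lp m i j r c →
      (∃ f g : ℕ → ℕ, (∀ x < n, f x < r ∧ g x < c ∧ m (i + f x) (j + g x)) ∧
      ∀ x y, x < y → y < n → f x < f y ∧ g x < g y) := by
    intro r
    induction r with
    | zero =>
      intro c n h
      have : n = 0 := by simpa using h
      subst this
      exact ⟨id, id, by simp, by simp⟩
    | succ r ihr =>
      intro c n h
      rcases lp_row_cases m i j r c with h1 | ⟨y, hy, hm, h1⟩
      · rw [h1] at h
        obtain ⟨f, g, h2, h3⟩ := ihr c n h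
        exact ⟨f, g, fun x hx => ⟨by have := (h2 x hx).1; omega, (h2 x hx).2⟩, h3⟩
      · rw [h1] at h
        cases n with
        | zero => exact ⟨id, id, by simp, by simp⟩
        | succ n =>
          obtain ⟨f, g, h2, h3⟩ := ihr y n (by omega)
          refine ⟨fun x => if x < n then f x else r, fun x => if x < n then g x else y, ?_, ?_⟩
          · intro x hx
            by_cases hxn : x < n
            · simp only [hxn, if_true]
              obtain ⟨b1, b2, b3⟩ := h2 x hxn
              exact ⟨by omega, by omega, b3⟩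
            · simp only [hxn, if_false]
              exact ⟨by omega, hy, hm⟩
          · intro x z hxz hz
            have hxn : x < n := by omega
            simp only [hxn, if_true]
            by_cases hzn : z < n
            · simp only [hzn, if_true]
              exact h3 x z hxz hzn
            · simp only [hzn, if_false]
              exact ⟨(h2 x hxn).1, (h2 x hxn).2.1⟩
  intro r c
  exact ⟨hL r c n, hR n r c⟩

/-- The chain of the last lemma with values in `Fin`. -/
theorem le_lp_iff_fin {i j n r c : ℕ} : n ≤ lp m i j r c ↔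
    ∃ (f : Fin n ↪o Fin r) (g : Fin n ↪o Fin c), ∀ x, m (i + f x) (j + g x) := by
  rw [le_lp_iff]
  constructor
  · rintro ⟨f, g, h1, h2⟩
    refine ⟨OrderEmbedding.ofStrictMono (fun x : Fin n => (⟨f x, (h1 x x.2).1⟩ : Fin r)) ?_,
      OrderEmbedding.ofStrictMono (fun x : Fin n => (⟨g x, (h1 x x.2).2.1⟩ : Fin c)) ?_, ?_⟩
    · intro x y hxy
      exact (h2 x y hxy y.2).1
    · intro x y hxy
      exact (h2 x y hxy y.2).2
    · intro x
      exact (h1 x x.2).2.2
  · rintro ⟨f, g, h⟩
    refine ⟨fun x => if hx : x < n then f ⟨x, hx⟩ else 0,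
      fun x => if hx : x < n then g ⟨x, hx⟩ else 0, ?_, ?_⟩
    · intro x hx
      simp only [hx, dif_pos]
      exact ⟨(f ⟨x, hx⟩).2, (g ⟨x, hx⟩).2, h ⟨x, hx⟩⟩
    · intro x y hxy hy
      have hx : x < n := by omega
      simp only [hx, hy, dif_pos]
      exact ⟨f.strictMono (show (⟨x, hx⟩ : Fin n) < ⟨y, hy⟩ from hxy),
        g.strictMono (show (⟨x, hx⟩ : Fin n) < ⟨y, hy⟩ from hxy)⟩

end

end Pool.Agent.LCS13.LPK
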