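import Pool.Agent.Work.MP_bec1e1_pr_h13.Interface
import Pool.Agent.Work.MP_bec1e1_pr_h13.LP
import Pool.Agent.Work.MP_bec1e1_pr_h13.ES
import Pool.Agent.Work.MP_bec1e1_pr_h13.SYS
import Pool.Agent.Work.MP_bec1e1_pr_h13.FM

/-!
# The maximum is attained in the left half only (block TAIL)
-/

open Finset BigOperators Filter
open scoped Classical

namespace Pool.Agent.LCS13

namespace TailB

theorem asym {c : ℝ} (hc : 0 < c) :
    ∀ᶠ k : ℕ in atTop, 4 * (k : ℝ) ^ 6 * Real.exp (-(c * √(k : ℝ) / 16)) ≤ 1 / (k : ℝ) ^ 20 := by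
  have h1 : Tendsto (fun x : ℝ => x ^ 52 * Real.exp (-(c / 16) * x)) atTop (nhds 0) := by
    have := Real.tendsto_pow_mul_exp_neg_atTop_nhds_zero 52
    have h2 : Tendsto (fun x : ℝ => c / 16 * x) atTop atTop :=
      tendsto_id.const_mul_atTop (by positivity)
    have h3 := (this.comp h2).const_mul ((16 / c) ^ 52)
    rw [mul_zero] at h3
    refine h3.congr fun x => ?_
    simp only [Function.comp]
    rw [← mul_assoc, ← mul_pow]
    have : 16 / c * (c / 16 * x) = x := by field_simp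
    rw [this]
    congr 2
    ring
  have h2 : Tendsto (fun k : ℕ => √(k : ℝ)) atTop atTop :=
    Real.tendsto_sqrt_atTop.comp tendsto_natCast_atTop_atTop
  have h3 := (h1.comp h2).eventually (ge_mem_nhds (show (0 : ℝ) < 1 / 4 by norm_num))
  filter_upwards [h3, eventually_ge_atTop 1] with k hk hk1
  simp only [Function.comp] at hk
  have hk0 : (0 : ℝ) < k := by exact_mod_cast hk1
  have h4 : √(k : ℝ) ^ 52 = (k : ℝ) ^ 26 := by
    have : √(k : ℝ) ^ 2 = k := Real.sq_sqrt hk0.le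
    calc √(k : ℝ) ^ 52 = (√(k : ℝ) ^ 2) ^ 26 := by ring
      _ = _ := by rw [this]
  rw [h4] at hk
  rw [le_div_iff₀ (by positivity)]
  have h5 : -(c / 16) * √(k : ℝ) = -(c * √(k : ℝ) / 16) := by ring
  rw [h5] at hk
  calc 4 * (k : ℝ) ^ 6 * Real.exp (-(c * √(k : ℝ) / 16)) * (k : ℝ) ^ 20
      = 4 * ((k : ℝ) ^ 26 * Real.exp (-(c * √(k : ℝ) / 16))) := by ring
    _ ≤ 4 * (1 / 4) := by linarith
    _ = 1 := by norm_num

theorem exp3_le : Real.exp 3 ≤ 25 := by
  have h1 := Real.exp_one_lt_d9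
  have h2 : Real.exp 3 = Real.exp 1 ^ 3 := by
    rw [← Real.exp_nat_mul]; norm_num
  rw [h2]
  have h3 : Real.exp 1 ^ 3 ≤ 2.7182818286 ^ 3 :=
    pow_le_pow_left₀ (Real.exp_pos 1).le h1.le 3
  refine h3.trans ?_
  norm_num

end TailB

open TailB in
/-- TAIL. -/
theorem stmt_Tail (_ : Stmt_ChernUp) (hL : Stmt_ChernLow) : Stmt_Tail := by
  intro c1 c2 hc1 hc2
  have hsq : ∀ᶠ k : ℕ in atTop, c2 < √(k : ℝ) :=
    (Real.tendsto_sqrt_atTop.comp tendsto_natCast_atTop_atTop).eventually_gt_atTop c2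
  filter_upwards [asym hc1, hsq, eventually_ge_atTop 1] with k hk hkc hk1
  intro ρ hρ1 hρ2 t N hkN hNk ht b
  have hkpos : 0 < k := hk1
  have : NeZero k := ⟨hkpos.ne'⟩
  have hk0 : (0 : ℝ) < k := by exact_mod_cast hk1
  have hs0 : 0 < √(k : ℝ) := Real.sqrt_pos.2 hk0
  have hρ0 : 0 < ρ := by
    by_contra h
    push Not at h
    have : ρ * √(k : ℝ) ≤ 0 := mul_nonpos_of_nonpos_of_nonneg h hs0.le
    linarith
  have hρ1' : ρ < 1 := by
    by_contra h
    push Not at h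
    have : √(k : ℝ) ≤ ρ * √(k : ℝ) := by nlinarith
    linarith
  have hkN' : (k : ℝ) ≤ N := by exact_mod_cast hkN
  have hρk : c1 * √(k : ℝ) ≤ ρ * N := by
    have h1 : √(k : ℝ) * √(k : ℝ) = k := Real.mul_self_sqrt hk0.le
    calc c1 * √(k : ℝ) ≤ ρ * √(k : ℝ) * √(k : ℝ) := mul_le_mul_of_nonneg_right hρ1 hs0.le
      _ = ρ * k := by rw [mul_assoc, h1]
      _ ≤ ρ * N := mul_le_mul_of_nonneg_left hkN' hρ0.le
  set E : ℝ := Real.exp (-(c1 * √(k : ℝ) / 16)) with hE
  set G : Finset ℕ := (range (N + 1)).filter (fun g => N ≤ 2 * g) with hG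
  -- pointwise
  have hpt : ∀ (a : Fin t → Fin k) (A : Finset ℕ),
      ind (∃ g ∈ ZZ (uu (wn a) b t) A 0 N, N ≤ 2 * g) ≤
      ∑ g ∈ G, (ind (2 * (#(A ∩ range g) : ℝ) ≤ ρ * #(range g)) +
        ind (⌈ρ * g / 2⌉₊ ≤ lp (mt (wn a) b) 0 0 t g)) := by
    intro a A
    by_cases hex : ∃ g ∈ ZZ (uu (wn a) b t) A 0 N, N ≤ 2 * g
    · rw [ind_true hex]
      obtain ⟨g, hg, hg2⟩ := hex
      rw [mem_ZZ] at hg
      have hgG : g ∈ G := by
        rw [hG, Finset.mem_filter, Finset.mem_range]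
        exact ⟨by omega, hg2⟩
      have hX : (0 : ℤ) ≤ XX (uu (wn a) b t) A 0 g := by
        rw [hg.2]; exact_mod_cast Nat.zero_le _
      have hcnt : cnt A 0 g ≤ lp (mt (wn a) b) 0 0 t g := by
        unfold XX at hX
        rw [uu_zero] at hX
        unfold uu at hX
        have : (cnt A 0 g : ℤ) ≤ lp (mt (wn a) b) 0 0 t g := by linarith
        exact_mod_cast this
      have hcA : cnt A 0 g = #(A ∩ range g) := by
        rw [cnt_eq_card_inter, ← Nat.Ico_zero_eq_range]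
      have h1 : (1 : ℝ) ≤ ind (2 * (#(A ∩ range g) : ℝ) ≤ ρ * #(range g)) +
          ind (⌈ρ * g / 2⌉₊ ≤ lp (mt (wn a) b) 0 0 t g) := by
        by_cases h2 : 2 * (#(A ∩ range g) : ℝ) ≤ ρ * #(range g)
        · rw [ind_true h2]
          have := ind_nonneg (⌈ρ * g / 2⌉₊ ≤ lp (mt (wn a) b) 0 0 t g)
          linarith
        · have h3 : ⌈ρ * g / 2⌉₊ ≤ lp (mt (wn a) b) 0 0 t g := by
            refine le_trans (Nat.ceil_le.2 ?_) hcnt
            rw [hcA]
            rw [Finset.card_range] at h2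
            push Not at h2
            linarith
          rw [ind_true h3]
          have := ind_nonneg (2 * (#(A ∩ range g) : ℝ) ≤ ρ * #(range g))
          linarith
      refine h1.trans ?_
      exact Finset.single_le_sum (f := fun g => ind (2 * (#(A ∩ range g) : ℝ) ≤ ρ * #(range g)) +
        ind (⌈ρ * g / 2⌉₊ ≤ lp (mt (wn a) b) 0 0 t g))
        (fun g _ => add_nonneg (ind_nonneg _) (ind_nonneg _)) hgG
    · rw [ind_false hex]
      exact Finset.sum_nonneg fun g _ => add_nonneg (ind_nonneg _) (ind_nonneg _)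
  have hexp : ∀ x : ℝ, ρ * N / 16 ≤ x → Real.exp (-x) ≤ E := by
    intro x hx
    rw [hE]
    exact Real.exp_le_exp.2 (by linarith)
  -- the two bounds
  have hb1 : ∀ g ∈ G, ES ρ (range N) (fun A =>
      ind (2 * (#(A ∩ range g) : ℝ) ≤ ρ * #(range g))) ≤ E := by
    intro g hg
    rw [hG, Finset.mem_filter, Finset.mem_range] at hg
    have hgN : (N : ℝ) ≤ 2 * g := by exact_mod_cast hg.2
    rw [ES_inter (f := fun A => ind (2 * (#A : ℝ) ≤ ρ * #(range g)))
      (Finset.range_subset_range.2 (by omega))]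
    refine (hL ρ hρ0 hρ1' (range g)).trans ?_
    refine hexp _ ?_
    rw [Finset.card_range]
    nlinarith
  have hb2 : ∀ g ∈ G, 𝔼 a : Fin t → Fin k, ind (⌈ρ * g / 2⌉₊ ≤ lp (mt (wn a) b) 0 0 t g) ≤ E := by
    intro g hg
    rw [hG, Finset.mem_filter, Finset.mem_range] at hg
    have hgN : (N : ℝ) ≤ 2 * g := by exact_mod_cast hg.2
    have hg0 : (0 : ℝ) < g := by linarith
    set m : ℕ := ⌈ρ * g / 2⌉₊ with hm
    have hm1 : ρ * g / 2 ≤ m := Nat.le_ceil _
    have hm0 : 0 < m := Nat.ceil_pos.2 (by positivity)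
    have hm0' : (0 : ℝ) < m := by exact_mod_cast hm0
    refine (first_moment_exp hkpos t b 0 0 t g m hm0).trans ?_
    have hbase : Real.exp 2 * t * g / ((m : ℝ) ^ 2 * k) ≤ Real.exp (-1) := by
      rw [div_le_iff₀ (by positivity)]
      have e1 : Real.exp 2 = Real.exp (-1) * Real.exp 3 := by
        rw [← Real.exp_add]; norm_num
      rw [e1]
      have e2 : Real.exp 3 * (t * g) ≤ (m : ℝ) ^ 2 * k := by
        have f1 : (ρ * g / 2) ^ 2 ≤ (m : ℝ) ^ 2 := pow_le_pow_left₀ (by positivity) hm1 2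
        have f2 : (ρ * g / 2) ^ 2 * k ≤ (m : ℝ) ^ 2 * k := mul_le_mul_of_nonneg_right f1 hk0.le
        have f3 : ρ ^ 2 * k * N * g ≤ ρ ^ 2 * k * (2 * g) * g := by
          have : 0 ≤ ρ ^ 2 * k := by positivity
          nlinarith [mul_le_mul_of_nonneg_left hgN this]
        have f4 : 200 * (t : ℝ) * g ≤ ρ ^ 2 * k * N * g := mul_le_mul_of_nonneg_right ht hg0.le
        have f5 : Real.exp 3 * (t * g) ≤ 25 * (t * g) :=
          mul_le_mul_of_nonneg_right exp3_le (by positivity)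
        nlinarith
      calc Real.exp (-1) * Real.exp 3 * t * g = Real.exp (-1) * (Real.exp 3 * (t * g)) := by ring
        _ ≤ _ := mul_le_mul_of_nonneg_left e2 (Real.exp_pos _).le
    calc (Real.exp 2 * t * g / ((m : ℝ) ^ 2 * k)) ^ m ≤ Real.exp (-1) ^ m :=
          pow_le_pow_left₀ (by positivity) hbase m
      _ = Real.exp (-(m : ℝ)) := by
          rw [← Real.exp_nat_mul]; congr 1; ring
      _ ≤ E := hexp _ (by nlinarith)
  calc 𝔼 a : Fin t → Fin k, ES ρ (range N) (fun A =>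
        ind (∃ g ∈ ZZ (uu (wn a) b t) A 0 N, N ≤ 2 * g))
      ≤ 𝔼 a : Fin t → Fin k, ES ρ (range N) (fun A =>
        ∑ g ∈ G, (ind (2 * (#(A ∩ range g) : ℝ) ≤ ρ * #(range g)) +
          ind (⌈ρ * g / 2⌉₊ ≤ lp (mt (wn a) b) 0 0 t g))) :=
        Finset.expect_le_expect fun a _ => ES_mono hρ0.le hρ1'.le fun A _ => hpt a A
    _ = ∑ g ∈ G, (ES ρ (range N) (fun A => ind (2 * (#(A ∩ range g) : ℝ) ≤ ρ * #(range g))) +
          𝔼 a : Fin t → Fin k, ind (⌈ρ * g / 2⌉₊ ≤ lp (mt (wn a) b) 0 0 t g)) := by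
        simp only [ES_sum, ES_add, ES_const]
        rw [Finset.expect_sum_comm]
        refine Finset.sum_congr rfl fun g _ => ?_
        rw [Finset.expect_add_distrib, Fintype.expect_const]
    _ ≤ ∑ g ∈ G, (E + E) := Finset.sum_le_sum fun g hg => add_le_add (hb1 g hg) (hb2 g hg)
    _ = #G * (2 * E) := by rw [Finset.sum_const, nsmul_eq_mul]; ring
    _ ≤ (2 * (k : ℝ) ^ 6) * (2 * E) := by
        refine mul_le_mul_of_nonneg_right ?_ (by positivity)
        have h1 : #G ≤ N + 1 := (Finset.card_filter_le _ _).trans (by rw [Finset.card_range])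
        have h2 : #G ≤ 2 * k ^ 6 := by
          have : 1 ≤ k ^ 6 := Nat.one_le_pow _ _ hkpos
          omega
        exact_mod_cast h2
    _ = 4 * (k : ℝ) ^ 6 * E := by ring
    _ ≤ 1 / (k : ℝ) ^ 20 := hk

end Pool.Agent.LCS13
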