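import Pool.Agent.Work.MP_bec1e1_pr_h13.FM
import Pool.Agent.Work.MP_bec1e1_pr_h13.SYS
import Pool.Agent.Work.MP_bec1e1_pr_h13.Interface

/-!
# TYP: the typical environment
-/

open Finset BigOperators Filter
open scoped Classical

namespace Pool.Agent.LCS13

/-! ### One block: Chebyshev -/

theorem expect_eq_letter {k : ℕ} (v : Fin k) : 𝔼 z : Fin k, ind (z = v) = 1 / k := by
  rw [Fintype.expect_eq_sum_div_card, Fintype.card_fin, Finset.sum_eq_single v]
  · rw [ind_true rfl]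
  · intro z _ hz; exact ind_false hz
  · intro h; exact absurd (Finset.mem_univ v) h

/-- Centered match indicator. -/
noncomputable def cmi (k : ℕ) {t N : ℕ} (a : Fin t → Fin k) (b : Fin N → Fin k) (x : Fin t)
    (y : Fin N) : ℝ := ind (a x = b y) - 1 / k

theorem cmi_comm (k : ℕ) {t N : ℕ} (a : Fin t → Fin k) (b : Fin N → Fin k) (x : Fin t)
    (y : Fin N) : cmi k a b x y = cmi k b a y x := by
  unfold cmi
  have : (a x = b y) = (b y = a x) := propext eq_comm
  rw [this]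

theorem cmi_cov_row {k : ℕ} (hk : 0 < k) {t N : ℕ} (x x' : Fin t) (y y' : Fin N) (hx : x ≠ x') :
    𝔼 a : Fin t → Fin k, 𝔼 b : Fin N → Fin k, cmi k a b x y * cmi k a b x' y' = 0 := by
  have : Nonempty (Fin k) := ⟨⟨0, hk⟩⟩
  rw [expect_resample x]
  refine Finset.expect_eq_zero fun a _ => ?_
  rw [Finset.expect_comm]
  refine Finset.expect_eq_zero fun b _ => ?_
  have h1 : ∀ z, cmi k (Function.update a x z) b x y * cmi k (Function.update a x z) b x' y' =
      (ind (z = b y) - 1 / k) * cmi k a b x' y' := by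
    intro z
    unfold cmi
    rw [Function.update_self, Function.update_of_ne hx.symm]
  simp only [h1]
  rw [← Finset.expect_mul, Finset.expect_sub_distrib, expect_eq_letter, Fintype.expect_const]
  ring

theorem cmi_cov {k : ℕ} (hk : 0 < k) {t N : ℕ} (p p' : Fin t × Fin N) (hp : p ≠ p') :
    𝔼 a : Fin t → Fin k, 𝔼 b : Fin N → Fin k, cmi k a b p.1 p.2 * cmi k a b p'.1 p'.2 = 0 := by
  by_cases h1 : p.1 = p'.1
  · have h2 : p.2 ≠ p'.2 := fun h2 => hp (Prod.ext h1 h2)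
    rw [Finset.expect_comm]
    have h3 := cmi_cov_row hk p.2 p'.2 p.1 p'.1 h2
    rw [← h3]
    refine Finset.expect_congr rfl fun b _ => Finset.expect_congr rfl fun a _ => ?_
    rw [cmi_comm k a b, cmi_comm k a b p'.1]
  · exact cmi_cov_row hk _ _ _ _ h1

theorem cmi_var {k : ℕ} (hk : 0 < k) {t N : ℕ} (x : Fin t) (y : Fin N) :
    𝔼 a : Fin t → Fin k, 𝔼 b : Fin N → Fin k, cmi k a b x y * cmi k a b x y ≤ 1 / k := by
  have : Nonempty (Fin k) := ⟨⟨0, hk⟩⟩
  have hk' : (0 : ℝ) < k := by exact_mod_cast hk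
  have h0 : 𝔼 a : Fin t → Fin k, 𝔼 b : Fin N → Fin k, ind (a x = b y) = 1 / k := by
    rw [expect_resample x]
    have h1 : ∀ a : Fin t → Fin k, 𝔼 z : Fin k, 𝔼 b : Fin N → Fin k,
        ind ((Function.update a x z) x = b y) = 1 / k := by
      intro a
      rw [Finset.expect_comm]
      simp only [Function.update_self, expect_eq_letter]
      rw [Fintype.expect_const]
    simp only [h1]
    rw [Fintype.expect_const]
  have h2 : ∀ (a : Fin t → Fin k) (b : Fin N → Fin k), cmi k a b x y * cmi k a b x y =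
      (1 - 2 / k) * ind (a x = b y) + 1 / k * (1 / k) := by
    intro a b
    unfold cmi
    by_cases h : a x = b y
    · rw [ind_true h]; ring
    · rw [ind_false h]; ring
  simp only [h2]
  rw [show (𝔼 a : Fin t → Fin k, 𝔼 b : Fin N → Fin k,
      ((1 - 2 / (k : ℝ)) * ind (a x = b y) + 1 / (k : ℝ) * (1 / k))) =
      (1 - 2 / (k : ℝ)) * (𝔼 a : Fin t → Fin k, 𝔼 b : Fin N → Fin k, ind (a x = b y)) +
        1 / (k : ℝ) * (1 / k) by
    simp only [Finset.expect_add_distrib, ← Finset.mul_expect, Fintype.expect_const], h0]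
  have : 0 ≤ 1 / (k : ℝ) * (1 / k) := by positivity
  have h3 : (1 - 2 / (k : ℝ)) * (1 / k) + 1 / (k : ℝ) * (1 / k) =
      1 / k - 1 / (k : ℝ) * (1 / k) := by ring
  rw [h3]
  linarith

theorem expect₂_add {k t N : ℕ} (F G : (Fin t → Fin k) → (Fin N → Fin k) → ℝ) :
    𝔼 a : Fin t → Fin k, 𝔼 b : Fin N → Fin k, (F a b + G a b) =
    𝔼 a : Fin t → Fin k, 𝔼 b : Fin N → Fin k, F a b +
      𝔼 a : Fin t → Fin k, 𝔼 b : Fin N → Fin k, G a b := by
  simp only [Finset.expect_add_distrib]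

theorem expect₂_sum {k t N : ℕ} {κ : Type*} (s : Finset κ)
    (F : κ → (Fin t → Fin k) → (Fin N → Fin k) → ℝ) :
    𝔼 a : Fin t → Fin k, 𝔼 b : Fin N → Fin k, (∑ x ∈ s, F x a b) =
    ∑ x ∈ s, 𝔼 a : Fin t → Fin k, 𝔼 b : Fin N → Fin k, F x a b := by
  rw [← Finset.expect_sum_comm]
  refine Finset.expect_congr rfl fun a _ => ?_
  rw [Finset.expect_sum_comm]

theorem expect₂_le {k t N : ℕ} {F G : (Fin t → Fin k) → (Fin N → Fin k) → ℝ}
    (h : ∀ a b, F a b ≤ G a b) :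
    𝔼 a : Fin t → Fin k, 𝔼 b : Fin N → Fin k, F a b ≤
      𝔼 a : Fin t → Fin k, 𝔼 b : Fin N → Fin k, G a b :=
  expect_le fun a => expect_le fun b => h a b

/-- A block with at least `100 k` pairs has a match with probability at least `99/100`. -/
theorem block_empty {k : ℕ} (hk : 0 < k) {t N : ℕ} (R : Finset (Fin t)) (C : Finset (Fin N))
    (h : 100 * k ≤ #R * #C) :
    𝔼 a : Fin t → Fin k, 𝔼 b : Fin N → Fin k, ind (∀ x ∈ R, ∀ y ∈ C, a x ≠ b y) ≤ 1 / 100 := by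
  have hk' : (0 : ℝ) < k := by exact_mod_cast hk
  have h' : (100 : ℝ) * k ≤ #R * #C := by exact_mod_cast h
  set μ : ℝ := #R * #C / k with hμ
  have hμ1 : 100 ≤ μ := by
    rw [hμ, le_div_iff₀ hk']; exact h'
  have h1 : ∀ (a : Fin t → Fin k) (b : Fin N → Fin k),
      μ ^ 2 * ind (∀ x ∈ R, ∀ y ∈ C, a x ≠ b y) ≤
        ∑ p ∈ R ×ˢ C, ∑ p' ∈ R ×ˢ C, cmi k a b p.1 p.2 * cmi k a b p'.1 p'.2 := by
    intro a b
    rw [← Finset.sum_mul_sum, ← sq]
    by_cases h2 : ∀ x ∈ R, ∀ y ∈ C, a x ≠ b y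
    · rw [ind_true h2, mul_one]
      have h3 : ∑ p ∈ R ×ˢ C, cmi k a b p.1 p.2 = - μ := by
        have h4 : ∀ p ∈ R ×ˢ C, cmi k a b p.1 p.2 = -(1 / k) := by
          intro p hp
          rw [Finset.mem_product] at hp
          unfold cmi
          rw [ind_false (h2 _ hp.1 _ hp.2)]
          ring
        rw [Finset.sum_congr rfl h4, Finset.sum_const, Finset.card_product, hμ]
        push_cast [nsmul_eq_mul]
        ring
      rw [h3]
      apply le_of_eq
      ring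
    · rw [ind_false h2, mul_zero]
      positivity
  have h2 := expect₂_le h1
  rw [expect₂_sum] at h2
  simp only [expect₂_sum] at h2
  have h3 : ∀ p ∈ R ×ˢ C, ∑ p' ∈ R ×ˢ C, 𝔼 a : Fin t → Fin k, 𝔼 b : Fin N → Fin k,
      cmi k a b p.1 p.2 * cmi k a b p'.1 p'.2 ≤ 1 / k := by
    intro p hp
    rw [Finset.sum_eq_single_of_mem p hp]
    · exact cmi_var hk _ _
    · intro p' _ hp'
      exact cmi_cov hk p p' hp'.symm
  have h4 := h2.trans (Finset.sum_le_sum h3)
  rw [Finset.sum_const, Finset.card_product] at h4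
  simp only [← Finset.mul_expect] at h4
  set P : ℝ := 𝔼 a : Fin t → Fin k, 𝔼 b : Fin N → Fin k, ind (∀ x ∈ R, ∀ y ∈ C, a x ≠ b y) with hP
  have h5 : μ ^ 2 * P ≤ μ := by
    refine h4.trans (le_of_eq ?_)
    rw [hμ]
    push_cast [nsmul_eq_mul]
    ring
  have h6 : μ * P ≤ 1 := by
    have : μ * (μ * P) ≤ μ * 1 := by nlinarith
    exact le_of_mul_le_mul_left this (by linarith)
  rw [le_div_iff₀ (by norm_num : (0 : ℝ) < 100)]
  have hP0 : 0 ≤ P := expect_nn fun a => expect_nn fun b => ind_nonneg _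
  nlinarith

/-! ### Many blocks on the diagonal -/

theorem lp_pos_of_match {m : ℕ → ℕ → Prop} {i j r c x y : ℕ} (hx : i ≤ x) (hx' : x < i + r)
    (hy : j ≤ y) (hy' : y < j + c) (hm : m x y) : 1 ≤ lp m i j r c := by
  obtain ⟨x', rfl⟩ := Nat.exists_eq_add_of_le hx
  obtain ⟨y', rfl⟩ := Nat.exists_eq_add_of_le hy
  have h1 := lp_through (i := i) (j := j) x' (r - x' - 1) y' (c - y' - 1) hm
  have h2 : x' + 1 + (r - x' - 1) = r := by omega
  have h3 : y' + 1 + (c - y' - 1) = c := by omega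
  rw [h2, h3] at h1
  omega

/-- The block number `u` has no match. -/
noncomputable def em {k t N : ℕ} (a : Fin t → Fin k) (b : Fin N → Fin k) (i j r0 h0 u : ℕ) : ℝ :=
  ind (lp (mt (wn a) (wn b)) (i + u * r0) (j + u * h0) r0 h0 = 0)

theorem em_mean {k : ℕ} (hk : 0 < k) {t N : ℕ} (i j r0 h0 u : ℕ) (hr : i + u * r0 + r0 ≤ t)
    (hh : j + u * h0 + h0 ≤ N) (h : 100 * k ≤ r0 * h0) :
    𝔼 a : Fin t → Fin k, 𝔼 b : Fin N → Fin k, em a b i j r0 h0 u ≤ 1 / 100 := by
  set R : Finset (Fin t) := univ.filter fun x : Fin t => i + u * r0 ≤ (x : ℕ) ∧ (x : ℕ) < i + u * r0 + r0 with hR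
  set C : Finset (Fin N) := univ.filter fun y : Fin N => j + u * h0 ≤ (y : ℕ) ∧ (y : ℕ) < j + u * h0 + h0 with hC
  have card_aux : ∀ (n p l : ℕ), p + l ≤ n →
      #((univ : Finset (Fin n)).filter fun x : Fin n => p ≤ (x : ℕ) ∧ (x : ℕ) < p + l) = l := by
    intro n p l hl
    have h1 : ((univ : Finset (Fin n)).filter fun x : Fin n => p ≤ (x : ℕ) ∧ (x : ℕ) < p + l).map
        Fin.valEmbedding = Ico p (p + l) := by
      ext x
      simp only [Finset.mem_map, Finset.mem_filter, Finset.mem_univ, true_and,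
        Fin.valEmbedding_apply, Finset.mem_Ico]
      constructor
      · rintro ⟨y, hy, rfl⟩; exact hy
      · intro hx; exact ⟨⟨x, by omega⟩, hx, rfl⟩
    rw [← Finset.card_map, h1, Nat.card_Ico]
    omega
  have hRc : #R = r0 := card_aux t (i + u * r0) r0 hr
  have hCc : #C = h0 := card_aux N (j + u * h0) h0 hh
  refine le_trans ?_ (block_empty hk R C (by rw [hRc, hCc]; exact h))
  refine expect₂_le fun a b => ind_mono ?_
  intro h0' x hx y hy hxy
  simp only [hR, hC, Finset.mem_filter, Finset.mem_univ, true_and] at hx hy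
  have h1 : mt (wn a) (wn b) x y := by
    refine ⟨(a x : ℕ), ?_, ?_⟩
    · unfold wn; rw [dif_pos x.2]
    · unfold wn; rw [dif_pos y.2, hxy]
  have h2 := lp_pos_of_match hx.1 hx.2 hy.1 hy.2 h1
  omega

theorem wn_congr_of {n k : ℕ} {a a' : Fin n → Fin k} {i : ℕ}
    (h : ∀ hi : i < n, a ⟨i, hi⟩ = a' ⟨i, hi⟩) : wn a i = wn a' i := by
  unfold wn
  by_cases hi : i < n
  · rw [dif_pos hi, dif_pos hi, h hi]
  · rw [dif_neg hi, dif_neg hi]

theorem em_congr {k t N : ℕ} {a a' : Fin t → Fin k} {b b' : Fin N → Fin k} {i j r0 h0 u : ℕ}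
    (ha : ∀ x : Fin t, i + u * r0 ≤ x → (x : ℕ) < i + u * r0 + r0 → a x = a' x)
    (hb : ∀ y : Fin N, j + u * h0 ≤ y → (y : ℕ) < j + u * h0 + h0 → b y = b' y) :
    em a b i j r0 h0 u = em a' b' i j r0 h0 u := by
  unfold em
  rw [lp_congr (m' := mt (wn a') (wn b'))]
  intro x y h1 h2 h3 h4
  unfold mt
  rw [wn_congr_of (a := a) (a' := a') fun hi => ha ⟨x, hi⟩ h1 h2,
    wn_congr_of (a := b) (a' := b') fun hi => hb ⟨y, hi⟩ h3 h4]

theorem em_prod {k : ℕ} (hk : 0 < k) {t N : ℕ} (i j r0 h0 : ℕ) (h : 100 * k ≤ r0 * h0) (m : ℕ)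
    (hr : i + m * r0 ≤ t) (hh : j + m * h0 ≤ N) :
    𝔼 a : Fin t → Fin k, 𝔼 b : Fin N → Fin k, ∏ u ∈ range m, (1 + 100 * em a b i j r0 h0 u) ≤
      2 ^ m := by
  have : Nonempty (Fin k) := ⟨⟨0, hk⟩⟩
  induction m with
  | zero => simp
  | succ m ih =>
    have e1 : (m + 1) * r0 = m * r0 + r0 := by ring
    have e2 : (m + 1) * h0 = m * h0 + h0 := by ring
    rw [e1] at hr
    rw [e2] at hh
    simp only [Finset.prod_range_succ]
    rw [expect_indep₂ {x : Fin t | (x : ℕ) < i + m * r0} {y : Fin N | (y : ℕ) < j + m * h0}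
      (fun a b => ∏ u ∈ range m, (1 + 100 * em a b i j r0 h0 u))
      (fun a b => 1 + 100 * em a b i j r0 h0 m), pow_succ]
    · refine mul_le_mul (ih (by omega) (by omega)) ?_ ?_ (by positivity)
      · rw [show (𝔼 a : Fin t → Fin k, 𝔼 b : Fin N → Fin k, (1 + 100 * em a b i j r0 h0 m)) =
          1 + 100 * 𝔼 a : Fin t → Fin k, 𝔼 b : Fin N → Fin k, em a b i j r0 h0 m by
          simp only [Finset.expect_add_distrib, ← Finset.mul_expect, Fintype.expect_const]]
        have := em_mean hk (t := t) (N := N) i j r0 h0 m (by omega) (by omega) h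
        linarith
      · refine expect_nn fun a => expect_nn fun b => ?_
        have : 0 ≤ em a b i j r0 h0 m := ind_nonneg _
        linarith
    · intro a a' b b' ha hb
      refine Finset.prod_congr rfl fun u hu => ?_
      rw [Finset.mem_range] at hu
      have h1 : u * r0 + r0 ≤ m * r0 := by
        calc u * r0 + r0 = (u + 1) * r0 := by ring
          _ ≤ m * r0 := Nat.mul_le_mul_right _ hu
      have h2 : u * h0 + h0 ≤ m * h0 := by
        calc u * h0 + h0 = (u + 1) * h0 := by ring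
          _ ≤ m * h0 := Nat.mul_le_mul_right _ hu
      rw [em_congr (a' := a') (b' := b')]
      · intro x _ hx
        exact ha x (by simp only [Set.mem_ofPred_eq]; omega)
      · intro y _ hy
        exact hb y (by simp only [Set.mem_ofPred_eq]; omega)
    · intro a a' b b' ha hb
      rw [em_congr (a' := a') (b' := b')]
      · intro x hx _
        exact ha x (by simp only [Set.mem_ofPred_eq]; omega)
      · intro y hy _
        exact hb y (by simp only [Set.mem_ofPred_eq]; omega)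

theorem lp_ge_blocks {k t N : ℕ} (a : Fin t → Fin k) (b : Fin N → Fin k) (i j r0 h0 m : ℕ) :
    m ≤ lp (mt (wn a) (wn b)) i j (m * r0) (m * h0) +
      #{u ∈ range m | lp (mt (wn a) (wn b)) (i + u * r0) (j + u * h0) r0 h0 = 0} := by
  induction m with
  | zero => simp
  | succ m ih =>
    have h1 := lp_superadd (mt (wn a) (wn b)) i j (m * r0) r0 (m * h0) h0
    have e1 : (m + 1) * r0 = m * r0 + r0 := by ring
    have e2 : (m + 1) * h0 = m * h0 + h0 := by ring
    rw [e1, e2, Finset.range_add_one, Finset.filter_insert]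
    split_ifs with h2
    · rw [Finset.card_insert_of_notMem (by simp)]
      omega
    · omega

theorem few_blocks {k : ℕ} (hk : 0 < k) {t N : ℕ} (i j r0 h0 : ℕ) (h : 100 * k ≤ r0 * h0) (m : ℕ)
    (hr : i + m * r0 ≤ t) (hh : j + m * h0 ≤ N) :
    𝔼 a : Fin t → Fin k, 𝔼 b : Fin N → Fin k,
      ind (2 * lp (mt (wn a) (wn b)) i j (m * r0) (m * h0) < m) ≤ (1 / 5) ^ m := by
  have h1 : ∀ (a : Fin t → Fin k) (b : Fin N → Fin k),
      10 ^ m * ind (2 * lp (mt (wn a) (wn b)) i j (m * r0) (m * h0) < m) ≤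
        ∏ u ∈ range m, (1 + 100 * em a b i j r0 h0 u) := by
    intro a b
    have h2 : ∏ u ∈ range m, (1 + 100 * em a b i j r0 h0 u) =
        101 ^ #{u ∈ range m | lp (mt (wn a) (wn b)) (i + u * r0) (j + u * h0) r0 h0 = 0} := by
      have h3 : ∀ u ∈ range m, (1 + 100 * em a b i j r0 h0 u) =
          if lp (mt (wn a) (wn b)) (i + u * r0) (j + u * h0) r0 h0 = 0 then 101 else 1 := by
        intro u _
        unfold em ind
        split_ifs <;> norm_num
      rw [Finset.prod_congr rfl h3, Finset.prod_ite]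
      simp
    rw [h2]
    by_cases h4 : 2 * lp (mt (wn a) (wn b)) i j (m * r0) (m * h0) < m
    · rw [ind_true h4, mul_one]
      have h5 := lp_ge_blocks a b i j r0 h0 m
      set n := #{u ∈ range m | lp (mt (wn a) (wn b)) (i + u * r0) (j + u * h0) r0 h0 = 0} with hn
      calc (10 : ℝ) ^ m ≤ 10 ^ (2 * n) := pow_le_pow_right₀ (by norm_num) (by omega)
        _ = 100 ^ n := by rw [pow_mul]; norm_num
        _ ≤ 101 ^ n := pow_le_pow_left₀ (by norm_num) (by norm_num) n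
    · rw [ind_false h4, mul_zero]
      positivity
  have h2 := (expect₂_le h1).trans (em_prod hk i j r0 h0 h m hr hh)
  simp only [← Finset.mul_expect] at h2
  have h3 : (1 / 5 : ℝ) ^ m = 2 ^ m / 10 ^ m := by
    rw [← div_pow]; norm_num
  rw [h3, le_div_iff₀ (by positivity), mul_comm]
  exact h2

/-! ### Number of ones -/

theorem ES_two_pow (ρ : ℝ) (I : Finset ℕ) : ES ρ I (fun A => 2 ^ #A) = (1 + ρ) ^ #I := by
  induction I using Finset.induction_on with
  | empty => rw [ES_empty]; simp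
  | insert x I hx ih =>
    rw [ES_insert hx, ih, Finset.card_insert_of_notMem hx]
    have h1 : ES ρ I (fun A => (2 : ℝ) ^ #(insert x A)) = 2 * ES ρ I (fun A => 2 ^ #A) := by
      rw [← ES_mul_left]
      refine ES_congr fun A hA => ?_
      rw [Finset.card_insert_of_notMem fun h => hx (hA h), pow_succ]
      ring
    rw [h1, ih, pow_succ]
    ring

theorem many_ones {ρ : ℝ} (h0 : 0 ≤ ρ) (h1 : ρ ≤ 1) (N p h m : ℕ) (hp : p + h ≤ N)
    (hm : 8 * (ρ * h) ≤ m) :
    ES ρ (range N) (fun A => ind (m < 4 * cnt A p (p + h))) ≤ Real.exp (-(m / 25)) := by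
  have h2 : ∀ A : Finset ℕ, ind (m < 4 * cnt A p (p + h)) ≤
      Real.exp (-(m * (Real.log 2 / 4))) * 2 ^ #(A ∩ Ico p (p + h)) := by
    intro A
    rw [← cnt_eq_card_inter]
    by_cases h3 : m < 4 * cnt A p (p + h)
    · rw [ind_true h3]
      have h4 : (2 : ℝ) ^ cnt A p (p + h) = Real.exp (cnt A p (p + h) * Real.log 2) := by
        rw [Real.exp_nat_mul, Real.exp_log (by norm_num)]
      rw [h4, ← Real.exp_add, ← Real.exp_zero]
      apply Real.exp_le_exp.2
      have h5 : (m : ℝ) ≤ 4 * cnt A p (p + h) := by exact_mod_cast h3.le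
      have h6 : 0 < Real.log 2 := Real.log_pos (by norm_num)
      nlinarith
    · rw [ind_false h3]
      positivity
  have h3 : ES ρ (range N) (fun A => ind (m < 4 * cnt A p (p + h))) ≤
      ES ρ (range N) (fun A => Real.exp (-(m * (Real.log 2 / 4))) *
        2 ^ #(A ∩ Ico p (p + h))) := ES_mono h0 h1 fun A _ => h2 A
  refine h3.trans ?_
  rw [ES_mul_left, ES_inter (J := range N) (I := Ico p (p + h)) (f := fun A => 2 ^ #A),
    ES_two_pow, Nat.card_Ico]
  · have h4 : p + h - p = h := by omega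
    rw [h4]
    have h5 : (1 + ρ) ^ h ≤ Real.exp (h * ρ) := by
      rw [Real.exp_nat_mul]
      refine pow_le_pow_left₀ (by linarith) ?_ h
      have := Real.add_one_le_exp ρ
      linarith
    calc Real.exp (-(m * (Real.log 2 / 4))) * (1 + ρ) ^ h
        ≤ Real.exp (-(m * (Real.log 2 / 4))) * Real.exp (h * ρ) :=
          mul_le_mul_of_nonneg_left h5 (Real.exp_nonneg _)
      _ ≤ Real.exp (-(m / 25)) := by
        rw [← Real.exp_add]
        apply Real.exp_le_exp.2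
        have h6 := Real.log_two_gt_d9
        have h7 : (0 : ℝ) ≤ m := Nat.cast_nonneg m
        nlinarith
  · intro x hx
    rw [Finset.mem_Ico] at hx
    rw [Finset.mem_range]
    omega

/-! ### Assembly -/

theorem typ_event {k t N : ℕ} (a : Fin t → Fin k) (b : Fin N → Fin k) (A : Finset ℕ)
    (f j τ h r0 m y c : ℕ) (hm : m * r0 ≤ τ) (hy : 4 * y ≤ m + 3) :
    ind ((lp (mt (wn a) (wn b)) f (j + 1) τ h : ℤ) - cnt A (j + 1) (j + 1 + h) ≤
      lp (mt (wn a) (wn b)) (f + 1) (j + 1) (τ - 1) c) ≤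
    ind (2 * lp (mt (wn a) (wn b)) f (j + 1) (m * r0) h < m) +
      ind (m < 4 * cnt A (j + 1) (j + 1 + h)) +
      ind (y ≤ lp (mt (wn a) (wn b)) (f + 1) (j + 1) (τ - 1) c) := by
  have h1 : lp (mt (wn a) (wn b)) f (j + 1) (m * r0) h ≤ lp (mt (wn a) (wn b)) f (j + 1) τ h :=
    lp_mono hm le_rfl
  have h0 := ind_nonneg (2 * lp (mt (wn a) (wn b)) f (j + 1) (m * r0) h < m)
  have h0' := ind_nonneg (m < 4 * cnt A (j + 1) (j + 1 + h))
  have h0'' := ind_nonneg (y ≤ lp (mt (wn a) (wn b)) (f + 1) (j + 1) (τ - 1) c)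
  have hle := ind_le_one ((lp (mt (wn a) (wn b)) f (j + 1) τ h : ℤ) -
    cnt A (j + 1) (j + 1 + h) ≤ lp (mt (wn a) (wn b)) (f + 1) (j + 1) (τ - 1) c)
  by_cases h2 : 2 * lp (mt (wn a) (wn b)) f (j + 1) (m * r0) h < m
  · rw [ind_true h2]
    linarith
  by_cases h3 : m < 4 * cnt A (j + 1) (j + 1 + h)
  · rw [ind_true h3]
    linarith
  by_cases h4 : y ≤ lp (mt (wn a) (wn b)) (f + 1) (j + 1) (τ - 1) c
  · rw [ind_true h4]
    linarith
  · rw [ind_false (P := (lp (mt (wn a) (wn b)) f (j + 1) τ h : ℤ) -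
      cnt A (j + 1) (j + 1 + h) ≤ lp (mt (wn a) (wn b)) (f + 1) (j + 1) (τ - 1) c)]
    · linarith
    · intro h5
      omega

theorem typ_prob {k t N : ℕ} (hk : 0 < k) {ρ : ℝ} (hρ0 : 0 ≤ ρ) (hρ1 : ρ ≤ 1)
    (f j τ r0 h0 m y c : ℕ) (hft : f + τ ≤ t) (hτ : m * r0 ≤ τ) (hN : j + 1 + m * h0 ≤ N)
    (hrh : 100 * k ≤ r0 * h0) (hm : 8 * (ρ * ((m * h0 : ℕ) : ℝ)) ≤ m) (hy0 : 0 < y)
    (hy : 4 * y ≤ m + 3) (hy' : m ≤ 4 * y)
    (hr : Real.exp 2 * ((τ - 1 : ℕ) : ℝ) * c / ((y : ℝ) ^ 2 * k) ≤ 1 / 2) :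
    𝔼 a : Fin t → Fin k, 𝔼 b : Fin N → Fin k, ES ρ (range N) (fun A => ind (
      (lp (mt (wn a) (wn b)) f (j + 1) τ (m * h0) : ℤ) - cnt A (j + 1) (j + 1 + m * h0) ≤
        lp (mt (wn a) (wn b)) (f + 1) (j + 1) (τ - 1) c)) ≤ 3 * Real.exp (-(m / 25)) := by
  have : Nonempty (Fin k) := ⟨⟨0, hk⟩⟩
  have h1 : 𝔼 a : Fin t → Fin k, 𝔼 b : Fin N → Fin k, ES ρ (range N) (fun A => ind (
      (lp (mt (wn a) (wn b)) f (j + 1) τ (m * h0) : ℤ) - cnt A (j + 1) (j + 1 + m * h0) ≤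
        lp (mt (wn a) (wn b)) (f + 1) (j + 1) (τ - 1) c)) ≤
      𝔼 a : Fin t → Fin k, 𝔼 b : Fin N → Fin k,
        (ind (2 * lp (mt (wn a) (wn b)) f (j + 1) (m * r0) (m * h0) < m) +
          ES ρ (range N) (fun A => ind (m < 4 * cnt A (j + 1) (j + 1 + m * h0))) +
          ind (y ≤ lp (mt (wn a) (wn b)) (f + 1) (j + 1) (τ - 1) c)) := by
    refine expect₂_le fun a b => ?_
    refine (ES_mono hρ0 hρ1 fun A _ =>
      typ_event a b A f j τ (m * h0) r0 m y c hτ hy).trans (le_of_eq ?_)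
    rw [ES_add, ES_add, ES_const, ES_const]
  refine h1.trans ?_
  rw [expect₂_add, expect₂_add]
  have h2 := few_blocks hk (t := t) (N := N) f (j + 1) r0 h0 hrh m (by omega) (by omega)
  have h3 := many_ones hρ0 hρ1 N (j + 1) (m * h0) m (by omega) hm
  have h4 : 𝔼 a : Fin t → Fin k, 𝔼 b : Fin N → Fin k,
      ind (y ≤ lp (mt (wn a) (wn b)) (f + 1) (j + 1) (τ - 1) c) ≤ (1 / 2) ^ y := by
    rw [Finset.expect_comm]
    have h5 : ∀ b : Fin N → Fin k, 𝔼 a : Fin t → Fin k,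
        ind (y ≤ lp (mt (wn a) (wn b)) (f + 1) (j + 1) (τ - 1) c) ≤ (1 / 2) ^ y := by
      intro b
      refine (first_moment_exp hk t (wn b) (f + 1) (j + 1) (τ - 1) c y hy0).trans ?_
      exact pow_le_pow_left₀ (by positivity) hr y
    calc _ ≤ 𝔼 b : Fin N → Fin k, (1 / 2 : ℝ) ^ y := expect_le h5
      _ = _ := by rw [Fintype.expect_const]
  have h5 : 𝔼 a : Fin t → Fin k, 𝔼 b : Fin N → Fin k,
      ES ρ (range N) (fun A => ind (m < 4 * cnt A (j + 1) (j + 1 + m * h0))) =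
      ES ρ (range N) (fun A => ind (m < 4 * cnt A (j + 1) (j + 1 + m * h0))) := by
    simp only [Fintype.expect_const]
  rw [h5]
  have h6 : (1 / 5 : ℝ) ^ m ≤ Real.exp (-(m / 25)) := by
    have e : Real.exp (-((m : ℝ) / 25)) = Real.exp (-(1 / 25)) ^ m := by
      rw [← Real.exp_nat_mul]; congr 1; ring
    rw [e]
    refine pow_le_pow_left₀ (by norm_num) ?_ m
    have := Real.add_one_le_exp (-(1 / 25 : ℝ))
    linarith
  have h7 : (1 / 2 : ℝ) ^ y ≤ Real.exp (-(m / 25)) := by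
    have e : Real.exp (-(4 * (y : ℝ) / 25)) = Real.exp (-(4 / 25)) ^ y := by
      rw [← Real.exp_nat_mul]; congr 1; ring
    have h8 : (1 / 2 : ℝ) ^ y ≤ Real.exp (-(4 * (y : ℝ) / 25)) := by
      rw [e]
      refine pow_le_pow_left₀ (by norm_num) ?_ y
      have := Real.add_one_le_exp (-(4 / 25 : ℝ))
      linarith
    refine h8.trans (Real.exp_le_exp.2 ?_)
    have : (m : ℝ) ≤ 4 * y := by exact_mod_cast hy'
    linarith
  linarith

theorem eventually_exp_small (c : ℝ) (hc : 0 < c) : ∀ᶠ k : ℕ in atTop,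
    3 * Real.exp (-(c * √k)) ≤ 1 / (k : ℝ) ^ 20 := by
  have h1 : Tendsto (fun x : ℝ => x ^ 40 * Real.exp (-x)) atTop (nhds 0) :=
    Real.tendsto_pow_mul_exp_neg_atTop_nhds_zero 40
  have h2 : Tendsto (fun k : ℕ => c * √(k : ℝ)) atTop atTop :=
    Tendsto.const_mul_atTop hc (Real.tendsto_sqrt_atTop.comp tendsto_natCast_atTop_atTop)
  have h3 := (h1.comp h2).eventually (gt_mem_nhds (show (0 : ℝ) < c ^ 40 / 3 by positivity))
  filter_upwards [h3, eventually_gt_atTop 0] with k hk hk0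
  simp only [Function.comp_apply] at hk
  have hk' : (0 : ℝ) < k := by exact_mod_cast hk0
  have h4 : (k : ℝ) ^ 20 = √(k : ℝ) ^ 40 := by
    rw [show (40 : ℕ) = 2 * 20 by norm_num, pow_mul, Real.sq_sqrt hk'.le]
  have h5 : 0 < √(k : ℝ) := Real.sqrt_pos.2 hk'
  rw [h4, le_div_iff₀ (by positivity)]
  rw [mul_pow] at hk
  have h6 : 0 < c ^ 40 := by positivity
  have h7 : c ^ 40 * (√(k : ℝ) ^ 40 * Real.exp (-(c * √(k : ℝ)))) < c ^ 40 * (1 / 3) := by
    calc _ = c ^ 40 * √(k : ℝ) ^ 40 * Real.exp (-(c * √(k : ℝ))) := by ring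
      _ < c ^ 40 / 3 := hk
      _ = _ := by ring
  have h8 := lt_of_mul_lt_mul_left h7 h6.le
  linarith

theorem stmt_Typ : Stmt_Typ := by
  intro c1 c2 hc1 hc2
  refine ⟨1 / (128 * 25600 ^ 2 * c2 ^ 2), by positivity, ?_⟩
  have hev1 : ∀ᶠ k : ℕ in atTop, 51200 * c2 + 1 / c2 + 2 ≤ √(k : ℝ) :=
    (Real.tendsto_sqrt_atTop.comp tendsto_natCast_atTop_atTop).eventually_ge_atTop _
  filter_upwards [hev1, eventually_exp_small (1 / (51200 * c2 * 25)) (by positivity),
    eventually_ge_atTop 3] with k hk1 hk2 hk3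
  intro ρ hρ1 hρ2 t N hN1 hN2 htN f j hf hj
  set s : ℝ := √(k : ℝ) with hs
  have hk0 : 0 < k := by omega
  have hkR : (0 : ℝ) < k := by exact_mod_cast hk0
  have hs0 : 0 < s := Real.sqrt_pos.2 hkR
  have hss : s * s = k := Real.mul_self_sqrt hkR.le
  have hc2' : 0 < 1 / c2 := by positivity
  have hs1 : 51200 * c2 ≤ s := by linarith
  have hs2 : 1 / c2 ≤ s := by linarith
  have hs3 : 1 ≤ c2 * s := by
    rw [div_le_iff₀ hc2] at hs2
    linarith
  have hρ0 : 0 < ρ := by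
    by_contra h
    push Not at h
    have : ρ * s ≤ 0 := mul_nonpos_of_nonpos_of_nonneg h hs0.le
    linarith
  have hρ1' : ρ ≤ 1 := by
    by_contra h
    push Not at h
    nlinarith
  -- the parameters
  set h0 : ℕ := ⌊s / (8 * c2)⌋₊ with hh0
  have hH1 : (h0 : ℝ) ≤ s / (8 * c2) := Nat.floor_le (by positivity)
  have hH2 : s / (8 * c2) < h0 + 1 := Nat.lt_floor_add_one _
  have hH3 : s / (16 * c2) ≤ h0 := by
    have h1 : (2 : ℝ) ≤ s / (8 * c2) := by
      rw [le_div_iff₀ (by positivity)]; nlinarith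
    have h2 : s / (16 * c2) = s / (8 * c2) / 2 := by field_simp; norm_num
    rw [h2]
    linarith
  have hH0 : (0 : ℝ) < h0 := lt_of_lt_of_le (by positivity) hH3
  have hH0' : 0 < h0 := by exact_mod_cast hH0
  set r0 : ℕ := 100 * k / h0 + 1 with hr0
  have hr1 : 100 * k ≤ r0 * h0 := by
    have h1 := Nat.div_add_mod (100 * k) h0
    have h2 := Nat.mod_lt (100 * k) hH0'
    have h3 : r0 * h0 = h0 * (100 * k / h0) + h0 := by rw [hr0]; ring
    rw [h3]; omega
  have hr2 : (r0 : ℝ) ≤ 3200 * c2 * s := by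
    have h1 : ((100 * k / h0 : ℕ) : ℝ) ≤ ((100 * k : ℕ) : ℝ) / h0 := Nat.cast_div_le
    have h2 : ((100 * k : ℕ) : ℝ) / h0 ≤ 1600 * c2 * s := by
      rw [div_le_iff₀ hH0]
      have h3 : s / (16 * c2) * (1600 * c2 * s) ≤ h0 * (1600 * c2 * s) :=
        mul_le_mul_of_nonneg_right hH3 (by positivity)
      have h4 : s / (16 * c2) * (1600 * c2 * s) = 100 * (s * s) := by field_simp; norm_num
      rw [h4, hss] at h3
      push_cast
      linarith
    have h3 : (r0 : ℝ) = ((100 * k / h0 : ℕ) : ℝ) + 1 := by rw [hr0]; push_cast; ring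
    rw [h3]
    linarith
  have hR0 : (0 : ℝ) < r0 := by rw [hr0]; positivity
  have hR0' : 0 < r0 := by exact_mod_cast hR0
  set τ : ℕ := t - f with hτ
  have hτ1 : (k : ℝ) ≤ 8 * τ := by
    have h1 : k < 8 * (k / 8 + 1) := by omega
    have h2 : k / 8 + 1 ≤ τ := by omega
    have h3 : k ≤ 8 * τ := by omega
    exact_mod_cast h3
  set m : ℕ := τ / r0 with hm
  have hmr : m * r0 ≤ τ := Nat.div_mul_le_self τ r0
  have hmr' : (m : ℝ) * r0 ≤ τ := by exact_mod_cast hmr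
  have hmlt : (τ : ℝ) < (m + 1) * r0 := by
    have h1 := Nat.div_add_mod τ r0
    have h2 := Nat.mod_lt τ hR0'
    have h3 : τ < (m + 1) * r0 := by
      have : (m + 1) * r0 = r0 * (τ / r0) + r0 := by rw [hm]; ring
      rw [this]; omega
    exact_mod_cast h3
  have hτ0 : (0 : ℝ) < τ := by linarith
  -- m ≥ τ / (6400 c2 s)
  have hm1 : (τ : ℝ) ≤ m * (6400 * c2 * s) := by
    have h1 : 2 * (r0 : ℝ) ≤ τ := by
      have : 8 * (2 * (r0 : ℝ)) ≤ 8 * τ := by nlinarith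
      linarith
    have h2 : (τ : ℝ) ≤ 2 * (m * r0) := by nlinarith
    have h3 : (m : ℝ) * r0 ≤ m * (3200 * c2 * s) :=
      mul_le_mul_of_nonneg_left hr2 (Nat.cast_nonneg m)
    linarith
  have hm2 : s ≤ m * (51200 * c2) := by
    have h1 : s * s ≤ s * (m * (51200 * c2)) := by nlinarith
    exact le_of_mul_le_mul_left h1 hs0
  have hm0 : 0 < m := by
    rcases Nat.eq_zero_or_pos m with h | h
    · rw [h] at hm2; simp at hm2; linarith
    · exact h
  -- the columns fit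
  have hfit : (m : ℝ) * h0 * 1280000 ≤ N := by
    have h1 : (t : ℝ) * 200 ≤ c2 ^ 2 * N := by
      have h2 : ρ ^ 2 * k ≤ c2 ^ 2 := by
        have h3 : ρ ^ 2 * k = (ρ * s) ^ 2 := by rw [← hss]; ring
        rw [h3]
        exact pow_le_pow_left₀ (by positivity) hρ2 2
      have h3 : ρ ^ 2 * k * N ≤ c2 ^ 2 * N := mul_le_mul_of_nonneg_right h2 (Nat.cast_nonneg N)
      linarith
    have h2 : (τ : ℝ) ≤ t := by exact_mod_cast Nat.sub_le t f
    have h3 : (m : ℝ) * r0 * 200 ≤ c2 ^ 2 * N := by linarith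
    have h4 : (100 : ℝ) * (s * s) ≤ r0 * h0 := by rw [hss]; exact_mod_cast hr1
    have h5 : (h0 : ℝ) * (8 * c2) ≤ s := by
      rwa [le_div_iff₀ (by positivity)] at hH1
    have h6 : 100 * (h0 * (8 * c2) * (h0 * (8 * c2))) ≤ (r0 : ℝ) * h0 := by
      have : h0 * (8 * c2) * (h0 * (8 * c2)) ≤ s * s :=
        mul_le_mul h5 h5 (by positivity) hs0.le
      linarith
    have h7 : 6400 * c2 ^ 2 * h0 ≤ (r0 : ℝ) := by
      have : (6400 * c2 ^ 2 * h0) * h0 ≤ (r0 : ℝ) * h0 := by nlinarith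
      exact le_of_mul_le_mul_right this hH0
    have h8 : (m : ℝ) * (6400 * c2 ^ 2 * h0) ≤ m * r0 :=
      mul_le_mul_of_nonneg_left h7 (Nat.cast_nonneg m)
    have h9 : c2 ^ 2 * ((m : ℝ) * h0 * 1280000) ≤ c2 ^ 2 * N := by
      have : c2 ^ 2 * ((m : ℝ) * h0 * 1280000) = (m : ℝ) * (6400 * c2 ^ 2 * h0) * 200 := by ring
      rw [this]
      linarith
    exact le_of_mul_le_mul_left h9 (by positivity)
  have hfit' : j + 1 + m * h0 ≤ N := by
    have h1 : m * h0 * 1280000 ≤ N := by exact_mod_cast hfit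
    omega
  refine ⟨m * h0, hfit', ?_⟩
  set y : ℕ := (m + 3) / 4 with hy
  have hy1 : 0 < y := by omega
  have hy2 : 4 * y ≤ m + 3 := by omega
  have hy3 : m ≤ 4 * y := by omega
  have hyR : (0 : ℝ) < y := by exact_mod_cast hy1
  set c : ℕ := ⌊1 / (128 * 25600 ^ 2 * c2 ^ 2) * (k : ℝ)⌋₊ with hc
  have hcR : (c : ℝ) ≤ 1 / (128 * 25600 ^ 2 * c2 ^ 2) * (k : ℝ) := Nat.floor_le (by positivity)
  have hrat : Real.exp 2 * ((τ - 1 : ℕ) : ℝ) * c / ((y : ℝ) ^ 2 * k) ≤ 1 / 2 := by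
    have he : Real.exp 2 ≤ 8 := by
      have h1 : Real.exp 2 = Real.exp 1 * Real.exp 1 := by rw [← Real.exp_add]; norm_num
      have h2 := Real.exp_one_lt_d9
      have h3 := Real.exp_pos 1
      rw [h1]
      nlinarith
    rw [div_le_iff₀ (by positivity)]
    have h1 : ((τ - 1 : ℕ) : ℝ) ≤ τ := by exact_mod_cast Nat.sub_le τ 1
    have h2 : (m : ℝ) ≤ 4 * y := by exact_mod_cast hy3
    have h3 : (τ : ℝ) ≤ y * (25600 * c2 * s) := by nlinarith
    have h4 : (τ : ℝ) * τ ≤ y * (25600 * c2 * s) * (y * (25600 * c2 * s)) :=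
      mul_le_mul h3 h3 hτ0.le (by positivity)
    -- τ * s² ≤ 8 τ² ≤ 8 y² 25600² c2² s²
    have h5 : (τ : ℝ) * k ≤ 8 * (y * (25600 * c2 * s) * (y * (25600 * c2 * s))) := by nlinarith
    have h6 : (τ : ℝ) ≤ 8 * (y ^ 2 * 25600 ^ 2 * c2 ^ 2) := by
      have : (τ : ℝ) * k ≤ 8 * (y ^ 2 * 25600 ^ 2 * c2 ^ 2) * k := by
        rw [← hss] at h5 ⊢
        linarith
      exact le_of_mul_le_mul_right this hkR
    calc Real.exp 2 * ((τ - 1 : ℕ) : ℝ) * c
        ≤ 8 * τ * (1 / (128 * 25600 ^ 2 * c2 ^ 2) * (k : ℝ)) := by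
          refine mul_le_mul (mul_le_mul he h1 (by positivity) (by norm_num)) hcR (by positivity)
            (by positivity)
      _ ≤ 8 * (8 * (y ^ 2 * 25600 ^ 2 * c2 ^ 2)) * (1 / (128 * 25600 ^ 2 * c2 ^ 2) * (k : ℝ)) := by
          refine mul_le_mul_of_nonneg_right ?_ (by positivity)
          linarith
      _ = 1 / 2 * ((y : ℝ) ^ 2 * k) := by
          field_simp
          norm_num
  have hones : 8 * (ρ * ((m * h0 : ℕ) : ℝ)) ≤ m := by
    push_cast
    have h1 : ρ * h0 ≤ 1 / 8 := by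
      have h2 : ρ * h0 ≤ ρ * (s / (8 * c2)) := mul_le_mul_of_nonneg_left hH1 hρ0.le
      have h3 : ρ * (s / (8 * c2)) = ρ * s / (8 * c2) := by ring
      have h4 : ρ * s / (8 * c2) ≤ c2 / (8 * c2) := div_le_div_of_nonneg_right hρ2 (by positivity)
      have h5 : c2 / (8 * c2) = 1 / 8 := by field_simp
      linarith
    have h6 : (m : ℝ) * (ρ * h0) ≤ m * (1 / 8) := mul_le_mul_of_nonneg_left h1 (Nat.cast_nonneg m)
    have h7 : 8 * (ρ * ((m : ℝ) * h0)) = 8 * (m * (ρ * h0)) := by ring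
    rw [h7]
    linarith
  have hfτ : f + τ ≤ t := by omega
  have hfin := typ_prob (t := t) (N := N) hk0 hρ0.le hρ1' f j τ r0 h0 m y c hfτ hmr hfit' hr1 hones hy1 hy2
    hy3 hrat
  have e1 : t - f - 1 = τ - 1 := rfl
  rw [e1]
  refine hfin.trans (le_trans ?_ hk2)
  have h1 : Real.exp (-((m : ℝ) / 25)) ≤ Real.exp (-(1 / (51200 * c2 * 25) * s)) := by
    apply Real.exp_le_exp.2
    have h2 : 1 / (51200 * c2 * 25) * s ≤ (m : ℝ) / 25 := by
      rw [div_mul_eq_mul_div, one_mul, div_le_div_iff₀ (by positivity) (by norm_num)]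
      nlinarith
    linarith
  linarith

end Pool.Agent.LCS13
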