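import Pool.Agent.Work.MP_bec1e1_pr_h13.FAR

/-!
# Block U1: far ties, asymptotic form
-/

open Finset BigOperators Filter
open scoped Classical

namespace Pool.Agent.LCS13

namespace U1Aux

theorem ratio_of {ρ : ℝ} (h0 : 0 < ρ) (h1 : ρ ≤ 1 / 2) {D y x0 : ℕ} {z : ℝ} (hx : 2 ≤ x0)
    (hz : (y : ℝ) + x0 + 1 ≤ ρ * D + z) (hzx : x0 * z ≤ ρ * D / 2) : Ratio ρ D y x0 := by
  refine ⟨hx, fun n hn => ?_⟩
  have hx0 : (0 : ℝ) < x0 := by
    have : 0 < x0 := by omega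
    exact_mod_cast this
  have hD : (0 : ℝ) ≤ D := Nat.cast_nonneg _
  have hn0 : (0 : ℝ) ≤ n := Nat.cast_nonneg _
  have hn' : (n : ℝ) ≤ y + x0 := by exact_mod_cast hn
  have hn1 : (n : ℝ) + 1 ≤ ρ * D + z := by linarith
  have key : (x0 : ℝ) * ((n : ℝ) + 1 - ρ - ρ * D) ≤ ((n : ℝ) + 1) * (1 - ρ) := by
    by_cases hc : (n : ℝ) + 1 ≤ ρ * D
    · have h2 : (x0 : ℝ) * ((n : ℝ) + 1 - ρ - ρ * D) ≤ 0 :=
        mul_nonpos_of_nonneg_of_nonpos hx0.le (by linarith)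
      have h3 : 0 ≤ ((n : ℝ) + 1) * (1 - ρ) := mul_nonneg (by linarith) (by linarith)
      linarith
    · push Not at hc
      have h2 : (x0 : ℝ) * ((n : ℝ) + 1 - ρ - ρ * D) ≤ x0 * z :=
        mul_le_mul_of_nonneg_left (by linarith) hx0.le
      have h3 : ρ * D / 2 ≤ ((n : ℝ) + 1) * (1 - ρ) := by
        have h4 : ρ * D * (1 / 2) ≤ ((n : ℝ) + 1) * (1 - ρ) :=
          mul_le_mul hc.le (by linarith) (by norm_num) (by linarith)
        linarith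
      linarith
  have key2 : (n : ℝ) + 1 - ρ - ρ * D ≤ ((n : ℝ) + 1) * (1 - ρ) / x0 := by
    rw [le_div_iff₀ hx0]
    linarith
  have e1 : (1 - 1 / (x0 : ℝ)) * (((n : ℝ) + 1) * (1 - ρ)) =
      ((n : ℝ) + 1) * (1 - ρ) - ((n : ℝ) + 1) * (1 - ρ) / x0 := by
    field_simp
  rw [e1]
  linarith

theorem bt_le (hCh : Stmt_ChernUp) {ρ : ℝ} (h0 : 0 < ρ) (h1 : ρ < 1) {D : ℕ} {z : ℝ} (hz0 : 0 ≤ z)
    (hz : z ≤ 2 * ρ * D) : bt ρ D ⌊ρ * D + z⌋₊ ≤ Real.exp (-(z ^ 2 / (4 * ρ * D))) := by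
  have h2 := hCh ρ h0 h1 (range D) z hz0 (by rw [Finset.card_range]; exact hz)
  rw [Finset.card_range] at h2
  refine le_trans ?_ h2
  unfold bt
  apply ES_mono h0.le h1.le
  intro A _
  apply ind_mono
  intro hA
  have h3 := Nat.lt_floor_add_one (ρ * D + z)
  have h4 : ((⌊ρ * D + z⌋₊ : ℕ) : ℝ) + 1 ≤ #A := by exact_mod_cast hA
  linarith

/-- FAR0 with explicit parameters -/
theorem far0_explicit (hCh : Stmt_ChernUp) {ρ : ℝ} (h0 : 0 < ρ) (h1 : ρ ≤ 1 / 2) {u : ℕ → ℤ}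
    (hu : IsProf u) {N D x0 : ℕ} {z : ℝ} (hx : 2 ≤ x0) (hz0 : 0 ≤ z) (hz : z ≤ 2 * ρ * D)
    (hzx : (x0 : ℝ) * (z + x0 + 1) ≤ ρ * D / 2) :
    ES ρ (range N) (fun A => ind (∃ g ∈ ZZ u A 0 N, ∃ g' ∈ ZZ u A 0 N, g + D ≤ g')) ≤
    4 / x0 + (N + 1) * Real.exp (-(z ^ 2 / (4 * ρ * D))) := by
  have h1' : ρ < 1 := by linarith
  have hfl : ((⌊ρ * D + z⌋₊ : ℕ) : ℝ) ≤ ρ * D + z := Nat.floor_le (by positivity)
  have hR : Ratio ρ D ⌊ρ * D + z⌋₊ x0 := ratio_of h0 h1 hx (z := z + x0 + 1) (by linarith) hzx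
  have h2 := stmt_Far0 ρ h0 h1' u hu N D _ x0 hR
  have h3 := bt_le hCh h0 h1' hz0 hz
  have h4 : ((N : ℝ) + 1) * bt ρ D ⌊ρ * D + z⌋₊ ≤
      ((N : ℝ) + 1) * Real.exp (-(z ^ 2 / (4 * ρ * D))) :=
    mul_le_mul_of_nonneg_left h3 (by positivity)
  linarith

theorem tendsto_nat_rpow {s : ℝ} (hs : 0 < s) :
    Tendsto (fun k : ℕ => (k : ℝ) ^ s) atTop atTop :=
  (tendsto_rpow_atTop hs).comp tendsto_natCast_atTop_atTop

theorem ev_exp {c : ℝ} (hc : 0 < c) : ∀ᶠ k : ℕ in atTop,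
    4 * (k : ℝ) ^ (31 / 5 : ℝ) * Real.exp (-(c * (k : ℝ) ^ (1 / 50 : ℝ))) ≤ 1 := by
  have h1 : Tendsto (fun x : ℝ => x ^ (310 : ℝ) * Real.exp (-c * x)) atTop (nhds 0) :=
    tendsto_rpow_mul_exp_neg_mul_atTop_nhds_zero 310 c hc
  have h2 := h1.comp (tendsto_nat_rpow (s := 1 / 50) (by norm_num))
  have h3 : ∀ᶠ k : ℕ in atTop, ((k : ℝ) ^ (1 / 50 : ℝ)) ^ (310 : ℝ) *
      Real.exp (-c * (k : ℝ) ^ (1 / 50 : ℝ)) < 1 / 4 :=
    h2.eventually (gt_mem_nhds (by norm_num : (0 : ℝ) < 1 / 4))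
  filter_upwards [h3] with k hk
  rw [← Real.rpow_mul (Nat.cast_nonneg k)] at hk
  have e1 : (1 / 50 : ℝ) * 310 = 31 / 5 := by norm_num
  rw [e1] at hk
  have e2 : -c * (k : ℝ) ^ (1 / 50 : ℝ) = -(c * (k : ℝ) ^ (1 / 50 : ℝ)) := by ring
  rw [e2] at hk
  linarith

end U1Aux

open U1Aux in
theorem stmt_U1 (hCh : Stmt_ChernUp) : Stmt_U1 := by
  intro c1 c2 θ hc1 hc2 hθ
  have T := fun (s : ℝ) (hs : 0 < s) (C : ℝ) =>
    (tendsto_nat_rpow hs).eventually_ge_atTop C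
  filter_upwards [ev_exp (c := 1 / (4 * c2 * θ)) (by positivity),
    T (1 / 50) (by norm_num) (12 / (c1 * θ)), T (1 / 50) (by norm_num) 16,
    T (11 / 50) (by norm_num) 2, T (1 / 2) (by norm_num) (2 * c2),
    T (12 / 50) (by norm_num) (1 / (c1 * θ)),
    T 1 one_pos (2 / θ), eventually_ge_atTop 1] with k e1 e2 e3 e4 e5 e6 e7 e8
  intro ρ hρ1 hρ2 N hN u hu
  have hk1 : (1 : ℝ) ≤ k := by exact_mod_cast e8
  have hk0 : (0 : ℝ) < k := by linarith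
  rw [Real.sqrt_eq_rpow] at hρ1 hρ2
  rw [Real.rpow_one] at e7
  set K : ℝ := (k : ℝ) with hK
  set w : ℝ := K ^ (1 / 50 : ℝ) with hw
  have hw0 : 0 < w := Real.rpow_pos_of_pos hk0 _
  have p11 : K ^ (11 / 50 : ℝ) = w ^ 11 := by
    rw [hw, ← Real.rpow_natCast, ← Real.rpow_mul hk0.le]; norm_num
  have p12 : K ^ (12 / 50 : ℝ) = w ^ 12 := by
    rw [hw, ← Real.rpow_natCast, ← Real.rpow_mul hk0.le]; norm_num
  have p25 : K ^ (1 / 2 : ℝ) = w ^ 25 := by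
    rw [hw, ← Real.rpow_natCast, ← Real.rpow_mul hk0.le]; norm_num
  have p50 : K = w ^ 50 := by
    rw [hw, ← Real.rpow_natCast, ← Real.rpow_mul hk0.le]; norm_num
  have pm10 : K ^ (-(1 / 5) : ℝ) = 1 / w ^ 10 := by
    rw [Real.rpow_neg hk0.le, hw, ← Real.rpow_natCast, ← Real.rpow_mul hk0.le]
    norm_num
  have p310 : K ^ (31 / 5 : ℝ) = w ^ 310 := by
    rw [hw, ← Real.rpow_natCast, ← Real.rpow_mul hk0.le]; norm_num
  rw [p11] at e4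
  rw [p25] at hρ1 hρ2 e5
  rw [p12] at e6
  rw [p310] at e1
  rw [pm10]
  have hw1 : 1 ≤ w := by linarith
  have hw25 : 0 < w ^ 25 := by positivity
  have hρ0 : 0 < ρ := by
    by_contra hcon
    push Not at hcon
    have : ρ * w ^ 25 ≤ 0 := mul_nonpos_of_nonpos_of_nonneg hcon hw25.le
    linarith
  have hρh : ρ ≤ 1 / 2 := by
    by_contra hcon
    push Not at hcon
    have : 1 / 2 * w ^ 25 < ρ * w ^ 25 := mul_lt_mul_of_pos_right hcon hw25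
    linarith
  -- the parameters
  set D : ℕ := ⌊θ * K⌋₊ with hD
  have hθK : 2 ≤ θ * K := by
    rw [div_le_iff₀ hθ] at e7
    linarith
  have hD1 : (D : ℝ) ≤ θ * K := Nat.floor_le (by positivity)
  have hD2 : θ * K / 2 ≤ D := by
    have := Nat.lt_floor_add_one (θ * K)
    rw [← hD] at this
    linarith
  have hD0 : (0 : ℝ) < D := by linarith
  have hρD1 : c1 * θ / 2 * w ^ 25 ≤ ρ * D := by
    have h2 : ρ * (θ * K / 2) ≤ ρ * D := mul_le_mul_of_nonneg_left hD2 hρ0.le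
    have h3 : c1 * (θ / 2 * w ^ 25) ≤ ρ * w ^ 25 * (θ / 2 * w ^ 25) :=
      mul_le_mul_of_nonneg_right hρ1 (by positivity)
    have h4 : ρ * (θ * K / 2) = ρ * w ^ 25 * (θ / 2 * w ^ 25) := by
      rw [p50]; ring
    rw [h4] at h2
    calc c1 * θ / 2 * w ^ 25 = c1 * (θ / 2 * w ^ 25) := by ring
      _ ≤ _ := h3
      _ ≤ _ := h2
  have hρD2 : ρ * D ≤ c2 * θ * w ^ 25 := by
    have h2 : ρ * D ≤ ρ * (θ * K) := mul_le_mul_of_nonneg_left hD1 hρ0.le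
    have h3 : ρ * w ^ 25 * (θ * w ^ 25) ≤ c2 * (θ * w ^ 25) :=
      mul_le_mul_of_nonneg_right hρ2 (by positivity)
    have h4 : ρ * (θ * K) = ρ * w ^ 25 * (θ * w ^ 25) := by
      rw [p50]; ring
    rw [h4] at h2
    calc ρ * D ≤ _ := h2
      _ ≤ _ := h3
      _ = _ := by ring
  set x0 : ℕ := ⌊w ^ 11⌋₊ with hx0
  have hx1 : (x0 : ℝ) ≤ w ^ 11 := Nat.floor_le (by positivity)
  have hx2 : 2 ≤ x0 := Nat.le_floor (by exact_mod_cast e4)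
  have hx2' : (2 : ℝ) ≤ x0 := by exact_mod_cast hx2
  have hx3 : w ^ 11 / 2 ≤ x0 := by
    have := Nat.lt_floor_add_one (w ^ 11)
    rw [← hx0] at this
    linarith
  have hw13 : (1 : ℝ) ≤ w ^ 13 := one_le_pow₀ hw1
  have hw11le : w ^ 11 ≤ w ^ 13 := pow_le_pow_right₀ hw1 (by norm_num)
  have hA : (x0 : ℝ) * (w ^ 13 + x0 + 1) ≤ ρ * D / 2 := by
    have h2 : (x0 : ℝ) * (w ^ 13 + x0 + 1) ≤ w ^ 11 * (3 * w ^ 13) :=
      mul_le_mul hx1 (by linarith) (by positivity) (by positivity)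
    have h3 : w ^ 11 * (3 * w ^ 13) = 3 * w ^ 24 := by ring
    have h4 : 3 * w ^ 24 ≤ c1 * θ / 4 * w ^ 25 := by
      have h5 : 12 ≤ w * (c1 * θ) := by
        rw [div_le_iff₀ (by positivity)] at e2
        exact e2
      have h6 : 12 * w ^ 24 ≤ w * (c1 * θ) * w ^ 24 := mul_le_mul_of_nonneg_right h5 (by positivity)
      have h7 : w * (c1 * θ) * w ^ 24 = c1 * θ * w ^ 25 := by ring
      linarith
    linarith
  have hB : w ^ 13 ≤ 2 * ρ * D := by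
    have h5 : 1 ≤ w ^ 12 * (c1 * θ) := by
      rw [div_le_iff₀ (by positivity)] at e6
      exact e6
    have h6 : 1 * w ^ 13 ≤ w ^ 12 * (c1 * θ) * w ^ 13 := mul_le_mul_of_nonneg_right h5 (by positivity)
    have h7 : w ^ 12 * (c1 * θ) * w ^ 13 = c1 * θ * w ^ 25 := by ring
    linarith
  have key := far0_explicit hCh hρ0 hρh hu (N := N) hx2 (z := w ^ 13) (by positivity) hB hA
  have hmono : ES ρ (range N) (fun A => ind (∃ g ∈ ZZ u A 0 N, ∃ g' ∈ ZZ u A 0 N,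
      (g : ℝ) + θ * K ≤ g')) ≤
      ES ρ (range N) (fun A => ind (∃ g ∈ ZZ u A 0 N, ∃ g' ∈ ZZ u A 0 N, g + D ≤ g')) := by
    apply ES_mono hρ0.le (by linarith)
    intro A _
    apply ind_mono
    rintro ⟨g, hg, g', hg', hgg⟩
    refine ⟨g, hg, g', hg', ?_⟩
    have : (g : ℝ) + D ≤ g' := by linarith
    exact_mod_cast this
  refine hmono.trans (key.trans ?_)
  -- first term
  have t1 : 4 / (x0 : ℝ) ≤ 1 / 2 * (1 / w ^ 10) := by
    have h2 : 4 / (x0 : ℝ) ≤ 4 / (w ^ 11 / 2) :=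
      div_le_div_of_nonneg_left (by norm_num) (by positivity) hx3
    have h3 : 4 / (w ^ 11 / 2) ≤ 1 / 2 * (1 / w ^ 10) := by
      rw [div_le_iff₀ (by positivity)]
      have h4 : 1 / 2 * (1 / w ^ 10) * (w ^ 11 / 2) = w / 4 := by
        field_simp; ring
      rw [h4]; linarith
    exact h2.trans h3
  -- second term
  have t2 : ((N : ℝ) + 1) * Real.exp (-((w ^ 13) ^ 2 / (4 * ρ * D))) ≤ 1 / 2 * (1 / w ^ 10) := by
    have hN' : (N : ℝ) + 1 ≤ 2 * w ^ 300 := by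
      have h2 : (N : ℝ) ≤ K ^ 6 := by rw [hK]; exact_mod_cast hN
      have h3 : K ^ 6 = w ^ 300 := by rw [p50]; ring
      have h4 : (1 : ℝ) ≤ w ^ 300 := one_le_pow₀ hw1
      linarith
    have h5 : 1 / (4 * c2 * θ) * w ≤ (w ^ 13) ^ 2 / (4 * ρ * D) := by
      rw [le_div_iff₀ (by positivity)]
      have h6 : 1 / (4 * c2 * θ) * w * (4 * ρ * D) = 1 / (c2 * θ) * w * (ρ * D) := by
        field_simp
      rw [h6]
      have h7 : 1 / (c2 * θ) * w * (ρ * D) ≤ 1 / (c2 * θ) * w * (c2 * θ * w ^ 25) :=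
        mul_le_mul_of_nonneg_left hρD2 (by positivity)
      have h8 : 1 / (c2 * θ) * w * (c2 * θ * w ^ 25) = (w ^ 13) ^ 2 := by
        field_simp
      linarith
    have h9 : Real.exp (-((w ^ 13) ^ 2 / (4 * ρ * D))) ≤ Real.exp (-(1 / (4 * c2 * θ) * w)) :=
      Real.exp_le_exp.2 (by linarith)
    have h10 : ((N : ℝ) + 1) * Real.exp (-((w ^ 13) ^ 2 / (4 * ρ * D))) ≤
        2 * w ^ 300 * Real.exp (-(1 / (4 * c2 * θ) * w)) :=
      mul_le_mul hN' h9 (Real.exp_pos _).le (by positivity)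
    refine h10.trans ?_
    have h11 : 2 * w ^ 300 * Real.exp (-(1 / (4 * c2 * θ) * w)) =
        (4 * w ^ 310 * Real.exp (-(1 / (4 * c2 * θ) * w))) * (1 / 2 * (1 / w ^ 10)) := by
      have h12 : w ^ 310 = w ^ 300 * w ^ 10 := by ring
      have h13 : w ^ 10 * (1 / w ^ 10) = 1 := mul_one_div_cancel (by positivity)
      rw [h12]
      linear_combination (-2 * w ^ 300 * Real.exp (-(1 / (4 * c2 * θ) * w))) * h13
    rw [h11]
    calc _ ≤ 1 * (1 / 2 * (1 / w ^ 10)) := mul_le_mul_of_nonneg_right e1 (by positivity)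
      _ = _ := one_mul _
  linarith

end Pool.Agent.LCS13
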