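import Pool.Agent.Work.MP_bec1e1_pr_h13.FAR
import Pool.Agent.Work.MP_bec1e1_pr_h13.LAW

/-!
# Few far pairs (block U23)
-/

open Finset BigOperators Filter
open scoped Classical

namespace Pool.Agent.LCS13

noncomputable section

namespace UAs

theorem ev_pow (C : ℝ) {p q : ℝ} (h : p < q) :
    ∀ᶠ k : ℕ in atTop, C * (k : ℝ) ^ p ≤ (k : ℝ) ^ q := by
  have h1 := ((tendsto_rpow_atTop (sub_pos.2 h)).comp
    (tendsto_natCast_atTop_atTop (R := ℝ))).eventually_ge_atTop C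
  filter_upwards [h1, eventually_gt_atTop 0] with k h2 hk
  have hk' : (0 : ℝ) < k := by exact_mod_cast hk
  have h3 : (k : ℝ) ^ q = (k : ℝ) ^ (q - p) * (k : ℝ) ^ p := by
    rw [← Real.rpow_add hk']; congr 1; ring
  rw [h3]
  exact mul_le_mul_of_nonneg_right h2 (Real.rpow_nonneg hk'.le _)

theorem ev_exp {c η : ℝ} (hc : 0 < c) (hη : 0 < η) (M : ℝ) :
    ∀ᶠ k : ℕ in atTop, Real.exp (-(c * (k : ℝ) ^ η)) ≤ (k : ℝ) ^ (-M) := by
  have h1 := tendsto_rpow_mul_exp_neg_mul_atTop_nhds_zero (M / η) c hc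
  have h2 := (h1.comp (tendsto_rpow_atTop hη)).comp (tendsto_natCast_atTop_atTop (R := ℝ))
  have h3 := h2.eventually_lt_const (show (0 : ℝ) < 1 by norm_num)
  filter_upwards [h3, eventually_gt_atTop 0] with k h4 hk
  have hk' : (0 : ℝ) < k := by exact_mod_cast hk
  simp only [Function.comp] at h4
  rw [← Real.rpow_mul hk'.le, show η * (M / η) = M by field_simp] at h4
  rw [Real.rpow_neg hk'.le, ← one_div, le_div_iff₀ (Real.rpow_pos_of_pos hk' _)]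
  have e : -c * (k : ℝ) ^ η = -(c * (k : ℝ) ^ η) := by ring
  rw [e] at h4
  linarith

theorem ev_ge (C : ℝ) {p : ℝ} (h : 0 < p) : ∀ᶠ k : ℕ in atTop, C ≤ (k : ℝ) ^ p :=
  ((tendsto_rpow_atTop h).comp (tendsto_natCast_atTop_atTop (R := ℝ))).eventually_ge_atTop C

/-- the parameters of the far tie estimates -/
theorem asym (hCh : Stmt_ChernUp) {c1 c2 d1 d2 α a b : ℝ} (hc1 : 0 < c1) (hc2 : 0 < c2)
    (hd1 : 0 < d1) (hd2 : 0 < d2) (ha : 0 < a) (hb : 0 < b) (hab : a + b < α - 1 / 2)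
    (h2a : 2 * a < α - 1 / 2) (h2b : α - 1 / 2 < 2 * b) :
    ∀ᶠ k : ℕ in atTop, ∀ ρ : ℝ, c1 ≤ ρ * √k → ρ * √k ≤ c2 → ∀ D : ℕ, d1 * (k : ℝ) ^ α ≤ D →
      (D : ℝ) ≤ d2 * (k : ℝ) ^ α → ∀ N ≤ k ^ 6, ∃ y, Ratio ρ D y ⌈(k : ℝ) ^ a⌉₊ ∧
      ((N : ℝ) + 1) * bt ρ D y ≤ (k : ℝ) ^ (-(30 : ℝ)) := by
  have hbα : b < α - 1 / 2 := by linarith
  filter_upwards [eventually_gt_atTop 1, ev_ge 2 ha, ev_ge 1 hb,
    ev_pow (8 / (c1 * d1)) hab, ev_pow (20 / (c1 * d1)) h2a,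
    ev_ge (2 * c2) (show (0 : ℝ) < 1 / 2 by norm_num),
    ev_pow (1 / (2 * (c1 * d1))) hbα,
    ev_exp (c := 1 / (4 * (c2 * d2))) (η := 2 * b - (α - 1 / 2)) (by positivity) (by linarith) 37,
    ev_ge 2 (show (0 : ℝ) < 1 by norm_num)]
    with k hk hka hkb hab' h2a' hc2' hbα' hexp hk2 ρ hρ1 hρ2 D hD1 hD2 N hN
  have hk0 : (0 : ℝ) < k := by exact_mod_cast (show 0 < k by omega)
  have hk1 : (1 : ℝ) ≤ k := by exact_mod_cast hk.le
  have hsq : √(k : ℝ) = (k : ℝ) ^ (1 / 2 : ℝ) := Real.sqrt_eq_rpow _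
  rw [hsq] at hρ1 hρ2
  have hs0 : 0 < (k : ℝ) ^ (1 / 2 : ℝ) := Real.rpow_pos_of_pos hk0 _
  have hρ0 : 0 < ρ := by
    by_contra h
    push Not at h
    have := mul_nonneg_of_nonpos_of_nonpos h (neg_nonpos.2 hs0.le)
    nlinarith
  have hρh : ρ ≤ 1 / 2 := by
    by_contra h
    push Not at h
    nlinarith
  -- the mean
  set mu := ρ * D with hmu
  have hX : (k : ℝ) ^ α = (k : ℝ) ^ (α - 1 / 2) * (k : ℝ) ^ (1 / 2 : ℝ) := by
    rw [← Real.rpow_add hk0]; congr 1; ring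
  set P := (k : ℝ) ^ (α - 1 / 2) with hP
  have hP0 : 0 < P := Real.rpow_pos_of_pos hk0 _
  have hmu1 : c1 * d1 * P ≤ mu := by
    rw [hX] at hD1
    have h1 : ρ * (d1 * (P * (k : ℝ) ^ (1 / 2 : ℝ))) ≤ ρ * D := mul_le_mul_of_nonneg_left hD1 hρ0.le
    have h2 : c1 * (d1 * P) ≤ (ρ * (k : ℝ) ^ (1 / 2 : ℝ)) * (d1 * P) :=
      mul_le_mul_of_nonneg_right hρ1 (by positivity)
    calc c1 * d1 * P = c1 * (d1 * P) := by ring
      _ ≤ _ := h2
      _ = ρ * (d1 * (P * (k : ℝ) ^ (1 / 2 : ℝ))) := by ring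
      _ ≤ _ := h1
  have hmu2 : mu ≤ c2 * d2 * P := by
    rw [hX] at hD2
    have h1 : ρ * D ≤ ρ * (d2 * (P * (k : ℝ) ^ (1 / 2 : ℝ))) := mul_le_mul_of_nonneg_left hD2 hρ0.le
    have h2 : (ρ * (k : ℝ) ^ (1 / 2 : ℝ)) * (d2 * P) ≤ c2 * (d2 * P) :=
      mul_le_mul_of_nonneg_right hρ2 (by positivity)
    calc mu ≤ ρ * (d2 * (P * (k : ℝ) ^ (1 / 2 : ℝ))) := h1
      _ = (ρ * (k : ℝ) ^ (1 / 2 : ℝ)) * (d2 * P) := by ring
      _ ≤ _ := h2
      _ = c2 * d2 * P := by ring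
  have hmu0 : 0 < mu := lt_of_lt_of_le (by positivity) hmu1
  have hD0 : (0 : ℝ) < D := by
    by_contra h
    push Not at h
    have : mu ≤ 0 := mul_nonpos_of_nonneg_of_nonpos hρ0.le h
    linarith
  set z := (k : ℝ) ^ b with hz
  set x := (k : ℝ) ^ a with hx
  set x0 := ⌈x⌉₊ with hx0
  have hx0' : (x0 : ℝ) ≤ 2 * x := by
    have := Nat.ceil_lt_add_one (show 0 ≤ x by linarith)
    linarith
  have hx0'' : x ≤ x0 := Nat.le_ceil x
  have hxz : (k : ℝ) ^ (a + b) = x * z := Real.rpow_add hk0 a b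
  have hxx : (k : ℝ) ^ (2 * a) = x * x := by
    rw [two_mul]; exact Real.rpow_add hk0 a a
  rw [hxz] at hab'
  rw [hxx] at h2a'
  have hcd : 0 < c1 * d1 := by positivity
  have h5 : 8 * (x * z) ≤ c1 * d1 * P := by
    have : 8 / (c1 * d1) * (x * z) * (c1 * d1) ≤ P * (c1 * d1) :=
      mul_le_mul_of_nonneg_right hab' hcd.le
    have e : 8 / (c1 * d1) * (x * z) * (c1 * d1) = 8 * (x * z) := by field_simp
    rw [e] at this
    linarith
  have h6 : 20 * (x * x) ≤ c1 * d1 * P := by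
    have : 20 / (c1 * d1) * (x * x) * (c1 * d1) ≤ P * (c1 * d1) :=
      mul_le_mul_of_nonneg_right h2a' hcd.le
    have e : 20 / (c1 * d1) * (x * x) * (c1 * d1) = 20 * (x * x) := by field_simp
    rw [e] at this
    linarith
  have hzmu : z ≤ 2 * mu := by
    have : 1 / (2 * (c1 * d1)) * z * (2 * (c1 * d1)) ≤ P * (2 * (c1 * d1)) :=
      mul_le_mul_of_nonneg_right hbα' (by positivity)
    have e : 1 / (2 * (c1 * d1)) * z * (2 * (c1 * d1)) = z := by field_simp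
    rw [e] at this
    linarith
  -- the key inequality
  have hkey : (x0 : ℝ) * (z + x0 + 1) ≤ mu * (1 - ρ) := by
    have e1 : (x0 : ℝ) * (z + x0 + 1) ≤ 2 * x * (z + 2 * x + x / 2) := by
      refine mul_le_mul hx0' ?_ (by positivity) (by positivity)
      linarith
    have e2 : 2 * x * (z + 2 * x + x / 2) = 2 * (x * z) + 5 * (x * x) := by ring
    have e3 : mu * (1 / 2) ≤ mu * (1 - ρ) := mul_le_mul_of_nonneg_left (by linarith) hmu0.le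
    linarith
  refine ⟨⌊mu + z⌋₊, ⟨?_, ?_⟩, ?_⟩
  · have : (2 : ℝ) ≤ x0 := by linarith
    exact_mod_cast this
  · intro n hn
    have hn' : (n : ℝ) ≤ mu + z + x0 := by
      have h1 : (n : ℝ) ≤ (⌊mu + z⌋₊ : ℝ) + x0 := by exact_mod_cast hn
      have h2 := Nat.floor_le (show 0 ≤ mu + z by positivity)
      linarith
    have hx00 : (0 : ℝ) < x0 := by linarith
    have e : ((D : ℝ) - n) * ρ - (1 - 1 / (x0 : ℝ)) * ((n + 1 : ℝ) * (1 - ρ)) =
        mu - n - (1 - ρ) + (n + 1) * (1 - ρ) / x0 := by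
      rw [hmu]; field_simp; ring
    have h7 : 0 ≤ mu - n - (1 - ρ) + (n + 1) * (1 - ρ) / x0 := by
      by_cases hc : (n : ℝ) + 1 ≤ mu
      · have : 0 ≤ ((n : ℝ) + 1) * (1 - ρ) / x0 :=
          div_nonneg (mul_nonneg (by positivity) (by linarith)) hx00.le
        linarith
      · push Not at hc
        have h8 : mu * (1 - ρ) / x0 ≤ (n + 1) * (1 - ρ) / x0 := by
          refine div_le_div_of_nonneg_right ?_ hx00.le
          exact mul_le_mul_of_nonneg_right hc.le (by linarith)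
        have h9 : z + x0 + 1 ≤ mu * (1 - ρ) / x0 := by
          rw [le_div_iff₀ hx00]; linarith
        linarith
    linarith
  · have h1 : bt ρ D ⌊mu + z⌋₊ ≤ Real.exp (-(z ^ 2 / (4 * ρ * #(range D)))) := by
      unfold bt
      refine le_trans (ES_mono hρ0.le (by linarith) fun A _ => ind_mono fun h => ?_)
        (hCh ρ hρ0 (by linarith) (range D) z (by positivity) (by rw [card_range]; linarith))
      rw [card_range]
      have h2 := Nat.lt_floor_add_one (mu + z)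
      have h3 : ((⌊mu + z⌋₊ : ℝ)) + 1 ≤ #A := by exact_mod_cast h
      linarith
    rw [card_range] at h1
    have h2 : Real.exp (-(z ^ 2 / (4 * ρ * D))) ≤
        Real.exp (-(1 / (4 * (c2 * d2)) * (k : ℝ) ^ (2 * b - (α - 1 / 2)))) := by
      refine Real.exp_le_exp.2 (neg_le_neg ?_)
      have e1 : (k : ℝ) ^ (2 * b - (α - 1 / 2)) = z ^ 2 / P := by
        rw [Real.rpow_sub hk0, two_mul, Real.rpow_add hk0, sq]
      rw [e1]
      have e2 : 4 * ρ * D ≤ 4 * (c2 * d2) * P := by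
        have : 4 * ρ * D = 4 * mu := by rw [hmu]; ring
        rw [this]; linarith
      have e3 : 1 / (4 * (c2 * d2)) * (z ^ 2 / P) = z ^ 2 / (4 * (c2 * d2) * P) := by
        field_simp
      rw [e3]
      exact div_le_div_of_nonneg_left (by positivity) (by positivity) e2
    have h3 := (h1.trans h2).trans hexp
    have hN' : (N : ℝ) + 1 ≤ (k : ℝ) ^ (7 : ℝ) := by
      have e1 : (N : ℝ) ≤ (k : ℝ) ^ (6 : ℕ) := by exact_mod_cast hN
      have e2 : (k : ℝ) ^ (7 : ℝ) = (k : ℝ) ^ (6 : ℕ) * k := by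
        rw [show (7 : ℝ) = ((7 : ℕ) : ℝ) by norm_num, Real.rpow_natCast]; ring
      rw [e2]
      have e3 : (1 : ℝ) ≤ (k : ℝ) ^ (6 : ℕ) := one_le_pow₀ hk1
      rw [Real.rpow_one] at hk2
      have e4 : (k : ℝ) ^ (6 : ℕ) * 2 ≤ (k : ℝ) ^ (6 : ℕ) * k :=
        mul_le_mul_of_nonneg_left hk2 (by positivity)
      linarith
    have hbt0 : 0 ≤ bt ρ D ⌊mu + z⌋₊ :=
      ES_nonneg hρ0.le (by linarith) fun A _ => ind_nonneg _
    calc ((N : ℝ) + 1) * bt ρ D ⌊mu + z⌋₊ ≤ (k : ℝ) ^ (7 : ℝ) * (k : ℝ) ^ (-(37 : ℝ)) :=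
          mul_le_mul hN' h3 hbt0 (by positivity)
      _ = (k : ℝ) ^ (-(30 : ℝ)) := by
          rw [← Real.rpow_add hk0]; norm_num

theorem sep_of_card (D : ℕ) : ∀ (m : ℕ) (B : Finset ℕ), m * D < #B → Sep D m B := by
  intro m
  induction m with
  | zero =>
    intro B hB
    have hne : B.Nonempty := by
      rw [← Finset.card_pos]
      omega
    obtain ⟨b, hb⟩ := hne
    exact ⟨fun _ => b, fun _ _ => hb, fun i hi => absurd hi (by omega)⟩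
  | succ m ih =>
    intro B hB
    have hne : B.Nonempty := by
      rw [← Finset.card_pos]
      omega
    set b := B.min' hne with hb
    set B' := B.filter fun x => b + D ≤ x with hB'
    have h1 : B ⊆ B' ∪ Ico b (b + D) := by
      intro x hx
      rw [Finset.mem_union, hB', Finset.mem_filter, Finset.mem_Ico]
      have := B.min'_le x hx
      by_cases h : b + D ≤ x
      · exact Or.inl ⟨hx, h⟩
      · exact Or.inr ⟨this, by omega⟩
    have h2 := (Finset.card_le_card h1).trans (Finset.card_union_le _ _)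
    rw [Nat.card_Ico, Nat.add_sub_cancel_left] at h2
    obtain ⟨f, hf1, hf2⟩ := ih B' (by
      rw [add_mul, one_mul] at hB
      omega)
    refine ⟨fun i => if i = 0 then b else f (i - 1), ?_, ?_⟩
    · intro i hi
      by_cases h0 : i = 0
      · simp only [h0, if_true]
        exact B.min'_mem hne
      · simp only [h0, if_false]
        exact (Finset.mem_filter.1 (hf1 (i - 1) (by omega))).1
    · intro i hi
      by_cases h0 : i = 0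
      · subst h0
        simp only [if_true, Nat.zero_add, Nat.one_ne_zero, if_false, Nat.sub_self]
        exact (Finset.mem_filter.1 (hf1 0 (by omega))).2
      · have h1 : i + 1 ≠ 0 := by omega
        simp only [h0, h1, if_false]
        have := hf2 (i - 1) (by omega)
        have e : i - 1 + 1 = i + 1 - 1 := by omega
        rwa [e] at this

theorem pairs_le (B : Finset ℕ) (D : ℕ) :
    (#{p ∈ B ×ˢ B | p.1 + D ≤ p.2} : ℝ) ≤
      ind (∃ g ∈ B, ∃ g' ∈ B, g + D ≤ g') * (#B : ℝ) ^ 2 := by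
  by_cases h : ∃ g ∈ B, ∃ g' ∈ B, g + D ≤ g'
  · rw [ind_true h, one_mul]
    have h1 := Finset.card_filter_le (B ×ˢ B) (fun p : ℕ × ℕ => p.1 + D ≤ p.2)
    rw [Finset.card_product] at h1
    have : (#{p ∈ B ×ˢ B | p.1 + D ≤ p.2} : ℝ) ≤ (#B : ℝ) * #B := by exact_mod_cast h1
    linarith [sq (#B : ℝ)]
  · rw [ind_false h, zero_mul]
    have : {p ∈ B ×ˢ B | p.1 + D ≤ p.2} = ∅ := by
      apply Finset.filter_eq_empty_iff.2
      intro p hp hle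
      rw [Finset.mem_product] at hp
      exact h ⟨p.1, hp.1, p.2, hp.2, hle⟩
    rw [this]
    simp

theorem MM_le_N {u : ℕ → ℤ} (hu : IsProf u) (A : Finset ℕ) (N : ℕ) : MM u A 0 N ≤ N := by
  rw [MM_le_iff (Nat.zero_le N)]
  intro g _ hg
  have h1 : ∀ g : ℕ, u g - u 0 ≤ g := by
    intro g
    induction g with
    | zero => simp
    | succ g ih =>
      have := (hu g).2
      push_cast
      linarith
  have h2 := h1 g
  unfold XX
  have h3 : (0 : ℤ) ≤ cnt A 0 g := Int.natCast_nonneg _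
  have h4 : (g : ℤ) ≤ N := by exact_mod_cast hg
  linarith

theorem quarter_bounds : ∀ᶠ k : ℕ in atTop, (1 / 5 : ℝ) * (k : ℝ) ^ (1 : ℝ) ≤ ((k / 2 / 2 : ℕ) : ℝ) ∧
    ((k / 2 / 2 : ℕ) : ℝ) ≤ 1 * (k : ℝ) ^ (1 : ℝ) := by
  filter_upwards [eventually_ge_atTop 15] with k hk
  rw [Real.rpow_one]
  have h1 : k ≤ 4 * (k / 2 / 2) + 3 := by omega
  have h2 : k / 2 / 2 ≤ k := by omega
  have h1' : (k : ℝ) ≤ 4 * ((k / 2 / 2 : ℕ) : ℝ) + 3 := by exact_mod_cast h1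
  have h2' : ((k / 2 / 2 : ℕ) : ℝ) ≤ k := by exact_mod_cast h2
  have hk' : (15 : ℝ) ≤ k := by exact_mod_cast hk
  constructor <;> linarith

end UAs

open UAs in
/-- U23 -/
theorem stmt_U23 (hCh : Stmt_ChernUp) : Stmt_U23 := by
  intro c1 c2 ε hc1 hc2 hε
  have ha1 := asym hCh (α := 1) (a := 11 / 50) (b := 27 / 100) (d1 := 1 / 5) (d2 := 1) hc1 hc2
    (by norm_num) (by norm_num) (by norm_num) (by norm_num) (by norm_num) (by norm_num) (by norm_num)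
  have ha2 := asym hCh (α := 11 / 20) (a := 1 / 50) (b := 11 / 400) (d1 := 1) (d2 := 2) hc1 hc2
    (by norm_num) (by norm_num) (by norm_num) (by norm_num) (by norm_num) (by norm_num) (by norm_num)
  filter_upwards [ha1, ha2, quarter_bounds, eventually_gt_atTop 1,
    ev_ge (2 * c2) (show (0 : ℝ) < 1 / 2 by norm_num),
    ev_ge 1 (show (0 : ℝ) < 11 / 20 by norm_num),
    ev_exp (c := c1) (η := 1 / 20) hc1 (by norm_num) 20,
    ev_pow (5 * (2 : ℝ) ^ 2 * (2 / ε)) (show (44 / 50 : ℝ) < 1 by norm_num),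
    ev_pow (5 * (2002 : ℝ) ^ 2 * (4 / ε)) (show (44 / 50 : ℝ) < 1 by norm_num),
    ev_pow (2 / ε) (show (-8 : ℝ) < 1 by norm_num),
    ev_pow (4 ^ 1000 * (4 / ε)) (show (-8 : ℝ) < 1 by norm_num),
    ev_pow (4 / ε) (show (-18 : ℝ) < 1 by norm_num)]
    with k h1 h2 hq hk hc2' hL hexp e1 e2 e3 e4 e5 ρ hρ1 hρ2 N hN u hu
  have hk0 : (0 : ℝ) < k := by exact_mod_cast (show 0 < k by omega)
  have hk1 : (1 : ℝ) ≤ k := by exact_mod_cast hk.le
  have hsq : √(k : ℝ) = (k : ℝ) ^ (1 / 2 : ℝ) := Real.sqrt_eq_rpow _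
  have hs0 : 0 < (k : ℝ) ^ (1 / 2 : ℝ) := Real.rpow_pos_of_pos hk0 _
  have hρ0 : 0 < ρ := by
    by_contra h
    push Not at h
    rw [hsq] at hρ1
    have : ρ * (k : ℝ) ^ (1 / 2 : ℝ) ≤ 0 := mul_nonpos_of_nonpos_of_nonneg h hs0.le
    linarith
  have hρh : ρ < 1 := by
    by_contra h
    push Not at h
    rw [hsq] at hρ2
    have : 1 * (k : ℝ) ^ (1 / 2 : ℝ) ≤ ρ * (k : ℝ) ^ (1 / 2 : ℝ) :=
      mul_le_mul_of_nonneg_right h hs0.le
    linarith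
  set D := k / 2 / 2 with hD
  obtain ⟨y1, hR1, hb1⟩ := h1 ρ hρ1 hρ2 D hq.1 hq.2 N hN
  set L := ⌈(k : ℝ) ^ (11 / 20 : ℝ)⌉₊ with hLdef
  have hL1 : (k : ℝ) ^ (11 / 20 : ℝ) ≤ L := Nat.le_ceil _
  have hL2 : (L : ℝ) ≤ 2 * (k : ℝ) ^ (11 / 20 : ℝ) := by
    have := Nat.ceil_lt_add_one (show 0 ≤ (k : ℝ) ^ (11 / 20 : ℝ) by positivity)
    linarith
  obtain ⟨y2, hR2, hb2⟩ := h2 ρ hρ1 hρ2 L (by linarith) hL2 N hN
  -- the far tie probabilities
  have hx1 : (4 : ℝ) / ⌈(k : ℝ) ^ (11 / 50 : ℝ)⌉₊ ≤ 4 * (k : ℝ) ^ (-(11 / 50) : ℝ) := by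
    rw [Real.rpow_neg hk0.le, ← div_eq_mul_inv]
    exact div_le_div_of_nonneg_left (by norm_num) (Real.rpow_pos_of_pos hk0 _) (Nat.le_ceil _)
  have hx2 : (4 : ℝ) / ⌈(k : ℝ) ^ (1 / 50 : ℝ)⌉₊ ≤ 4 * (k : ℝ) ^ (-(1 / 50) : ℝ) := by
    rw [Real.rpow_neg hk0.le, ← div_eq_mul_inv]
    exact div_le_div_of_nonneg_left (by norm_num) (Real.rpow_pos_of_pos hk0 _) (Nat.le_ceil _)
  have h30 : (k : ℝ) ^ (-(30 : ℝ)) ≤ (k : ℝ) ^ (-(11 / 50) : ℝ) :=
    Real.rpow_le_rpow_of_exponent_le hk1 (by norm_num)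
  have hF0 : ES ρ (range N) (fun A => ind (∃ g ∈ JJ u A 0 N, ∃ g' ∈ JJ u A 0 N, g + D ≤ g')) ≤
      5 * (k : ℝ) ^ (-(11 / 50) : ℝ) := by
    have h3 := stmt_Far0 ρ hρ0 hρh u hu N D y1 _ hR1
    have h4 : ES ρ (range N) (fun A => ind (∃ g ∈ JJ u A 0 N, ∃ g' ∈ JJ u A 0 N, g + D ≤ g')) ≤
        ES ρ (range N) (fun A => ind (∃ g ∈ ZZ u A 0 N, ∃ g' ∈ ZZ u A 0 N, g + D ≤ g')) := by
      refine ES_mono hρ0.le hρh.le fun A _ => ind_mono ?_
      rintro ⟨g, hg, g', hg', hle⟩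
      exact ⟨g, (JJ_props hu hg).2.2.2.2.1, g', (JJ_props hu hg').2.2.2.2.1, hle⟩
    linarith
  have hF1 : ES ρ (range N) (fun A => ind (∃ g ∈ J1 u A 0 N, ∃ g' ∈ J1 u A 0 N, g + D ≤ g')) ≤
      5 * (k : ℝ) ^ (-(11 / 50) : ℝ) := by
    have h3 := stmt_Far1 ρ hρ0 hρh u hu N D y1 _ hR1
    linarith
  have hSep : ES ρ (range N) (fun A => ind (Sep L 1000 (J1 u A 0 N))) ≤
      4 ^ 1000 * (k : ℝ) ^ (-20 : ℝ) + (k : ℝ) ^ (-(30 : ℝ)) := by
    have h3 := stmt_Clus ρ hρ0 hρh u hu N L y2 _ 1000 hR2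
    have h4 : ((4 : ℝ) / ⌈(k : ℝ) ^ (1 / 50 : ℝ)⌉₊) ^ 1000 ≤ 4 ^ 1000 * (k : ℝ) ^ (-20 : ℝ) := by
      refine (pow_le_pow_left₀ (by positivity) hx2 1000).trans (le_of_eq ?_)
      rw [mul_pow, ← Real.rpow_natCast ((k : ℝ) ^ (-(1 / 50) : ℝ)), ← Real.rpow_mul hk0.le]
      norm_num
    linarith
  have hTail : ES ρ (range N) (fun A => ind (L ≤ #(JJ u A 0 N))) ≤ (k : ℝ) ^ (-(20 : ℝ)) := by
    have h3 := stmt_LawTail ρ hρ0 hρh u hu 0 N (Nat.zero_le N) N L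
    rw [← Finset.range_eq_Ico] at h3
    have h4 : ES ρ (range N) (fun A => ind (L ≤ #(JJ u A 0 N))) ≤
        ES ρ (range N) (fun A => ind (MM u A 0 N ≤ N ∧ L ≤ #(JJ u A 0 N))) :=
      ES_mono hρ0.le hρh.le fun A _ => ind_mono fun h => ⟨MM_le_N hu A N, h⟩
    have h5 : ES ρ (range N) (fun A => ind (MM u A 0 N ≤ N)) ≤ 1 := by
      rw [← ES_const ρ (range N) 1]
      exact ES_mono hρ0.le hρh.le fun A _ => ind_le_one _
    have h6 : (1 - ρ) ^ L ≤ Real.exp (-(c1 * (k : ℝ) ^ (1 / 20 : ℝ))) := by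
      have h7 : 1 - ρ ≤ Real.exp (-ρ) := by
        have := Real.add_one_le_exp (-ρ)
        linarith
      refine (pow_le_pow_left₀ (by linarith) h7 L).trans ?_
      rw [← Real.exp_nat_mul]
      refine Real.exp_le_exp.2 ?_
      have h8 : c1 * (k : ℝ) ^ (1 / 20 : ℝ) ≤ L * ρ := by
        rw [hsq] at hρ1
        have h9 : (k : ℝ) ^ (11 / 20 : ℝ) = (k : ℝ) ^ (1 / 2 : ℝ) * (k : ℝ) ^ (1 / 20 : ℝ) := by
          rw [← Real.rpow_add hk0]; norm_num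
        calc c1 * (k : ℝ) ^ (1 / 20 : ℝ) ≤ ρ * (k : ℝ) ^ (1 / 2 : ℝ) * (k : ℝ) ^ (1 / 20 : ℝ) :=
              mul_le_mul_of_nonneg_right hρ1 (by positivity)
          _ = (k : ℝ) ^ (11 / 20 : ℝ) * ρ := by rw [h9]; ring
          _ ≤ L * ρ := mul_le_mul_of_nonneg_right hL1 hρ0.le
      linarith
    have h7 : (0 : ℝ) ≤ (1 - ρ) ^ L := pow_nonneg (by linarith) _
    have h8 : (1 - ρ) ^ L * ES ρ (range N) (fun A => ind (MM u A 0 N ≤ N)) ≤ (1 - ρ) ^ L :=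
      mul_le_of_le_one_right h7 h5
    linarith
  have hNk : (N : ℝ) ^ 2 ≤ (k : ℝ) ^ (12 : ℝ) := by
    have h3 : (N : ℝ) ≤ (k : ℝ) ^ (6 : ℕ) := by exact_mod_cast hN
    have h4 := pow_le_pow_left₀ (Nat.cast_nonneg _) h3 2
    rw [← pow_mul] at h4
    rw [show (12 : ℝ) = ((12 : ℕ) : ℝ) by norm_num, Real.rpow_natCast]
    exact h4
  have hL2' : (L : ℝ) ^ 2 ≤ 2 ^ 2 * (k : ℝ) ^ (11 / 10 : ℝ) := by
    refine (pow_le_pow_left₀ (Nat.cast_nonneg _) hL2 2).trans (le_of_eq ?_)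
    rw [mul_pow, ← Real.rpow_natCast ((k : ℝ) ^ (11 / 20 : ℝ)), ← Real.rpow_mul hk0.le]
    norm_num
  have m1 : (k : ℝ) ^ (11 / 10 : ℝ) * (k : ℝ) ^ (-(11 / 50) : ℝ) = (k : ℝ) ^ (44 / 50 : ℝ) := by
    rw [← Real.rpow_add hk0]; norm_num
  have m2 : (k : ℝ) ^ (12 : ℝ) * (k : ℝ) ^ (-(20 : ℝ)) = (k : ℝ) ^ (-8 : ℝ) := by
    rw [← Real.rpow_add hk0]; norm_num
  have m3 : (k : ℝ) ^ (12 : ℝ) * (k : ℝ) ^ (-(30 : ℝ)) = (k : ℝ) ^ (-18 : ℝ) := by
    rw [← Real.rpow_add hk0]; norm_num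
  rw [Real.rpow_one] at e1 e2 e3 e4 e5
  constructor
  · have hpt : ∀ A ⊆ range N, (#{p ∈ JJ u A 0 N ×ˢ JJ u A 0 N | p.1 + D ≤ p.2} : ℝ) ≤
        (L : ℝ) ^ 2 * ind (∃ g ∈ JJ u A 0 N, ∃ g' ∈ JJ u A 0 N, g + D ≤ g') +
          (N : ℝ) ^ 2 * ind (L ≤ #(JJ u A 0 N)) := by
      intro A _
      have h3 := pairs_le (JJ u A 0 N) D
      have h4 := ind_nonneg (∃ g ∈ JJ u A 0 N, ∃ g' ∈ JJ u A 0 N, g + D ≤ g')
      have h5 := ind_le_one (∃ g ∈ JJ u A 0 N, ∃ g' ∈ JJ u A 0 N, g + D ≤ g')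
      generalize ind (∃ g ∈ JJ u A 0 N, ∃ g' ∈ JJ u A 0 N, g + D ≤ g') = t at h3 h4 h5 ⊢
      by_cases h : L ≤ #(JJ u A 0 N)
      · rw [ind_true h]
        have h6 : (#(JJ u A 0 N) : ℝ) ≤ N := by
          have : #(JJ u A 0 N) ≤ #(Ico 0 N) := Finset.card_le_card (Finset.filter_subset _ _)
          rw [Nat.card_Ico, Nat.sub_zero] at this
          exact_mod_cast this
        have h7 := pow_le_pow_left₀ (Nat.cast_nonneg _) h6 2
        have h8 : t * (#(JJ u A 0 N) : ℝ) ^ 2 ≤ 1 * (N : ℝ) ^ 2 :=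
          mul_le_mul h5 h7 (by positivity) (by norm_num)
        have h9 : 0 ≤ (L : ℝ) ^ 2 * t := by positivity
        linarith
      · rw [ind_false h, mul_zero, add_zero]
        push Not at h
        have h6 : (#(JJ u A 0 N) : ℝ) ≤ L := by exact_mod_cast h.le
        have h7 := pow_le_pow_left₀ (Nat.cast_nonneg _) h6 2
        have h8 := mul_le_mul_of_nonneg_left h7 h4
        linarith
    refine (ES_mono hρ0.le hρh.le hpt).trans ?_
    rw [ES_add, ES_mul_left, ES_mul_left]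
    have i1 : (L : ℝ) ^ 2 * ES ρ (range N)
        (fun A => ind (∃ g ∈ JJ u A 0 N, ∃ g' ∈ JJ u A 0 N, g + D ≤ g')) ≤
        2 ^ 2 * (k : ℝ) ^ (11 / 10 : ℝ) * (5 * (k : ℝ) ^ (-(11 / 50) : ℝ)) :=
      mul_le_mul hL2' hF0 (ES_nonneg hρ0.le hρh.le fun _ _ => ind_nonneg _) (by positivity)
    have i2 : (N : ℝ) ^ 2 * ES ρ (range N) (fun A => ind (L ≤ #(JJ u A 0 N))) ≤
        (k : ℝ) ^ (12 : ℝ) * (k : ℝ) ^ (-(20 : ℝ)) :=
      mul_le_mul hNk hTail (ES_nonneg hρ0.le hρh.le fun _ _ => ind_nonneg _) (by positivity)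
    rw [m2] at i2
    have i3 : 2 ^ 2 * (k : ℝ) ^ (11 / 10 : ℝ) * (5 * (k : ℝ) ^ (-(11 / 50) : ℝ)) =
        5 * 2 ^ 2 * (k : ℝ) ^ (44 / 50 : ℝ) := by rw [← m1]; ring
    rw [i3] at i1
    have j1 : 5 * 2 ^ 2 * (k : ℝ) ^ (44 / 50 : ℝ) ≤ ε / 2 * k := by
      have := mul_le_mul_of_nonneg_left e1 (show 0 ≤ ε / 2 by positivity)
      have e : ε / 2 * (5 * 2 ^ 2 * (2 / ε) * (k : ℝ) ^ (44 / 50 : ℝ)) =
        5 * 2 ^ 2 * (k : ℝ) ^ (44 / 50 : ℝ) := by field_simp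
      rw [e] at this
      linarith
    have j2 : (k : ℝ) ^ (-8 : ℝ) ≤ ε / 2 * k := by
      have := mul_le_mul_of_nonneg_left e3 (show 0 ≤ ε / 2 by positivity)
      have e : ε / 2 * (2 / ε * (k : ℝ) ^ (-8 : ℝ)) = (k : ℝ) ^ (-8 : ℝ) := by field_simp
      rw [e] at this
      linarith
    linarith
  · have hpt : ∀ A ⊆ range N, (#{p ∈ J1 u A 0 N ×ˢ J1 u A 0 N | p.1 + D ≤ p.2} : ℝ) ≤
        (1001 * (L : ℝ)) ^ 2 * ind (∃ g ∈ J1 u A 0 N, ∃ g' ∈ J1 u A 0 N, g + D ≤ g') +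
          (N : ℝ) ^ 2 * ind (Sep L 1000 (J1 u A 0 N)) := by
      intro A _
      have h3 := pairs_le (J1 u A 0 N) D
      have h4 := ind_nonneg (∃ g ∈ J1 u A 0 N, ∃ g' ∈ J1 u A 0 N, g + D ≤ g')
      have h5 := ind_le_one (∃ g ∈ J1 u A 0 N, ∃ g' ∈ J1 u A 0 N, g + D ≤ g')
      generalize ind (∃ g ∈ J1 u A 0 N, ∃ g' ∈ J1 u A 0 N, g + D ≤ g') = t at h3 h4 h5 ⊢
      by_cases h : Sep L 1000 (J1 u A 0 N)
      · rw [ind_true h]
        have h6 : (#(J1 u A 0 N) : ℝ) ≤ N := by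
          have : #(J1 u A 0 N) ≤ #(Ico 0 N) := Finset.card_le_card (Finset.filter_subset _ _)
          rw [Nat.card_Ico, Nat.sub_zero] at this
          exact_mod_cast this
        have h7 := pow_le_pow_left₀ (Nat.cast_nonneg _) h6 2
        have h8 : t * (#(J1 u A 0 N) : ℝ) ^ 2 ≤ 1 * (N : ℝ) ^ 2 :=
          mul_le_mul h5 h7 (by positivity) (by norm_num)
        have h9 : 0 ≤ (1001 * (L : ℝ)) ^ 2 * t := by positivity
        linarith
      · rw [ind_false h, mul_zero, add_zero]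
        have h6' : #(J1 u A 0 N) ≤ 1000 * L := by
          by_contra hc
          exact h (sep_of_card L 1000 _ (by omega))
        have h6 : (#(J1 u A 0 N) : ℝ) ≤ 1001 * L := by
          have : (#(J1 u A 0 N) : ℝ) ≤ 1000 * L := by exact_mod_cast h6'
          have hL0 : (0 : ℝ) ≤ L := Nat.cast_nonneg _
          linarith
        have h7 := pow_le_pow_left₀ (Nat.cast_nonneg _) h6 2
        have h8 := mul_le_mul_of_nonneg_left h7 h4
        linarith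
    refine (ES_mono hρ0.le hρh.le hpt).trans ?_
    rw [ES_add, ES_mul_left, ES_mul_left]
    have hLL : (1001 * (L : ℝ)) ^ 2 ≤ 2002 ^ 2 * (k : ℝ) ^ (11 / 10 : ℝ) := by
      rw [mul_pow]
      have := mul_le_mul_of_nonneg_left hL2' (show (0 : ℝ) ≤ 1001 ^ 2 by norm_num)
      linarith
    have i1 : (1001 * (L : ℝ)) ^ 2 * ES ρ (range N)
        (fun A => ind (∃ g ∈ J1 u A 0 N, ∃ g' ∈ J1 u A 0 N, g + D ≤ g')) ≤
        2002 ^ 2 * (k : ℝ) ^ (11 / 10 : ℝ) * (5 * (k : ℝ) ^ (-(11 / 50) : ℝ)) :=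
      mul_le_mul hLL hF1 (ES_nonneg hρ0.le hρh.le fun _ _ => ind_nonneg _) (by positivity)
    have i2 : (N : ℝ) ^ 2 * ES ρ (range N) (fun A => ind (Sep L 1000 (J1 u A 0 N))) ≤
        (k : ℝ) ^ (12 : ℝ) * (4 ^ 1000 * (k : ℝ) ^ (-20 : ℝ) + (k : ℝ) ^ (-(30 : ℝ))) :=
      mul_le_mul hNk hSep (ES_nonneg hρ0.le hρh.le fun _ _ => ind_nonneg _) (by positivity)
    have i3 : 2002 ^ 2 * (k : ℝ) ^ (11 / 10 : ℝ) * (5 * (k : ℝ) ^ (-(11 / 50) : ℝ)) =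
        5 * 2002 ^ 2 * (k : ℝ) ^ (44 / 50 : ℝ) := by rw [← m1]; ring
    have i4 : (k : ℝ) ^ (12 : ℝ) * (4 ^ 1000 * (k : ℝ) ^ (-20 : ℝ) + (k : ℝ) ^ (-(30 : ℝ))) =
        4 ^ 1000 * (k : ℝ) ^ (-8 : ℝ) + (k : ℝ) ^ (-18 : ℝ) := by
      rw [← m2, ← m3]
      generalize (4 : ℝ) ^ 1000 = W
      ring
    rw [i3] at i1
    rw [i4] at i2
    have j1 : 5 * 2002 ^ 2 * (k : ℝ) ^ (44 / 50 : ℝ) ≤ ε / 4 * k := by
      have := mul_le_mul_of_nonneg_left e2 (show 0 ≤ ε / 4 by positivity)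
      have e : ε / 4 * (5 * 2002 ^ 2 * (4 / ε) * (k : ℝ) ^ (44 / 50 : ℝ)) =
        5 * 2002 ^ 2 * (k : ℝ) ^ (44 / 50 : ℝ) := by field_simp
      rw [e] at this
      linarith
    generalize (4 : ℝ) ^ 1000 = W at i2 e4
    have j2 : W * (k : ℝ) ^ (-8 : ℝ) ≤ ε / 4 * k := by
      have := mul_le_mul_of_nonneg_left e4 (show 0 ≤ ε / 4 by positivity)
      have e : ε / 4 * (W * (4 / ε) * (k : ℝ) ^ (-8 : ℝ)) = W * (k : ℝ) ^ (-8 : ℝ) := by field_simp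
      rw [e] at this
      linarith
    have j3 : (k : ℝ) ^ (-18 : ℝ) ≤ ε / 4 * k := by
      have := mul_le_mul_of_nonneg_left e5 (show 0 ≤ ε / 4 by positivity)
      have e : ε / 4 * (4 / ε * (k : ℝ) ^ (-18 : ℝ)) = (k : ℝ) ^ (-18 : ℝ) := by field_simp
      rw [e] at this
      linarith
    have hεk : 0 ≤ ε * k := by positivity
    linarith

end

end Pool.Agent.LCS13
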