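import Pool.Agent.Work.MP_bec1e1_pr_h13.Q
import Pool.Agent.Work.MP_bec1e1_pr_h13.LAW
import Pool.Agent.Work.MP_bec1e1_pr_h13.U1
import Pool.Agent.Work.MP_bec1e1_pr_h13.U23
import Pool.Agent.Work.MP_bec1e1_pr_h13.CHERN
import Pool.Agent.Work.MP_bec1e1_pr_h13.TAIL
import Pool.Agent.Work.MP_bec1e1_pr_h13.TYP
import Pool.Agent.Work.MP_bec1e1_pr_h13.GAM
import Pool.Agent.Work.MP_bec1e1_pr_h13.B
import Pool.Agent.Work.MP_bec1e1_pr_h13.C1
import Pool.Agent.Work.MP_bec1e1_pr_h13.CRIT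
import Pool.Agent.Work.MP_bec1e1_pr_h13.VUP
import Pool.Agent.Work.MP_bec1e1_pr_h13.LcsDef
import Pool.Agent.Work.MP_bec1e1_pr_h13.FINAL
import Pool.Agent.Work.MP_bec1e1_pr_helper73.A

/-!
# Linear variance of the LCS for large alphabets: the final theorem

All blocks are put together here.
-/

namespace Pool.Agent.LCS13

theorem stmt_U1' : Stmt_U1 := stmt_U1 stmt_ChernUp

theorem stmt_U23' : Stmt_U23 := stmt_U23 stmt_ChernUp

theorem stmt_Tail' : Stmt_Tail := stmt_Tail stmt_ChernUp stmt_ChernLow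

theorem stmt_Q' : Stmt_Q := stmt_Q stmt_U1' stmt_Tail' stmt_Typ

theorem stmt_A' : Stmt_A :=
  stmt_A stmt_LawTail stmt_LawMean stmt_LawPairs stmt_Geo stmt_Tail' stmt_Q'

theorem stmt_B' : Stmt_B := stmt_B stmt_U23'

theorem stmt_C1' : Stmt_C1 :=
  stmt_C1 stmt_A' stmt_B' stmt_Tail' (stmt_EMSum stmt_LawMean) stmt_EMax
    (stmt_PhiUB stmt_LawMean)

/-- **The final theorem**: there is `K₀` such that for every alphabet size `k + 2` with `k ≥ K₀`
the variance of the length of the longest common subsequence of two independent uniform words of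
length `n` is of order `n`. -/
theorem main_theorem : Stmt_Final :=
  stmt_Final stmt_C1' stmt_Crit stmt_Gam (stmt_PhiUB stmt_LawMean) stmt_VUp stmt_LcsDef

end Pool.Agent.LCS13
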