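import Pool.Agent.Work.MP_bec1e1_pr_h13.STEP

/-!
# Upper bounds for the expected LCS (block PHIUB)
-/

open Finset BigOperators
open scoped Classical

namespace Pool.Agent.LCS13

theorem ES_cardA (ρ : ℝ) (I : Finset ℕ) : ES ρ I (fun A => (#A : ℝ)) = ρ * #I := by
  induction I using Finset.induction_on with
  | empty => rw [ES_empty]; simp
  | insert x I hx ih =>
    rw [ES_insert hx, ih]
    rw [ES_congr (g := fun A => (#A : ℝ) + 1) (fun A hA => by
      rw [Finset.card_insert_of_notMem fun h => hx (hA h)]; push_cast; rfl)]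
    rw [ES_add, ih, ES_const, Finset.card_insert_of_notMem hx]
    push_cast
    ring

theorem ES_cnt (ρ : ℝ) {g N : ℕ} (hg : g ≤ N) :
    ES ρ (range N) (fun A => (cnt A 0 g : ℝ)) = ρ * g := by
  have h1 : range g ⊆ range N := Finset.range_subset_range.2 hg
  have h2 := ES_inter (ρ := ρ) h1 (fun A => (#A : ℝ))
  rw [ES_cardA, Finset.card_range] at h2
  rw [← h2]
  refine ES_congr fun A _ => ?_
  rw [cnt_eq_card_inter, Finset.range_eq_Ico]

theorem card_image_le' (b : ℕ → Option ℕ) (S : Finset ℕ) : (#(S.image b) : ℝ) ≤ #S := by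
  exact_mod_cast Finset.card_image_le

theorem del_nonneg (k : ℕ) (b : ℕ → Option ℕ) (t N : ℕ) {ρ : ℝ} (h0 : 0 < ρ) (h1 : ρ < 1) :
    0 ≤ del k b t N ρ := by
  unfold del
  refine Finset.expect_nonneg fun a _ => ES_nonneg h0.le h1.le fun A _ => ?_
  have := card_image_le' b (JJ (uu (wn a) b t) A 0 N)
  linarith

theorem EM_le (hmean : Stmt_LawMean) {k : ℕ} (hk : 0 < k) (b : ℕ → Option ℕ) (N : ℕ)
    (hb : ∀ j < N, ∃ x < k, b j = some x) {ρ : ℝ} (h0 : 0 < ρ) (h1 : ρ < 1) (T : ℕ) :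
    EM k b T N ρ ≤ T * ((1 - ρ) / ρ) / k := by
  rw [stmt_EMSum hmean k hk b N hb ρ h0 h1 T]
  have hk' : (0 : ℝ) < k := by positivity
  rw [div_le_div_iff_of_pos_right hk']
  have hq : 0 ≤ (1 - ρ) / ρ := div_nonneg (by linarith) h0.le
  calc _ ≤ ∑ t ∈ range T, (1 - ρ) / ρ := by
        refine Finset.sum_le_sum fun t _ => ?_
        have h2 := del_nonneg k b t N h0 h1
        have h3 : 0 ≤ 𝔼 a : Fin t → Fin k, ES ρ (range N) (fun A =>
            ind (N ∈ ZZ (uu (wn a) b t) A 0 N)) :=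
          Finset.expect_nonneg fun a _ => ES_nonneg h0.le h1.le fun A _ => ind_nonneg _
        nlinarith [mul_nonneg hq h3]
    _ = T * ((1 - ρ) / ρ) := by rw [Finset.sum_const, Finset.card_range, nsmul_eq_mul]

theorem lp_le_EM {k : ℕ} (b : ℕ → Option ℕ) (N T : ℕ) {ρ : ℝ}
    (h0 : 0 < ρ) (h1 : ρ < 1) {g : ℕ} (hg : g ≤ N) :
    𝔼 a : Fin T → Fin k, (lp (mt (wn a) b) 0 0 T g : ℝ) ≤ ρ * g + EM k b T N ρ := by
  rcases isEmpty_or_nonempty (Fin T → Fin k) with h | h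
  · unfold EM
    simp only [Finset.univ_eq_empty, Finset.expect_empty, add_zero]
    positivity
  unfold EM
  have e : ρ * (g : ℝ) = 𝔼 _a : Fin T → Fin k, (ρ * g) := by rw [Fintype.expect_const]
  rw [e, ← Finset.expect_add_distrib]
  refine Finset.expect_le_expect fun a _ => ?_
  rw [← ES_cnt ρ hg, ← ES_add]
  rw [← ES_const ρ (range N) (lp (mt (wn a) b) 0 0 T g : ℝ)]
  refine ES_mono h0.le h1.le fun A _ => ?_
  have := XX_le_MM (u := uu (wn a) b T) (A := A) (Nat.zero_le g) hg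
  rw [XX_uu_zero] at this
  unfold uu at this
  have h2 : ((lp (mt (wn a) b) 0 0 T g : ℤ) : ℝ) - ((cnt A 0 g : ℤ) : ℝ) ≤
      ((MM (uu (wn a) b T) A 0 N : ℤ) : ℝ) := by exact_mod_cast this
  push_cast at h2
  linarith

theorem lp_mean_le (hmean : Stmt_LawMean) {k : ℕ} (hk : 0 < k) (b : ℕ → Option ℕ) (N : ℕ)
    (hb : ∀ j < N, ∃ x < k, b j = some x) (T : ℕ) :
    𝔼 a : Fin T → Fin k, (lp (mt (wn a) b) 0 0 T N : ℝ) ≤ 2 * √(T * N / k) := by
  have : Nonempty (Fin k) := ⟨⟨0, hk⟩⟩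
  have hk' : (0 : ℝ) < k := by positivity
  have htriv : 𝔼 a : Fin T → Fin k, (lp (mt (wn a) b) 0 0 T N : ℝ) ≤ N := by
    calc _ ≤ 𝔼 _a : Fin T → Fin k, (N : ℝ) :=
          Finset.expect_le_expect fun a _ => by exact_mod_cast lp_le_col
      _ = N := by rw [Fintype.expect_const]
  rcases Nat.eq_zero_or_pos N with hN | hN
  · refine htriv.trans ?_
    rw [hN]
    simp
  rcases Nat.eq_zero_or_pos T with hT | hT
  · subst hT
    simp [lp_zero_row]
  have hN' : (0 : ℝ) < N := by positivity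
  have hT' : (0 : ℝ) < T := by positivity
  set ρ : ℝ := √(T / (k * N)) with hρ
  have hρ0 : 0 < ρ := Real.sqrt_pos.2 (by positivity)
  have hρsq : ρ ^ 2 = T / (k * N) := Real.sq_sqrt (by positivity)
  have hval : √(T * N / k) = ρ * N := by
    rw [Real.sqrt_eq_iff_mul_self_eq (by positivity) (by positivity)]
    have : ρ * N * (ρ * N) = ρ ^ 2 * N ^ 2 := by ring
    rw [this, hρsq]
    field_simp
  rw [hval]
  by_cases h1 : ρ < 1
  · have h2 := lp_le_EM (k := k) b N T hρ0 h1 (le_refl N)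
    have h3 := EM_le hmean hk b N hb hρ0 h1 T
    have h4 : (T : ℝ) * ((1 - ρ) / ρ) / k ≤ ρ * N := by
      have h5 : (T : ℝ) = ρ ^ 2 * (k * N) := by rw [hρsq]; field_simp
      rw [h5]
      have h6 : ρ ^ 2 * (k * N) * ((1 - ρ) / ρ) / k = ρ * N * (1 - ρ) := by
        field_simp
      rw [h6]
      nlinarith [mul_pos hρ0 hN']
    linarith
  · have h1' : 1 ≤ ρ := not_lt.1 h1
    nlinarith

theorem wn_lt {n k : ℕ} (w : Fin n → Fin k) : ∀ j < n, ∃ x < k, wn w j = some x := by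
  intro j hj
  exact ⟨w ⟨j, hj⟩, (w ⟨j, hj⟩).2, by unfold wn; rw [dif_pos hj]⟩

theorem sw_lt {s K R k : ℕ} (hK : 2 * K ≤ k) (ω : Fin R → Seg s K) :
    ∀ j < R * s, ∃ x < k, sw ω j = some x := by
  intro j hj
  have hs : 0 < s := by
    rcases Nat.eq_zero_or_pos s with h | h
    · subst h; simp at hj
    · exact h
  have h : j / s < R ∧ j % s < s :=
    ⟨(Nat.div_lt_iff_lt_mul hs).2 hj, Nat.mod_lt _ hs⟩
  refine ⟨_, ?_, by unfold sw; rw [dif_pos h]⟩
  have h1 := ((ω ⟨j / s, h.1⟩).1 ⟨j % s, h.2⟩).2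
  have h2 : j / s % 2 < 2 := Nat.mod_lt _ (by norm_num)
  have h3 : j / s % 2 * K ≤ 1 * K := Nat.mul_le_mul_right K (by omega)
  omega

theorem stmt_PhiUB (hmean : Stmt_LawMean) : Stmt_PhiUB := by
  intro k hk T l r
  have : Nonempty (Fin k) := ⟨⟨0, hk⟩⟩
  constructor
  · unfold phi lcs
    rw [Finset.expect_comm]
    calc _ ≤ 𝔼 _b : Fin l → Fin k, (2 * √(T * l / k)) :=
          Finset.expect_le_expect fun b _ => lp_mean_le hmean hk (wn b) l (wn_lt b) T
      _ = _ := by rw [Fintype.expect_const]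
  · unfold fseg
    rw [Finset.expect_comm]
    rcases isEmpty_or_nonempty (Fin r → Seg (k / 2 / 2) (k / 2)) with h | h
    · simp only [Finset.univ_eq_empty, Finset.expect_empty]
      positivity
    calc _ ≤ 𝔼 _ω : Fin r → Seg (k / 2 / 2) (k / 2),
            (2 * √(T * ((r * (k / 2 / 2) : ℕ) : ℝ) / k)) :=
          Finset.expect_le_expect fun ω _ => lp_mean_le hmean hk (sw ω) _
            (sw_lt (by omega) ω) T
      _ = _ := by rw [Fintype.expect_const]

end Pool.Agent.LCS13
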