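import Pool.Agent.Work.MP_bec1e1_pr_h13.Interface
import Pool.Agent.Work.MP_bec1e1_pr_h13.LP
import Pool.Agent.Work.MP_bec1e1_pr_h13.ES
import Pool.Agent.Work.MP_bec1e1_pr_h13.SYS

/-!
# Old crossings are unlikely (block Q)
-/

open Finset BigOperators Filter
open scoped Classical

namespace Pool.Agent.LCS13

noncomputable section

namespace QB

theorem ind_exists_le {ι : Type*} (S : Finset ι) (C : ι → Prop) :
    ind (∃ p ∈ S, C p) ≤ ∑ p ∈ S, ind (C p) := by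
  by_cases h : ∃ p ∈ S, C p
  · obtain ⟨p, hp, hC⟩ := h
    rw [ind_true ⟨p, hp, hC⟩, ← ind_true hC]
    exact Finset.single_le_sum (f := fun p => ind (C p)) (fun p _ => ind_nonneg _) hp
  · rw [ind_false h]
    exact Finset.sum_nonneg fun p _ => ind_nonneg _

/-- The cases of an old crossing. -/
theorem old_event {k t N L : ℕ} {a b : ℕ → Option ℕ} {A : Finset ℕ} {θ : ℝ} (hL : L = ⌊θ * k⌋₊)
    (hh : ℕ → ℕ → ℕ) (hhN : ∀ f j, f + k / 8 < t → 2 * j ≤ N → j + 1 + hh f j ≤ N)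
    (h : ∃ j ∈ JJ (uu a b t) A 0 N, Old a b t (k / 8) A N j) :
    (∃ g ∈ ZZ (uu a b t) A 0 N, ∃ g' ∈ ZZ (uu a b t) A 0 N, (g : ℝ) + θ * k ≤ g') ∨
    (∃ g ∈ ZZ (uu a b t) A 0 N, N ≤ 2 * g) ∨
    ∃ p ∈ (range t ×ˢ range (N + 1)).filter (fun p => p.1 + k / 8 < t ∧ 2 * p.2 ≤ N),
      (lp (mt a b) p.1 (p.2 + 1) (t - p.1) (hh p.1 p.2) : ℤ) -
        cnt A (p.2 + 1) (p.2 + 1 + hh p.1 p.2) ≤
      lp (mt a b) (p.1 + 1) (p.2 + 1) (t - p.1 - 1) L := by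
  obtain ⟨j, hj, f, g, hf, hjg, hgN, hM⟩ := h
  obtain ⟨-, hjN, -, -, hjZ, hj1Z⟩ := JJ_props (uu_prof a b t) hj
  have hft : f < t := by omega
  set M : ℤ := (MM (uu a b t) A 0 N : ℤ) with hMdef
  have hX : ∀ x, XX (uu a b t) A 0 x = uu a b t x - cnt A 0 x := by
    intro x
    unfold XX
    rw [uu_zero]
    ring
  -- `g` is in `Z`
  have h1 : (lp (mt a b) 0 0 f j : ℤ) + lp (mt a b) (f + 1) (j + 1) (t - f - 1) (g - j - 1) ≤
      uu a b t g := by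
    have e1 := lp_superadd (mt a b) 0 0 (f + 1) (t - f - 1) (j + 1) (g - j - 1)
    rw [zero_add, zero_add, show f + 1 + (t - f - 1) = t by omega,
      show j + 1 + (g - j - 1) = g by omega] at e1
    have e2 : lp (mt a b) 0 0 f j ≤ lp (mt a b) 0 0 (f + 1) (j + 1) :=
      lp_mono (Nat.le_succ _) (Nat.le_succ _)
    unfold uu
    exact_mod_cast (Nat.add_le_add_right e2 _).trans e1
  have hgZ : g ∈ ZZ (uu a b t) A 0 N := by
    rw [mem_ZZ]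
    refine ⟨⟨Nat.zero_le _, hgN⟩, le_antisymm (XX_le_MM (Nat.zero_le _) hgN) ?_⟩
    rw [hX]
    linarith
  by_cases hfar : ((j + 1 : ℕ) : ℝ) + θ * k ≤ g
  · exact Or.inl ⟨j + 1, hj1Z, g, hgZ, hfar⟩
  right
  by_cases h2j : N ≤ 2 * j
  · exact Or.inl ⟨j, hjZ, h2j⟩
  right
  have hjN2 : 2 * j ≤ N := by omega
  refine ⟨(f, j), ?_, ?_⟩
  · simp only [Finset.mem_filter, Finset.mem_product, Finset.mem_range]
    exact ⟨⟨hft, by omega⟩, hf, hjN2⟩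
  by_contra hcon
  push Not at hcon
  simp only at hcon
  have hgL : g - j - 1 ≤ L := by
    rw [hL]
    apply Nat.le_floor
    push Not at hfar
    have e : ((g - j - 1 : ℕ) : ℝ) = g - (j + 1 : ℕ) := by
      rw [Nat.sub_sub, Nat.cast_sub hjg]
    rw [e]
    linarith
  have h3 : lp (mt a b) (f + 1) (j + 1) (t - f - 1) (g - j - 1) ≤
      lp (mt a b) (f + 1) (j + 1) (t - f - 1) L := lp_mono le_rfl hgL
  have h4 : cnt A 0 (j + 1) ≤ cnt A 0 g := cnt_mono le_rfl hjg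
  have h5 : cnt A 0 (j + 1 + hh f j) = cnt A 0 (j + 1) + cnt A (j + 1) (j + 1 + hh f j) :=
    cnt_add (Nat.zero_le _) (Nat.le_add_right _ _)
  have h6 : (lp (mt a b) 0 0 f j : ℤ) + lp (mt a b) f (j + 1) (t - f) (hh f j) ≤
      uu a b t (j + 1 + hh f j) := by
    have e1 := lp_superadd (mt a b) 0 0 f (t - f) (j + 1) (hh f j)
    rw [zero_add, zero_add, show f + (t - f) = t by omega] at e1
    have e2 : lp (mt a b) 0 0 f j ≤ lp (mt a b) 0 0 f (j + 1) := lp_mono le_rfl (Nat.le_succ _)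
    unfold uu
    exact_mod_cast (Nat.add_le_add_right e2 _).trans e1
  have h7 := XX_le_MM (u := uu a b t) (A := A) (g0 := 0) (g := j + 1 + hh f j) (N := N)
    (Nat.zero_le _) (hhN f j hf hjN2)
  rw [hX] at h7
  have h3' : (lp (mt a b) (f + 1) (j + 1) (t - f - 1) (g - j - 1) : ℤ) ≤
      lp (mt a b) (f + 1) (j + 1) (t - f - 1) L := by exact_mod_cast h3
  have h4' : (cnt A 0 (j + 1) : ℤ) ≤ cnt A 0 g := by exact_mod_cast h4
  have h5' : (cnt A 0 (j + 1 + hh f j) : ℤ) =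
      cnt A 0 (j + 1) + cnt A (j + 1) (j + 1 + hh f j) := by exact_mod_cast h5
  linarith

theorem expect_mono {Ω : Type*} [Fintype Ω] {F G : Ω → ℝ} (h : ∀ ω, F ω ≤ G ω) :
    𝔼 ω, F ω ≤ 𝔼 ω, G ω := Finset.expect_le_expect fun ω _ => h ω

/-- The final numerical estimate. -/
theorem num (c : ℝ) (hc : 0 ≤ c) : ∀ᶠ k : ℕ in atTop,
    (k : ℝ) ^ (-(1 / 5) : ℝ) + (1 / (k : ℝ) ^ 20 + (c * (k : ℝ) ^ 6) * (2 * (k : ℝ) ^ 6) *
      (1 / (k : ℝ) ^ 20)) ≤ (k : ℝ) ^ (-(1 / 6) : ℝ) := by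
  have h1 : Tendsto (fun k : ℕ => ((k : ℝ) ^ (-(1 / 30) : ℝ))) atTop (nhds 0) :=
    (tendsto_rpow_neg_atTop (by norm_num)).comp tendsto_natCast_atTop_atTop
  have h2 : Tendsto (fun k : ℕ => (1 + 2 * c) * ((k : ℝ) ^ (-1 : ℝ))) atTop (nhds 0) := by
    have h0 : Tendsto (fun k : ℕ => ((k : ℝ) ^ (-1 : ℝ))) atTop (nhds 0) :=
      (tendsto_rpow_neg_atTop (by norm_num)).comp tendsto_natCast_atTop_atTop
    have := h0.const_mul (1 + 2 * c)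
    rwa [mul_zero] at this
  have h3 : ∀ᶠ k : ℕ in atTop, (k : ℝ) ^ (-(1 / 30) : ℝ) < 1 / 2 :=
    h1.eventually_lt_const (by norm_num)
  have h4 : ∀ᶠ k : ℕ in atTop, (1 + 2 * c) * (k : ℝ) ^ (-1 : ℝ) < 1 / 2 :=
    h2.eventually_lt_const (by norm_num)
  filter_upwards [h3, h4, eventually_ge_atTop 1] with k h3 h4 hk
  have hk1 : (1 : ℝ) ≤ k := by exact_mod_cast hk
  have hk0 : (0 : ℝ) < k := by linarith
  have e1 : (k : ℝ) ^ (-(1 / 5) : ℝ) = (k : ℝ) ^ (-(1 / 6) : ℝ) * (k : ℝ) ^ (-(1 / 30) : ℝ) := by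
    rw [← Real.rpow_add hk0]
    norm_num
  have e2 : 1 / (k : ℝ) ^ 20 + (c * (k : ℝ) ^ 6) * (2 * (k : ℝ) ^ 6) * (1 / (k : ℝ) ^ 20) =
      1 / (k : ℝ) ^ 20 + 2 * c * (1 / (k : ℝ) ^ 8) := by
    field_simp
  have e3 : 1 / (k : ℝ) ^ 2 ≤ (k : ℝ) ^ (-(1 / 6) : ℝ) * (k : ℝ) ^ (-1 : ℝ) := by
    rw [← Real.rpow_add hk0, one_div, ← Real.rpow_natCast, ← Real.rpow_neg hk0.le]
    exact Real.rpow_le_rpow_of_exponent_le hk1 (by norm_num)
  have e4 : 1 / (k : ℝ) ^ 20 ≤ 1 / (k : ℝ) ^ 2 :=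
    one_div_le_one_div_of_le (by positivity) (pow_le_pow_right₀ hk1 (by norm_num))
  have e5 : 1 / (k : ℝ) ^ 8 ≤ 1 / (k : ℝ) ^ 2 :=
    one_div_le_one_div_of_le (by positivity) (pow_le_pow_right₀ hk1 (by norm_num))
  have e6 : 0 < (k : ℝ) ^ (-(1 / 6) : ℝ) := Real.rpow_pos_of_pos hk0 _
  rw [e2, e1]
  have e7 : 1 / (k : ℝ) ^ 20 + 2 * c * (1 / (k : ℝ) ^ 8) ≤
      (1 + 2 * c) * ((k : ℝ) ^ (-(1 / 6) : ℝ) * (k : ℝ) ^ (-1 : ℝ)) := by
    nlinarith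
  nlinarith

end QB

open QB in
/-- QEV. -/
theorem stmt_Q (hU1 : Stmt_U1) (hTail : Stmt_Tail) (hTyp : Stmt_Typ) : Stmt_Q := by
  intro c1 c2 h1 h2
  obtain ⟨θ, hθ, hTyp⟩ := hTyp c1 c2 h1 h2
  have hsq : ∀ᶠ k : ℕ in atTop, c2 ^ 2 < (k : ℝ) :=
    tendsto_natCast_atTop_atTop.eventually_gt_atTop (c2 ^ 2)
  filter_upwards [hU1 c1 c2 θ h1 h2 hθ, hTail c1 c2 h1 h2, hTyp, num (c2 ^ 2 / 200) (by positivity),
    eventually_gt_atTop 0, hsq] with k hU hT hTy hnum hk hsq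
  intro ρ hρ1 hρ2 t N hkN hNk hsz
  have hk0 : (0 : ℝ) < k := by exact_mod_cast hk
  have hsk : 0 < √(k : ℝ) := Real.sqrt_pos.2 hk0
  have hρ0 : 0 < ρ := by
    by_contra hcon
    push Not at hcon
    have : ρ * √(k : ℝ) ≤ 0 := mul_nonpos_of_nonpos_of_nonneg hcon hsk.le
    linarith
  have hρlt : ρ ≤ 1 := by
    by_contra hcon
    push Not at hcon
    have h3 : √(k : ℝ) ≤ ρ * √(k : ℝ) := by nlinarith
    have h4 : √(k : ℝ) ≤ c2 := h3.trans hρ2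
    have h5 : (k : ℝ) ≤ c2 ^ 2 := by
      rw [← Real.sq_sqrt hk0.le]
      exact pow_le_pow_left₀ hsk.le h4 2
    linarith
  have : Nonempty (Fin k) := ⟨⟨0, hk⟩⟩
  have hex : ∀ f j, ∃ h, f + k / 8 < t → 2 * j ≤ N → j + 1 + h ≤ N ∧
      𝔼 a : Fin t → Fin k, 𝔼 b : Fin N → Fin k, ES ρ (range N) (fun A => ind (
    (lp (mt (wn a) (wn b)) f (j + 1) (t - f) h : ℤ) - cnt A (j + 1) (j + 1 + h) ≤
      lp (mt (wn a) (wn b)) (f + 1) (j + 1) (t - f - 1) ⌊θ * k⌋₊)) ≤ 1 / (k : ℝ) ^ 20 := by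
    intro f j
    by_cases hc : f + k / 8 < t ∧ 2 * j ≤ N
    · obtain ⟨h, hh⟩ := hTy ρ hρ1 hρ2 t N hkN hNk hsz f j hc.1 hc.2
      exact ⟨h, fun _ _ => hh⟩
    · exact ⟨0, fun h3 h4 => absurd ⟨h3, h4⟩ hc⟩
  choose hh hhP using hex
  set S : Finset (ℕ × ℕ) := (range t ×ˢ range (N + 1)).filter
    (fun p => p.1 + k / 8 < t ∧ 2 * p.2 ≤ N) with hS
  set C : (Fin t → Fin k) → (Fin N → Fin k) → Finset ℕ → ℕ × ℕ → Prop := fun a b A p =>
    (lp (mt (wn a) (wn b)) p.1 (p.2 + 1) (t - p.1) (hh p.1 p.2) : ℤ) -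
        cnt A (p.2 + 1) (p.2 + 1 + hh p.1 p.2) ≤
      lp (mt (wn a) (wn b)) (p.1 + 1) (p.2 + 1) (t - p.1 - 1) ⌊θ * k⌋₊ with hC
  set E1 : (Fin t → Fin k) → (Fin N → Fin k) → Finset ℕ → Prop := fun a b A =>
    ∃ g ∈ ZZ (uu (wn a) (wn b) t) A 0 N, ∃ g' ∈ ZZ (uu (wn a) (wn b) t) A 0 N,
      (g : ℝ) + θ * k ≤ g' with hE1
  set E2 : (Fin t → Fin k) → (Fin N → Fin k) → Finset ℕ → Prop := fun a b A =>
    ∃ g ∈ ZZ (uu (wn a) (wn b) t) A 0 N, N ≤ 2 * g with hE2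
  have hpt : ∀ a b A, ind (∃ j ∈ JJ (uu (wn a) (wn b) t) A 0 N, Old (wn a) (wn b) t (k / 8) A N j) ≤
      ind (E1 a b A) + (ind (E2 a b A) + ∑ p ∈ S, ind (C a b A p)) := by
    intro a b A
    refine (ind_mono (Q := E1 a b A ∨ E2 a b A ∨ ∃ p ∈ S, C a b A p) fun h => ?_).trans ?_
    · exact old_event rfl hh (fun f j h3 h4 => (hhP f j h3 h4).1) h
    · refine (ind_or_le _ _).trans (add_le_add le_rfl ((ind_or_le _ _).trans
        (add_le_add le_rfl (ind_exists_le _ _))))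
  have hstep : 𝔼 a : Fin t → Fin k, 𝔼 b : Fin N → Fin k, ES ρ (range N) (fun A => ind (
      ∃ j ∈ JJ (uu (wn a) (wn b) t) A 0 N, Old (wn a) (wn b) t (k / 8) A N j)) ≤
      𝔼 a : Fin t → Fin k, 𝔼 b : Fin N → Fin k, (ES ρ (range N) (fun A => ind (E1 a b A)) +
        (ES ρ (range N) (fun A => ind (E2 a b A)) +
          ∑ p ∈ S, ES ρ (range N) (fun A => ind (C a b A p)))) := by
    refine expect_mono fun a => expect_mono fun b => ?_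
    rw [← ES_sum S (fun p A => ind (C a b A p)), ← ES_add, ← ES_add]
    exact ES_mono hρ0.le hρlt fun A _ => hpt a b A
  refine hstep.trans (le_trans ?_ hnum)
  simp only [Finset.expect_add_distrib]
  refine add_le_add ?_ (add_le_add ?_ ?_)
  · have h3 : ∀ (a : Fin t → Fin k) (b : Fin N → Fin k),
        ES ρ (range N) (fun A => ind (E1 a b A)) ≤ (k : ℝ) ^ (-(1 / 5) : ℝ) := fun a b =>
      hU ρ hρ1 hρ2 N hNk _ (uu_prof _ _ _)
    refine (expect_mono fun a => expect_mono fun b => h3 a b).trans ?_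
    simp
  · rw [Finset.expect_comm]
    have h3 : ∀ (b : Fin N → Fin k), 𝔼 a : Fin t → Fin k,
        ES ρ (range N) (fun A => ind (E2 a b A)) ≤ 1 / (k : ℝ) ^ 20 := fun b =>
      hT ρ hρ1 hρ2 t N hkN hNk hsz (wn b)
    refine (expect_mono fun b => h3 b).trans ?_
    simp
  · simp only [Finset.expect_sum_comm]
    have h3 : ∀ p ∈ S, 𝔼 a : Fin t → Fin k, 𝔼 b : Fin N → Fin k,
        ES ρ (range N) (fun A => ind (C a b A p)) ≤ 1 / (k : ℝ) ^ 20 := by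
      intro p hp
      rw [hS, Finset.mem_filter] at hp
      exact (hhP p.1 p.2 hp.2.1 hp.2.2).2
    refine (Finset.sum_le_sum h3).trans ?_
    rw [Finset.sum_const, nsmul_eq_mul]
    refine mul_le_mul_of_nonneg_right ?_ (by positivity)
    have h4 : (#S : ℝ) ≤ t * (N + 1) := by
      have : #S ≤ t * (N + 1) := by
        refine (Finset.card_filter_le _ _).trans ?_
        simp
      exact_mod_cast this
    have hN : (N : ℝ) ≤ (k : ℝ) ^ 6 := by exact_mod_cast hNk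
    have hN1 : (1 : ℝ) ≤ N := by
      have : 1 ≤ N := by omega
      exact_mod_cast this
    have h5 : ρ ^ 2 * k ≤ c2 ^ 2 := by
      have : (ρ * √(k : ℝ)) ^ 2 ≤ c2 ^ 2 := pow_le_pow_left₀ (by positivity) hρ2 2
      rwa [mul_pow, Real.sq_sqrt hk0.le] at this
    have h6 : (t : ℝ) ≤ c2 ^ 2 / 200 * (k : ℝ) ^ 6 := by
      have h7 : ρ ^ 2 * k * N ≤ c2 ^ 2 * (k : ℝ) ^ 6 :=
        mul_le_mul h5 hN (by positivity) (by positivity)
      linarith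
    refine h4.trans (mul_le_mul h6 (by linarith) (by positivity) (by positivity))

end

end Pool.Agent.LCS13
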