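import Pool.Agent.Work.MP_bec1e1_pr_h13.MAIN

/-!
# The variance of the longest common subsequence is linear for all large alphabets

There is an alphabet size `K₀` such that for every alphabet size `k + 2` with `k ≥ K₀` the variance
of the length of the longest common subsequence of two independent uniform random words of length
`n` is bounded above and below by positive constants times `n`, for all large `n`. The statement is
the frozen statement `S19609` with `∀ k` replaced by `∃ K₀, ∀ k ≥ K₀`.

Outline of the proof (all files are in `Pool/Agent/Work/MP_bec1e1_pr_h13`, see `BLUEPRINT.md` there):
the maximum of an arbitrary profile minus independent Bernoulli coins has a universal law of its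
number of critical positions; hence the growth of the LCS of a random word against any source of
words is governed by the expected number of coincidences of letters at critical positions. For words
made of segments with distinct letters there are fewer coincidences than for random words, so that
these words beat random words by a linear amount, and a Bessel inequality turns this into a linear
lower bound of the variance.
-/

namespace Pool.Agent.LCS13.ResLarge

theorem result :
    ∃ K₀ : ℕ, ∀ k : ℕ, K₀ ≤ k →
      Asymptotics.IsTheta Filter.atTop
        (fun n : ℕ =>
          ProbabilityTheory.variance
            (fun p : (Fin n → Fin (k + 2)) × (Fin n → Fin (k + 2)) =>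
              (((sSup {m : ℕ | ∃ l : List (Fin (k + 2)), l.length = m ∧
                  l.Sublist (List.ofFn p.1) ∧ l.Sublist (List.ofFn p.2)}) : ℕ) : ℝ))
            (PMF.uniformOfFintype
              ((Fin n → Fin (k + 2)) × (Fin n → Fin (k + 2)))).toMeasure)
        (fun n : ℕ => (n : ℝ)) :=
  Pool.Agent.LCS13.main_theorem

end Pool.Agent.LCS13.ResLarge
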