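import Pool.Agent.Work.MP_bec1e1_pr_h13.Interface
import Pool.Agent.Work.MP_bec1e1_pr_h13.LP
import Pool.Agent.Work.MP_bec1e1_pr_h13.ES
import Pool.Agent.Work.MP_bec1e1_pr_h13.SYS

/-!
# The process of the maximum (blocks STEP and EMSUM)
-/

open Finset BigOperators
open scoped Classical

namespace Pool.Agent.LCS13

theorem XX_uu_zero (a b : ℕ → Option ℕ) (t g : ℕ) (A : Finset ℕ) :
    XX (uu a b t) A 0 g = uu a b t g - cnt A 0 g := by
  unfold XX
  rw [uu_zero]
  ring

/-- The deterministic step. -/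
theorem step_det (a b : ℕ → Option ℕ) (t N x : ℕ) (A : Finset ℕ) (hx : a t = some x) :
    MM (uu a b (t + 1)) A 0 N = MM (uu a b t) A 0 N +
      (if some x ∈ (JJ (uu a b t) A 0 N).image b then 1 else 0) := by
  set M := MM (uu a b t) A 0 N with hM
  apply le_antisymm
  · rw [MM_le_iff (Nat.zero_le N)]
    intro g _ hg
    rw [XX_uu_zero]
    rcases uu_succ_cases a b t g with h | ⟨j, hj, hm, h⟩
    · rw [h]
      have := XX_le_MM (u := uu a b t) (A := A) (Nat.zero_le g) hg
      rw [XX_uu_zero] at this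
      push_cast
      have h2 : (0 : ℤ) ≤ (if some x ∈ (JJ (uu a b t) A 0 N).image b then (1 : ℤ) else 0) := by
        split_ifs <;> norm_num
      linarith
    · rw [h]
      obtain ⟨y, hy1, hy2⟩ := hm
      have hxy : y = x := by rw [hx] at hy1; exact (Option.some.inj hy1).symm
      subst hxy
      have hcnt : (cnt A 0 (j + 1) : ℤ) ≤ cnt A 0 g := by exact_mod_cast cnt_mono le_rfl hj
      have hj1 : uu a b t j - cnt A 0 (j + 1) ≤ M := by
        have h3 := XX_le_MM (u := uu a b t) (A := A) (Nat.zero_le j) (hj.le.trans hg)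
        rw [XX_uu_zero] at h3
        have h4 : (cnt A 0 j : ℤ) ≤ cnt A 0 (j + 1) := by
          exact_mod_cast cnt_mono le_rfl (Nat.le_succ j)
        linarith
      by_cases hJ : some y ∈ (JJ (uu a b t) A 0 N).image b
      · rw [if_pos hJ]
        push_cast
        linarith
      · rw [if_neg hJ]
        push_cast
        have hne : uu a b t j - cnt A 0 (j + 1) ≠ M := by
          intro heq
          apply hJ
          rw [Finset.mem_image]
          refine ⟨j, mem_JJ.2 ⟨⟨Nat.zero_le j, lt_of_lt_of_le hj hg⟩, ?_⟩, hy2⟩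
          rw [uu_zero]
          linarith
        have : uu a b t j - cnt A 0 (j + 1) ≤ M - 1 := by
          have := lt_of_le_of_ne hj1 hne
          omega
        linarith
  · by_cases hJ : some x ∈ (JJ (uu a b t) A 0 N).image b
    · rw [if_pos hJ]
      obtain ⟨j, hj, hbj⟩ := Finset.mem_image.1 hJ
      rw [mem_JJ] at hj
      obtain ⟨⟨_, hjN⟩, hj⟩ := hj
      have h1 : uu a b t j + 1 ≤ uu a b (t + 1) (j + 1) :=
        uu_succ_ge (Nat.lt_succ_self j) ⟨x, hx, hbj⟩
      have h2 := XX_le_MM (u := uu a b (t + 1)) (A := A) (Nat.zero_le (j + 1)) hjN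
      rw [XX_uu_zero] at h2
      rw [uu_zero] at hj
      have h3 : ((M + 1 : ℕ) : ℤ) ≤ MM (uu a b (t + 1)) A 0 N := by
        push_cast
        rw [← hM] at hj
        linarith
      exact_mod_cast h3
    · rw [if_neg hJ, add_zero, hM, MM_le_iff (Nat.zero_le N)]
      intro g _ hg
      have h2 := XX_le_MM (u := uu a b (t + 1)) (A := A) (Nat.zero_le g) hg
      rw [XX_uu_zero] at h2 ⊢
      have := uu_mono_t a b t g
      linarith

theorem wn_snoc_lt {t k : ℕ} (a : Fin t → Fin k) (x : Fin k) {i : ℕ} (hi : i < t) :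
    wn (Fin.snoc a x : Fin (t + 1) → Fin k) i = wn a i := by
  unfold wn
  rw [dif_pos (by omega : i < t + 1), dif_pos hi]
  have : (⟨i, by omega⟩ : Fin (t + 1)) = Fin.castSucc ⟨i, hi⟩ := rfl
  rw [this, Fin.snoc_castSucc (α := fun _ => Fin k)]

theorem wn_snoc_last {t k : ℕ} (a : Fin t → Fin k) (x : Fin k) :
    wn (Fin.snoc a x : Fin (t + 1) → Fin k) t = some (x : ℕ) := by
  unfold wn
  rw [dif_pos (Nat.lt_succ_self t)]
  have : (⟨t, Nat.lt_succ_self t⟩ : Fin (t + 1)) = Fin.last t := rfl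
  rw [this, Fin.snoc_last (α := fun _ => Fin k)]

theorem expect_snoc {t k : ℕ} (F : (Fin (t + 1) → Fin k) → ℝ) :
    𝔼 a : Fin (t + 1) → Fin k, F a = 𝔼 a : Fin t → Fin k, 𝔼 x : Fin k, F (Fin.snoc a x) := by
  rw [← Finset.expect_product' (s := (univ : Finset (Fin t → Fin k))) (t := (univ : Finset (Fin k)))
    (f := fun a x => F (Fin.snoc a x))]
  rw [Finset.univ_product_univ]
  symm
  refine Fintype.expect_equiv
    ((Equiv.prodComm _ _).trans (Fin.snocEquiv (fun _ : Fin (t + 1) => Fin k))) _ _ ?_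
  rintro ⟨a, x⟩
  rfl

theorem expect_ind_image {k : ℕ} (S : Finset (Option ℕ))
    (hS : ∀ y ∈ S, ∃ x < k, y = some x) :
    𝔼 x : Fin k, (if some (x : ℕ) ∈ S then (1 : ℝ) else 0) = (#S : ℝ) / k := by
  rw [Fintype.expect_eq_sum_div_card, Fintype.card_fin]
  congr 1
  rw [Finset.sum_ite, Finset.sum_const_zero, add_zero, Finset.sum_const, nsmul_eq_mul, mul_one]
  congr 1
  refine Finset.card_bij (fun x _ => some (x : ℕ)) ?_ ?_ ?_
  · intro x hx
    exact (Finset.mem_filter.1 hx).2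
  · intro x _ y _ h
    exact Fin.ext (Option.some.inj h)
  · intro y hy
    obtain ⟨x, hx, rfl⟩ := hS y hy
    exact ⟨⟨x, hx⟩, Finset.mem_filter.2 ⟨Finset.mem_univ _, hy⟩, rfl⟩

theorem stmt_Step : Stmt_Step := by
  intro k hk b N hb ρ t
  unfold EM
  rw [expect_snoc]
  rw [Finset.expect_div, ← Finset.expect_add_distrib]
  refine Finset.expect_congr rfl fun a _ => ?_
  have h1 : ∀ x : Fin k, ES ρ (range N) (fun A =>
      (MM (uu (wn (Fin.snoc a x : Fin (t + 1) → Fin k)) b (t + 1)) A 0 N : ℝ)) =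
      ES ρ (range N) (fun A => (MM (uu (wn a) b t) A 0 N : ℝ) +
        (if some (x : ℕ) ∈ (JJ (uu (wn a) b t) A 0 N).image b then (1 : ℝ) else 0)) := by
    intro x
    refine ES_congr fun A _ => ?_
    rw [step_det _ b t N x A (wn_snoc_last a x)]
    have huu : ∀ g, uu (wn (Fin.snoc a x : Fin (t + 1) → Fin k)) b t g = uu (wn a) b t g :=
      fun g => uu_congr (fun i hi => wn_snoc_lt a x hi) fun _ _ => rfl
    have huu' : uu (wn (Fin.snoc a x : Fin (t + 1) → Fin k)) b t = uu (wn a) b t := funext huu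
    rw [huu']
    push_cast
    rfl
  rw [Finset.expect_congr rfl fun x _ => h1 x, ← ES_expect, div_eq_mul_inv, ← ES_mul_right,
    ← ES_add]
  have : Nonempty (Fin k) := ⟨⟨0, hk⟩⟩
  refine ES_congr fun A _ => ?_
  rw [Finset.expect_add_distrib, Fintype.expect_const, expect_ind_image, div_eq_mul_inv]
  intro y hy
  obtain ⟨j, hj, rfl⟩ := Finset.mem_image.1 hy
  exact hb j (mem_JJ.1 hj).1.2

theorem MM_zero_row (a b : ℕ → Option ℕ) (A : Finset ℕ) (N : ℕ) : MM (uu a b 0) A 0 N = 0 := by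
  refine MM_eq_of le_rfl (Nat.zero_le N) 0 (by rw [XX_self]; rfl) fun x _ _ => ?_
  rw [XX_uu_zero, uu_zero_row]
  push_cast
  have : (0 : ℤ) ≤ cnt A 0 x := by positivity
  linarith

theorem stmt_EMSum (hmean : Stmt_LawMean) : Stmt_EMSum := by
  intro k hk b N hb ρ h0 h1 T
  have : Nonempty (Fin k) := ⟨⟨0, hk⟩⟩
  have hk' : (k : ℝ) ≠ 0 := by positivity
  induction T with
  | zero =>
    unfold EM
    simp only [MM_zero_row, Finset.range_zero, Finset.sum_empty, zero_div, Nat.cast_zero]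
    rw [Finset.expect_congr rfl fun a _ => ES_const ρ (range N) 0]
    simp
  | succ t ih =>
    rw [stmt_Step k hk b N hb ρ t, ih, Finset.sum_range_succ, add_div]
    congr 2
    unfold del
    rw [← Fintype.expect_const ((1 - ρ) / ρ) (ι := Fin t → Fin k)]
    rw [mul_sub, mul_one, Fintype.expect_const, Finset.mul_expect]
    have h2 : (1 - ρ) / ρ = 𝔼 _a : Fin t → Fin k, ((1 - ρ) / ρ) := by
      rw [Fintype.expect_const]
    rw [h2, ← Finset.expect_sub_distrib, ← Finset.expect_sub_distrib]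
    refine Finset.expect_congr rfl fun a _ => ?_
    rw [← h2, ES_sub]
    have h3 := hmean ρ h0 h1 (uu (wn a) b t) (uu_prof _ _ _) 0 N (Nat.zero_le N)
    rw [← Finset.range_eq_Ico] at h3
    rw [h3]
    ring

end Pool.Agent.LCS13
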