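import Pool.Agent.Work.MP_bec1e1_pr_h13.Interface
import Pool.Agent.Work.MP_bec1e1_pr_h13.ES

/-!
# Block UP: switching inequality for up-sets
-/

open Finset BigOperators
open scoped Classical

namespace Pool.Agent.LCS13

namespace UpAux

/-- the members of the up-set with `n` elements -/
noncomputable def lay (I : Finset ℕ) (U : Finset ℕ → Prop) (n : ℕ) : Finset (Finset ℕ) :=
  {A ∈ I.powerset | U A ∧ #A = n}

theorem es_lay (ρ : ℝ) (I : Finset ℕ) (U : Finset ℕ → Prop) (n : ℕ) :
    ES ρ I (fun A => ind (U A ∧ #A = n)) = #(lay I U n) * (ρ ^ n * (1 - ρ) ^ (#I - n)) := by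
  have hc : (#(lay I U n) : ℝ) = ∑ A ∈ I.powerset, if U A ∧ #A = n then (1 : ℝ) else 0 := by
    rw [Finset.sum_boole, lay]
  rw [hc, Finset.sum_mul, ES]
  refine Finset.sum_congr rfl fun A _ => ?_
  by_cases h : U A ∧ #A = n
  · rw [if_pos h, ind_true h, h.2]; ring
  · rw [if_neg h, ind_false h, mul_zero, zero_mul]

/-- double counting -/
theorem card_lay (I : Finset ℕ) (U : Finset ℕ → Prop)
    (hU : ∀ A B, A ⊆ B → B ⊆ I → U A → U B) (n : ℕ) :
    (#I - n) * #(lay I U n) ≤ (n + 1) * #(lay I U (n + 1)) := by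
  have h := Finset.card_mul_le_card_mul (s := lay I U n) (t := lay I U (n + 1))
    (fun A B => A ⊆ B) (m := #I - n) (n := n + 1) ?_ ?_
  · rw [mul_comm, mul_comm (n + 1)]; exact h
  · intro A hA
    unfold lay at hA
    rw [Finset.mem_filter, Finset.mem_powerset] at hA
    obtain ⟨hAI, hUA, hAn⟩ := hA
    have h1 : #(I \ A) = #I - n := by rw [Finset.card_sdiff_of_subset hAI, hAn]
    rw [← h1]
    apply Finset.card_le_card_of_injOn (fun x => insert x A)
    · intro x hx
      rw [Finset.mem_coe, Finset.mem_sdiff] at hx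
      rw [Finset.mem_coe, Finset.mem_bipartiteAbove]
      unfold lay
      rw [Finset.mem_filter, Finset.mem_powerset]
      have h2 : insert x A ⊆ I := Finset.insert_subset hx.1 hAI
      exact ⟨⟨h2, hU _ _ (Finset.subset_insert x A) h2 hUA,
        by rw [Finset.card_insert_of_notMem hx.2, hAn]⟩, Finset.subset_insert x A⟩
    · intro x hx y hy hxy
      rw [Finset.mem_coe, Finset.mem_sdiff] at hx hy
      have h2 : x ∈ insert y A := by
        have : insert x A = insert y A := hxy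
        rw [← this]; exact Finset.mem_insert_self x A
      rcases Finset.mem_insert.1 h2 with h3 | h3
      · exact h3
      · exact absurd h3 hx.2
  · intro B hB
    unfold lay at hB
    rw [Finset.mem_filter, Finset.mem_powerset] at hB
    obtain ⟨hBI, hUB, hBn⟩ := hB
    rw [← hBn]
    apply Finset.card_le_card_of_surjOn (fun x => B.erase x)
    intro A hA
    rw [Finset.mem_coe, Finset.mem_bipartiteBelow] at hA
    unfold lay at hA
    rw [Finset.mem_filter, Finset.mem_powerset] at hA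
    obtain ⟨⟨_, _, hAn⟩, hAB⟩ := hA
    have h1 : #(B \ A) = 1 := by rw [Finset.card_sdiff_of_subset hAB, hBn, hAn]; omega
    obtain ⟨x, hx⟩ := Finset.card_eq_one.1 h1
    have hxB : x ∈ B \ A := by rw [hx]; exact Finset.mem_singleton_self x
    rw [Finset.mem_sdiff] at hxB
    refine ⟨x, hxB.1, ?_⟩
    ext z
    rw [Finset.mem_erase]
    constructor
    · rintro ⟨hz1, hz2⟩
      by_contra hz3
      have : z ∈ B \ A := Finset.mem_sdiff.2 ⟨hz2, hz3⟩
      rw [hx, Finset.mem_singleton] at this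
      exact hz1 this
    · intro hz
      exact ⟨fun h => hxB.2 (h ▸ hz), hAB hz⟩

theorem quarter (x : ℕ) (hx : 2 ≤ x) : (1 / 4 : ℝ) ≤ (1 - 1 / (x : ℝ)) ^ x := by
  have hx0 : (2 : ℝ) ≤ x := by exact_mod_cast hx
  have h1 : (0 : ℝ) ≤ 1 - 1 / (x : ℝ) := by
    rw [sub_nonneg, div_le_one (by linarith)]; linarith
  have h2 : (1 : ℝ) / 2 ≤ (1 - 1 / (x : ℝ)) ^ ((x : ℝ) / 2) := by
    have h3 := one_add_mul_self_le_rpow_one_add (s := -(1 / (x : ℝ))) (by linarith)
      (p := (x : ℝ) / 2) (by linarith)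
    have h4 : (x : ℝ) / 2 * -(1 / (x : ℝ)) = -(1 / 2) := by
      field_simp
    rw [h4] at h3
    have h5 : (1 : ℝ) + -(1 / (x : ℝ)) = 1 - 1 / (x : ℝ) := by ring
    rw [h5] at h3
    linarith
  have h3 : (1 - 1 / (x : ℝ)) ^ x =
      (1 - 1 / (x : ℝ)) ^ ((x : ℝ) / 2) * (1 - 1 / (x : ℝ)) ^ ((x : ℝ) / 2) := by
    rw [← Real.rpow_natCast]
    rcases eq_or_lt_of_le h1 with h | h
    · exfalso
      have h6 : (1 : ℝ) / x ≤ 1 / 2 := by
        rw [div_le_div_iff₀ (by linarith) (by norm_num)]; linarith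
      linarith
    · rw [← Real.rpow_add h]
      congr 1
      ring
  rw [h3]
  nlinarith

end UpAux

open UpAux in
theorem stmt_Up : Stmt_Up := by
  intro ρ h0 h1 I U hU n y x0 c hn hc hR
  obtain ⟨hx0, hR⟩ := hR
  have hx0' : (2 : ℝ) ≤ x0 := by exact_mod_cast hx0
  have hq : 0 < 1 - ρ := by linarith
  set r : ℝ := 1 - 1 / (x0 : ℝ) with hr
  have hr0 : 0 < r := by
    have h6 : (1 : ℝ) / x0 ≤ 1 / 2 := by
      rw [div_le_div_iff₀ (by linarith) (by norm_num)]; linarith
    rw [hr]; linarith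
  have hr1 : r ≤ 1 := by
    rw [hr]
    have : 0 ≤ 1 / (x0 : ℝ) := by positivity
    linarith
  set P : ℕ → ℝ := fun m => ES ρ I (fun A => ind (U A ∧ #A = m)) with hP
  have hP0 : ∀ m, 0 ≤ P m := fun m => ES_nonneg h0.le h1.le fun A _ => ind_nonneg _
  have hstep : ∀ m ≤ y + x0, r * P m ≤ P (m + 1) := by
    intro m hm
    have h2 := hR m hm
    have hmI : m < #I := by
      by_contra hcon
      push Not at hcon
      have h3 : ((#I : ℕ) : ℝ) - m ≤ 0 := by
        have : ((#I : ℕ) : ℝ) ≤ m := by exact_mod_cast hcon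
        linarith
      have h4 : 0 < r * (((m : ℝ) + 1) * (1 - ρ)) := by positivity
      have h5 : (((#I : ℕ) : ℝ) - m) * ρ ≤ 0 := mul_nonpos_of_nonpos_of_nonneg h3 h0.le
      linarith
    rw [hP]
    simp only
    rw [es_lay, es_lay]
    have h3 := card_lay I U hU m
    have h3' : (((#I : ℕ) : ℝ) - m) * (#(lay I U m) : ℝ) ≤ ((m : ℝ) + 1) * (#(lay I U (m + 1)) : ℝ) := by
      have h4 : (((#I - m) * #(lay I U m) : ℕ) : ℝ) ≤ (((m + 1) * #(lay I U (m + 1)) : ℕ) : ℝ) := by
        exact_mod_cast h3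
      push_cast [Nat.cast_sub hmI.le] at h4
      exact h4
    have h5 : #I - m = (#I - (m + 1)) + 1 := by omega
    rw [h5, pow_succ (1 - ρ), pow_succ ρ]
    set a : ℝ := (#(lay I U m) : ℝ) with ha
    set b : ℝ := (#(lay I U (m + 1)) : ℝ) with hb
    have ha0 : 0 ≤ a := Nat.cast_nonneg _
    have hm1 : (0 : ℝ) < (m : ℝ) + 1 := by positivity
    have h6 : r * (1 - ρ) * a ≤ ρ * b := by
      have h7 : r * (((m : ℝ) + 1) * (1 - ρ)) * a ≤ (((#I : ℕ) : ℝ) - m) * ρ * a :=
        mul_le_mul_of_nonneg_right h2 ha0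
      have h8 : (((#I : ℕ) : ℝ) - m) * ρ * a ≤ ρ * (((m : ℝ) + 1) * b) := by
        have := mul_le_mul_of_nonneg_left h3' h0.le
        linarith
      have h9 : ((m : ℝ) + 1) * (r * (1 - ρ) * a) ≤ ((m : ℝ) + 1) * (ρ * b) := by linarith
      exact le_of_mul_le_mul_left h9 hm1
    have h7 : 0 ≤ ρ ^ m * (1 - ρ) ^ (#I - (m + 1)) := by positivity
    have h8 := mul_le_mul_of_nonneg_right h6 h7
    calc r * (a * (ρ ^ m * ((1 - ρ) ^ (#I - (m + 1)) * (1 - ρ)))) =
          r * (1 - ρ) * a * (ρ ^ m * (1 - ρ) ^ (#I - (m + 1))) := by ring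
      _ ≤ ρ * b * (ρ ^ m * (1 - ρ) ^ (#I - (m + 1))) := h8
      _ = _ := by ring
  have hpow : ∀ x ≤ x0, r ^ x * P n ≤ P (n + x) := by
    intro x
    induction x with
    | zero => intro _; simp
    | succ x ih =>
      intro hx
      have h2 := ih (by omega)
      have h3 := hstep (n + x) (by omega)
      calc r ^ (x + 1) * P n = r * (r ^ x * P n) := by ring
        _ ≤ r * P (n + x) := mul_le_mul_of_nonneg_left h2 hr0.le
        _ ≤ P (n + x + 1) := h3
  have hq4 : ∀ x ≤ x0, (1 / 4 : ℝ) * P n ≤ P (n + x) := by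
    intro x hx
    refine le_trans ?_ (hpow x hx)
    apply mul_le_mul_of_nonneg_right _ (hP0 n)
    calc (1 / 4 : ℝ) ≤ r ^ x0 := quarter x0 hx0
      _ ≤ r ^ x := pow_le_pow_of_le_one hr0.le hr1 hx
  have hsum : ∑ x ∈ range x0, P (n + (c + x)) ≤ ES ρ I (fun A => ind (U A ∧ n + c ≤ #A)) := by
    rw [hP]
    simp only
    rw [← ES_sum]
    apply ES_mono h0.le h1.le
    intro A _
    by_cases hA : U A ∧ n + c ≤ #A
    · rw [ind_true hA]
      by_cases hlt : #A < n + c + x0
      · rw [Finset.sum_eq_single (#A - n - c)]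
        · exact ind_le_one _
        · intro x _ hx
          apply ind_false
          rintro ⟨_, h⟩
          omega
        · intro h
          rw [Finset.mem_range] at h
          omega
      · rw [Finset.sum_eq_zero]
        · norm_num
        · intro x hx
          rw [Finset.mem_range] at hx
          apply ind_false
          rintro ⟨_, h⟩
          omega
    · rw [ind_false hA, Finset.sum_eq_zero]
      intro x _
      apply ind_false
      rintro ⟨h2, h3⟩
      exact hA ⟨h2, by omega⟩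
  have hlow : (x0 : ℝ) * ((1 / 4 : ℝ) * P n) ≤ ∑ x ∈ range x0, P (n + (c + x)) := by
    have h2 : ∑ x ∈ range x0, ((1 / 4 : ℝ) * P n) ≤ ∑ x ∈ range x0, P (n + (c + x)) := by
      apply Finset.sum_le_sum
      intro x hx
      rw [Finset.mem_range] at hx
      exact hq4 (c + x) (by omega)
    rwa [Finset.sum_const, Finset.card_range, nsmul_eq_mul] at h2
  have h3 := hlow.trans hsum
  change (x0 : ℝ) * P n ≤ _
  linarith

end Pool.Agent.LCS13
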